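import Mathlib
import Pool.Agent.N753.SF.SumZ
import Pool.Agent.N753.SF.CountW
import Pool.Agent.Y679.Md.Gm

/-!
# The statements of project RW (radical of the values of polynomials; Szpiro for K3 surfaces)
-/

set_option autoImplicit false

namespace Pool.Agent.N751.RW

open NumberField IsDedekindDomain Finset Pool.Agent.H691R3 Pool.Agent.TH876.Loc
open Pool.Agent.N753.LS Pool.Agent.N753.SF Polynomial
open Pool.Agent.H39R3 (GMin condW)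

open Classical in
/-- RW/1: Mertens' theorem for the primes with `ℓ ∣ N(v) - 1` -/
def StMert : Prop := ∀ (K : Type) [Field K] [NumberField K] (l : ℕ), l.Prime → ∀ η : ℝ, 0 < η →
  ∃ C : ℝ, 0 ≤ C ∧ ∀ z : ℝ, 1 ≤ z → (1 - η) * Real.log z - C ≤ ((l : ℝ) - 1) *
    ∑ v ∈ (PP K z).filter (fun v => l ∣ Ideal.absNorm v.asIdeal - 1), Real.log (Nv v) / Nv v

open Classical in
/-- RW/2: the larger sieve with `N(v) / ℓ` classes modulo the primes with `ℓ ∣ N(v) - 1` -/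
def StLs : Prop := ∀ (K : Type) [Field K] [NumberField K] (l : ℕ), l.Prime → ∀ K' : ℝ, 0 ≤ K' →
  ∀ (Bad : Finset (Pr K)) (δ : ℝ), 0 < δ → ∃ C : ℝ, 0 < C ∧ ∀ H : ℝ, 0 ≤ H → ∀ S : Finset K,
      ∀ (G : Finset (Pr K)) (g : ℝ), ∑ v ∈ G, Real.log (Nv v) ≤ g →
        (∀ x ∈ S, ∀ y ∈ S, x ≠ y → ∀ Q : Finset (Pr K), Disjoint Q G →
          (∀ v ∈ Q, cls v x = cls v y) → g + ∑ v ∈ Q, Real.log (Nv v) ≤ 2 * H + lossK K) →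
        (∀ v, v ∉ G → v ∉ Bad → l ∣ Ideal.absNorm v.asIdeal - 1 →
          ((S.image (cls v)).card : ℝ) ≤ Nv v / l + K' * Real.sqrt (Nv v)) →
        (S.card : ℝ) ≤ 1 + C * Real.exp (δ * H + (2 * H - g) / 2)

open Classical in
/-- RW/3: the number of classes -/
def StCell : Prop := ∀ (K : Type) [Field K] [NumberField K] (l : ℕ), l.Prime → ∀ (k : ℕ)
  (f : (𝓞 K)[X]), 2 ≤ f.natDegree → ∃ M : ℝ, 0 ≤ M ∧
    ∀ v : Pr K, GoodS f v → l ∣ Ideal.absNorm v.asIdeal - 1 → ∀ (z : K) (S : Finset K),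
      (∀ x ∈ S, x ≠ z) →
      (∀ x ∈ S, ∀ y ∈ S, ∃ w : K, aeval x f * (x - z) ^ k = aeval y f * (y - z) ^ k * w ^ l) →
        ((S.image (cls v)).card : ℝ) ≤ Nv v / l + M * Real.sqrt (Nv v)

open Classical in
/-- RW/4: points with given divisors and given distance to a point -/
def StKey : Prop := ∀ (K : Type) [Field K] [NumberField K] (l : ℕ), l.Prime →
  ∀ (f : (𝓞 K)[X]), 2 ≤ f.natDegree →
    ∀ (Bad : Finset (Pr K)), (∀ v ∉ Bad, Good f v ∧ GoodS f v) → ∀ δ : ℝ, 0 < δ →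
    ∃ C : ℝ, 0 < C ∧ ∀ H : ℝ, 0 ≤ H → ∀ (z : K) (n : Pr K →₀ ℕ) (r : Pr K → ℕ),
      ∀ S : Finset K, (∀ x ∈ S, hr (aff x) ≤ H ∧ aeval x f ≠ 0 ∧ x ≠ z ∧
        (∀ v ∈ n.support, v ∉ Bad) ∧ (∀ v ∉ Bad, ml v x z = n v) ∧
          ∀ v ∉ Bad, nu f v x % l = r v) →
            (S.card : ℝ) ≤ C * (1 + Real.exp ((1 + δ) * H - nrm n / 2))

open Classical in
/-- RW/5: points with few primes at which the multiplicity is not divisible by `ℓ` -/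
def StSum : Prop := ∀ (K : Type) [Field K] [NumberField K] (l : ℕ), l.Prime →
  ∀ (f : (𝓞 K)[X]), 2 ≤ f.natDegree → (∀ z : K, aeval z f ≠ 0) →
    ∀ (Bad : Finset (Pr K)), (∀ v ∉ Bad, Good f v ∧ GoodS f v) → ∀ δ : ℝ, 0 < δ → δ ≤ 1 →
    ∃ C : ℝ, 0 < C ∧ ∀ H : ℝ, 0 ≤ H → ∀ τ : ℝ, 0 ≤ τ → τ ≤ 2 * H → ∀ S : Finset K,
      (∀ x ∈ S, hr (aff x) ≤ H ∧
        ∑ v ∈ (dv f x \ Bad).filter (fun v => ¬ l ∣ nu f v x), Real.log (Nv v) ≤ τ) →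
          (S.card : ℝ) ≤ C * (Real.exp ((1 + δ) * H + τ / 2) +
            Real.exp ((3 / 2 + δ) * H + τ / 4))

/-- the gain at the prime `p` -/
noncomputable def gain (κ : ℝ) (A B : ℤ) (p : ℕ) : ℝ :=
  if ¬ ((p : ℤ) ∣ A ∧ (p : ℤ) ∣ B) then κ
  else if 6 ∣ min (3 * padicValInt p A) (2 * padicValInt p B) then 6 else 2 * κ - 6

/-- RW/8: the local inequalities for an elliptic curve with `c₄ = u² A`, `c₆ = u³ B`, summed -/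
def StEll : Prop := ∃ C0 : ℝ, 0 ≤ C0 ∧ ∀ (W : WeierstrassCurve ℤ) (A B : ℤ) (u : ℚ) (κ : ℝ),
  6 ≤ κ → GMin W → A ≠ 0 → B ≠ 0 → A ^ 3 ≠ B ^ 2 → u ≠ 0 →
  (W.c₄ : ℚ) = u ^ 2 * A → (W.c₆ : ℚ) = u ^ 3 * B →
    Real.log (max (|(W.c₄ : ℝ)| ^ 3) ((W.c₆ : ℝ) ^ 2)) +
      ∑ p ∈ (A ^ 3 - B ^ 2).natAbs.primeFactors.filter (fun p => 5 ≤ p),
        gain κ A B p * Real.log p ≤
      κ * Real.log (condW W) + Real.log (max (|(A : ℝ)| ^ 3) ((B : ℝ) ^ 2)) + C0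

/-- RW/8b: the curves with `j = 0` or `j = 1728` -/
def StCM : Prop := ∃ C0 : ℝ, 0 ≤ C0 ∧ ∀ (W : WeierstrassCurve ℤ), GMin W →
  (W.c₄ = 0 ∨ W.c₆ = 0) →
    Real.log (max (|(W.c₄ : ℝ)| ^ 3) ((W.c₆ : ℝ) ^ 2)) ≤ 5 * Real.log (condW W) + C0

/-- RW/9: Davenport's inequality -/
def StDav : Prop := ∀ (a b g : ℚ[X]), (∀ x y : ℚ, C x * a ^ 3 = C y * b ^ 2 → x = 0 ∧ y = 0) →
  (∀ π : ℚ[X], Irreducible π → ¬ (π ^ 2 ∣ a ∧ π ^ 3 ∣ b)) → Squarefree g →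
  g ∣ a ^ 3 - b ^ 2 → (∃ k : ℕ, a ^ 3 - b ^ 2 ∣ g ^ k) →
    max (3 * a.natDegree) (2 * b.natDegree) + 6 ≤ 6 * g.natDegree

end Pool.Agent.N751.RW
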