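import Mathlib
import Pool.Agent.N751.RW.Stm

/-!
# The points at which the value of a polynomial has a radical of size less than the fourth power of
the height
-/

set_option autoImplicit false

namespace Pool.Agent.N751.RW

open NumberField IsDedekindDomain Finset Pool.Agent.H691R3 Pool.Agent.TH876.Loc
open Pool.Agent.N753.LS Pool.Agent.N753.SF Polynomial

variable {K : Type} [Field K] [NumberField K]

theorem two_le_deg {f : (𝓞 K)[X]} (hf : 1 ≤ f.natDegree) (hroot : ∀ z : K, aeval z f ≠ 0) :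
    2 ≤ f.natDegree := by
  by_contra hcon
  have h1 : f.natDegree = 1 := by omega
  have h2 : (f.map (algebraMap (𝓞 K) K)).natDegree = 1 := by
    rw [natDegree_map_eq_of_injective (FaithfulSMul.algebraMap_injective _ _), h1]
  have h3 : (f.map (algebraMap (𝓞 K) K)).degree = 1 :=
    (degree_eq_iff_natDegree_eq_of_pos one_pos).2 h2
  obtain ⟨z, hz⟩ := exists_root_of_degree_eq_one h3
  refine hroot z ?_
  rw [IsRoot.def, eval_map_algebraMap] at hz
  exact hz

open Classical in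
/-- **the radical is at least the fourth power of the height, up to few points** -/
theorem count_four (hSum : StSum) {f : (𝓞 K)[X]} (hf : Nice f) (hroot : ∀ z : K, aeval z f ≠ 0)
    {κ : ℝ} (hκ0 : 0 < κ) (hκ1 : κ ≤ 1) : ∃ C : ℝ, 0 < C ∧
      ∀ H : ℝ, 0 ≤ H → ∀ S : Finset K, (∀ x ∈ S, hr (aff x) ≤ H ∧
        ∑ v ∈ dv f x, Real.log (Nv v) < min (f.natDegree : ℝ) 4 * hr (aff x) - κ * H) →
          (S.card : ℝ) ≤ C * Real.exp ((2 - κ / 16) * H) := by
  have hf2 : 2 ≤ f.natDegree := two_le_deg hf.1 hroot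
  obtain ⟨Bad, hBad⟩ := exists_badS f hf.2 hf.1
  obtain ⟨k, hk⟩ : ∃ k : ℝ, k = f.natDegree := ⟨_, rfl⟩
  have hkR : (2 : ℝ) ≤ k := by rw [hk]; exact_mod_cast hf2
  obtain ⟨a0, ha0⟩ : ∃ a0 : ℝ, a0 = κ / 4 := ⟨_, rfl⟩
  have ha00 : 0 < a0 := by rw [ha0]; positivity
  have hlc : ∀ v ∉ Bad, f.leadingCoeff ∉ v.asIdeal := fun v hv => (hBad v hv).2.2
  obtain ⟨F, hF⟩ : ∃ F : Finset (Pl K), F = Finset.disjSum Finset.univ Bad := ⟨_, rfl⟩
  obtain ⟨C1, hC1, h1⟩ := count_places F f hf.1 hf.2 (δ := κ / 8) (by positivity)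
    (κ := κ / 2) (by positivity) (by linarith)
  obtain ⟨C2, hC2, h2⟩ := count_pow f hf.1 Bad hBad (δ := a0 / 4) (by positivity) (by linarith)
  obtain ⟨C4, hC4, h4⟩ := count_all K (δ := 1) one_pos
  obtain ⟨c5, hc5, hnu⟩ := sum_nu_le f (by
    rintro rfl
    simp at hf2) Bad hlc
  -- the primes `l`
  obtain ⟨L, hL⟩ : ∃ L : Finset ℕ, L = (Finset.range (f.natDegree + 1)).filter Nat.Prime :=
    ⟨_, rfl⟩
  have h3 : ∀ l ∈ L, ∃ C : ℝ, 0 < C ∧ ∀ H : ℝ, 0 ≤ H → ∀ τ : ℝ, 0 ≤ τ → τ ≤ 2 * H →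
      ∀ S : Finset K, (∀ x ∈ S, hr (aff x) ≤ H ∧
        ∑ v ∈ (dv f x \ Bad).filter (fun v => ¬ l ∣ nu f v x), Real.log (Nv v) ≤ τ) →
          (S.card : ℝ) ≤ C * (Real.exp ((1 + κ / 16) * H + τ / 2) +
            Real.exp ((3 / 2 + κ / 16) * H + τ / 4)) := by
    intro l hl
    rw [hL, Finset.mem_filter] at hl
    exact hSum K l hl.2 f hf2 hroot Bad hBad (κ / 16) (by positivity) (by linarith)
  choose! C3 hC3 h3 using h3
  have hC30 : 0 ≤ ∑ l ∈ L, C3 l := Finset.sum_nonneg fun l hl => (hC3 l hl).le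
  obtain ⟨R, hR⟩ : ∃ R : ℝ, R = c5 + 1 := ⟨_, rfl⟩
  have hR1 : 1 ≤ R := by rw [hR]; linarith
  refine ⟨C1 + C2 * 2 + (∑ l ∈ L, C3 l) * 2 + C4 * Real.exp (3 * R), by positivity, ?_⟩
  intro H hH S hS
  obtain ⟨E, hE⟩ : ∃ E : ℝ, E = Real.exp ((2 - κ / 16) * H) := ⟨_, rfl⟩
  have hE1 : 1 ≤ E := by
    rw [hE]
    exact Real.one_le_exp (mul_nonneg (by linarith) hH)
  rw [← hE]
  have hexp : ∀ t : ℝ, t ≤ 2 - κ / 16 → Real.exp (t * H) ≤ E := fun t ht => by
    rw [hE]
    exact Real.exp_le_exp.2 (mul_le_mul_of_nonneg_right ht hH)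
  rcases le_or_gt H R with hHR | hHR
  · have h5 := h4 H hH S fun x hx => (hS x hx).1
    have e0 : Real.exp ((2 + 1) * H) ≤ Real.exp (3 * R) := Real.exp_le_exp.2 (by linarith)
    have e1 : C4 * Real.exp ((2 + 1) * H) ≤ C4 * Real.exp (3 * R) * E :=
      (mul_le_mul_of_nonneg_left e0 hC4.le).trans
        (le_mul_of_one_le_right (by positivity) hE1)
    have e2 : 0 ≤ (C1 + C2 * 2 + (∑ l ∈ L, C3 l) * 2) * E := by positivity
    linarith
  have hHpos : 0 < H := by linarith
  -- the three kinds of points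
  obtain ⟨S1, hS1⟩ : ∃ S1 : Finset K, S1 = S.filter fun x => κ / 2 * H ≤ ∑ p ∈ F, mu p f x :=
    ⟨_, rfl⟩
  let S3 : ℕ → Finset K := fun l => S.filter fun x =>
    ∑ v ∈ (dv f x \ Bad).filter (fun v => ¬ l ∣ nu f v x), Real.log (Nv v) ≤ (2 - κ / 2) * H
  obtain ⟨S2, hS2⟩ : ∃ S2 : Finset K, S2 = S.filter fun x => ∃ m : Pr K →₀ ℕ,
    (∀ v ∈ m.support, v ∉ Bad ∧ 2 ≤ m v ∧ m v ≤ nu f v x) ∧ a0 * H ≤ nrm m ∧
      nrm m ≤ (4 - a0) * H := ⟨_, rfl⟩
  have hc1 : (S1.card : ℝ) ≤ C1 * E := by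
    refine (h1 H hH S1 fun x hx => ?_).trans (mul_le_mul_of_nonneg_left (hexp _ ?_) hC1.le)
    · rw [hS1] at hx
      obtain ⟨hxS, hx1⟩ := Finset.mem_filter.1 hx
      exact ⟨(hS x hxS).1, hroot x, hx1⟩
    · linarith
  have hc3 : ∀ l ∈ L, ((S3 l).card : ℝ) ≤ C3 l * (E + E) := by
    intro l hl
    have h6 := h3 l hl H hH ((2 - κ / 2) * H) (mul_nonneg (by linarith) hH)
      (mul_le_mul_of_nonneg_right (by linarith) hH) (S3 l) fun x hx => by
        obtain ⟨hxS, hx1⟩ := Finset.mem_filter.1 hx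
        exact ⟨(hS x hxS).1, hx1⟩
    refine h6.trans (mul_le_mul_of_nonneg_left (add_le_add ?_ ?_) (hC3 l hl).le)
    · have e5 : (1 + κ / 16) * H + (2 - κ / 2) * H / 2 = (2 - 3 * κ / 16) * H := by ring
      rw [e5]
      exact hexp _ (by linarith)
    · have e5 : (3 / 2 + κ / 16) * H + (2 - κ / 2) * H / 4 = (2 - κ / 16) * H := by ring
      rw [e5]
      exact hexp _ le_rfl
  have hc2 : (S2.card : ℝ) ≤ C2 * (E + E) := by
    have h6 := h2 H hH (a0 * H) ((4 - a0) * H) (by positivity)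
      (mul_le_mul_of_nonneg_right (by linarith) hH) (mul_le_mul_of_nonneg_right (by linarith) hH) S2
      fun x hx => by
        rw [hS2] at hx
        obtain ⟨hxS, hx1⟩ := Finset.mem_filter.1 hx
        exact ⟨(hS x hxS).1, hroot x, hx1⟩
    refine h6.trans (mul_le_mul_of_nonneg_left (add_le_add ?_ ?_) hC2.le)
    · have e5 : (4 - a0) * H / 2 + a0 / 4 * H = (2 - a0 / 4) * H := by ring
      rw [e5]
      exact hexp _ (by linarith)
    · have e5 : (2 + a0 / 4) * H - a0 * H / 2 = (2 - a0 / 4) * H := by ring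
      rw [e5]
      exact hexp _ (by linarith)
  have hcover : S ⊆ S1 ∪ (S2 ∪ L.biUnion S3) := by
    intro x hx
    obtain ⟨hxH, hxW⟩ := hS x hx
    have hx0 := hroot x
    have hhr : 0 ≤ hr (aff x) := hr_aff_nonneg x
    rw [Finset.mem_union, Finset.mem_union]
    by_cases hx1 : κ / 2 * H ≤ ∑ p ∈ F, mu p f x
    · left
      rw [hS1]
      exact Finset.mem_filter.2 ⟨hx, hx1⟩
    right
    by_cases hx3 : ∃ v, v ∉ Bad ∧ 2 ≤ nu f v x ∧ (2 - a0) * H ≤ Real.log (Nv v)
    · right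
      obtain ⟨v0, hv0, hv2, hv3⟩ := hx3
      have hv0d : v0 ∈ dv f x \ Bad := by
        rw [Finset.mem_sdiff]
        exact ⟨(mem_dv_iff hx0 (hlc v0 hv0)).2 (by omega), hv0⟩
      -- the multiplicity is at most the degree
      have h5 := hnu x hx0
      rw [← Finset.add_sum_erase _ _ hv0d, ← hk] at h5
      have h7 : 0 ≤ ∑ v ∈ (dv f x \ Bad).erase v0, (nu f v x : ℝ) * Real.log (Nv v) :=
        Finset.sum_nonneg fun v _ => mul_nonneg (Nat.cast_nonneg _) (log_Nv_pos v).le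
      have h8 : k * hr (aff x) ≤ k * H := mul_le_mul_of_nonneg_left hxH (by linarith)
      have hnuk : nu f v0 x ≤ f.natDegree := by
        by_contra hcon
        have h9 : k + 1 ≤ nu f v0 x := by
          rw [hk]
          have : f.natDegree + 1 ≤ nu f v0 x := by omega
          exact_mod_cast this
        have h10 : (k + 1) * ((2 - a0) * H) ≤ nu f v0 x * Real.log (Nv v0) :=
          mul_le_mul h9 hv3 (mul_nonneg (by linarith) hH) (by linarith)
        have h11 : (k + 1) * (1 * H) ≤ (k + 1) * ((2 - a0) * H) :=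
          mul_le_mul_of_nonneg_left (mul_le_mul_of_nonneg_right (by linarith) hH) (by linarith)
        linarith
      have hl1 : nu f v0 x ≠ 1 := by omega
      obtain ⟨l, hl⟩ : ∃ l, l = (nu f v0 x).minFac := ⟨_, rfl⟩
      have hlp : l.Prime := by rw [hl]; exact Nat.minFac_prime hl1
      have hld : l ∣ nu f v0 x := by rw [hl]; exact Nat.minFac_dvd _
      have hlL : l ∈ L := by
        rw [hL, Finset.mem_filter, Finset.mem_range]
        exact ⟨by have := Nat.le_of_dvd (by omega) hld; omega, hlp⟩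
      rw [Finset.mem_biUnion]
      refine ⟨l, hlL, Finset.mem_filter.2 ⟨hx, ?_⟩⟩
      have h9 : (dv f x \ Bad).filter (fun v => ¬ l ∣ nu f v x) ⊆ (dv f x).erase v0 := by
        intro v hv
        obtain ⟨hva, hvb⟩ := Finset.mem_filter.1 hv
        rw [Finset.mem_erase]
        refine ⟨?_, (Finset.mem_sdiff.1 hva).1⟩
        rintro rfl
        exact hvb hld
      have h10 := Finset.sum_le_sum_of_subset_of_nonneg h9
        (f := fun v : Pr K => Real.log (Nv v)) fun v _ _ => (log_Nv_pos v).le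
      have h11 := Finset.add_sum_erase (dv f x) (fun v : Pr K => Real.log (Nv v))
        (Finset.mem_sdiff.1 hv0d).1
      have h12 : min (f.natDegree : ℝ) 4 * hr (aff x) ≤ 4 * H :=
        mul_le_mul (min_le_right _ _) hxH hhr (by norm_num)
      beta_reduce at h11
      nlinarith
    left
    rw [hS2]
    refine Finset.mem_filter.2 ⟨hx, ?_⟩
    rw [not_le] at hx1
    push Not at hx3
    have hxW' : ∑ v ∈ dv f x, Real.log (Nv v) < k * hr (aff x) - κ * H := by
      refine hxW.trans_le ?_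
      rw [hk]
      have := mul_le_mul_of_nonneg_right (min_le_left (f.natDegree : ℝ) 4) hhr
      linarith
    have h7 := height_eq f Bad hlc hx0
    have h8 : ∑ p ∈ F, mu p f x =
        ∑ w : InfinitePlace K, mu (Sum.inl w) f x + ∑ v ∈ Bad, mu (Sum.inr v) f x := by
      rw [hF, Finset.sum_disjSum]
    -- the powerful part
    let n : Pr K →₀ ℕ := Finsupp.onFinset (dv f x \ Bad)
      (fun v => if v ∉ Bad ∧ v ∈ dv f x ∧ 2 ≤ nu f v x then nu f v x else 0) (by
        intro v hv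
        have : v ∉ Bad ∧ v ∈ dv f x ∧ 2 ≤ nu f v x := by
          by_contra hcon
          exact hv (if_neg hcon)
        exact Finset.mem_sdiff.2 ⟨this.2.1, this.1⟩)
    have hnv : ∀ v, n v = if v ∉ Bad ∧ v ∈ dv f x ∧ 2 ≤ nu f v x then nu f v x else 0 :=
      fun v => rfl
    have hns : ∀ v, v ∈ n.support ↔ v ∉ Bad ∧ v ∈ dv f x ∧ 2 ≤ nu f v x := by
      intro v
      rw [Finsupp.mem_support_iff, hnv]
      constructor
      · intro h
        by_contra hcon
        exact h (if_neg hcon)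
      · intro h
        rw [if_pos h]
        omega
    have hn2 : ∀ v ∈ n.support, 2 ≤ n v := by
      intro v hv
      have h9 := (hns v).1 hv
      rw [hnv, if_pos h9]
      exact h9.2.2
    have hnn : ∀ v, n v ≤ nu f v x := by
      intro v
      rw [hnv]
      split_ifs
      · exact le_rfl
      · exact Nat.zero_le _
    have hnrm : nrm n = ∑ v ∈ dv f x \ Bad, (n v : ℝ) * Real.log (Nv v) := by
      rw [nrm_eq]
      refine Finset.sum_subset ?_ ?_
      · intro v hv
        have h9 := (hns v).1 hv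
        exact Finset.mem_sdiff.2 ⟨h9.2.1, h9.1⟩
      · intro v _ hv
        rw [Finsupp.notMem_support_iff.1 hv, Nat.cast_zero, zero_mul]
    have hsplit : ∑ v ∈ dv f x \ Bad, (nu f v x : ℝ) * Real.log (Nv v) ≤
        nrm n + ∑ v ∈ dv f x, Real.log (Nv v) := by
      rw [hnrm]
      have h9 : ∑ v ∈ dv f x \ Bad, Real.log (Nv v) ≤ ∑ v ∈ dv f x, Real.log (Nv v) :=
        Finset.sum_le_sum_of_subset_of_nonneg Finset.sdiff_subset fun v _ _ => (log_Nv_pos v).le
      refine le_trans ?_ (add_le_add le_rfl h9)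
      rw [← Finset.sum_add_distrib]
      refine Finset.sum_le_sum fun v hv => ?_
      obtain ⟨hva, hvb⟩ := Finset.mem_sdiff.1 hv
      have hl := log_Nv_pos v
      rw [hnv]
      split_ifs with h10
      · linarith
      · have h11 : nu f v x ≤ 1 := by
          by_contra hcon
          exact h10 ⟨hvb, hva, by omega⟩
        have h12 : (nu f v x : ℝ) ≤ 1 := by exact_mod_cast h11
        rw [Nat.cast_zero, zero_mul, zero_add]
        nlinarith
    rw [← hk] at h7
    have hbig : a0 * H ≤ nrm n := by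
      have h9 : a0 * H ≤ κ / 2 * H := mul_le_mul_of_nonneg_right (by linarith) hH
      linarith
    obtain ⟨m, hm1, hm2, hm3, hm4⟩ := exists_sub n hn2 (a := a0 * H) (b := (2 - a0) * H)
      (by positivity) hbig (fun v hv => by
        have h9 := (hns v).1 hv
        exact (hx3 v h9.1 h9.2.2).le)
    refine ⟨m, ?_, hm3, ?_⟩
    · intro v hv
      have h9 : v ∈ n.support := by
        rw [Finsupp.mem_support_iff] at hv ⊢
        have := hm1 v
        omega
      exact ⟨((hns v).1 h9).1, hm2 v hv, (hm1 v).trans (hnn v)⟩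
    · linarith
  have h9 : (S.card : ℝ) ≤ S1.card + (S2.card + ∑ l ∈ L, ((S3 l).card : ℝ)) := by
    have e1 : (S.card : ℝ) ≤ S1.card + (S2.card + (L.biUnion S3).card) := by
      exact_mod_cast (Finset.card_le_card hcover).trans ((Finset.card_union_le _ _).trans
        (Nat.add_le_add_left (Finset.card_union_le _ _) _))
    have e2 : ((L.biUnion S3).card : ℝ) ≤ ∑ l ∈ L, ((S3 l).card : ℝ) := by
      exact_mod_cast Finset.card_biUnion_le
    linarith
  have h10 : ∑ l ∈ L, ((S3 l).card : ℝ) ≤ (∑ l ∈ L, C3 l) * (E + E) := by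
    rw [Finset.sum_mul]
    exact Finset.sum_le_sum hc3
  have e2 : 0 ≤ C4 * Real.exp (3 * R) * E := by positivity
  linarith

end Pool.Agent.N751.RW
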