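import Mathlib
import Pool.Agent.N751.RW.Four
import Pool.Agent.N753.SF.Mob

/-!
# One exceptional set for the radicals of the values of all polynomials
-/

set_option autoImplicit false
set_option linter.unusedSectionVars false

namespace Pool.Agent.N751.RW

open NumberField IsDedekindDomain Finset Pool.Agent.H691R3 Pool.Agent.TH876.Loc
open Pool.Agent.N753.LS Pool.Agent.N753.SF Polynomial Height

variable {K : Type} [Field K] [NumberField K]

/-- a power saving set of points -/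
def Few (e : ℝ) (A : Set K) : Prop :=
  ∃ C : ℝ, ∀ H : ℝ, 0 ≤ H → ((A ∩ {y | logHeight₁ y ≤ H}).ncard : ℝ) ≤ C * Real.exp ((2 - e) * H)

theorem few_empty (e : ℝ) : Few e (∅ : Set K) := by
  refine ⟨0, fun H hH => ?_⟩
  rw [Set.empty_inter, Set.ncard_empty, Nat.cast_zero, zero_mul]

/-- **the diagonal argument** -/
theorem diag_ct {I : Type} [Countable I] [Nonempty I] (A : I → Set K) {e : ℝ} (he : 0 < e)
    (hA : ∀ i, Few e (A i)) : ∃ E : Set K, (∀ H : ℝ, 0 ≤ H →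
      ((E ∩ {y | logHeight₁ y ≤ H}).ncard : ℝ) ≤ 2 * Real.exp ((2 - e / 2) * H)) ∧
      ∀ i, ∃ h0 : ℝ, ∀ x : K, x ∉ E → h0 ≤ logHeight₁ x → x ∉ A i := by
  obtain ⟨s, hs⟩ := exists_surjective_nat I
  obtain ⟨T, h, hT1, hT2⟩ := diag (X := K) (fun y => logHeight₁ y)
    (fun H => NumberField.finite_setOfPred_logHeight₁_le K H) (fun n => A (s n)) (α := 2 - e)
    (fun n => hA (s n)) (ν := e / 2) (by positivity)
  refine ⟨T, fun H hH => ?_, fun i => ?_⟩
  · refine (hT2 H hH).trans (le_of_eq ?_)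
    congr 2
    ring
  · obtain ⟨n, rfl⟩ := hs i
    refine ⟨h n, fun x hx hxh hxA => ?_⟩
    have := hT1 n x hxA hx
    linarith

open Classical in
/-- a set of points which violate an inequality with a loss proportional to the height -/
theorem few_of_count {A : Set K} {κ e : ℝ} (he : e ≤ 1 / 2) (hκ : 0 ≤ κ) (G : K → ℝ) (hG : ∀ x ∈ A, G x < -κ * logHeight₁ x)
    (hC : ∃ C : ℝ, 0 < C ∧ ∀ H : ℝ, 0 ≤ H → ∀ S : Finset K,
      (∀ x ∈ S, hr (aff x) ≤ H ∧ G x < -(κ / 2) * H) → (S.card : ℝ) ≤ C * Real.exp ((2 - e) * H)) :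
    Few e A := by
  obtain ⟨C1, hC1, h1⟩ := hC
  obtain ⟨C0, hC0, h0⟩ := count_all K (δ := 1) one_pos
  refine ⟨C1 + C0, fun H hH => ?_⟩
  obtain ⟨E, hE⟩ : ∃ E : ℝ, E = Real.exp ((2 - e) * H) := ⟨_, rfl⟩
  rw [← hE]
  obtain ⟨S, hS⟩ : ∃ S : Finset K, S = (bx K H).filter fun y => G y < -(κ / 2) * H := ⟨_, rfl⟩
  have hSc := h1 H hH S (by
    intro y hy
    rw [hS, Finset.mem_filter, mem_bx] at hy
    rw [hr_aff]
    exact hy)
  rw [← hE] at hSc
  obtain ⟨b, hb⟩ : ∃ b : Finset K, b = bx K (H / 2) := ⟨_, rfl⟩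
  have hbc : (b.card : ℝ) ≤ C0 * E := by
    refine (h0 (H / 2) (by positivity) b fun x hx => ?_).trans ?_
    · rw [hr_aff]
      rw [hb] at hx
      exact mem_bx.1 hx
    · refine mul_le_mul_of_nonneg_left ?_ hC0.le
      rw [hE]
      refine Real.exp_le_exp.2 ?_
      nlinarith
  have hsub : A ∩ {y | logHeight₁ y ≤ H} ⊆ ((S ∪ b : Finset K) : Set K) := by
    rintro y ⟨hy, hyH⟩
    have hyH' : logHeight₁ y ≤ H := hyH
    rw [Finset.mem_coe, Finset.mem_union]
    by_cases h3 : logHeight₁ y ≤ H / 2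
    · right
      rw [hb]
      exact mem_bx.2 h3
    left
    rw [not_le] at h3
    rw [hS, Finset.mem_filter, mem_bx]
    refine ⟨hyH', (hG y hy).trans_le ?_⟩
    nlinarith
  have h3 : ((A ∩ {y | logHeight₁ y ≤ H}).ncard : ℝ) ≤ S.card + b.card := by
    have h4 := Set.ncard_le_ncard hsub (Finset.finite_toSet _)
    rw [Set.ncard_coe_finset] at h4
    exact_mod_cast h4.trans (Finset.card_union_le _ _)
  linarith

open Classical in
/-- the points with a radical less than the fourth power of the height -/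
def Bt (κ : ℝ) (f : (𝓞 K)[X]) : Set K :=
  {y | ∑ v ∈ dv f y, Real.log (Nv v) < (min (f.natDegree : ℝ) 4 - κ) * logHeight₁ y}

open Classical in
/-- the points at which the primes with multiplicity not divisible by `l` are few -/
def Ct (κ : ℝ) (f : (𝓞 K)[X]) (l : ℕ) : Set K :=
  {y | ∑ v ∈ (dv f y).filter (fun v => ¬ l ∣ nu f v y), Real.log (Nv v) < (2 - κ) * logHeight₁ y}

theorem few_mono {e e' : ℝ} (h : e' ≤ e) {A : Set K} (hA : Few e A) : Few e' A := by
  obtain ⟨C, hC⟩ := hA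
  refine ⟨max C 0, fun H hH => (hC H hH).trans ?_⟩
  refine (mul_le_mul_of_nonneg_right (le_max_left C 0) (Real.exp_pos _).le).trans ?_
  refine mul_le_mul_of_nonneg_left (Real.exp_le_exp.2 ?_) (le_max_right _ _)
  exact mul_le_mul_of_nonneg_right (by linarith) hH

open Classical in
theorem few_Bt (hSum : StSum) {f : (𝓞 K)[X]} (hf : Nice f) (hroot : ∀ z : K, aeval z f ≠ 0)
    {κ : ℝ} (hκ0 : 0 < κ) (hκ1 : κ ≤ 1) : Few (κ / 32) (Bt κ f) := by
  obtain ⟨C, hC, h⟩ := count_four hSum hf hroot (κ := κ / 2) (by positivity) (by linarith)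
  refine few_of_count (κ := κ) (by linarith) hκ0.le
    (fun x => ∑ v ∈ dv f x, Real.log (Nv v) - min (f.natDegree : ℝ) 4 * logHeight₁ x) ?_ ?_
  · intro x hx
    have hx' : ∑ v ∈ dv f x, Real.log (Nv v) < (min (f.natDegree : ℝ) 4 - κ) * logHeight₁ x := hx
    linarith
  · refine ⟨C, hC, fun H hH S hS => ?_⟩
    have e1 : (κ / 2) / 16 = κ / 32 := by ring
    have h1 := h H hH S fun x hx => by
      obtain ⟨h2, h3⟩ := hS x hx
      refine ⟨h2, ?_⟩
      rw [hr_aff]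
      linarith
    rw [e1] at h1
    exact h1

open Classical in
theorem few_Ct (hSum : StSum) {f : (𝓞 K)[X]} (hf : Nice f) (hroot : ∀ z : K, aeval z f ≠ 0)
    {l : ℕ} (hl : l.Prime) {κ : ℝ} (hκ0 : 0 < κ) (hκ1 : κ ≤ 1) : Few (κ / 16) (Ct κ f l) := by
  have hf2 : 2 ≤ f.natDegree := two_le_deg hf.1 hroot
  obtain ⟨Bad, hBad⟩ := exists_badS f hf.2 hf.1
  obtain ⟨C, hC, h⟩ := hSum K l hl f hf2 hroot Bad hBad (κ / 16) (by positivity) (by linarith)
  refine few_of_count (κ := κ) (by linarith) hκ0.le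
    (fun x => ∑ v ∈ (dv f x).filter (fun v => ¬ l ∣ nu f v x), Real.log (Nv v) -
      2 * logHeight₁ x) ?_ ?_
  · intro x hx
    have hx' : ∑ v ∈ (dv f x).filter (fun v => ¬ l ∣ nu f v x), Real.log (Nv v) <
      (2 - κ) * logHeight₁ x := hx
    linarith
  · refine ⟨C * 2, by positivity, fun H hH S hS => ?_⟩
    have h1 := h H hH ((2 - κ / 2) * H) (mul_nonneg (by linarith) hH)
      (mul_le_mul_of_nonneg_right (by linarith) hH) S fun x hx => by
      obtain ⟨h2, h3⟩ := hS x hx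
      refine ⟨h2, ?_⟩
      have h4 : (dv f x \ Bad).filter (fun v => ¬ l ∣ nu f v x) ⊆
          (dv f x).filter (fun v => ¬ l ∣ nu f v x) :=
        Finset.filter_subset_filter _ Finset.sdiff_subset
      have h5 := Finset.sum_le_sum_of_subset_of_nonneg h4
        (f := fun v : Pr K => Real.log (Nv v)) fun v _ _ => (log_Nv_pos v).le
      rw [hr_aff] at h2
      linarith
    refine h1.trans ?_
    rw [mul_assoc]
    refine mul_le_mul_of_nonneg_left ?_ hC.le
    have e1 : Real.exp ((1 + κ / 16) * H + (2 - κ / 2) * H / 2) ≤ Real.exp ((2 - κ / 16) * H) := by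
      refine Real.exp_le_exp.2 ?_
      nlinarith
    have e2 : Real.exp ((3 / 2 + κ / 16) * H + (2 - κ / 2) * H / 4) ≤
        Real.exp ((2 - κ / 16) * H) := by
      refine Real.exp_le_exp.2 (le_of_eq ?_)
      ring
    linarith

theorem ex_le {κ : ℝ} : ex κ ≤ κ / 32 := by
  unfold ex expo
  refine (min_le_left _ _).trans ((min_le_left _ _).trans (le_of_eq ?_))
  ring

theorem few_mob {e : ℝ} {A : Set K} (hA : Few e A) {g : Fin 4 → K} (hg : dt g ≠ 0) :
    Few e {y | g 2 * y + g 3 ≠ 0 ∧ mob g y ∈ A} := by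
  obtain ⟨C, hC⟩ := hA
  obtain ⟨c, hc0, hc⟩ := mob_height g hg
  refine ⟨C * Real.exp ((2 - e) * c), fun H hH => ?_⟩
  have h1 := hC (H + c) (by positivity)
  have h2 : (({y | g 2 * y + g 3 ≠ 0 ∧ mob g y ∈ A} ∩ {y | logHeight₁ y ≤ H}).ncard : ℝ) ≤
      ((A ∩ {y | logHeight₁ y ≤ H + c}).ncard : ℝ) := by
    have h3 : ({y | g 2 * y + g 3 ≠ 0 ∧ mob g y ∈ A} ∩ {y | logHeight₁ y ≤ H}).ncard ≤
        (A ∩ {y | logHeight₁ y ≤ H + c}).ncard := by
      refine Set.ncard_le_ncard_of_injOn (mob g) ?_ ?_ ?_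
      · rintro y ⟨⟨hy1, hy2⟩, hy3⟩
        refine ⟨hy2, ?_⟩
        have hy3' : logHeight₁ y ≤ H := hy3
        have := hc y hy1
        show logHeight₁ (mob g y) ≤ H + c
        linarith
      · rintro y ⟨⟨hy1, -⟩, -⟩ z ⟨⟨hz1, -⟩, -⟩ hyz
        exact mob_inj hg hy1 hz1 hyz
      · exact (NumberField.finite_setOfPred_logHeight₁_le K (H + c)).subset
          Set.inter_subset_right
    exact_mod_cast h3
  refine h2.trans (h1.trans (le_of_eq ?_))
  rw [mul_assoc, ← Real.exp_add]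
  congr 2
  ring

open Classical in
/-- the exceptional sets for all polynomials -/
noncomputable def ExS (κ : ℝ) : (𝓞 K)[X] ⊕ ((𝓞 K)[X] × ℕ) → Set K
  | Sum.inl f => if Sf f then Wt κ f else ∅
  | Sum.inr (f, l) => if Nice f ∧ (∀ z : K, aeval z f ≠ 0) then
      (if l.Prime then Ct κ f l else Bt κ f) else ∅

open Classical in
theorem few_ExS (hSum : StSum) {κ : ℝ} (hκ0 : 0 < κ) (hκ1 : κ ≤ 1)
    (i : (𝓞 K)[X] ⊕ ((𝓞 K)[X] × ℕ)) : Few (ex κ) (ExS κ i) := by
  rcases i with f | ⟨f, l⟩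
  · by_cases hf : Sf f
    · simp only [ExS, if_pos hf]
      obtain ⟨C, hC⟩ := count_Wt hf.1 (κ' := 1 / 8) (ν' := 1 / 8) (by norm_num) (by norm_num)
        (by norm_num) hf.2 hκ0 hκ1
      exact ⟨C, hC⟩
    · simp only [ExS, if_neg hf]
      exact few_empty _
  · by_cases hf : Nice f ∧ (∀ z : K, aeval z f ≠ 0)
    · simp only [ExS, if_pos hf]
      by_cases hl : l.Prime
      · simp only [if_pos hl]
        exact few_mono (ex_le.trans (by linarith)) (few_Ct hSum hf.1 hf.2 hl hκ0 hκ1)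
      · simp only [if_neg hl]
        exact few_mono ex_le (few_Bt hSum hf.1 hf.2 hκ0 hκ1)
    · simp only [ExS, if_neg hf]
      exact few_empty _

/-- the inequalities that hold outside the exceptional set, for the coordinate `x = mob g t` -/
def Out (E : Set K) (g : Fin 4 → K) (A : Set K) : Prop :=
  ∃ h0 : ℝ, ∀ t : K, t ∉ E → h0 ≤ logHeight₁ t → g 2 * t + g 3 ≠ 0 → mob g t ∉ A

variable (K) in
open Classical in
/-- **the universal exceptional set** -/
theorem univ_set (hSum : StSum) {κ : ℝ} (hκ0 : 0 < κ) (hκ1 : κ ≤ 1) :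
    ∃ E : Set K, (∀ H : ℝ, 0 ≤ H → ((E ∩ {y | logHeight₁ y ≤ H}).ncard : ℝ) ≤
      2 * Real.exp ((2 - ex κ / 2) * H)) ∧ ∀ g : Fin 4 → K, dt g ≠ 0 → ∀ f : (𝓞 K)[X],
      (Sf f → Out E g (Wt κ f)) ∧
      (Nice f → (∀ z : K, aeval z f ≠ 0) → Out E g (Bt κ f) ∧
        ∀ l : ℕ, l.Prime → Out E g (Ct κ f l)) := by
  have hcp := countable_poly K
  have hcK := countable_K K
  have hex := ex_pos hκ0
  obtain ⟨E, hE1, hE2⟩ := diag_ct (fun i : ((𝓞 K)[X] ⊕ ((𝓞 K)[X] × ℕ)) × (Fin 4 → K) =>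
    if dt i.2 ≠ 0 then {y | i.2 2 * y + i.2 3 ≠ 0 ∧ mob i.2 y ∈ ExS κ i.1} else ∅) hex (by
    rintro ⟨i, g⟩
    by_cases hg : dt g ≠ 0
    · simp only [if_pos hg]
      exact few_mob (few_ExS hSum hκ0 hκ1 i) hg
    · simp only [if_neg hg]
      exact few_empty _)
  refine ⟨E, hE1, fun g hg f => ?_⟩
  have key : ∀ i : (𝓞 K)[X] ⊕ ((𝓞 K)[X] × ℕ), Out E g (ExS κ i) := by
    intro i
    obtain ⟨h0, h⟩ := hE2 (i, g)
    refine ⟨h0, fun t ht hth hgt hA => ?_⟩
    have h1 := h t ht hth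
    simp only [if_pos hg] at h1
    exact h1 ⟨hgt, hA⟩
  refine ⟨fun hf => ?_, fun hf hroot => ⟨?_, fun l hl => ?_⟩⟩
  · have h := key (Sum.inl f)
    simp only [ExS, if_pos hf] at h
    exact h
  · have h := key (Sum.inr (f, 0))
    simp only [ExS, if_pos (show Nice f ∧ (∀ z : K, aeval z f ≠ 0) from ⟨hf, hroot⟩),
      if_neg Nat.not_prime_zero] at h
    exact h
  · have h := key (Sum.inr (f, l))
    simp only [ExS, if_pos (show Nice f ∧ (∀ z : K, aeval z f ≠ 0) from ⟨hf, hroot⟩),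
      if_pos hl] at h
    exact h

end Pool.Agent.N751.RW
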