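import Mathlib
import Pool.Agent.N751.RW.Univ
import Pool.Agent.TH876.TM.Pairs
import Pool.Agent.TH4.HS.Pl

/-!
# Values of polynomials at rational numbers
-/

set_option autoImplicit false
set_option linter.unusedSectionVars false

namespace Pool.Agent.N751.RW

open NumberField IsDedekindDomain Finset Pool.Agent.H691R3 Pool.Agent.TH876.Loc
open Pool.Agent.N753.LS Pool.Agent.N753.SF Polynomial Height
open Pool.Agent.TH876.TM (Pairs_eq_one Pairs_pv_lt Pairs_inj Pairs_norm Pairs_int_le)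

/-- the height of a rational number -/
theorem exp_ht (t : ℚ) : Real.exp (logHeight₁ t) = max |(t.num : ℝ)| (t.den : ℝ) := by
  rw [Rat.logHeight₁_eq_log_max, Real.exp_log, Nat.cast_max, Nat.cast_natAbs, Int.cast_abs]
  rw [Nat.cast_max]
  exact lt_max_of_lt_right (by exact_mod_cast t.den_pos)

/-- the integral value of a polynomial -/
def hv (N : ℕ) (f : ℤ[X]) (t : ℚ) : ℤ :=
  ∑ i ∈ Finset.range (N + 1), f.coeff i * t.num ^ i * (t.den : ℤ) ^ (N - i)

theorem hv_eq {N : ℕ} {f : ℤ[X]} (hN : f.natDegree ≤ N) (t : ℚ) :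
    (hv N f t : ℚ) = (t.den : ℚ) ^ N * aeval t f := by
  unfold hv
  have hd : (t.den : ℚ) ≠ 0 := by exact_mod_cast t.den_nz
  have hn : (t.num : ℚ) = t * t.den := (Rat.mul_den_eq_num t).symm
  rw [aeval_eq_sum_range' (n := N + 1) (by omega), Finset.mul_sum]
  push_cast
  refine Finset.sum_congr rfl fun i hi => ?_
  have hi' : i ≤ N := by
    have := Finset.mem_range.1 hi
    omega
  rw [hn, mul_pow, zsmul_eq_mul]
  have e : (t.den : ℚ) ^ N = (t.den : ℚ) ^ i * (t.den : ℚ) ^ (N - i) := by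
    rw [← pow_add]
    congr 1
    omega
  rw [e]
  ring

theorem hv_le (N : ℕ) (f : ℤ[X]) : ∃ C : ℝ, 1 ≤ C ∧ ∀ t : ℚ,
    |(hv N f t : ℝ)| ≤ C * Real.exp (N * logHeight₁ t) := by
  refine ⟨1 + ∑ i ∈ Finset.range (N + 1), |(f.coeff i : ℝ)|, by
    have : 0 ≤ ∑ i ∈ Finset.range (N + 1), |(f.coeff i : ℝ)| :=
      Finset.sum_nonneg fun i _ => abs_nonneg _
    linarith, fun t => ?_⟩
  obtain ⟨M, hM⟩ : ∃ M : ℝ, M = Real.exp (logHeight₁ t) := ⟨_, rfl⟩
  have hM1 : 1 ≤ M := by rw [hM]; exact Real.one_le_exp (zero_le_logHeight₁ t)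
  have e1 : Real.exp (N * logHeight₁ t) = M ^ N := by
    rw [hM, ← Real.exp_nat_mul]
  rw [e1]
  have hn : |(t.num : ℝ)| ≤ M := by rw [hM, exp_ht]; exact le_max_left _ _
  have hd : (t.den : ℝ) ≤ M := by rw [hM, exp_ht]; exact le_max_right _ _
  have hMN : 0 ≤ M ^ N := by positivity
  unfold hv
  push_cast
  refine (Finset.abs_sum_le_sum_abs _ _).trans ?_
  have h1 : ∑ i ∈ Finset.range (N + 1),
      |(f.coeff i : ℝ) * (t.num : ℝ) ^ i * (t.den : ℝ) ^ (N - i)| ≤
      ∑ i ∈ Finset.range (N + 1), |(f.coeff i : ℝ)| * M ^ N := by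
    refine Finset.sum_le_sum fun i hi => ?_
    have hi' : i ≤ N := by
      have := Finset.mem_range.1 hi
      omega
    rw [abs_mul, abs_mul, abs_pow, abs_pow, mul_assoc]
    refine mul_le_mul_of_nonneg_left ?_ (abs_nonneg _)
    have e : M ^ N = M ^ i * M ^ (N - i) := by
      rw [← pow_add]
      congr 1
      omega
    rw [e, Nat.abs_cast]
    exact mul_le_mul (pow_le_pow_left₀ (abs_nonneg _) hn i)
      (pow_le_pow_left₀ (Nat.cast_nonneg _) hd _) (by positivity) (by positivity)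
  refine h1.trans ?_
  rw [← Finset.sum_mul]
  nlinarith

/-- **the height of a root** -/
theorem root_height {P : ℤ[X]} (hP : P ≠ 0) {t : ℚ} (ht : aeval t P = 0) {M : ℝ}
    (hM : ∀ i, |(P.coeff i : ℝ)| ≤ M) : logHeight₁ t ≤ Real.log M := by
  have hden : ∀ (Q : ℤ[X]) (q : ℚ), Q ≠ 0 → aeval q Q = 0 → (∀ i, |(Q.coeff i : ℝ)| ≤ M) →
      (q.den : ℝ) ≤ M := by
    intro Q q hQ hq hQM
    have h1 := den_dvd_of_is_root (A := ℤ) (K := ℚ) hq
    have h2 : q.den ∣ Q.leadingCoeff.natAbs := by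
      rw [← Rat.isFractionRingDen]
      exact Int.natAbs_dvd_natAbs.2 h1
    have h3 : Q.leadingCoeff ≠ 0 := leadingCoeff_ne_zero.2 hQ
    have h4 := Nat.le_of_dvd (Int.natAbs_pos.2 h3) h2
    have h5 : (q.den : ℝ) ≤ |(Q.leadingCoeff : ℝ)| := by
      rw [← Int.cast_abs, ← Nat.cast_natAbs (α := ℝ)]
      exact_mod_cast h4
    exact h5.trans (hQM _)
  have hM1 : (t.den : ℝ) ≤ M := hden P t hP ht hM
  have h1 : (1 : ℝ) ≤ t.den := by exact_mod_cast t.den_pos
  have hM0 : 0 < M := by linarith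
  have hnum : |(t.num : ℝ)| ≤ M := by
    by_cases h0 : t = 0
    · rw [h0]
      simp only [Rat.num_ofNat, Int.cast_zero, abs_zero]
      linarith
    · have hr : aeval t⁻¹ P.reverse = 0 := by
        let _ := invertibleOfNonzero h0
        have h2 := (Polynomial.eval₂_reverse_eq_zero_iff (algebraMap ℤ ℚ) t P).2 ht
        rw [invOf_eq_inv] at h2
        exact h2
      have h3 := hden P.reverse t⁻¹ (by
        rw [Ne, Polynomial.reverse_eq_zero]
        exact hP) hr (by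
        intro i
        rw [Polynomial.coeff_reverse]
        exact hM _)
      have h4 : (t⁻¹).den = t.num.natAbs := Rat.den_inv_of_ne_zero h0
      rw [h4, Nat.cast_natAbs, Int.cast_abs] at h3
      exact h3
  rw [← Real.log_exp (logHeight₁ t), exp_ht]
  refine Real.log_le_log ?_ (max_le hnum hM1)
  exact lt_max_of_lt_right (by linarith)

/-- the norm of a prime of `ℚ` -/
theorem Nv_eq (v : Pr ℚ) : Nv v = (pv v : ℝ) := le_antisymm (Pairs_norm v) (pv_le_Nv v)

theorem pv_eq (v : Pr ℚ) : pv v = Pool.Agent.TH4.HS.pv v := by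
  have h1 := Nv_eq v
  have h2 := Pool.Agent.TH4.HS.absNorm_eq v
  unfold Nv at h1
  rw [h2] at h1
  exact_mod_cast h1.symm

theorem log_fv_pv (v : Pr ℚ) : Real.log (fv v ((pv v : ℕ) : ℚ)) = -Real.log (Nv v) := by
  have h1 := Pool.Agent.TH4.HS.asIdeal_eq v
  rw [← pv_eq] at h1
  have h2 : (((pv v : ℤ) : ℤ) : 𝓞 ℚ) ≠ 0 := by
    have : (pv v : ℤ) ≠ 0 := by exact_mod_cast (pv_prime v).ne_zero
    exact_mod_cast this
  have h3 := v.intValuation_singleton h2 h1
  have h4 : v.valuation ℚ ((pv v : ℕ) : ℚ) = WithZero.exp (-1 : ℤ) := by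
    rw [← h3, ← v.valuation_of_algebraMap (K := ℚ)]
    congr 1
  rw [fv_val, h4, WithZeroMulInt.toNNReal_neg_apply _ (by simp)]
  have h5 : (WithZero.unzero (x := (WithZero.exp (-1 : ℤ))) (by simp)).toAdd = -1 := rfl
  rw [h5, zpow_neg_one, NNReal.coe_inv, Real.log_inv]
  rfl

theorem log_fv_int (v : Pr ℚ) {z : ℤ} (hz : z ≠ 0) :
    Real.log (fv v (z : ℚ)) = -((padicValInt (pv v) z : ℕ) : ℝ) * Real.log (Nv v) := by
  have hp := pv_prime v
  have : Fact (pv v).Prime := ⟨hp⟩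
  obtain ⟨m, hm⟩ : ((pv v : ℤ)) ^ (padicValInt (pv v) z) ∣ z := padicValInt_dvd z
  have hm0 : m ≠ 0 := by
    rintro rfl
    rw [mul_zero] at hm
    exact hz hm
  have hpm : ¬ pv v ∣ m.natAbs := by
    intro h
    have h1 : (pv v : ℤ) ^ (padicValInt (pv v) z + 1) ∣ z := by
      conv_rhs => rw [hm]
      rw [pow_succ]
      exact mul_dvd_mul_left _ (Int.natCast_dvd.2 h)
    rw [padicValInt_dvd_iff] at h1
    rcases h1 with h1 | h1
    · exact hz h1
    · omega
  have h1 : fv v (z : ℚ) = fv v ((pv v : ℕ) : ℚ) ^ (padicValInt (pv v) z) := by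
    conv_lhs => rw [hm]
    push_cast
    rw [map_mul, map_pow, Pairs_eq_one v m hpm, mul_one]
  rw [h1, Real.log_pow, log_fv_pv]
  ring

end Pool.Agent.N751.RW
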