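import Mathlib
import Pool.Agent.N751.RW.Val
import Pool.Agent.N753.LS.Parts

/-!
# The polynomial whose values have a large radical
-/

set_option autoImplicit false
set_option linter.unusedSectionVars false

namespace Pool.Agent.N751.RW

open NumberField IsDedekindDomain Finset Pool.Agent.H691R3 Pool.Agent.TH876.Loc
open Pool.Agent.N753.LS Pool.Agent.N753.SF Polynomial Height UniqueFactorizationMonoid
open Pool.Agent.TH876.TM (Pairs_eq_one Pairs_pv_lt Pairs_inj Pairs_norm Pairs_int_le)

section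

variable {K : Type} [Field K] [NumberField K]

/-- clearing denominators -/
theorem clear_den (P : K[X]) : ∃ (f : (𝓞 K)[X]) (c : K), c ≠ 0 ∧
    f.map (algebraMap (𝓞 K) K) = C c * P := by
  obtain ⟨f, a, ha, h⟩ := clear_sq P
  exact ⟨f, a ^ 2, pow_ne_zero 2 ha, h⟩

theorem deg_clear {f : (𝓞 K)[X]} {c : K} (hc : c ≠ 0) {P : K[X]}
    (h : f.map (algebraMap (𝓞 K) K) = C c * P) : f.natDegree = P.natDegree := by
  rw [← natDegree_map_eq_of_injective (FaithfulSMul.algebraMap_injective (𝓞 K) K) f, h,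
    natDegree_C_mul hc]

theorem assoc_clear {c : K} (hc : c ≠ 0) (P : K[X]) : Associated (C c * P) P := by
  rw [mul_comm]
  exact associated_mul_unit_left _ _ (isUnit_C.2 hc.isUnit)

theorem noroot_of_irr {f : (𝓞 K)[X]} (h2 : 2 ≤ f.natDegree)
    (hirr : Irreducible (f.map (algebraMap (𝓞 K) K))) (z : K) : aeval z f ≠ 0 := by
  intro hz
  have h6 : (f.map (algebraMap (𝓞 K) K)).IsRoot z := by
    rw [IsRoot.def, eval_map_algebraMap]
    exact hz
  have h7 := Polynomial.degree_eq_one_of_irreducible_of_root hirr h6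
  have h8 : (f.map (algebraMap (𝓞 K) K)).natDegree = 1 := natDegree_eq_of_degree_eq_some h7
  rw [natDegree_map_eq_of_injective (FaithfulSMul.algebraMap_injective _ _)] at h8
  omega

open Classical in
/-- **the polynomial** -/
theorem choose_f {D : K[X]} (hD : 1 ≤ D.natDegree) : ∃ f : (𝓞 K)[X],
    f.map (algebraMap (𝓞 K) K) ∣ D ∧
      ((Sf f ∧ ∃ k : ℕ, D ∣ (f.map (algebraMap (𝓞 K) K)) ^ k) ∨
        (Nice f ∧ Irreducible (f.map (algebraMap (𝓞 K) K)) ∧ 6 ≤ f.natDegree)) := by
  have hD0 : D ≠ 0 := by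
    rintro rfl
    simp at hD
  by_cases hcase : ∃ P ∈ primeFactors D, 6 ≤ P.natDegree
  · obtain ⟨P, hP, hP6⟩ := hcase
    rw [mem_primeFactors] at hP
    obtain ⟨f, c, hc, hf⟩ := clear_den P
    have hdeg := deg_clear hc hf
    have hPi : Irreducible P := irreducible_of_normalized_factor P hP
    have hirr : Irreducible (f.map (algebraMap (𝓞 K) K)) := by
      rw [hf]
      exact (assoc_clear hc P).irreducible_iff.2 hPi
    refine ⟨f, ?_, Or.inr ⟨⟨by omega, hirr.squarefree⟩, hirr, by omega⟩⟩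
    rw [hf]
    exact (assoc_clear hc P).dvd_iff_dvd_left.2 (dvd_of_mem_normalizedFactors hP)
  · push Not at hcase
    choose F c hc hF using fun P : K[X] => clear_den (K := K) P
    have hprod : (∏ P ∈ primeFactors D, F P).map (algebraMap (𝓞 K) K) =
        C (∏ P ∈ primeFactors D, c P) * radical D := by
      rw [Polynomial.map_prod, map_prod, radical, ← Finset.prod_mul_distrib]
      refine Finset.prod_congr rfl fun P _ => ?_
      rw [hF]
      rfl
    have hcc : (∏ P ∈ primeFactors D, c P) ≠ 0 := Finset.prod_ne_zero_iff.2 fun P _ => hc P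
    have hne : (primeFactors D).Nonempty := by
      rw [Finset.nonempty_iff_ne_empty, Ne, primeFactors_eq_empty_iff hD0]
      intro hu
      have := natDegree_eq_zero_of_isUnit hu
      omega
    have hass := assoc_clear hcc (radical D)
    refine ⟨∏ P ∈ primeFactors D, F P, ?_, Or.inl ⟨?_, ?_⟩⟩
    · rw [hprod]
      exact hass.dvd_iff_dvd_left.2 radical_dvd_self
    · refine sf_prod (primeFactors D) hne F ?_ ?_ ?_
      · intro P hP
        have hPi : Irreducible P := irreducible_of_normalized_factor P (mem_primeFactors.1 hP)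
        rw [deg_clear (hc P) (hF P)]
        exact ⟨hPi.natDegree_pos, by have := hcase P hP; omega⟩
      · intro P hP
        rw [hF]
        exact (assoc_clear (hc P) P).irreducible_iff.2
          (irreducible_of_normalized_factor P (mem_primeFactors.1 hP))
      · rw [hprod]
        exact hass.squarefree_iff.2 squarefree_radical
    · obtain ⟨k, hk⟩ := exists_dvd_radical_self_pow hD0
      refine ⟨k, ?_⟩
      rw [hprod]
      exact hk.trans (pow_dvd_pow_of_dvd hass.dvd' k)

end

/-! ## good primes -/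

open Classical in
/-- the primes of `ℚ` below a bound -/
noncomputable def badP (N : ℕ) : Finset (Pr ℚ) := PP ℚ N

theorem mem_badP {N : ℕ} {v : Pr ℚ} : v ∈ badP N ↔ pv v ≤ N := by
  unfold badP
  rw [mem_PP, Nv_eq]
  exact_mod_cast Iff.rfl

theorem fv_one_of_not_dvd {v : Pr ℚ} {m : ℤ} (h : ¬ (pv v : ℤ) ∣ m) : fv v (m : ℚ) = 1 := by
  refine Pairs_eq_one v m ?_
  rwa [← Int.natCast_dvd]

theorem dvd_of_fv_lt {v : Pr ℚ} {m : ℤ} (h : fv v (m : ℚ) < 1) : (pv v : ℤ) ∣ m := by
  by_contra hcon
  rw [fv_one_of_not_dvd hcon] at h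
  exact lt_irrefl _ h

/-- a nonzero rational number is a unit at all large primes -/
theorem fv_unit (c : ℚ) (hc : c ≠ 0) : ∃ N : ℕ, ∀ v : Pr ℚ, N < pv v → fv v c = 1 := by
  refine ⟨c.num.natAbs + c.den, fun v hv => ?_⟩
  have h1 : fv v ((c.num : ℤ) : ℚ) = 1 := by
    refine fv_one_of_not_dvd fun h => ?_
    have h2 := Int.natAbs_dvd_natAbs.2 h
    rw [Int.natAbs_natCast] at h2
    have h3 := Nat.le_of_dvd (Int.natAbs_pos.2 (Rat.num_ne_zero.2 hc)) h2
    omega
  have h2 : fv v ((c.den : ℤ) : ℚ) = 1 := by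
    refine fv_one_of_not_dvd fun h => ?_
    have h2 : pv v ∣ c.den := by exact_mod_cast h
    have h3 := Nat.le_of_dvd c.den_pos h2
    omega
  have h3 : c = ((c.num : ℤ) : ℚ) / ((c.den : ℤ) : ℚ) := by
    rw [Int.cast_natCast]
    exact (Rat.num_div_den c).symm
  rw [h3, map_div₀, h1, h2, div_one]

/-- the values of a rational polynomial are integral at all large primes at which the argument is
integral -/
theorem fv_poly_le (P : ℚ[X]) : ∃ N : ℕ, ∀ v : Pr ℚ, N < pv v → ∀ x : ℚ, fv v x ≤ 1 →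
    fv v (P.eval x) ≤ 1 := by
  induction P using Polynomial.induction_on' with
  | add p q hp hq =>
    obtain ⟨N, hN⟩ := hp
    obtain ⟨M, hM⟩ := hq
    refine ⟨N + M, fun v hv x hx => ?_⟩
    rw [eval_add]
    exact (fv_na v _ _).trans (max_le (hN v (by omega) x hx) (hM v (by omega) x hx))
  | monomial n c =>
    by_cases hc : c = 0
    · refine ⟨0, fun v _ x _ => ?_⟩
      rw [hc, monomial_zero_right, eval_zero, map_zero]
      exact zero_le_one
    · obtain ⟨N, hN⟩ := fv_unit c hc
      refine ⟨N, fun v hv x hx => ?_⟩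
      rw [eval_monomial, map_mul, map_pow, hN v hv, one_mul]
      exact pow_le_one₀ ((fv v).nonneg _) hx

/-- the values of two coprime polynomials are not both divisible by a large prime -/
theorem fv_coprime {P Q : ℚ[X]} (h : IsCoprime P Q) : ∃ N : ℕ, ∀ v : Pr ℚ, N < pv v → ∀ x : ℚ,
    fv v x ≤ 1 → fv v (P.eval x) < 1 → fv v (Q.eval x) = 1 := by
  obtain ⟨A, B, hAB⟩ := h
  obtain ⟨N1, h1⟩ := fv_poly_le A
  obtain ⟨N2, h2⟩ := fv_poly_le B
  obtain ⟨N3, h3⟩ := fv_poly_le Q
  refine ⟨N1 + N2 + N3, fun v hv x hx hP => ?_⟩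
  refine le_antisymm (h3 v (by omega) x hx) ?_
  by_contra hcon
  rw [not_le] at hcon
  have e := congrArg (Polynomial.eval x) hAB
  rw [eval_add, eval_mul, eval_mul, eval_one] at e
  have h4 : fv v (1 : ℚ) < 1 := by
    rw [← e]
    refine (fv_na v _ _).trans_lt (max_lt ?_ ?_)
    · rw [map_mul]
      calc _ ≤ 1 * fv v (P.eval x) :=
            mul_le_mul_of_nonneg_right (h1 v (by omega) x hx) ((fv v).nonneg _)
        _ < 1 := by rw [one_mul]; exact hP
    · rw [map_mul]
      calc _ ≤ 1 * fv v (Q.eval x) :=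
            mul_le_mul_of_nonneg_right (h2 v (by omega) x hx) ((fv v).nonneg _)
        _ < 1 := by rw [one_mul]; exact hcon
  rw [map_one] at h4
  exact lt_irrefl _ h4

end Pool.Agent.N751.RW
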