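import Mathlib
import Pool.Agent.N751.RW.Geo

/-!
# The inequality for one fibre
-/

set_option autoImplicit false
set_option linter.unusedSectionVars false

namespace Pool.Agent.N751.RW

open NumberField IsDedekindDomain Finset Pool.Agent.H691R3 Pool.Agent.TH876.Loc
open Pool.Agent.N753.LS Pool.Agent.N753.SF Polynomial Height
open Pool.Agent.TH876.TM (Pairs_eq_one Pairs_pv_lt Pairs_inj Pairs_norm Pairs_int_le)
open Pool.Agent.H39R3 (GMin condW)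

/-- the inequality without gains -/
def StEll3 : Prop := ∃ C0 : ℝ, 0 ≤ C0 ∧ ∀ (W : WeierstrassCurve ℤ) (A B : ℤ) (u : ℚ),
  GMin W → A ≠ 0 → B ≠ 0 → A ^ 3 ≠ B ^ 2 → u ≠ 0 →
  (W.c₄ : ℚ) = u ^ 2 * A → (W.c₆ : ℚ) = u ^ 3 * B →
    Real.log (max (|(W.c₄ : ℝ)| ^ 3) ((W.c₆ : ℝ) ^ 2)) ≤
      3 * Real.log (condW W) + Real.log (max (|(A : ℝ)| ^ 3) ((B : ℝ) ^ 2)) + C0

/-- `W` has the `j`-invariant of the fibre at `s` -/
def JRel (W : WeierstrassCurve ℤ) (a b : ℤ[X]) (s : ℚ) : Prop :=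
  (W.c₄ : ℚ) ^ 3 * (aeval s b) ^ 2 = (W.c₆ : ℚ) ^ 2 * (aeval s a) ^ 3

/-- the logarithm of the height of the equation -/
noncomputable def htW (W : WeierstrassCurve ℤ) : ℝ :=
  Real.log (max (|(W.c₄ : ℝ)| ^ 3) ((W.c₆ : ℝ) ^ 2))

theorem c_ne {W : WeierstrassCurve ℤ} (hW : GMin W) {a b : ℤ[X]} {s : ℚ}
    (ha : aeval s a ≠ 0) (hb : aeval s b ≠ 0) (hj : JRel W a b s) : W.c₄ ≠ 0 ∧ W.c₆ ≠ 0 := by
  unfold JRel at hj
  have hrel := W.c_relation
  constructor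
  · intro h
    rw [h, Int.cast_zero, zero_pow (by norm_num), zero_mul] at hj
    have h1 : (W.c₆ : ℚ) = 0 := by
      rcases mul_eq_zero.1 hj.symm with h2 | h2
      · exact pow_eq_zero_iff (by norm_num) |>.1 h2
      · exact absurd (pow_eq_zero_iff (by norm_num) |>.1 h2) ha
    have h2 : W.c₆ = 0 := by exact_mod_cast h1
    rw [h, h2] at hrel
    apply hW.1
    omega
  · intro h
    rw [h, Int.cast_zero, zero_pow (by norm_num), zero_mul] at hj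
    have h1 : (W.c₄ : ℚ) = 0 := by
      rcases mul_eq_zero.1 hj with h2 | h2
      · exact pow_eq_zero_iff (by norm_num) |>.1 h2
      · exact absurd (pow_eq_zero_iff (by norm_num) |>.1 h2) hb
    have h2 : W.c₄ = 0 := by exact_mod_cast h1
    rw [h, h2] at hrel
    apply hW.1
    omega

/-- the data of a fibre -/
theorem tw_data {n : ℕ} {a b : ℤ[X]} (hda : a.natDegree ≤ 2 * n) (hdb : b.natDegree ≤ 3 * n)
    {s : ℚ} (ha : aeval s a ≠ 0) (hb : aeval s b ≠ 0) (hD : aeval s (a ^ 3 - b ^ 2) ≠ 0)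
    {W : WeierstrassCurve ℤ} (hW : GMin W) (hj : JRel W a b s) :
    hv (2 * n) a s ≠ 0 ∧ hv (3 * n) b s ≠ 0 ∧ (hv (2 * n) a s) ^ 3 ≠ (hv (3 * n) b s) ^ 2 ∧
      ∃ u : ℚ, u ≠ 0 ∧ (W.c₄ : ℚ) = u ^ 2 * (hv (2 * n) a s : ℤ) ∧
        (W.c₆ : ℚ) = u ^ 3 * (hv (3 * n) b s : ℤ) := by
  obtain ⟨h4, h6⟩ := c_ne hW ha hb hj
  have hden : (s.den : ℚ) ≠ 0 := by exact_mod_cast s.den_nz
  have eA := hv_eq hda s
  have eB := hv_eq hdb s
  obtain ⟨A, hA⟩ : ∃ A, A = hv (2 * n) a s := ⟨_, rfl⟩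
  obtain ⟨B, hB⟩ : ∃ B, B = hv (3 * n) b s := ⟨_, rfl⟩
  rw [← hA] at eA ⊢
  rw [← hB] at eB ⊢
  have hA0 : (A : ℚ) ≠ 0 := by rw [eA]; exact mul_ne_zero (pow_ne_zero _ hden) ha
  have hB0 : (B : ℚ) ≠ 0 := by rw [eB]; exact mul_ne_zero (pow_ne_zero _ hden) hb
  have h4' : (W.c₄ : ℚ) ≠ 0 := by exact_mod_cast h4
  have h6' : (W.c₆ : ℚ) ≠ 0 := by exact_mod_cast h6
  have hAB : (A : ℚ) ^ 3 ≠ (B : ℚ) ^ 2 := by
    intro h
    apply hD
    rw [map_sub, map_pow, map_pow]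
    have h1 : ((s.den : ℚ) ^ (2 * n) * aeval s a) ^ 3 = ((s.den : ℚ) ^ (3 * n) * aeval s b) ^ 2 := by
      rw [← eA, ← eB, h]
    rw [mul_pow, mul_pow, ← pow_mul, ← pow_mul, show 2 * n * 3 = 6 * n by ring,
      show 3 * n * 2 = 6 * n by ring] at h1
    exact sub_eq_zero.2 (mul_left_cancel₀ (pow_ne_zero _ hden) h1)
  have hrel : (W.c₄ : ℚ) ^ 3 * (B : ℚ) ^ 2 = (W.c₆ : ℚ) ^ 2 * (A : ℚ) ^ 3 := by
    rw [eA, eB]
    unfold JRel at hj
    rw [mul_pow, mul_pow, ← pow_mul, ← pow_mul, show 2 * n * 3 = 6 * n by ring,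
      show 3 * n * 2 = 6 * n by ring]
    linear_combination ((s.den : ℚ) ^ (6 * n)) * hj
  refine ⟨by exact_mod_cast hA0, by exact_mod_cast hB0, by exact_mod_cast hAB,
    (W.c₆ * A) / (W.c₄ * B), div_ne_zero (mul_ne_zero h6' hA0) (mul_ne_zero h4' hB0), ?_, ?_⟩
  · rw [div_pow, mul_pow, mul_pow]
    field_simp
    linear_combination hrel
  · rw [div_pow, mul_pow, mul_pow]
    field_simp
    linear_combination hrel

/-- the height of the fibre -/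
theorem max_le_ht {n : ℕ} (a b : ℤ[X]) : ∃ C : ℝ, 0 ≤ C ∧ ∀ s : ℚ, hv (2 * n) a s ≠ 0 →
    Real.log (max (|((hv (2 * n) a s : ℤ) : ℝ)| ^ 3) (((hv (3 * n) b s : ℤ) : ℝ) ^ 2)) ≤
      6 * n * logHeight₁ s + C := by
  obtain ⟨Ca, hCa, h1⟩ := hv_le (2 * n) a
  obtain ⟨Cb, hCb, h2⟩ := hv_le (3 * n) b
  refine ⟨Real.log (Ca ^ 3 * Cb ^ 2), Real.log_nonneg (by
    nlinarith [one_le_pow₀ hCa (n := 3), one_le_pow₀ hCb (n := 2)]), fun s hs => ?_⟩
  have hCa3 : 1 ≤ Ca ^ 3 := one_le_pow₀ hCa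
  have hCb2 : 1 ≤ Cb ^ 2 := one_le_pow₀ hCb
  obtain ⟨E, hE⟩ : ∃ E : ℝ, E = Real.exp (6 * n * logHeight₁ s) := ⟨_, rfl⟩
  have hE0 : 0 < E := by rw [hE]; exact Real.exp_pos _
  have e1 : Real.exp ((2 * n : ℕ) * logHeight₁ s) ^ 3 = E := by
    rw [hE, ← Real.exp_nat_mul]
    congr 1
    push_cast
    ring
  have e2 : Real.exp ((3 * n : ℕ) * logHeight₁ s) ^ 2 = E := by
    rw [hE, ← Real.exp_nat_mul]
    congr 1
    push_cast
    ring
  have hA0 : (0 : ℝ) < |((hv (2 * n) a s : ℤ) : ℝ)| := abs_pos.2 (by exact_mod_cast hs)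
  have h3 : max (|((hv (2 * n) a s : ℤ) : ℝ)| ^ 3) (((hv (3 * n) b s : ℤ) : ℝ) ^ 2) ≤
      (Ca ^ 3 * Cb ^ 2) * E := by
    refine max_le ?_ ?_
    · have h4 := pow_le_pow_left₀ (abs_nonneg _) (h1 s) 3
      rw [mul_pow, e1] at h4
      refine h4.trans ?_
      have : Ca ^ 3 * E ≤ (Ca ^ 3 * Cb ^ 2) * E :=
        mul_le_mul_of_nonneg_right (le_mul_of_one_le_right (by positivity) hCb2) hE0.le
      exact this
    · rw [← sq_abs]
      have h4 := pow_le_pow_left₀ (abs_nonneg _) (h2 s) 2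
      rw [mul_pow, e2] at h4
      refine h4.trans ?_
      exact mul_le_mul_of_nonneg_right (le_mul_of_one_le_left (by positivity) hCa3) hE0.le
  have h4 := Real.log_le_log (lt_max_of_lt_left (pow_pos hA0 3)) h3
  rw [Real.log_mul (by positivity) hE0.ne', hE, Real.log_exp] at h4
  linarith

/-- **the height of the parameter** -/
theorem par_le {a b : ℤ[X]} (hiso : ∀ x y : ℤ, C x * a ^ 3 = C y * b ^ 2 → x = 0 ∧ y = 0) :
    ∃ C : ℝ, 0 ≤ C ∧ ∀ (s : ℚ) (W : WeierstrassCurve ℤ), aeval s a ≠ 0 → aeval s b ≠ 0 →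
      GMin W → JRel W a b s → logHeight₁ s ≤ htW W + C := by
  obtain ⟨M, hM⟩ : ∃ M : ℝ, M = 1 + ∑ i ∈ (b ^ 2).support, |((b ^ 2).coeff i : ℝ)| +
      ∑ i ∈ (a ^ 3).support, |((a ^ 3).coeff i : ℝ)| := ⟨_, rfl⟩
  have hs1 : 0 ≤ ∑ i ∈ (b ^ 2).support, |((b ^ 2).coeff i : ℝ)| :=
    Finset.sum_nonneg fun _ _ => abs_nonneg _
  have hs2 : 0 ≤ ∑ i ∈ (a ^ 3).support, |((a ^ 3).coeff i : ℝ)| :=
    Finset.sum_nonneg fun _ _ => abs_nonneg _
  have hM1 : 1 ≤ M := by linarith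
  have hcb : ∀ i, |((b ^ 2).coeff i : ℝ)| ≤ M := by
    intro i
    by_cases hi : i ∈ (b ^ 2).support
    · have := Finset.single_le_sum (f := fun i => |((b ^ 2).coeff i : ℝ)|)
        (fun _ _ => abs_nonneg _) hi
      beta_reduce at this
      linarith
    · rw [notMem_support_iff.1 hi, Int.cast_zero, abs_zero]
      linarith
  have hca : ∀ i, |((a ^ 3).coeff i : ℝ)| ≤ M := by
    intro i
    by_cases hi : i ∈ (a ^ 3).support
    · have := Finset.single_le_sum (f := fun i => |((a ^ 3).coeff i : ℝ)|)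
        (fun _ _ => abs_nonneg _) hi
      beta_reduce at this
      linarith
    · rw [notMem_support_iff.1 hi, Int.cast_zero, abs_zero]
      linarith
  refine ⟨Real.log (2 * M), Real.log_nonneg (by linarith), fun s W ha hb hW hj => ?_⟩
  obtain ⟨h4, h6⟩ := c_ne hW ha hb hj
  obtain ⟨T, hT⟩ : ∃ T : ℝ, T = max (|(W.c₄ : ℝ)| ^ 3) ((W.c₆ : ℝ) ^ 2) := ⟨_, rfl⟩
  have hT0 : 0 < T := by
    rw [hT]
    refine lt_max_of_lt_right ?_
    have : (W.c₆ : ℝ) ≠ 0 := by exact_mod_cast h6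
    positivity
  have hP : C (W.c₄ ^ 3) * b ^ 2 - C (W.c₆ ^ 2) * a ^ 3 ≠ 0 := by
    intro h
    have h1 := (hiso (W.c₆ ^ 2) (W.c₄ ^ 3) (sub_eq_zero.1 h).symm).2
    exact h4 (pow_eq_zero_iff (by norm_num) |>.1 h1)
  have hroot : aeval s (C (W.c₄ ^ 3) * b ^ 2 - C (W.c₆ ^ 2) * a ^ 3) = 0 := by
    unfold JRel at hj
    simp only [map_sub, map_mul, map_pow, algebraMap_int_eq, eq_intCast, map_intCast]
    rw [hj, sub_self]
  have h1 := root_height hP hroot (M := (2 * M) * T) (by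
    intro i
    rw [coeff_sub, coeff_C_mul, coeff_C_mul]
    push_cast
    refine (abs_sub _ _).trans ?_
    rw [abs_mul, abs_mul, abs_pow, abs_pow, sq_abs]
    have e1 : |(W.c₄ : ℝ)| ^ 3 * |((b ^ 2).coeff i : ℝ)| ≤ T * M :=
      mul_le_mul (by rw [hT]; exact le_max_left _ _) (hcb i) (abs_nonneg _) hT0.le
    have e2 : (W.c₆ : ℝ) ^ 2 * |((a ^ 3).coeff i : ℝ)| ≤ T * M :=
      mul_le_mul (by rw [hT]; exact le_max_right _ _) (hca i) (abs_nonneg _) hT0.le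
    linarith)
  rw [Real.log_mul (by positivity) hT0.ne'] at h1
  have h2 : htW W = Real.log T := by rw [hT]; rfl
  linarith

open Classical in
/-- **the primes which divide the value of `f` divide the discriminant** -/
theorem sum_primes {n : ℕ} {a b : ℤ[X]} (hda : a.natDegree ≤ 2 * n) (hdb : b.natDegree ≤ 3 * n)
    {f : (𝓞 ℚ)[X]} (hf : f.map (algebraMap (𝓞 ℚ) ℚ) ∣ (a ^ 3 - b ^ 2).map (Int.castRingHom ℚ)) :
    ∃ N : ℕ, ∀ M : ℕ, N ≤ M → ∀ s : ℚ, aeval s (a ^ 3 - b ^ 2) ≠ 0 →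
      aeval s f ≠ 0 ∧ ∀ e : ℕ → ℝ, (∀ p, 0 ≤ e p) →
        ∑ v ∈ (dv f s).filter (fun v => M < pv v), e (pv v) * Real.log (Nv v) ≤
          ∑ p ∈ ((hv (2 * n) a s) ^ 3 - (hv (3 * n) b s) ^ 2).natAbs.primeFactors.filter
            (fun p => 5 ≤ p), e p * Real.log p := by
  obtain ⟨Q, hQ⟩ := hf
  obtain ⟨N, hN⟩ := fv_poly_le Q
  refine ⟨N + 5, fun M hM s hs => ?_⟩
  have ev : ∀ P : ℤ[X], (P.map (Int.castRingHom ℚ)).eval s = aeval s P := fun P => by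
    rw [eval_map, aeval_def]
    rfl
  have e1 : aeval s (a ^ 3 - b ^ 2) = aeval s f * Q.eval s := by
    rw [← ev, hQ, eval_mul, eval_map_algebraMap]
  have hfs : aeval s f ≠ 0 := by
    intro h
    rw [h, zero_mul] at e1
    exact hs e1
  refine ⟨hfs, fun e he => ?_⟩
  have hden : (s.den : ℚ) ≠ 0 := by exact_mod_cast s.den_nz
  obtain ⟨Z, hZ⟩ : ∃ Z : ℤ, Z = (hv (2 * n) a s) ^ 3 - (hv (3 * n) b s) ^ 2 := ⟨_, rfl⟩
  have eZ : (Z : ℚ) = (s.den : ℚ) ^ (6 * n) * aeval s (a ^ 3 - b ^ 2) := by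
    rw [hZ]
    push_cast
    rw [hv_eq hda, hv_eq hdb, map_sub, map_pow, map_pow]
    ring
  have hZ0 : Z ≠ 0 := by
    have : (Z : ℚ) ≠ 0 := by rw [eZ]; exact mul_ne_zero (pow_ne_zero _ hden) hs
    exact_mod_cast this
  rw [← hZ]
  have hmem : ∀ v ∈ (dv f s).filter (fun v => M < pv v),
      pv v ∈ Z.natAbs.primeFactors.filter (fun p => 5 ≤ p) := by
    intro v hv
    obtain ⟨hv1, hv2⟩ := Finset.mem_filter.1 hv
    obtain ⟨hv3, hv4⟩ := (mem_dv hfs).1 hv1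
    rw [Finset.mem_filter, Nat.mem_primeFactors]
    refine ⟨⟨pv_prime v, ?_, Int.natAbs_ne_zero.2 hZ0⟩, by omega⟩
    have h5 : fv v (Z : ℚ) < 1 := by
      rw [eZ, e1, map_mul, map_mul, map_pow]
      have h6 := hN v (by omega) s hv3
      have h7 : fv v (s.den : ℚ) ≤ 1 := by
        have := Pairs_int_le v (s.den : ℤ)
        exact_mod_cast this
      have h8 : fv v (s.den : ℚ) ^ (6 * n) ≤ 1 := pow_le_one₀ ((fv v).nonneg _) h7
      have h9 := (fv v).nonneg (aeval s f)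
      have h10 := (fv v).nonneg (Q.eval s)
      calc fv v (s.den : ℚ) ^ (6 * n) * (fv v (aeval s f) * fv v (Q.eval s))
          ≤ 1 * (fv v (aeval s f) * fv v (Q.eval s)) :=
            mul_le_mul_of_nonneg_right h8 (mul_nonneg h9 h10)
        _ = fv v (aeval s f) * fv v (Q.eval s) := one_mul _
        _ ≤ fv v (aeval s f) * 1 := mul_le_mul_of_nonneg_left h6 h9
        _ < 1 := by rw [mul_one]; exact hv4
    exact Int.natCast_dvd.1 (dvd_of_fv_lt h5)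
  calc ∑ v ∈ (dv f s).filter (fun v => M < pv v), e (pv v) * Real.log (Nv v)
      = ∑ v ∈ (dv f s).filter (fun v => M < pv v), e (pv v) * Real.log (pv v) := by
        refine Finset.sum_congr rfl fun v _ => ?_
        rw [Nv_eq]
    _ = ∑ p ∈ ((dv f s).filter (fun v => M < pv v)).image pv, e p * Real.log p := by
        rw [Finset.sum_image]
        intro v _ w _ h
        exact Pairs_inj h
    _ ≤ _ := by
        refine Finset.sum_le_sum_of_subset_of_nonneg ?_ ?_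
        · intro p hp
          obtain ⟨v, hv, rfl⟩ := Finset.mem_image.1 hp
          exact hmem v hv
        · intro p hp _
          refine mul_nonneg (he p) (Real.log_nonneg ?_)
          have := (Finset.mem_filter.1 hp).2
          have h5 : (5 : ℝ) ≤ p := by exact_mod_cast this
          linarith

end Pool.Agent.N751.RW
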