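import Mathlib
import Pool.Agent.N751.RW.Ineq
import Pool.Agent.Y670.RD.Dav

/-!
# The minimal case
-/

set_option autoImplicit false
set_option linter.unusedSectionVars false

namespace Pool.Agent.N751.RW

open NumberField IsDedekindDomain Finset Pool.Agent.H691R3 Pool.Agent.TH876.Loc
open Pool.Agent.N753.LS Pool.Agent.N753.SF Polynomial Height
open Pool.Agent.TH876.TM (Pairs_eq_one Pairs_pv_lt Pairs_inj Pairs_norm Pairs_int_le)
open Pool.Agent.H39R3 (GMin condW)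

/-- the exponent -/
noncomputable def kap (n : ℕ) : ℝ := max (3 + 3 * n / min ((n : ℝ) + 2) 4) (3 * n / 2)

theorem kap_small {n : ℕ} (hn4 : n ≤ 4) :
    kap n = 3 + 3 * n / min ((n : ℝ) + 2) 4 := by
  have hn : (n : ℝ) ≤ 4 := by exact_mod_cast hn4
  have hn0 : (0 : ℝ) ≤ n := Nat.cast_nonneg _
  refine max_eq_left ?_
  have h1 : 0 < min ((n : ℝ) + 2) 4 := lt_min (by linarith) (by norm_num)
  have h2 : min ((n : ℝ) + 2) 4 ≤ 4 := min_le_right _ _
  have h3 : 3 * (n : ℝ) / 4 ≤ 3 * n / min ((n : ℝ) + 2) 4 :=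
    div_le_div_of_nonneg_left (by positivity) h1 h2
  linarith

theorem kap_large {n : ℕ} (hn4 : 4 ≤ n) : kap n = 3 * n / 2 := by
  have hn : (4 : ℝ) ≤ n := by exact_mod_cast hn4
  refine max_eq_right ?_
  have h2 : min ((n : ℝ) + 2) 4 = 4 := min_eq_right (by linarith)
  rw [h2]
  linarith

theorem kap_ge {n : ℕ} : 3 ≤ kap n := by
  refine le_trans ?_ (le_max_left _ _)
  have hn0 : (0 : ℝ) ≤ n := Nat.cast_nonneg _
  have h1 : 0 < min ((n : ℝ) + 2) 4 := lt_min (by linarith) (by norm_num)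
  have : 0 ≤ 3 * (n : ℝ) / min ((n : ℝ) + 2) 4 := by positivity
  linarith

theorem kap_mono {m n : ℕ} (h : m ≤ n) : kap m ≤ kap n := by
  have hmn : (m : ℝ) ≤ n := by exact_mod_cast h
  have hm0 : (0 : ℝ) ≤ m := Nat.cast_nonneg _
  refine max_le_max ?_ (by linarith)
  have h1 : 0 < min ((m : ℝ) + 2) 4 := lt_min (by linarith) (by norm_num)
  have h2 : 0 < min ((n : ℝ) + 2) 4 := lt_min (by linarith) (by norm_num)
  have h3 : 3 * (m : ℝ) / min ((m : ℝ) + 2) 4 ≤ 3 * n / min ((n : ℝ) + 2) 4 := by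
    rw [div_le_div_iff₀ h1 h2]
    rcases le_total ((m : ℝ) + 2) 4 with e1 | e1
    · rw [min_eq_left e1]
      rcases le_total ((n : ℝ) + 2) 4 with e2 | e2
      · rw [min_eq_left e2]
        nlinarith
      · rw [min_eq_right e2]
        nlinarith
    · rw [min_eq_right e1, min_eq_right (by linarith)]
      nlinarith
  linarith

theorem condW_one {W : WeierstrassCurve ℤ} : 0 ≤ Real.log (condW W) := by
  refine Real.log_natCast_nonneg _

theorem fv_den {v : Pr ℚ} {s : ℚ} (hs : fv v s ≤ 1) : fv v (s.den : ℚ) = 1 := by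
  by_contra hcon
  have h1 : fv v (s.den : ℚ) ≤ 1 := by
    have := Pairs_int_le v (s.den : ℤ)
    exact_mod_cast this
  have h2 : fv v ((s.den : ℤ) : ℚ) < 1 := by
    rw [Int.cast_natCast]
    exact lt_of_le_of_ne h1 hcon
  have h3 := dvd_of_fv_lt h2
  have h4 : fv v ((s.num : ℤ) : ℚ) = 1 := by
    refine fv_one_of_not_dvd fun h => ?_
    have h5 : pv v ∣ s.num.natAbs := Int.natCast_dvd.1 h
    have h6 : pv v ∣ s.den := by exact_mod_cast h3
    have h7 := Nat.dvd_gcd h5 h6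
    rw [s.reduced] at h7
    exact (pv_prime v).one_lt.ne' (Nat.dvd_one.1 h7)
  have h5 : fv v s * fv v (s.den : ℚ) = 1 := by
    rw [← map_mul, Rat.mul_den_eq_num, h4]
  have h6 : 0 < fv v (s.den : ℚ) := (fv v).pos (by exact_mod_cast s.den_nz)
  rw [Int.cast_natCast] at h2
  have h7 := (fv v).nonneg s
  nlinarith

theorem fv_hv {N : ℕ} {f : ℤ[X]} (hN : f.natDegree ≤ N) {v : Pr ℚ} {s : ℚ} (hs : fv v s ≤ 1) :
    fv v (hv N f s : ℚ) = fv v (aeval s f) := by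
  rw [hv_eq hN, map_mul, map_pow, fv_den hs, one_pow, one_mul]

/-- the trivial bound -/
theorem triv (h3 : StEll3) {n : ℕ} {a b : ℤ[X]} (hda : a.natDegree ≤ 2 * n)
    (hdb : b.natDegree ≤ 3 * n) : ∃ C : ℝ, 0 ≤ C ∧ ∀ (s : ℚ) (W : WeierstrassCurve ℤ),
      aeval s a ≠ 0 → aeval s b ≠ 0 → aeval s (a ^ 3 - b ^ 2) ≠ 0 → GMin W → JRel W a b s →
        htW W ≤ 3 * Real.log (condW W) + 6 * n * logHeight₁ s + C := by
  obtain ⟨C0, hC0, h3⟩ := h3
  obtain ⟨C1, hC1, h1⟩ := max_le_ht (n := n) a b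
  refine ⟨C0 + C1, by positivity, fun s W ha hb hD hW hj => ?_⟩
  obtain ⟨hA, hB, hAB, u, hu, h4, h6⟩ := tw_data hda hdb ha hb hD hW hj
  have e1 := h3 W _ _ u hW hA hB hAB hu h4 h6
  have e2 := h1 s hA
  unfold htW
  linarith

open Classical in
/-- the primes above the bound -/
theorem sum_above {f : (𝓞 ℚ)[X]} (M : ℕ) (p : Pr ℚ → Prop) (s : ℚ) :
    ∑ v ∈ (dv f s).filter p, Real.log (Nv v) ≤
      ∑ v ∈ ((dv f s).filter (fun v => M < pv v)).filter p, Real.log (Nv v) +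
        ∑ v ∈ badP M, Real.log (Nv v) := by
  rw [← Finset.sum_filter_add_sum_filter_not ((dv f s).filter p) (fun v => M < pv v)]
  refine add_le_add (le_of_eq ?_) ?_
  · congr 1
    ext v
    simp only [Finset.mem_filter]
    tauto
  · refine Finset.sum_le_sum_of_subset_of_nonneg ?_ fun v _ _ => (log_Nv_pos v).le
    intro v hv
    rw [mem_badP]
    exact not_lt.1 (Finset.mem_filter.1 hv).2

/-- the inequality for few bad fibres -/
theorem case_small (h8 : StEll) (h3 : StEll3) {n : ℕ} {a b : ℤ[X]}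
    (hda : a.natDegree ≤ 2 * n) (hdb : b.natDegree ≤ 3 * n)
    {f : (𝓞 ℚ)[X]} (hf : f.map (algebraMap (𝓞 ℚ) ℚ) ∣ (a ^ 3 - b ^ 2).map (Int.castRingHom ℚ))
    {w w0 δ : ℝ} (hw0 : 0 < w0) (hnw : n ≤ w0) (hw : w0 ≤ w) (hδ : 0 ≤ δ) :
    ∃ C : ℝ, 0 ≤ C ∧ ∀ (s : ℚ) (W : WeierstrassCurve ℤ),
      aeval s a ≠ 0 → aeval s b ≠ 0 → aeval s (a ^ 3 - b ^ 2) ≠ 0 → GMin W → JRel W a b s →
      (w - δ) * logHeight₁ s ≤ ∑ v ∈ dv f s, Real.log (Nv v) →
        htW W ≤ (3 + 3 * n / w0) * Real.log (condW W) + 6 * δ * logHeight₁ s + C := by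
  classical
  obtain ⟨C3, hC3, h3⟩ := triv h3 hda hdb
  obtain ⟨C0, hC0, h8⟩ := h8
  obtain ⟨C1, hC1, h1⟩ := max_le_ht (n := n) a b
  obtain ⟨M, hM⟩ := sum_primes hda hdb hf
  obtain ⟨c, hc⟩ : ∃ c : ℝ, c = ∑ v ∈ badP M, Real.log (Nv v) := ⟨_, rfl⟩
  have hc0 : 0 ≤ c := by
    rw [hc]
    exact Finset.sum_nonneg fun v _ => (log_Nv_pos v).le
  refine ⟨C3 + (C0 + C1 + 6 * c), by positivity, fun s W ha hb hD hW hj hsum => ?_⟩
  have e3 := h3 s W ha hb hD hW hj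
  obtain ⟨hA, hB, hAB, u, hu, h4, h6⟩ := tw_data hda hdb ha hb hD hW hj
  have e1 := h8 W _ _ u 6 le_rfl hW hA hB hAB hu h4 h6
  have e2 := h1 s hA
  have hgain : ∀ p, gain 6 (hv (2 * n) a s) (hv (3 * n) b s) p = 6 := by
    intro p
    unfold gain
    split_ifs <;> norm_num
  obtain ⟨-, e4⟩ := hM M le_rfl s hD
  have e5 := e4 (fun _ => 6) (fun _ => by norm_num)
  rw [← Finset.mul_sum] at e5
  have e6 : ∑ p ∈ ((hv (2 * n) a s) ^ 3 - (hv (3 * n) b s) ^ 2).natAbs.primeFactors.filter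
      (fun p => 5 ≤ p), (6 : ℝ) * Real.log p =
      ∑ p ∈ ((hv (2 * n) a s) ^ 3 - (hv (3 * n) b s) ^ 2).natAbs.primeFactors.filter
      (fun p => 5 ≤ p), gain 6 (hv (2 * n) a s) (hv (3 * n) b s) p * Real.log p :=
    Finset.sum_congr rfl fun p _ => by rw [hgain]
  rw [e6] at e5
  have e7 := sum_above (f := f) M (fun _ => True) s
  rw [Finset.filter_true, Finset.filter_true, ← hc] at e7
  have hh : 0 ≤ logHeight₁ s := zero_le_logHeight₁ s
  have e8 : (w0 - δ) * logHeight₁ s ≤ (w - δ) * logHeight₁ s :=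
    mul_le_mul_of_nonneg_right (by linarith) hh
  obtain ⟨L, hL⟩ : ∃ L : ℝ, L = Real.log (condW W) := ⟨_, rfl⟩
  obtain ⟨h, hh'⟩ : ∃ h : ℝ, h = logHeight₁ s := ⟨_, rfl⟩
  obtain ⟨T, hT⟩ : ∃ T : ℝ, T = htW W := ⟨_, rfl⟩
  have hT' : Real.log (max (|(W.c₄ : ℝ)| ^ 3) ((W.c₆ : ℝ) ^ 2)) = T := by rw [hT]; rfl
  rw [hT'] at e1
  rw [← hL] at e1 e3 ⊢
  rw [← hh'] at e2 e3 e8 hh hsum ⊢
  rw [← hT] at e3 ⊢
  -- the exponent six
  have e9 : T ≤ 6 * L + (6 * n - 6 * (w0 - δ)) * h + (C0 + C1 + 6 * c) := by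
    linarith
  -- the combination
  obtain ⟨q, hq⟩ : ∃ q : ℝ, q = n / w0 := ⟨_, rfl⟩
  have hq0 : 0 ≤ q := by rw [hq]; positivity
  have hq1 : q ≤ 1 := by rw [hq, div_le_one hw0]; exact hnw
  have hqw : q * w0 = n := by rw [hq]; field_simp
  have e10 := mul_le_mul_of_nonneg_left e9 hq0
  have e11 := mul_le_mul_of_nonneg_left e3 (show 0 ≤ 1 - q by linarith)
  have e12 : 3 + 3 * (n : ℝ) / w0 = 3 + 3 * q := by rw [hq]; ring
  rw [e12]
  have e13 : q * ((6 * n - 6 * (w0 - δ)) * h) = 6 * n * q * h - 6 * n * h + 6 * q * δ * h := by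
    have : q * ((6 * n - 6 * (w0 - δ)) * h) = 6 * n * q * h - 6 * (q * w0) * h + 6 * q * δ * h := by
      ring
    rw [this, hqw]
  have e14 : 6 * q * δ * h ≤ 6 * δ * h := by
    have : q * (δ * h) ≤ 1 * (δ * h) := mul_le_mul_of_nonneg_right hq1 (mul_nonneg hδ hh)
    linarith
  have e15 : q * (C0 + C1 + 6 * c) ≤ C0 + C1 + 6 * c := by
    have : q * (C0 + C1 + 6 * c) ≤ 1 * (C0 + C1 + 6 * c) :=
      mul_le_mul_of_nonneg_right hq1 (by positivity)
    linarith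
  have e16 : (1 - q) * C3 ≤ C3 := by
    have : (1 - q) * C3 ≤ 1 * C3 := mul_le_mul_of_nonneg_right (by linarith) hC3
    linarith
  have e17 : T = q * T + (1 - q) * T := by ring
  rw [e17]
  nlinarith

end Pool.Agent.N751.RW
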