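import Mathlib
import Pool.Agent.N751.RW.Min

/-!
# The gains at the bad places
-/

set_option autoImplicit false
set_option linter.unusedSectionVars false

namespace Pool.Agent.N751.RW

open NumberField IsDedekindDomain Finset Pool.Agent.H691R3 Pool.Agent.TH876.Loc
open Pool.Agent.N753.LS Pool.Agent.N753.SF Polynomial Height
open Pool.Agent.TH876.TM (Pairs_eq_one Pairs_pv_lt Pairs_inj Pairs_norm Pairs_int_le)
open Pool.Agent.H39R3 (GMin condW)

theorem eval_toQ (P : ℤ[X]) (s : ℚ) : (P.map (Int.castRingHom ℚ)).eval s = aeval s P := by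
  rw [eval_map, aeval_def]
  rfl

/-- the valuation of an integer from its absolute value -/
theorem padic_eq {v : Pr ℚ} {z : ℤ} (hz : z ≠ 0) {k : ℕ}
    (h : Real.log (fv v (z : ℚ)) = -(k * Real.log (Nv v))) : padicValInt (pv v) z = k := by
  rw [log_fv_int v hz] at h
  have hN := log_Nv_pos v
  have h1 : ((padicValInt (pv v) z : ℕ) : ℝ) * Real.log (Nv v) = k * Real.log (Nv v) := by
    linarith
  exact_mod_cast mul_right_cancel₀ hN.ne' h1

theorem bad_bound (Bad : Finset (Pr ℚ)) : ∃ M : ℕ, ∀ v : Pr ℚ, M < pv v → v ∉ Bad := by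
  refine ⟨Bad.sup pv, fun v hv hvB => ?_⟩
  exact absurd (Finset.le_sup (f := pv) hvB) (not_le.2 hv)

theorem hv_ne {N : ℕ} {a : ℤ[X]} (hda : a.natDegree ≤ N) {s : ℚ} (has : aeval s a ≠ 0) :
    hv N a s ≠ 0 := by
  have h3 : (hv N a s : ℚ) ≠ 0 := by
    rw [hv_eq hda]
    exact mul_ne_zero (pow_ne_zero _ (by exact_mod_cast s.den_nz)) has
  exact_mod_cast h3

/-- the valuation of the value of a polynomial with a factor of multiplicity `α` -/
theorem val_mult {f : (𝓞 ℚ)[X]} (hf1 : 1 ≤ f.natDegree)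
    (hirr : Irreducible (f.map (algebraMap (𝓞 ℚ) ℚ))) {N : ℕ} {a : ℤ[X]}
    (hda : a.natDegree ≤ N) (ha0 : a ≠ 0) : ∃ (M : ℕ),
      ∀ v : Pr ℚ, M < pv v → ∀ s : ℚ, v ∈ dv f s → aeval s f ≠ 0 → aeval s a ≠ 0 →
        1 ≤ nu f v s ∧ padicValInt (pv v) (hv N a s) =
          multiplicity (f.map (algebraMap (𝓞 ℚ) ℚ)) (a.map (Int.castRingHom ℚ)) * nu f v s := by
  obtain ⟨P, hP⟩ : ∃ P : ℚ[X], P = f.map (algebraMap (𝓞 ℚ) ℚ) := ⟨_, rfl⟩
  obtain ⟨A, hA⟩ : ∃ A : ℚ[X], A = a.map (Int.castRingHom ℚ) := ⟨_, rfl⟩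
  obtain ⟨Bad, hBad⟩ := exists_badS f hirr.squarefree hf1
  obtain ⟨M1, hM1⟩ := bad_bound Bad
  rw [← hP] at hirr ⊢
  rw [← hA]
  have hA0 : A ≠ 0 := by
    rw [hA, Ne, Polynomial.map_eq_zero_iff Int.cast_injective]
    exact ha0
  have hfin : FiniteMultiplicity P A := FiniteMultiplicity.of_not_isUnit hirr.not_isUnit hA0
  obtain ⟨Q, hQ, hPQ⟩ := hfin.exists_eq_pow_mul_and_not_dvd
  obtain ⟨α, hα⟩ : ∃ α, α = multiplicity P A := ⟨_, rfl⟩
  rw [← hα] at hQ ⊢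
  have hcop : IsCoprime P Q := (hirr.coprime_iff_not_dvd).2 hPQ
  obtain ⟨M, hM⟩ := fv_coprime hcop
  refine ⟨M + M1, fun v hvM s hvs hfs has => ?_⟩
  obtain ⟨hs1, hs2⟩ := (mem_dv hfs).1 hvs
  have hlc : f.leadingCoeff ∉ v.asIdeal := (hBad v (hM1 v (by omega))).2.2
  refine ⟨(nu_pos_iff hlc hfs).2 ⟨hs1, hs2⟩, ?_⟩
  have ef : P.eval s = aeval s f := by rw [hP, eval_map_algebraMap]
  have h1 : fv v (Q.eval s) = 1 := hM v (by omega) s hs1 (by rw [ef]; exact hs2)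
  have h2 : fv v (hv N a s : ℚ) = fv v (aeval s f) ^ α := by
    rw [fv_hv hda hs1, ← eval_toQ, ← hA, hQ, eval_mul, eval_pow, map_mul, map_pow, h1, mul_one, ef]
  refine padic_eq (hv_ne hda has) ?_
  rw [h2, Real.log_pow]
  have h3 := mu_eq_nu hlc hfs
  rw [mu_small f hs1] at h3
  push_cast
  have h4 : Real.log (fv v (aeval s f)) = -(nu f v s * Real.log (Nv v)) := by linarith
  rw [h4]
  ring

theorem gain_ge {κ : ℝ} (hκ : 6 ≤ κ) (A B : ℤ) (p : ℕ) : 6 ≤ gain κ A B p := by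
  unfold gain
  split_ifs <;> linarith

/-- **the gains at a bad place** -/
theorem gain_val {n : ℕ} {a b : ℤ[X]} (hda : a.natDegree ≤ 2 * n) (hdb : b.natDegree ≤ 3 * n)
    (ha0 : a ≠ 0) (hb0 : b ≠ 0) {f : (𝓞 ℚ)[X]} (hf1 : 1 ≤ f.natDegree)
    (hirr : Irreducible (f.map (algebraMap (𝓞 ℚ) ℚ)))
    (hmin : ¬ ((f.map (algebraMap (𝓞 ℚ) ℚ)) ^ 2 ∣ a.map (Int.castRingHom ℚ) ∧
      (f.map (algebraMap (𝓞 ℚ) ℚ)) ^ 3 ∣ b.map (Int.castRingHom ℚ)))
    (hf : f.map (algebraMap (𝓞 ℚ) ℚ) ∣ (a ^ 3 - b ^ 2).map (Int.castRingHom ℚ)) :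
    ∃ l : ℕ, l.Prime ∧ l ≤ 3 ∧ ∃ M : ℕ, ∀ κ : ℝ,
      (∀ s : ℚ, aeval s f ≠ 0 → aeval s a ≠ 0 → aeval s b ≠ 0 → ∀ v ∈ dv f s, M < pv v →
        gain κ (hv (2 * n) a s) (hv (3 * n) b s) (pv v) = κ) ∨
      (∀ s : ℚ, aeval s f ≠ 0 → aeval s a ≠ 0 → aeval s b ≠ 0 → ∀ v ∈ dv f s, M < pv v →
        ¬ l ∣ nu f v s → gain κ (hv (2 * n) a s) (hv (3 * n) b s) (pv v) = 2 * κ - 6) := by
  obtain ⟨M1, h1⟩ := val_mult hf1 hirr hda ha0
  obtain ⟨M2, h2⟩ := val_mult hf1 hirr hdb hb0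
  have hA0 : a.map (Int.castRingHom ℚ) ≠ 0 := by
    rw [Ne, Polynomial.map_eq_zero_iff Int.cast_injective]
    exact ha0
  have hB0 : b.map (Int.castRingHom ℚ) ≠ 0 := by
    rw [Ne, Polynomial.map_eq_zero_iff Int.cast_injective]
    exact hb0
  rw [Polynomial.map_sub, Polynomial.map_pow, Polynomial.map_pow] at hf
  obtain ⟨P, hP⟩ : ∃ P : ℚ[X], P = f.map (algebraMap (𝓞 ℚ) ℚ) := ⟨_, rfl⟩
  obtain ⟨A, hA⟩ : ∃ A : ℚ[X], A = a.map (Int.castRingHom ℚ) := ⟨_, rfl⟩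
  obtain ⟨B, hB⟩ : ∃ B : ℚ[X], B = b.map (Int.castRingHom ℚ) := ⟨_, rfl⟩
  rw [← hP] at hirr hmin hf h1 h2
  rw [← hA] at hmin hf h1 hA0
  rw [← hB] at hmin hf h2 hB0
  have hfa : FiniteMultiplicity P A := FiniteMultiplicity.of_not_isUnit hirr.not_isUnit hA0
  have hfb : FiniteMultiplicity P B := FiniteMultiplicity.of_not_isUnit hirr.not_isUnit hB0
  have ha2 : 2 ≤ multiplicity P A ↔ P ^ 2 ∣ A := hfa.pow_dvd_iff_le_multiplicity.symm
  have hb3 : 3 ≤ multiplicity P B ↔ P ^ 3 ∣ B := hfb.pow_dvd_iff_le_multiplicity.symm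
  have ha1 : 1 ≤ multiplicity P A ↔ P ∣ A := by
    rw [← hfa.pow_dvd_iff_le_multiplicity, pow_one]
  have hb1 : 1 ≤ multiplicity P B ↔ P ∣ B := by
    rw [← hfb.pow_dvd_iff_le_multiplicity, pow_one]
  have hab : P ∣ A ↔ P ∣ B := by
    constructor
    · intro h
      have h3 : P ∣ B ^ 2 := by
        have := (dvd_sub_right (h.trans (dvd_pow_self A (by norm_num : (3 : ℕ) ≠ 0)))).1 hf
        exact this
      exact hirr.prime.dvd_of_dvd_pow h3
    · intro h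
      have h3 : P ∣ A ^ 3 := by
        have := (dvd_sub_left (h.trans (dvd_pow_self B (by norm_num : (2 : ℕ) ≠ 0)))).1 hf
        exact this
      exact hirr.prime.dvd_of_dvd_pow h3
  obtain ⟨α, hα⟩ : ∃ α, α = multiplicity P A := ⟨_, rfl⟩
  obtain ⟨β, hβ⟩ : ∃ β, β = multiplicity P B := ⟨_, rfl⟩
  rw [← hα] at ha1 ha2 h1
  rw [← hβ] at hb1 hb3 h2
  by_cases hα0 : α = 0
  · -- the place does not divide `a`
    refine ⟨2, Nat.prime_two, by norm_num, M1 + M2, fun κ => Or.inl fun s hfs has hbs v hvs hvM => ?_⟩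
    obtain ⟨-, e1⟩ := h1 v (by omega) s hvs hfs has
    rw [hα0, zero_mul] at e1
    unfold gain
    rw [if_pos]
    rintro ⟨h3, -⟩
    have : Fact (pv v).Prime := ⟨pv_prime v⟩
    have h4 : (pv v : ℤ) ^ 1 ∣ hv (2 * n) a s := by rwa [pow_one]
    rw [padicValInt_dvd_iff] at h4
    rcases h4 with h4 | h4
    · exact hv_ne hda has h4
    · omega
  · have hα1 : 1 ≤ α := by omega
    have hβ1 : 1 ≤ β := hb1.2 (hab.1 (ha1.1 hα1))
    have hmin' : ¬ (2 ≤ α ∧ 3 ≤ β) := fun h => hmin ⟨ha2.1 h.1, hb3.1 h.2⟩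
    refine ⟨if β = 1 then 3 else if α = 1 then 2 else 3, ?_, ?_, M1 + M2, fun κ =>
      Or.inr fun s hfs has hbs v hvs hvM hl => ?_⟩
    · split_ifs <;> norm_num
    · split_ifs <;> norm_num
    obtain ⟨hν, e1⟩ := h1 v (by omega) s hvs hfs has
    obtain ⟨-, e2⟩ := h2 v (by omega) s hvs hfs hbs
    have : Fact (pv v).Prime := ⟨pv_prime v⟩
    have hda' : (pv v : ℤ) ∣ hv (2 * n) a s := by
      have h4 : (pv v : ℤ) ^ 1 ∣ hv (2 * n) a s := by
        rw [padicValInt_dvd_iff]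
        right
        rw [e1]
        exact Nat.mul_pos hα1 hν
      rwa [pow_one] at h4
    have hdb' : (pv v : ℤ) ∣ hv (3 * n) b s := by
      have h4 : (pv v : ℤ) ^ 1 ∣ hv (3 * n) b s := by
        rw [padicValInt_dvd_iff]
        right
        rw [e2]
        exact Nat.mul_pos hβ1 hν
      rwa [pow_one] at h4
    unfold gain
    rw [if_neg (not_not_intro ⟨hda', hdb'⟩), e1, e2, if_neg]
    intro h6
    obtain ⟨ν, hν'⟩ : ∃ ν, ν = nu f v s := ⟨_, rfl⟩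
    rw [← hν'] at h6 hl hν
    have h7 : min (3 * (α * ν)) (2 * (β * ν)) = ν * min (3 * α) (2 * β) := by
      rw [← Nat.mul_min_mul_left]
      congr 1 <;> ring
    rw [h7] at h6
    by_cases hb1' : β = 1
    · rw [if_pos hb1'] at hl
      have h8 : min (3 * α) (2 * β) = 2 := by omega
      rw [h8] at h6
      omega
    · rw [if_neg hb1'] at hl
      by_cases ha1' : α = 1
      · rw [if_pos ha1'] at hl
        have h8 : min (3 * α) (2 * β) = 3 := by omega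
        rw [h8] at h6
        omega
      · rw [if_neg ha1'] at hl
        have h8 : min (3 * α) (2 * β) = 4 := by omega
        rw [h8] at h6
        omega

end Pool.Agent.N751.RW
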