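import Mathlib
import Pool.Agent.N751.RW.Large

/-!
# The sum of the gains
-/

set_option autoImplicit false
set_option linter.unusedSectionVars false

namespace Pool.Agent.N751.RW

open NumberField IsDedekindDomain Finset Pool.Agent.H691R3 Pool.Agent.TH876.Loc
open Pool.Agent.N753.LS Pool.Agent.N753.SF Polynomial Height UniqueFactorizationMonoid
open Pool.Agent.TH876.TM (Pairs_eq_one Pairs_pv_lt Pairs_inj Pairs_norm Pairs_int_le)
open Pool.Agent.H39R3 (GMin condW)

/-- the weight of a bad place of degree `d` -/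
def wt (d : ℕ) : ℕ := if d ≤ 5 then d else 4

/-- the point is outside the exceptional sets of `f` -/
def Ok (δ : ℝ) (f : (𝓞 ℚ)[X]) (s : ℚ) : Prop :=
  (f.natDegree ≤ 5 → s ∉ Wt δ f) ∧
    (6 ≤ f.natDegree → s ∉ Bt δ f ∧ ∀ l : ℕ, l.Prime → l ≤ 3 → s ∉ Ct δ f l)

open Classical in
/-- the radical of the value of `f` -/
theorem ok_sum {δ : ℝ} {f : (𝓞 ℚ)[X]} {s : ℚ} (h : Ok δ f s) :
    ((wt f.natDegree : ℕ) - δ) * logHeight₁ s ≤ ∑ v ∈ dv f s, Real.log (Nv v) := by
  unfold wt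
  by_cases h5 : f.natDegree ≤ 5
  · rw [if_pos h5]
    have h1 := h.1 h5
    by_contra hcon
    rw [not_le] at hcon
    exact h1 (Or.inr hcon)
  · rw [if_neg h5]
    have h1 := (h.2 (by omega)).1
    by_contra hcon
    rw [not_le] at hcon
    apply h1
    show _ < (min (f.natDegree : ℝ) 4 - δ) * logHeight₁ s
    rw [min_eq_right (by
      have : 4 ≤ f.natDegree := by omega
      exact_mod_cast this)]
    exact_mod_cast hcon

open Classical in
/-- **the gains at one bad place** -/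
theorem gain_irr {n : ℕ} {a b : ℤ[X]} (hda : a.natDegree ≤ 2 * n) (hdb : b.natDegree ≤ 3 * n)
    (ha0 : a ≠ 0) (hb0 : b ≠ 0) {f : (𝓞 ℚ)[X]} (hf1 : 1 ≤ f.natDegree)
    (hirr : Irreducible (f.map (algebraMap (𝓞 ℚ) ℚ)))
    (hmin : ¬ ((f.map (algebraMap (𝓞 ℚ) ℚ)) ^ 2 ∣ a.map (Int.castRingHom ℚ) ∧
      (f.map (algebraMap (𝓞 ℚ) ℚ)) ^ 3 ∣ b.map (Int.castRingHom ℚ)))
    (hf : f.map (algebraMap (𝓞 ℚ) ℚ) ∣ (a ^ 3 - b ^ 2).map (Int.castRingHom ℚ))
    {κ δ : ℝ} (hκ : 6 ≤ κ) (hδ : 0 ≤ δ) :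
    ∃ M0 : ℕ, ∀ M : ℕ, M0 ≤ M → ∃ C : ℝ, 0 ≤ C ∧ ∀ s : ℚ, aeval s f ≠ 0 → aeval s a ≠ 0 →
      aeval s b ≠ 0 → Ok δ f s → κ * ((wt f.natDegree : ℕ) - 4 * δ) * logHeight₁ s - C ≤
        ∑ v ∈ (dv f s).filter (fun v => M < pv v),
          gain κ (hv (2 * n) a s) (hv (3 * n) b s) (pv v) * Real.log (Nv v) := by
  obtain ⟨l, hl, hl3, M1, hg⟩ := gain_val hda hdb ha0 hb0 hf1 hirr hmin hf
  obtain ⟨Bad, hBad⟩ := exists_badS f hirr.squarefree hf1
  obtain ⟨M2, hM2⟩ := bad_bound Bad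
  have hf0 : f ≠ 0 := by
    rintro rfl
    simp at hf1
  obtain ⟨c1, hc1, hnu⟩ := sum_nu_le f hf0 Bad fun v hvB => (hBad v hvB).2.2
  refine ⟨M1 + M2, fun M hM => ?_⟩
  obtain ⟨c, hc⟩ : ∃ c : ℝ, c = ∑ v ∈ badP M, Real.log (Nv v) := ⟨_, rfl⟩
  have hc0 : 0 ≤ c := by
    rw [hc]
    exact Finset.sum_nonneg fun v _ => (log_Nv_pos v).le
  refine ⟨2 * κ * (3 * c + c1), by positivity, fun s hfs has hbs hok => ?_⟩
  have hh : 0 ≤ logHeight₁ s := zero_le_logHeight₁ s
  obtain ⟨S, hS⟩ : ∃ S, S = (dv f s).filter (fun v => M < pv v) := ⟨_, rfl⟩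
  have e1 := ok_sum hok
  have e2 := sum_above (f := f) M (fun _ => True) s
  rw [Finset.filter_true, Finset.filter_true, ← hc, ← hS] at e2
  rw [← hS]
  obtain ⟨L, hL⟩ : ∃ L, L = ∑ v ∈ S, Real.log (Nv v) := ⟨_, rfl⟩
  rw [← hL] at e2
  have hL0 : 0 ≤ L := by
    rw [hL]
    exact Finset.sum_nonneg fun v _ => (log_Nv_pos v).le
  obtain ⟨w, hw⟩ : ∃ w : ℝ, w = (wt f.natDegree : ℕ) := ⟨_, rfl⟩
  obtain ⟨h, hh'⟩ : ∃ h : ℝ, h = logHeight₁ s := ⟨_, rfl⟩
  rw [← hw] at e1 ⊢
  rw [← hh'] at e1 hh ⊢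
  have e3 : (w - δ) * h - c ≤ L := by linarith
  have hδh : 0 ≤ δ * h := mul_nonneg hδ hh
  have hmemS : ∀ v ∈ S, v ∈ dv f s ∧ M < pv v := by
    intro v hvS
    rw [hS] at hvS
    exact Finset.mem_filter.1 hvS
  rcases hg κ with hg | hg
  · have e4 : ∑ v ∈ S, gain κ (hv (2 * n) a s) (hv (3 * n) b s) (pv v) * Real.log (Nv v) =
        κ * L := by
      rw [hL, Finset.mul_sum]
      refine Finset.sum_congr rfl fun v hvS => ?_
      obtain ⟨h1, h2⟩ := hmemS v hvS
      rw [hg s hfs has hbs v h1 (by omega)]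
    rw [e4]
    have e5 := mul_le_mul_of_nonneg_left e3 (show 0 ≤ κ by linarith)
    nlinarith [mul_nonneg (show 0 ≤ κ by linarith) hδh, mul_nonneg (show 0 ≤ κ by linarith) hc0,
      mul_nonneg (show 0 ≤ κ by linarith) hc1]
  · obtain ⟨L', hL'⟩ : ∃ L', L' = ∑ v ∈ S.filter (fun v => ¬ l ∣ nu f v s), Real.log (Nv v) :=
      ⟨_, rfl⟩
    have e4 : 6 * L + (2 * κ - 12) * L' ≤
        ∑ v ∈ S, gain κ (hv (2 * n) a s) (hv (3 * n) b s) (pv v) * Real.log (Nv v) := by
      rw [hL, hL', Finset.mul_sum, Finset.mul_sum, Finset.sum_filter, ← Finset.sum_add_distrib]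
      refine Finset.sum_le_sum fun v hvS => ?_
      obtain ⟨h1, h2⟩ := hmemS v hvS
      have hN := (log_Nv_pos v).le
      by_cases h3 : ¬ l ∣ nu f v s
      · rw [if_pos h3, hg s hfs has hbs v h1 (by omega) h3]
        linarith
      · rw [if_neg h3, add_zero]
        exact mul_le_mul_of_nonneg_right (gain_ge hκ _ _ _) hN
    refine le_trans ?_ e4
    have e5 : (w - 2 * δ) * h + (w - 4) * h * (if f.natDegree ≤ 5 then 0 else 1) -
        (if f.natDegree ≤ 5 then 0 else 2) * h - (2 * c + c1) ≤ L' := by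
      by_cases h5 : f.natDegree ≤ 5
      · rw [if_pos h5, if_pos h5, mul_zero, zero_mul, add_zero, sub_zero]
        have h6 := hnu s hfs
        rw [hr_aff, ← hh'] at h6
        have hwd : w = f.natDegree := by
          rw [hw]
          unfold wt
          rw [if_pos h5]
        have h7 : S ⊆ dv f s \ Bad := by
          intro v hvS
          obtain ⟨h1, h2⟩ := hmemS v hvS
          exact Finset.mem_sdiff.2 ⟨h1, hM2 v (by omega)⟩
        have h8 : ∑ v ∈ S, (nu f v s : ℝ) * Real.log (Nv v) ≤ f.natDegree * h + c1 := by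
          refine le_trans (Finset.sum_le_sum_of_subset_of_nonneg h7 fun v _ _ => ?_) h6
          exact mul_nonneg (Nat.cast_nonneg _) (log_Nv_pos v).le
        have h9 : 2 * L - L' ≤ ∑ v ∈ S, (nu f v s : ℝ) * Real.log (Nv v) := by
          rw [hL, hL', Finset.mul_sum, Finset.sum_filter, ← Finset.sum_sub_distrib]
          refine Finset.sum_le_sum fun v hvS => ?_
          obtain ⟨h1, h2⟩ := hmemS v hvS
          have hN := (log_Nv_pos v).le
          have hν : 1 ≤ nu f v s := (mem_dv_iff hfs (hBad v (hM2 v (by omega))).2.2).1 h1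
          by_cases h3 : ¬ l ∣ nu f v s
          · rw [if_pos h3]
            have : (1 : ℝ) ≤ nu f v s := by exact_mod_cast hν
            nlinarith
          · rw [if_neg h3, sub_zero]
            have h10 : 2 ≤ nu f v s := by
              rw [not_not] at h3
              have := Nat.le_of_dvd (by omega) h3
              have := hl.two_le
              omega
            have : (2 : ℝ) ≤ nu f v s := by exact_mod_cast h10
            exact mul_le_mul_of_nonneg_right this hN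
        nlinarith
      · rw [if_neg h5, if_neg h5]
        have hwd : w = 4 := by
          rw [hw]
          unfold wt
          rw [if_neg h5]
          norm_num
        have h6 := (hok.2 (by omega)).2 l hl hl3
        have h7 : (2 - δ) * h ≤ ∑ v ∈ (dv f s).filter (fun v => ¬ l ∣ nu f v s),
            Real.log (Nv v) := by
          by_contra hcon
          rw [not_le, hh'] at hcon
          exact h6 hcon
        have h8 : ∑ v ∈ (dv f s).filter (fun v => ¬ l ∣ nu f v s), Real.log (Nv v) ≤ L' + c := by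
          rw [hL', hS, hc]
          convert sum_above (f := f) M (fun v => ¬ l ∣ nu f v s) s
        rw [hwd]
        nlinarith
    have hwpos : 1 ≤ w := by
      rw [hw]
      unfold wt
      split_ifs
      · exact_mod_cast hf1
      · norm_num
    have hk12 : 0 ≤ 2 * κ - 12 := by linarith
    have e6 := mul_le_mul_of_nonneg_left e5 hk12
    by_cases h5 : f.natDegree ≤ 5
    · rw [if_pos h5, if_pos h5, mul_zero, zero_mul, add_zero, sub_zero] at e6
      nlinarith [mul_nonneg (show 0 ≤ κ - 6 by linarith) hh, mul_nonneg (show 0 ≤ κ - 6 by linarith)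
        (mul_nonneg (show 0 ≤ w by linarith) hh), mul_nonneg (show 0 ≤ κ by linarith) hc0,
        mul_nonneg (show 0 ≤ κ by linarith) hc1]
    · rw [if_neg h5, if_neg h5] at e6
      have hwd : w = 4 := by
        rw [hw]
        unfold wt
        rw [if_neg h5]
        norm_num
      rw [hwd] at e3 e6 ⊢
      nlinarith [mul_nonneg (show 0 ≤ κ by linarith) hc0, mul_nonneg (show 0 ≤ κ by linarith) hc1]

end Pool.Agent.N751.RW
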