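import Mathlib
import Pool.Agent.N751.RW.Gain

/-!
# All bad places together
-/

set_option autoImplicit false
set_option linter.unusedSectionVars false

namespace Pool.Agent.N751.RW

open NumberField IsDedekindDomain Finset Pool.Agent.H691R3 Pool.Agent.TH876.Loc
open Pool.Agent.N753.LS Pool.Agent.N753.SF Polynomial Height UniqueFactorizationMonoid
open Pool.Agent.TH876.TM (Pairs_eq_one Pairs_pv_lt Pairs_inj Pairs_norm Pairs_int_le)
open Pool.Agent.H39R3 (GMin condW)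

open Classical in
/-- the primes which divide the value of `f` divide the discriminant -/
theorem mem_primes {n : ℕ} {a b : ℤ[X]} (hda : a.natDegree ≤ 2 * n) (hdb : b.natDegree ≤ 3 * n)
    {f : (𝓞 ℚ)[X]} (hf : f.map (algebraMap (𝓞 ℚ) ℚ) ∣ (a ^ 3 - b ^ 2).map (Int.castRingHom ℚ)) :
    ∃ N : ℕ, ∀ s : ℚ, aeval s (a ^ 3 - b ^ 2) ≠ 0 →
      aeval s f ≠ 0 ∧ ∀ v ∈ dv f s, N < pv v →
        pv v ∈ ((hv (2 * n) a s) ^ 3 - (hv (3 * n) b s) ^ 2).natAbs.primeFactors.filter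
            (fun p => 5 ≤ p) := by
  obtain ⟨Q, hQ⟩ := hf
  obtain ⟨N, hN⟩ := fv_poly_le Q
  refine ⟨N + 5, fun s hs => ?_⟩
  have e1 : aeval s (a ^ 3 - b ^ 2) = aeval s f * Q.eval s := by
    rw [← eval_toQ, hQ, eval_mul, eval_map_algebraMap]
  have hfs : aeval s f ≠ 0 := by
    intro h
    rw [h, zero_mul] at e1
    exact hs e1
  have hden : (s.den : ℚ) ≠ 0 := by exact_mod_cast s.den_nz
  obtain ⟨Z, hZ⟩ : ∃ Z : ℤ, Z = (hv (2 * n) a s) ^ 3 - (hv (3 * n) b s) ^ 2 := ⟨_, rfl⟩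
  have eZ : (Z : ℚ) = (s.den : ℚ) ^ (6 * n) * aeval s (a ^ 3 - b ^ 2) := by
    rw [hZ]
    push_cast
    rw [hv_eq hda, hv_eq hdb, map_sub, map_pow, map_pow]
    ring
  have hZ0 : Z ≠ 0 := by
    have : (Z : ℚ) ≠ 0 := by rw [eZ]; exact mul_ne_zero (pow_ne_zero _ hden) hs
    exact_mod_cast this
  rw [← hZ]
  refine ⟨hfs, fun v hv1 hv2 => ?_⟩
  obtain ⟨hv3, hv4⟩ := (mem_dv hfs).1 hv1
  rw [Finset.mem_filter, Nat.mem_primeFactors]
  refine ⟨⟨pv_prime v, ?_, Int.natAbs_ne_zero.2 hZ0⟩, by omega⟩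
  have h5 : fv v (Z : ℚ) < 1 := by
    rw [eZ, e1, map_mul, map_mul, map_pow]
    have h6 := hN v (by omega) s hv3
    have h7 : fv v (s.den : ℚ) ≤ 1 := by
      have := Pairs_int_le v (s.den : ℤ)
      exact_mod_cast this
    have h8 : fv v (s.den : ℚ) ^ (6 * n) ≤ 1 := pow_le_one₀ ((fv v).nonneg _) h7
    have h9 := (fv v).nonneg (aeval s f)
    have h10 := (fv v).nonneg (Q.eval s)
    calc fv v (s.den : ℚ) ^ (6 * n) * (fv v (aeval s f) * fv v (Q.eval s))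
        ≤ 1 * (fv v (aeval s f) * fv v (Q.eval s)) :=
          mul_le_mul_of_nonneg_right h8 (mul_nonneg h9 h10)
      _ = fv v (aeval s f) * fv v (Q.eval s) := one_mul _
      _ ≤ fv v (aeval s f) * 1 := mul_le_mul_of_nonneg_left h6 h9
      _ < 1 := by rw [mul_one]; exact hv4
  exact Int.natCast_dvd.1 (dvd_of_fv_lt h5)

theorem coprime_of_ne {D P Q : ℚ[X]} (hP : P ∈ primeFactors D) (hQ : Q ∈ primeFactors D)
    (h : P ≠ Q) : IsCoprime P Q := by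
  have hPi : Irreducible P := irreducible_of_normalized_factor P (mem_primeFactors.1 hP)
  have hQi : Irreducible Q := irreducible_of_normalized_factor Q (mem_primeFactors.1 hQ)
  refine (hPi.coprime_iff_not_dvd).2 fun hdvd => h ?_
  have h1 : Associated P Q := hPi.associated_of_dvd hQi hdvd
  rw [← normalize_normalized_factor P (mem_primeFactors.1 hP),
    ← normalize_normalized_factor Q (mem_primeFactors.1 hQ)]
  exact normalize_eq_normalize h1.dvd h1.dvd'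

open Classical in
/-- **the primes at all bad places divide the discriminant** -/
theorem sum_multi {n : ℕ} {a b : ℤ[X]} (hda : a.natDegree ≤ 2 * n) (hdb : b.natDegree ≤ 3 * n)
    {F : ℚ[X] → (𝓞 ℚ)[X]} {c : ℚ[X] → ℚ} (hc : ∀ P, c P ≠ 0)
    (hF : ∀ P, (F P).map (algebraMap (𝓞 ℚ) ℚ) = C (c P) * P) :
    ∃ N : ℕ, ∀ M : ℕ, N ≤ M → ∀ s : ℚ, aeval s (a ^ 3 - b ^ 2) ≠ 0 →
      (∀ P ∈ primeFactors ((a ^ 3 - b ^ 2).map (Int.castRingHom ℚ)), aeval s (F P) ≠ 0) ∧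
      ∀ e : ℕ → ℝ, (∀ p, 0 ≤ e p) →
        ∑ P ∈ primeFactors ((a ^ 3 - b ^ 2).map (Int.castRingHom ℚ)),
          ∑ v ∈ (dv (F P) s).filter (fun v => M < pv v), e (pv v) * Real.log (Nv v) ≤
          ∑ p ∈ ((hv (2 * n) a s) ^ 3 - (hv (3 * n) b s) ^ 2).natAbs.primeFactors.filter
            (fun p => 5 ≤ p), e p * Real.log p := by
  obtain ⟨D, hD⟩ : ∃ D : ℚ[X], D = (a ^ 3 - b ^ 2).map (Int.castRingHom ℚ) := ⟨_, rfl⟩
  obtain ⟨I, hI⟩ : ∃ I, I = primeFactors D := ⟨_, rfl⟩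
  rw [← hD, ← hI]
  have h1 : ∀ P ∈ I, ∃ N : ℕ, ∀ s : ℚ, aeval s (a ^ 3 - b ^ 2) ≠ 0 →
      aeval s (F P) ≠ 0 ∧ ∀ v ∈ dv (F P) s, N < pv v →
        pv v ∈ ((hv (2 * n) a s) ^ 3 - (hv (3 * n) b s) ^ 2).natAbs.primeFactors.filter
            (fun p => 5 ≤ p) := by
    intro P hP
    refine mem_primes hda hdb ?_
    rw [hF, ← hD]
    refine (assoc_clear (hc P) P).dvd_iff_dvd_left.2 (dvd_of_mem_normalizedFactors ?_)
    rw [hI] at hP
    exact mem_primeFactors.1 hP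
  have h2 : ∀ P ∈ I, ∀ Q ∈ I, P ≠ Q → ∃ N : ℕ, ∀ v : Pr ℚ, N < pv v → ∀ x : ℚ,
      fv v x ≤ 1 → fv v (P.eval x) < 1 → fv v (Q.eval x) = 1 := by
    intro P hP Q hQ hPQ
    rw [hI] at hP hQ
    exact fv_coprime (coprime_of_ne hP hQ hPQ)
  have h3 : ∀ P : ℚ[X], ∃ N : ℕ, ∀ v : Pr ℚ, N < pv v → fv v (c P) = 1 := fun P =>
    fv_unit (c P) (hc P)
  choose! N1 hN1 using h1
  choose! N2 hN2 using h2
  choose N3 hN3 using h3
  refine ⟨∑ P ∈ I, N1 P + ∑ P ∈ I, ∑ Q ∈ I, N2 P Q + ∑ P ∈ I, N3 P, fun M hM s hs => ?_⟩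
  have hM1 : ∀ P ∈ I, N1 P ≤ M := fun P hP => by
    have := Finset.single_le_sum (f := N1) (fun _ _ => Nat.zero_le _) hP
    omega
  have hM3 : ∀ P ∈ I, N3 P ≤ M := fun P hP => by
    have := Finset.single_le_sum (f := N3) (fun _ _ => Nat.zero_le _) hP
    omega
  have hM2 : ∀ P ∈ I, ∀ Q ∈ I, N2 P Q ≤ M := fun P hP Q hQ => by
    have e1 := Finset.single_le_sum (f := fun Q => N2 P Q) (fun _ _ => Nat.zero_le _) hQ
    have e2 := Finset.single_le_sum (f := fun P => ∑ Q ∈ I, N2 P Q) (fun _ _ => Nat.zero_le _) hP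
    beta_reduce at e1 e2
    omega
  refine ⟨fun P hP => (hN1 P hP s hs).1, fun e he => ?_⟩
  have hdis : (I : Set ℚ[X]).PairwiseDisjoint fun P => (dv (F P) s).filter fun v => M < pv v := by
    intro P hP Q hQ hPQ
    rw [Function.onFun, Finset.disjoint_left]
    intro v hv1 hv2
    obtain ⟨hv1, hvM⟩ := Finset.mem_filter.1 hv1
    obtain ⟨hv2, -⟩ := Finset.mem_filter.1 hv2
    obtain ⟨h4, h5⟩ := (mem_dv (hN1 P hP s hs).1).1 hv1
    obtain ⟨-, h6⟩ := (mem_dv (hN1 Q hQ s hs).1).1 hv2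
    have e1 : ∀ R ∈ I, fv v (aeval s (F R)) = fv v (R.eval s) := by
      intro R hR
      rw [← eval_map_algebraMap, hF, eval_mul, eval_C, map_mul, hN3 R v (by
        have := hM3 R hR
        omega), one_mul]
    rw [e1 P hP] at h5
    rw [e1 Q hQ] at h6
    have h7 := hN2 P hP Q hQ hPQ v (by
      have := hM2 P hP Q hQ
      omega) s h4 h5
    rw [h7] at h6
    exact lt_irrefl _ h6
  rw [← Finset.sum_biUnion hdis]
  obtain ⟨T, hT⟩ : ∃ T, T = I.biUnion fun P => (dv (F P) s).filter fun v => M < pv v := ⟨_, rfl⟩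
  rw [← hT]
  calc ∑ v ∈ T, e (pv v) * Real.log (Nv v)
      = ∑ v ∈ T, e (pv v) * Real.log (pv v) := by
        refine Finset.sum_congr rfl fun v _ => ?_
        rw [Nv_eq]
    _ = ∑ p ∈ T.image pv, e p * Real.log p := by
        rw [Finset.sum_image]
        intro v _ w _ h
        exact Pairs_inj h
    _ ≤ _ := by
        refine Finset.sum_le_sum_of_subset_of_nonneg ?_ ?_
        · intro p hp
          obtain ⟨v, hv1, rfl⟩ := Finset.mem_image.1 hp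
          rw [hT, Finset.mem_biUnion] at hv1
          obtain ⟨P, hP, hv1⟩ := hv1
          obtain ⟨hv1, hvM⟩ := Finset.mem_filter.1 hv1
          exact (hN1 P hP s hs).2 v hv1 (by
            have := hM1 P hP
            omega)
        · intro p hp _
          refine mul_nonneg (he p) (Real.log_nonneg ?_)
          have := (Finset.mem_filter.1 hp).2
          have h5 : (5 : ℝ) ≤ p := by exact_mod_cast this
          linarith

/-- the weight of the bad places -/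
noncomputable def wgt (a b : ℤ[X]) : ℕ :=
  ∑ P ∈ primeFactors ((a ^ 3 - b ^ 2).map (Int.castRingHom ℚ)), wt P.natDegree

open Classical in
/-- **the sum of the gains at all bad places** -/
theorem gain_all {n : ℕ} {a b : ℤ[X]} (hda : a.natDegree ≤ 2 * n) (hdb : b.natDegree ≤ 3 * n)
    (ha0 : a ≠ 0) (hb0 : b ≠ 0) (hmin : ∀ π : ℚ[X], Irreducible π →
      ¬ (π ^ 2 ∣ a.map (Int.castRingHom ℚ) ∧ π ^ 3 ∣ b.map (Int.castRingHom ℚ)))
    {F : ℚ[X] → (𝓞 ℚ)[X]} {c : ℚ[X] → ℚ} (hc : ∀ P, c P ≠ 0)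
    (hF : ∀ P, (F P).map (algebraMap (𝓞 ℚ) ℚ) = C (c P) * P)
    {κ δ : ℝ} (hκ : 6 ≤ κ) (hδ : 0 ≤ δ) :
    ∃ C : ℝ, 0 ≤ C ∧ ∀ s : ℚ, aeval s a ≠ 0 → aeval s b ≠ 0 → aeval s (a ^ 3 - b ^ 2) ≠ 0 →
      (∀ P ∈ primeFactors ((a ^ 3 - b ^ 2).map (Int.castRingHom ℚ)), Ok δ (F P) s) →
      κ * ((wgt a b : ℕ) - 4 * (primeFactors ((a ^ 3 - b ^ 2).map (Int.castRingHom ℚ))).card * δ) *
        logHeight₁ s - C ≤
        ∑ p ∈ ((hv (2 * n) a s) ^ 3 - (hv (3 * n) b s) ^ 2).natAbs.primeFactors.filter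
            (fun p => 5 ≤ p), gain κ (hv (2 * n) a s) (hv (3 * n) b s) p * Real.log p := by
  obtain ⟨N, hN⟩ := sum_multi hda hdb hc hF
  unfold wgt
  obtain ⟨I, hI⟩ : ∃ I, I = primeFactors ((a ^ 3 - b ^ 2).map (Int.castRingHom ℚ)) := ⟨_, rfl⟩
  rw [← hI] at hN ⊢
  have h1 : ∀ P ∈ I, ∃ M0 : ℕ, ∀ M : ℕ, M0 ≤ M → ∃ C : ℝ, 0 ≤ C ∧ ∀ s : ℚ, aeval s (F P) ≠ 0 →
      aeval s a ≠ 0 → aeval s b ≠ 0 → Ok δ (F P) s →
      κ * ((wt P.natDegree : ℕ) - 4 * δ) * logHeight₁ s - C ≤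
        ∑ v ∈ (dv (F P) s).filter (fun v => M < pv v),
          gain κ (hv (2 * n) a s) (hv (3 * n) b s) (pv v) * Real.log (Nv v) := by
    intro P hP
    rw [hI] at hP
    have hPi : Irreducible P := irreducible_of_normalized_factor P (mem_primeFactors.1 hP)
    have hirr : Irreducible ((F P).map (algebraMap (𝓞 ℚ) ℚ)) := by
      rw [hF]
      exact (assoc_clear (hc P) P).irreducible_iff.2 hPi
    have hdeg := deg_clear (hc P) (hF P)
    rw [← hdeg]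
    refine gain_irr hda hdb ha0 hb0 ?_ hirr (hmin _ hirr) ?_ hκ hδ
    · rw [hdeg]
      exact hPi.natDegree_pos
    · rw [hF]
      exact (assoc_clear (hc P) P).dvd_iff_dvd_left.2
        (dvd_of_mem_normalizedFactors (mem_primeFactors.1 hP))
  choose! M0 h1 using h1
  obtain ⟨M, hM⟩ : ∃ M, M = N + ∑ P ∈ I, M0 P := ⟨_, rfl⟩
  have h2 : ∀ P ∈ I, ∃ C : ℝ, 0 ≤ C ∧ ∀ s : ℚ, aeval s (F P) ≠ 0 →
      aeval s a ≠ 0 → aeval s b ≠ 0 → Ok δ (F P) s →
      κ * ((wt P.natDegree : ℕ) - 4 * δ) * logHeight₁ s - C ≤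
        ∑ v ∈ (dv (F P) s).filter (fun v => M < pv v),
          gain κ (hv (2 * n) a s) (hv (3 * n) b s) (pv v) * Real.log (Nv v) := by
    intro P hP
    refine h1 P hP M ?_
    have := Finset.single_le_sum (f := M0) (fun _ _ => Nat.zero_le _) hP
    omega
  choose! C hC h2 using h2
  refine ⟨∑ P ∈ I, C P, Finset.sum_nonneg fun P hP => hC P hP, fun s has hbs hDs hok => ?_⟩
  obtain ⟨h3, h4⟩ := hN M (by omega) s hDs
  refine le_trans ?_ (h4 (fun p => gain κ (hv (2 * n) a s) (hv (3 * n) b s) p) fun p =>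
    (by norm_num : (0 : ℝ) ≤ 6).trans (gain_ge hκ _ _ _))
  have h5 : ∑ P ∈ I, (κ * ((wt P.natDegree : ℕ) - 4 * δ) * logHeight₁ s - C P) ≤
      ∑ P ∈ I, ∑ v ∈ (dv (F P) s).filter (fun v => M < pv v),
        gain κ (hv (2 * n) a s) (hv (3 * n) b s) (pv v) * Real.log (Nv v) :=
    Finset.sum_le_sum fun P hP => h2 P hP s (h3 P hP) has hbs (hok P hP)
  refine le_trans (le_of_eq ?_) h5
  rw [Finset.sum_sub_distrib, ← Finset.sum_mul, ← Finset.mul_sum, Finset.sum_sub_distrib,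
    Finset.sum_const, nsmul_eq_mul]
  push_cast
  ring

end Pool.Agent.N751.RW
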