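import Pool.Agent.N751.RW.Stm
import Pool.Agent.N753.SF.CellZ
import Pool.Agent.N753.LS.Weil

/-!
# RW/3: the residue classes of the points at which `f (X) (X - z) ^ k` has values in one class of
`l`-th powers
-/

set_option autoImplicit false

namespace Pool.Agent.N751.RW

open NumberField IsDedekindDomain Finset Pool.Agent.H691R3 Pool.Agent.TH876.Loc
open Pool.Agent.N753.LS Pool.Agent.N753.SF Polynomial

open Classical in
/-- the number of `x` for which `u f(x)` is an `l`-th power is at most `|F| / l + O(√|F|)` -/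
theorem weil_pow (l : ℕ) (hl : l.Prime) (d : ℕ) : ∃ M : ℝ, 0 ≤ M ∧ ∀ (F : Type) [Field F] [Fintype F] (f : F[X]),
    l ∣ Fintype.card F - 1 → 1 ≤ f.natDegree → f.natDegree ≤ d →
    (∀ (c : F) (h : F[X]), f ≠ C c * h ^ l) → ∀ u : F, u ≠ 0 →
    ((univ.filter fun x : F => f.eval x = 0 ∨ ∃ w : F, f.eval x = u * w ^ l).card : ℝ) ≤
      (Fintype.card F : ℝ) / l + M * Real.sqrt (Fintype.card F) := by
  obtain ⟨C0, hC0, h0⟩ := Pool.Agent.H471R4.BW.crd
    (Pool.Agent.H471R4.BW.cor (Pool.Agent.H471R4.BW.nv1 Pool.Agent.H471R4.BW.nv0)) l d hl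
  refine ⟨C0 + d, by positivity, ?_⟩
  intro F _ _ f hodd hf1 hfd hns u hu
  obtain ⟨Q, hQ⟩ : ∃ Q, l * Q + 1 = Fintype.card F := by
    obtain ⟨Q, hQ⟩ := hodd
    have : 0 < Fintype.card F := Fintype.card_pos
    exact ⟨Q, by omega⟩
  have hs1 : 1 ≤ Real.sqrt (Fintype.card F) := by
    rw [Real.one_le_sqrt]
    exact_mod_cast Fintype.card_pos
  have hss : Real.sqrt (Fintype.card F) * Real.sqrt (Fintype.card F) = Fintype.card F :=
    Real.mul_self_sqrt (Nat.cast_nonneg _)
  have hf0 : f ≠ 0 := by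
    rintro rfl
    simp at hf1
  by_cases hbig : d < Fintype.card F
  · -- a point where `f` does not vanish
    obtain ⟨c, hc⟩ : ∃ c : F, f.eval c ≠ 0 := by
      by_contra hcon
      push Not at hcon
      have h1 : (univ : Finset F) ⊆ f.roots.toFinset := by
        intro x _
        rw [Multiset.mem_toFinset, mem_roots hf0]
        exact hcon x
      have h2 := (Finset.card_le_card h1).trans ((Multiset.toFinset_card_le _).trans (card_roots' f))
      rw [Finset.card_univ] at h2
      omega
    obtain ⟨g, hg⟩ : ∃ g, g = f.comp (X + C c) := ⟨_, rfl⟩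
    have hge : ∀ x, g.eval x = f.eval (x + c) := by
      intro x
      rw [hg, eval_comp]
      simp
    have hgf : g.comp (X - C c) = f := by
      rw [hg, comp_assoc]
      simp
    have hgd : g.natDegree = f.natDegree := by
      rw [hg, natDegree_comp, natDegree_X_add_C, mul_one]
    have hgns : ∀ (c' : F) (h : F[X]), g ≠ C c' * h ^ l := by
      intro c' h' he
      apply hns c' (h'.comp (X - C c))
      rw [← hgf, he, mul_comp, C_comp, pow_comp]
    have h1 := h0 F g (by rw [hgd]; exact hf1) (by rw [hgd]; exact hfd)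
      (by rw [hge, zero_add]; exact hc) hgns (u ^ Q) Q hQ
    have h2 : (univ.filter fun x : F => f.eval x = 0 ∨ ∃ w : F, f.eval x = u * w ^ l).card ≤
        (univ.filter fun x : F => g.eval x = 0 ∨ g.eval x ^ Q = u ^ Q).card := by
      refine Finset.card_le_card_of_injOn (fun x => x - c) ?_ ?_
      · intro x hx
        rw [Finset.mem_coe, Finset.mem_filter] at hx ⊢
        refine ⟨Finset.mem_univ _, ?_⟩
        show g.eval (x - c) = 0 ∨ g.eval (x - c) ^ Q = u ^ Q
        rw [hge, sub_add_cancel]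
        by_cases hz : f.eval x = 0
        · exact Or.inl hz
        · rcases hx.2 with h | ⟨w, hw⟩
          · exact Or.inl h
          · right
            have hw0 : w ≠ 0 := by
              rintro rfl
              apply hz
              rw [hw, zero_pow hl.ne_zero, mul_zero]
            rw [hw, mul_pow, ← pow_mul, show l * Q = Fintype.card F - 1 by omega,
              FiniteField.pow_card_sub_one_eq_one w hw0, mul_one]
      · intro x _ y _ hxy
        exact sub_left_injective hxy
    have h3 : ((univ.filter fun x : F => f.eval x = 0 ∨ ∃ w : F, f.eval x = u * w ^ l).card : ℝ) ≤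
        ((univ.filter fun x : F => g.eval x = 0 ∨ g.eval x ^ Q = u ^ Q).card : ℝ) := by
      exact_mod_cast h2
    refine h3.trans (h1.trans ?_)
    have h4 : (0 : ℝ) ≤ d * Real.sqrt (Fintype.card F) := by positivity
    push_cast
    linarith
  · have h1 : ((univ.filter fun x : F => f.eval x = 0 ∨ ∃ w : F, f.eval x = u * w ^ l).card : ℝ) ≤
        Fintype.card F := by
      exact_mod_cast Finset.card_le_univ _
    have h2 : (Fintype.card F : ℝ) ≤ d := by exact_mod_cast not_lt.1 hbig
    have h3 : (0 : ℝ) ≤ (Fintype.card F : ℝ) / l := by positivity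
    have h4 : (0 : ℝ) ≤ C0 * Real.sqrt (Fintype.card F) := by positivity
    have h5 : (d : ℝ) ≤ d * Real.sqrt (Fintype.card F) := by
      have : (0 : ℝ) ≤ d := Nat.cast_nonneg _
      nlinarith
    linarith

/-- a separable polynomial times a power of a linear one is not an `l`-th power -/
theorem not_pow {F : Type} [Field F] {l : ℕ} (hl : 2 ≤ l) (f a b : F[X]) {n : F} (hn : n ≠ 0)
    (hab : a * f + b * derivative f = C n) (hd : 2 ≤ f.natDegree) (ζ : F) (k : ℕ) (c : F)
    (h : F[X]) : f * (X - C ζ) ^ k ≠ C c * h ^ l := by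
  classical
  intro he
  let L := AlgebraicClosure F
  let i := algebraMap F L
  have hf0 : f ≠ 0 := by
    rintro rfl
    simp at hd
  have hsep : (f.map i).Separable := by
    refine ⟨C (i n)⁻¹ * a.map i, C (i n)⁻¹ * b.map i, ?_⟩
    have h1 := congrArg (Polynomial.map i) hab
    rw [Polynomial.map_add, Polynomial.map_mul, Polynomial.map_mul, Polynomial.map_C,
      ← derivative_map] at h1
    have h3 : i n ≠ 0 := by
      intro h0
      exact hn (i.injective (by rw [h0, map_zero]))
    rw [mul_assoc, mul_assoc, ← mul_add, h1, ← C_mul, inv_mul_cancel₀ h3, C_1]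
  have hcard : (f.map i).roots.card = f.natDegree := by
    rw [← natDegree_map i, ← (IsAlgClosed.splits (f.map i)).natDegree_eq_card_roots]
  have hnd := nodup_roots hsep
  obtain ⟨ρ, hρ, hρζ⟩ : ∃ ρ ∈ (f.map i).roots, ρ ≠ i ζ := by
    by_contra hcon
    push Not at hcon
    have h3 := Multiset.eq_replicate_card.2 hcon
    rw [hcard] at h3
    rw [h3, Multiset.nodup_iff_count_le_one] at hnd
    have h4 := hnd (i ζ)
    rw [Multiset.count_replicate_self] at h4
    omega
  have hfρ : (f.map i).eval ρ = 0 := (mem_roots'.1 hρ).2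
  have hc0 : c ≠ 0 := by
    rintro rfl
    rw [C_0, zero_mul, mul_eq_zero] at he
    rcases he with h3 | h3
    · exact hf0 h3
    · exact X_sub_C_ne_zero ζ (eq_zero_of_pow_eq_zero h3)
  have he' := congrArg (Polynomial.map i) he
  simp only [Polynomial.map_mul, Polynomial.map_sub, Polynomial.map_X, Polynomial.map_C,
    Polynomial.map_pow] at he'
  have h3 : (h.map i).eval ρ = 0 := by
    have h4 := congrArg (Polynomial.eval ρ) he'
    rw [eval_mul, hfρ, zero_mul, eval_mul, eval_C, eval_pow] at h4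
    have h5 : i c ≠ 0 := fun h0 => hc0 (i.injective (by rw [h0, map_zero]))
    exact pow_eq_zero_iff (by omega : l ≠ 0) |>.1 ((mul_eq_zero.1 h4.symm).resolve_left h5)
  have h4 := congrArg (fun p => Polynomial.eval ρ (derivative p)) he'
  have hl1 : l - 1 ≠ 0 := by omega
  simp only [derivative_mul, derivative_C, derivative_pow, eval_add,
    eval_mul, eval_C, hfρ, h3, eval_pow, eval_zero, zero_mul, mul_zero,
    zero_pow hl1, add_zero] at h4
  have h5 : eval ρ ((X - C (i ζ)) ^ k) ≠ 0 := by
    rw [eval_pow, eval_sub, eval_X, eval_C]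
    exact pow_ne_zero _ (sub_ne_zero.2 hρζ)
  have h6 : eval ρ (derivative (f.map i)) = 0 := (mul_eq_zero.1 h4).resolve_right h5
  obtain ⟨a', b', hab'⟩ := hsep
  have h7 := congrArg (Polynomial.eval ρ) hab'
  rw [eval_add, eval_mul, eval_mul, hfρ, h6, mul_zero, mul_zero, add_zero, eval_one] at h7
  exact zero_ne_one h7

variable {K : Type} [Field K] [NumberField K]

open Classical in
/-- **the number of classes** -/
theorem cell_gen (l : ℕ) (hl : l.Prime) (d : ℕ) : ∃ M : ℝ, 0 ≤ M ∧ ∀ v : Pr K, l ∣ Fintype.card (kk v) - 1 →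
    ∀ g : (kk v)[X], 1 ≤ g.natDegree → g.natDegree ≤ d →
      (∀ (c : kk v) (h : (kk v)[X]), g ≠ C c * h ^ l) → ∀ S : Finset K,
        (∀ x ∈ S, ∀ y ∈ S, v.valuation K x ≤ 1 → v.valuation K y ≤ 1 → g.eval (rd v y) ≠ 0 →
          ∃ w : kk v, g.eval (rd v x) = g.eval (rd v y) * w ^ l) →
            ((S.image (cls v)).card : ℝ) ≤ Nv v / l + M * Real.sqrt (Nv v) := by
  obtain ⟨M, hM, hW⟩ := weil_pow l hl d
  refine ⟨M + (d + 1), by positivity, fun v hodd g hg1 hgd hgs S hS => ?_⟩
  have hs1 : 1 ≤ Real.sqrt (Nv v) := by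
    rw [Real.one_le_sqrt]
    linarith [two_le_Nv v]
  have hN0 : 0 ≤ Nv v := by linarith [two_le_Nv v]
  have hd0 : (0 : ℝ) ≤ d := Nat.cast_nonneg _
  have hg0 : g ≠ 0 := by
    rintro rfl
    simp at hg1
  have hlast : ∀ B : Finset (kk v), S.image (cls v) ⊆ insert none (B.image some) →
      ((S.image (cls v)).card : ℝ) ≤ B.card + 1 := by
    intro B hB
    have h2 := ((Finset.card_le_card hB).trans (Finset.card_insert_le _ _)).trans
      (Nat.add_le_add_right Finset.card_image_le 1)
    exact_mod_cast h2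
  have h6 : (1 : ℝ) ≤ (d + 1) * Real.sqrt (Nv v) := by nlinarith
  by_cases hcase : ∃ y ∈ S, v.valuation K y ≤ 1 ∧ g.eval (rd v y) ≠ 0
  · obtain ⟨y, hyS, hy, hy0⟩ := hcase
    have h5 := hlast (univ.filter fun ξ : kk v => g.eval ξ = 0 ∨ ∃ w : kk v, g.eval ξ =
          g.eval (rd v y) * w ^ l) (by
      intro c hc
      obtain ⟨x, hx, rfl⟩ := Finset.mem_image.1 hc
      rw [Finset.mem_insert]
      by_cases hx1 : v.valuation K x ≤ 1
      · right
        rw [cls_of_le v hx1, Finset.mem_image]
        exact ⟨rd v x, Finset.mem_filter.2 ⟨Finset.mem_univ _,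
          Or.inr (hS x hx y hyS hx1 hy hy0)⟩, rfl⟩
      · left
        exact cls_of_not v hx1)
    have h4 := hW (kk v) g hodd hg1 hgd hgs _ hy0
    rw [card_kk] at h4
    linarith
  · push Not at hcase
    have h5 := hlast g.roots.toFinset (by
      intro c hc
      obtain ⟨x, hx, rfl⟩ := Finset.mem_image.1 hc
      rw [Finset.mem_insert]
      by_cases hx1 : v.valuation K x ≤ 1
      · right
        rw [cls_of_le v hx1, Finset.mem_image]
        refine ⟨rd v x, ?_, rfl⟩
        rw [Multiset.mem_toFinset, mem_roots hg0]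
        exact hcase x hx hx1
      · left
        exact cls_of_not v hx1)
    have h3 : (g.roots.toFinset.card : ℝ) ≤ d := by
      exact_mod_cast (Multiset.toFinset_card_le _).trans ((card_roots' _).trans hgd)
    have h4 : ((d : ℝ) + 1) ≤ (d + 1) * Real.sqrt (Nv v) := by nlinarith
    have h7 : 0 ≤ M * Real.sqrt (Nv v) := by positivity
    have h8 : 0 ≤ Nv v / l := by positivity
    linarith

theorem rd_pow (v : Pr K) {x : K} (hx : v.valuation K x ≤ 1) (m : ℕ) :
    v.valuation K (x ^ m) ≤ 1 ∧ rd v (x ^ m) = rd v x ^ m := by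
  have h := rd_eval v hx (X ^ m)
  simpa using h

open Classical in
/-- **RW/3: the number of classes, uniformly in `z`** -/
theorem stCell : StCell := by
  intro K _ _ l hl k f hd
  obtain ⟨M, hM, hgen⟩ := cell_gen (K := K) l hl (f.natDegree + k)
  refine ⟨M, hM, fun v hv' hlv z S hSz hS => ?_⟩
  have hlv' : l ∣ Fintype.card (kk v) - 1 := by
    have h : Fintype.card (kk v) = Ideal.absNorm v.asIdeal := by
      rw [Ideal.absNorm_apply, Submodule.cardQuot_apply, Nat.card_eq_fintype_card]
    rwa [h]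
  obtain ⟨F, hF⟩ : ∃ F : (kk v)[X], F = f.map (Ideal.Quotient.mk v.asIdeal) := ⟨_, rfl⟩
  have hFd : F.natDegree = f.natDegree := by
    rw [hF]
    refine natDegree_map_of_leadingCoeff_ne_zero _ ?_
    rw [Ne, Ideal.Quotient.eq_zero_iff_mem]
    exact hv'.2
  have hF0 : F ≠ 0 := by
    rintro h0
    rw [h0, natDegree_zero] at hFd
    omega
  have hnp : ∀ (ζ : kk v) (m : ℕ) (c : kk v) (h : (kk v)[X]), F * (X - C ζ) ^ m ≠ C c * h ^ l := by
    obtain ⟨⟨a, b, n, hab, hn⟩, -⟩ := hv'
    intro ζ m c h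
    refine not_pow hl.two_le F (a.map (Ideal.Quotient.mk v.asIdeal))
      (b.map (Ideal.Quotient.mk v.asIdeal))
      (n := Ideal.Quotient.mk v.asIdeal n) ?_ ?_ (by rw [hFd]; exact hd) ζ m c h
    · rwa [Ne, Ideal.Quotient.eq_zero_iff_mem]
    · have h3 := congrArg (Polynomial.map (Ideal.Quotient.mk v.asIdeal)) hab
      rw [Polynomial.map_add, Polynomial.map_mul, Polynomial.map_mul, Polynomial.map_C,
        ← derivative_map, ← hF] at h3
      exact h3
  by_cases hz : fv v z ≤ 1
  · -- `z` is integral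
    have hzv := (fv_le_one v z).1 hz
    have heval : ∀ x : K, v.valuation K x ≤ 1 → v.valuation K (aeval x f * (x - z) ^ k) ≤ 1 ∧
        (F * (X - C (rd v z)) ^ k).eval (rd v x) = rd v (aeval x f * (x - z) ^ k) := by
      intro x hx
      have hxz : v.valuation K (x - z) ≤ 1 := (Valuation.map_sub _ _ _).trans (max_le hx hzv)
      obtain ⟨h3, h4⟩ := rd_eval v hx f
      obtain ⟨h5, h6⟩ := rd_pow v hxz k
      refine ⟨?_, ?_⟩
      · rw [map_mul]
        exact mul_le_one' h3 h5
      · rw [rd_mul v h3 h5, h6, rd_sub v hx hzv, h4, eval_mul, eval_pow, eval_sub, eval_X, eval_C,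
          hF]
    have hdeg : (F * (X - C (rd v z)) ^ k).natDegree = f.natDegree + k := by
      rw [natDegree_mul hF0 (pow_ne_zero _ (X_sub_C_ne_zero _)), natDegree_pow,
        natDegree_X_sub_C, hFd, mul_one]
    refine hgen v hlv' (F * (X - C (rd v z)) ^ k) (by omega) (by omega) (hnp (rd v z) k) S ?_
    intro x hx y hy hxv hyv hy0
    obtain ⟨w, hw⟩ := hS x hx y hy
    obtain ⟨h3, h4⟩ := heval x hxv
    obtain ⟨h5, h6⟩ := heval y hyv
    rw [h6, Ne, rd_eq_zero_iff v h5, not_lt] at hy0
    have hy1 : v.valuation K (aeval y f * (y - z) ^ k) = 1 := le_antisymm h5 hy0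
    have hw1 : v.valuation K w ≤ 1 := by
      rw [hw, map_mul, hy1, one_mul, map_pow] at h3
      exact (pow_le_one_iff_of_nonneg zero_le hl.ne_zero).1 h3
    refine ⟨rd v w, ?_⟩
    rw [h4, h6, hw, rd_mul v h5 (rd_pow v hw1 l).1, (rd_pow v hw1 l).2]
  · -- `z` reduces to the point at infinity
    rw [not_le] at hz
    have hnp0 : ∀ (c : kk v) (h : (kk v)[X]), F ≠ C c * h ^ l := by
      intro c h
      have := hnp 0 0 c h
      rwa [pow_zero, mul_one] at this
    refine hgen v hlv' F (by omega) (by omega) hnp0 S ?_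
    intro x hx y hy hxv hyv hy0
    obtain ⟨w, hw⟩ := hS x hx y hy
    obtain ⟨h3, h4⟩ := rd_eval v hxv f
    obtain ⟨h5, h6⟩ := rd_eval v hyv f
    rw [← hF] at h4 h6
    rw [← h6, Ne, rd_eq_zero_iff v h5, not_lt] at hy0
    have hy1 : v.valuation K (aeval y f) = 1 := le_antisymm h5 hy0
    have hyz : y - z ≠ 0 := sub_ne_zero.2 (hSz y hy)
    obtain ⟨u, hu⟩ : ∃ u : K, u = (x - z) / (y - z) := ⟨_, rfl⟩
    have hxz : x - z = u * (y - z) := by rw [hu, div_mul_cancel₀ _ hyz]
    have hfyz : 1 < fv v (y - z) := by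
      by_contra hcon
      rw [not_lt] at hcon
      have h7 : z = y + -(y - z) := by ring
      have h8 : fv v z ≤ 1 := by
        rw [h7]
        refine (fv_na v _ _).trans (max_le ((fv_le_one v y).2 hyv) ?_)
        rw [(fv v).map_neg]
        exact hcon
      linarith
    have hu1 : v.valuation K (u - 1) < 1 := by
      rw [← fv_lt_one]
      have h7 : u - 1 = (x - y) / (y - z) := by
        rw [hu]
        field_simp
        ring
      rw [h7, map_div₀, div_lt_one (by linarith)]
      refine lt_of_le_of_lt ?_ hfyz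
      rw [sub_eq_add_neg]
      refine (fv_na v _ _).trans (max_le ((fv_le_one v x).2 hxv) ?_)
      rw [(fv v).map_neg]
      exact (fv_le_one v y).2 hyv
    have hu2 : v.valuation K u ≤ 1 := by
      have h7 : u = (u - 1) + 1 := by ring
      rw [h7]
      refine (Valuation.map_add _ _ _).trans (max_le hu1.le ?_)
      rw [map_one]
    have hu3 : rd v u = 1 := by
      have h7 := rd_eq v (x := u) 1 (by rw [map_one]; exact hu1)
      rw [h7, map_one]
    obtain ⟨hu4, hu5⟩ := rd_pow v hu2 k
    have hw' : aeval x f * u ^ k = aeval y f * w ^ l := by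
      have h7 : (aeval x f * u ^ k) * (y - z) ^ k = (aeval y f * w ^ l) * (y - z) ^ k := by
        rw [hxz, mul_pow] at hw
        linear_combination hw
      exact mul_right_cancel₀ (pow_ne_zero _ hyz) h7
    have h8 : v.valuation K (aeval x f * u ^ k) ≤ 1 := by
      rw [map_mul]
      exact mul_le_one' h3 hu4
    have hw1 : v.valuation K w ≤ 1 := by
      rw [hw', map_mul, hy1, one_mul, map_pow] at h8
      exact (pow_le_one_iff_of_nonneg zero_le hl.ne_zero).1 h8
    refine ⟨rd v w, ?_⟩
    have h9 : rd v (aeval x f * u ^ k) = rd v (aeval x f) := by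
      rw [rd_mul v h3 hu4, hu5, hu3, one_pow, mul_one]
    rw [← h4, ← h6, ← h9, hw', rd_mul v h5 (rd_pow v hw1 l).1, (rd_pow v hw1 l).2]

end Pool.Agent.N751.RW
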