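import Pool.Agent.Y679.Md.Gm

/-!
# Project RW (helper751), task 8 (helper27): preparations

Valuations of `c₄` and `c₆` of a global minimal equation.
-/

set_option autoImplicit false
set_option linter.unusedVariables false

namespace Pool.Agent.N751.RW

open Finset Pool.Agent.H39R3 Pool.Agent.H925R.Szpiro

/-- the logarithm of an integer as a sum over primes -/
theorem log_int (n : ℤ) (hn : n ≠ 0) (S : Finset ℕ) (hS : ∀ p ∈ S, p.Prime)
    (h : n.natAbs.primeFactors ⊆ S) :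
    Real.log |(n : ℝ)| = ∑ p ∈ S, (padicValInt p n : ℝ) * Real.log p := by
  have e1 : |(n : ℝ)| = (n.natAbs : ℝ) := by
    rw [Nat.cast_natAbs]
    push_cast
    rfl
  rw [e1, Real.log_nat_eq_sum_factorization, Finsupp.sum, Nat.support_factorization]
  have e2 : ∀ p ∈ S, (n.natAbs.factorization p : ℝ) * Real.log p =
      (padicValInt p n : ℝ) * Real.log p := by
    intro p hp
    rw [Nat.factorization_def _ (hS p hp)]
    rfl
  rw [← sum_congr rfl e2]
  refine sum_subset h ?_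
  intro p _ hp2
  have : n.natAbs.factorization p = 0 := by
    by_contra h0
    apply hp2
    rw [← Nat.support_factorization]
    exact Finsupp.mem_support_iff.mpr h0
  rw [this]
  simp

/-- the logarithm of a rational number as a sum over primes -/
theorem log_rat (u : ℚ) (hu : u ≠ 0) (S : Finset ℕ) (hS : ∀ p ∈ S, p.Prime)
    (h1 : u.num.natAbs.primeFactors ⊆ S) (h2 : u.den.primeFactors ⊆ S) :
    Real.log |(u : ℝ)| = ∑ p ∈ S, (padicValRat p u : ℝ) * Real.log p := by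
  have hn : u.num ≠ 0 := Rat.num_ne_zero.mpr hu
  have hd : (u.den : ℤ) ≠ 0 := by exact_mod_cast u.den_ne_zero
  have e1 : |(u : ℝ)| = |((u.num : ℤ) : ℝ)| / |(((u.den : ℤ) : ℤ) : ℝ)| := by
    rw [← abs_div]
    congr 1
    have := u.num_div_den
    exact_mod_cast this.symm
  have hn' : |((u.num : ℤ) : ℝ)| ≠ 0 := abs_ne_zero.mpr (by exact_mod_cast hn)
  have hd' : |(((u.den : ℤ) : ℤ) : ℝ)| ≠ 0 := abs_ne_zero.mpr (by exact_mod_cast hd)
  rw [e1, Real.log_div hn' hd', log_int _ hn S hS h1, log_int _ hd S hS (by simpa using h2),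
    ← sum_sub_distrib]
  refine sum_congr rfl fun p _ => ?_
  rw [← sub_mul]
  congr 1
  have e : padicValRat p u = (padicValInt p u.num : ℤ) - (padicValNat p u.den : ℤ) := rfl
  rw [e, padicValInt.of_nat, Int.cast_sub, Int.cast_natCast, Int.cast_natCast]

/-- a common divisor `(q ^ 4, q ^ 6)` of `(c₄, c₆)` is at most `6` -/
theorem q_le {W : WeierstrassCurve ℤ} (hW : GMin W) {q : ℕ} (hq : 0 < q) (h4 : (q : ℤ) ^ 4 ∣ W.c₄)
    (h6 : (q : ℤ) ^ 6 ∣ W.c₆) : q ≤ 6 := by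
  obtain ⟨x, hx⟩ := h4
  obtain ⟨y, hy⟩ := h6
  have hq0 : (q : ℚ) ≠ 0 := by exact_mod_cast hq.ne'
  have hx' : (W.c₄ : ℚ) = (q : ℚ) ^ 4 * x := by exact_mod_cast hx
  have hy' : (W.c₆ : ℚ) = (q : ℚ) ^ 6 * y := by exact_mod_cast hy
  have h1 := hW.2 (shortW (27 * x) (54 * y)) (iso_short W (6 / q) (by positivity) (27 * x) (54 * y)
    (by rw [hx']; push_cast; field_simp; ring) (by rw [hy']; push_cast; field_simp; ring))
  have h2 : (q : ℤ) ^ 12 * D (27 * x) (54 * y) = 78732 * 1728 * W.Δ := by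
    rw [← D_c, hx, hy]
    unfold D
    ring
  rw [shortW_Δ] at h1
  have h3 : (q : ℤ) ^ 12 * |W.Δ| ≤ 6 ^ 12 * |W.Δ| := by
    have h4 : (q : ℤ) ^ 12 * |16 * D (27 * x) (54 * y)| = 6 ^ 12 * |W.Δ| := by
      have e : (q : ℤ) ^ 12 * |16 * D (27 * x) (54 * y)| =
          |16 * ((q : ℤ) ^ 12 * D (27 * x) (54 * y))| := by
        rw [abs_mul, abs_mul, abs_mul, abs_of_nonneg (show (0 : ℤ) ≤ (q : ℤ) ^ 12 by positivity)]
        ring
      rw [e, h2, show (16 : ℤ) * (78732 * 1728 * W.Δ) = 6 ^ 12 * W.Δ by ring, abs_mul]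
      norm_num
    rw [← h4]
    exact mul_le_mul_of_nonneg_left h1 (by positivity)
  have h5 : 0 < |W.Δ| := abs_pos.mpr hW.1
  have h6 : (q : ℤ) ^ 12 ≤ 6 ^ 12 := le_of_mul_le_mul_right h3 h5
  by_contra hcon
  have h7 : (7 : ℤ) ≤ q := by omega
  have h8 : (7 : ℤ) ^ 12 ≤ (q : ℤ) ^ 12 := pow_le_pow_left₀ (by norm_num) h7 12
  norm_num at h6 h8
  omega

theorem dvd_of_val {p : ℕ} (hp : p.Prime) {n : ℤ} {k : ℕ} (hn : n ≠ 0) (h : k ≤ padicValInt p n) :
    (p : ℤ) ^ k ∣ n := by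
  have := Fact.mk hp
  rw [padicValInt_dvd_iff]
  exact Or.inr h

theorem val_of_dvd {p : ℕ} (hp : p.Prime) {n : ℤ} {k : ℕ} (hn : n ≠ 0) (h : (p : ℤ) ^ k ∣ n) :
    k ≤ padicValInt p n := by
  have := Fact.mk hp
  rw [padicValInt_dvd_iff] at h
  exact h.resolve_left hn

theorem dvd_iff_val {p : ℕ} (hp : p.Prime) {n : ℤ} (hn : n ≠ 0) :
    (p : ℤ) ∣ n ↔ 1 ≤ padicValInt p n := by
  constructor
  · intro h
    exact val_of_dvd hp hn (by simpa using h)
  · intro h
    simpa using dvd_of_val hp hn h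

/-- the exponent of `p` in the conductor -/
noncomputable def fp (W : WeierstrassCurve ℤ) (p : ℕ) : ℝ :=
  if (p : ℤ) ∣ W.Δ then (if (p : ℤ) ∣ W.c₄ then 2 else 1) else 0

theorem log_cond {W : WeierstrassCurve ℤ} (hW : W.Δ ≠ 0) (S : Finset ℕ) (hS : ∀ p ∈ S, p.Prime)
    (h : W.Δ.natAbs.primeFactors ⊆ S) :
    Real.log (condW W) = ∑ p ∈ S.filter (fun p => 5 ≤ p), fp W p * Real.log p := by
  unfold condW
  rw [Nat.cast_prod, Real.log_prod]
  · have h1 : W.Δ.natAbs.primeFactors.filter (fun p => 5 ≤ p) ⊆ S.filter (fun p => 5 ≤ p) :=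
      filter_subset_filter _ h
    have h2 : ∀ p ∈ S.filter (fun p => 5 ≤ p),
        p ∉ W.Δ.natAbs.primeFactors.filter (fun p => 5 ≤ p) → fp W p * Real.log p = 0 := by
      intro p hp hp2
      rw [mem_filter] at hp hp2
      unfold fp
      rw [if_neg, zero_mul]
      intro hd
      apply hp2
      refine ⟨?_, hp.2⟩
      rw [Nat.mem_primeFactors]
      exact ⟨hS p hp.1, by rwa [← Int.natCast_dvd], by simpa using hW⟩
    rw [← sum_subset h1 h2]
    refine sum_congr rfl fun p hp => ?_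
    rw [mem_filter, Nat.mem_primeFactors] at hp
    have hd : (p : ℤ) ∣ W.Δ := by
      rw [Int.natCast_dvd]
      exact hp.1.2.1
    unfold fp
    rw [if_pos hd]
    split_ifs
    · push_cast
      rw [Real.log_pow]
      norm_num
    · simp
  · intro p hp
    rw [mem_filter, Nat.mem_primeFactors] at hp
    have h0 : (p : ℝ) ≠ 0 := by exact_mod_cast hp.1.1.ne_zero
    split_ifs
    · push_cast
      positivity
    · exact h0

/-- valuations of `c₄` and `c₆` -/
theorem vals {W : WeierstrassCurve ℤ} {A B : ℤ} {u : ℚ} (hA : A ≠ 0) (hB : B ≠ 0) (hu : u ≠ 0)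
    (h4 : (W.c₄ : ℚ) = u ^ 2 * A) (h6 : (W.c₆ : ℚ) = u ^ 3 * B) {p : ℕ} (hp : p.Prime) :
    W.c₄ ≠ 0 ∧ W.c₆ ≠ 0 ∧
      (padicValInt p W.c₄ : ℤ) = 2 * padicValRat p u + padicValInt p A ∧
      (padicValInt p W.c₆ : ℤ) = 3 * padicValRat p u + padicValInt p B := by
  have := Fact.mk hp
  have hA' : (A : ℚ) ≠ 0 := by exact_mod_cast hA
  have hB' : (B : ℚ) ≠ 0 := by exact_mod_cast hB
  have k4 : (W.c₄ : ℚ) ≠ 0 := by rw [h4]; positivity
  have k6 : (W.c₆ : ℚ) ≠ 0 := by rw [h6]; positivity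
  refine ⟨by exact_mod_cast k4, by exact_mod_cast k6, ?_, ?_⟩
  · rw [← padicValRat.of_int, h4, padicValRat.mul (pow_ne_zero _ hu) hA', padicValRat.pow,
      padicValRat.of_int]
    push_cast
    ring
  · rw [← padicValRat.of_int, h6, padicValRat.mul (pow_ne_zero _ hu) hB', padicValRat.pow,
      padicValRat.of_int]
    push_cast
    ring

/-- the prime `p` does not divide `1728` -/
theorem not_dvd_1728 {p : ℕ} (hp : p.Prime) (h5 : 5 ≤ p) : ¬ (p : ℤ) ∣ 1728 := by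
  intro h
  have h1 : p ∣ 1728 := by exact_mod_cast h
  have h2 : (1728 : ℕ) = 2 ^ 6 * 3 ^ 3 := by norm_num
  rw [h2] at h1
  rcases (hp.dvd_mul).mp h1 with h3 | h3
  · have := Nat.le_of_dvd (by norm_num) (hp.dvd_of_dvd_pow h3)
    omega
  · have := Nat.le_of_dvd (by norm_num) (hp.dvd_of_dvd_pow h3)
    omega

end Pool.Agent.N751.RW
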