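import Pool.Agent.N751.RW.Stm
import Pool.Agent.N751.RW.EllA

/-!
# Project RW (helper751), task 8 (helper27)

The global inequality for an elliptic curve over `ℚ` with `c₄ = u² A`, `c₆ = u³ B`.
-/

set_option autoImplicit false
set_option linter.unusedVariables false

namespace Pool.Agent.N751.RW

open Finset Pool.Agent.H39R3 Pool.Agent.H925R.Szpiro

/-- facts for a prime `p ≥ 5` -/
theorem big_prime {W : WeierstrassCurve ℤ} (hW : GMin W) {A B : ℤ} {u : ℚ} (hA : A ≠ 0)
    (hB : B ≠ 0) (hu : u ≠ 0) (h4 : (W.c₄ : ℚ) = u ^ 2 * A) (h6 : (W.c₆ : ℚ) = u ^ 3 * B)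
    {p : ℕ} (hp : p.Prime) (h5 : 5 ≤ p) :
    ¬ (4 ≤ padicValInt p W.c₄ ∧ 6 ≤ padicValInt p W.c₆) := by
  obtain ⟨k4, k6, -, -⟩ := vals hA hB hu h4 h6 hp
  rintro ⟨e1, e2⟩
  exact Pool.Agent.Y679.Md.gmin_no hW hp h5 (dvd_of_val hp k4 e1) (dvd_of_val hp k6 e2)

/-- the local inequality at a prime `p ≥ 5` -/
theorem local_ineq {W : WeierstrassCurve ℤ} (hW : GMin W) {A B : ℤ} {u : ℚ} {κ : ℝ} (hκ : 6 ≤ κ)
    (hA : A ≠ 0) (hB : B ≠ 0) (hAB : A ^ 3 ≠ B ^ 2) (hu : u ≠ 0) (h4 : (W.c₄ : ℚ) = u ^ 2 * A)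
    (h6 : (W.c₆ : ℚ) = u ^ 3 * B) {p : ℕ} (hp : p.Prime) (h5 : 5 ≤ p) :
    6 * (padicValRat p u : ℝ) + (if (p : ℤ) ∣ A ^ 3 - B ^ 2 then gain κ A B p else 0) ≤
      κ * fp W p := by
  have := Fact.mk hp
  obtain ⟨k4, k6, v4, v6⟩ := vals hA hB hu h4 h6 hp
  have hno := big_prime hW hA hB hu h4 h6 hp h5
  have hn17 := not_dvd_1728 hp h5
  have hpr : Prime (p : ℤ) := Nat.prime_iff_prime_int.mp hp
  have hrel := W.c_relation
  have hdA := dvd_iff_val hp hA
  have hdB := dvd_iff_val hp hB
  have hd4 := dvd_iff_val hp k4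
  have hd6 := dvd_iff_val hp k6
  -- the valuation of the discriminant
  have hAB' : A ^ 3 - B ^ 2 ≠ 0 := sub_ne_zero.mpr hAB
  have hvΔ : (padicValInt p W.Δ : ℤ) = 6 * padicValRat p u + padicValInt p (A ^ 3 - B ^ 2) := by
    have e1 : ((1728 * W.Δ : ℤ) : ℚ) = u ^ 6 * ((A ^ 3 - B ^ 2 : ℤ) : ℚ) := by
      rw [hrel]
      push_cast
      rw [h4, h6]
      ring
    have e2 : padicValInt p (1728 * W.Δ) = padicValInt p W.Δ := by
      rw [padicValInt.mul (by norm_num) hW.1]
      have : padicValInt p 1728 = 0 := by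
        by_contra h0
        apply hn17
        rw [dvd_iff_val hp (by norm_num)]
        omega
      omega
    rw [← e2, ← padicValRat.of_int, e1, padicValRat.mul (pow_ne_zero _ hu)
      (by exact_mod_cast hAB'), padicValRat.pow, padicValRat.of_int]
    push_cast
    ring
  have hdΔ := dvd_iff_val hp hW.1
  have hdAB := dvd_iff_val hp hAB'
  -- if `p` divides the discriminant and one of the two invariants then it divides the other
  have h46 : (p : ℤ) ∣ W.Δ → ((p : ℤ) ∣ W.c₄ ↔ (p : ℤ) ∣ W.c₆) := by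
    intro hd
    constructor
    · intro h
      have h1 : (p : ℤ) ∣ W.c₆ ^ 2 := by
        have e : W.c₆ ^ 2 = W.c₄ ^ 3 - 1728 * W.Δ := by rw [hrel]; ring
        rw [e]
        exact dvd_sub (dvd_pow h (by norm_num)) (dvd_mul_of_dvd_right hd _)
      exact hpr.dvd_of_dvd_pow h1
    · intro h
      have h1 : (p : ℤ) ∣ W.c₄ ^ 3 := by
        have e : W.c₄ ^ 3 = W.c₆ ^ 2 + 1728 * W.Δ := by rw [hrel]; ring
        rw [e]
        exact dvd_add (dvd_pow h (by norm_num)) (dvd_mul_of_dvd_right hd _)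
      exact hpr.dvd_of_dvd_pow h1
  have hnot : ¬ (p : ℤ) ∣ W.Δ → ¬ ((p : ℤ) ∣ W.c₄ ∧ (p : ℤ) ∣ W.c₆) := by
    rintro hd ⟨e1, e2⟩
    apply hd
    have h1 : (p : ℤ) ∣ 1728 * W.Δ := by
      rw [hrel]
      exact dvd_sub (dvd_pow e1 (by norm_num)) (dvd_pow e2 (by norm_num))
    exact (hpr.dvd_or_dvd h1).resolve_left hn17
  rw [hdΔ, hd4, hd6] at h46 hnot
  unfold gain fp
  simp only [hdA, hdB, hdΔ, hd4, hdAB]
  clear hdA hdB hdΔ hd4 hdAB hd6 hAB hAB' hrel hpr hn17 this h4 h6 k4 k6
  generalize padicValRat p u = t at *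
  generalize padicValInt p A = a at *
  generalize padicValInt p B = b at *
  generalize padicValInt p W.c₄ = x at *
  generalize padicValInt p W.c₆ = y at *
  generalize padicValInt p W.Δ = d at *
  generalize padicValInt p (A ^ 3 - B ^ 2) = e at *
  have hR : ∀ c : ℤ, t ≤ c → 6 * (t : ℝ) ≤ 6 * (c : ℝ) := by
    intro c hc
    have : (t : ℝ) ≤ c := by exact_mod_cast hc
    linarith
  by_cases h1 : 1 ≤ e
  · rw [if_pos h1]
    by_cases h2 : 1 ≤ a ∧ 1 ≤ b
    · rw [if_neg (not_not.mpr h2)]
      by_cases h3 : 1 ≤ d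
      · rw [if_pos h3]
        have h46' := h46 h3
        by_cases h4 : 1 ≤ x
        · rw [if_pos h4]
          have := hR 1 (by omega)
          push_cast at this
          split_ifs <;> linarith
        · rw [if_neg h4, if_pos (by omega)]
          have := hR 0 (by omega)
          push_cast at this
          linarith
      · rw [if_neg h3]
        have hnot' := hnot h3
        have h5 : 6 ∣ min (3 * a) (2 * b) := by omega
        rw [if_pos h5]
        have := hR (-1) (by omega)
        push_cast at this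
        linarith
    · rw [if_pos h2]
      by_cases h3 : 1 ≤ d
      · rw [if_pos h3]
        have h46' := h46 h3
        by_cases h4 : 1 ≤ x
        · rw [if_pos h4]
          have := hR 1 (by omega)
          push_cast at this
          linarith
        · rw [if_neg h4]
          have := hR 0 (by omega)
          push_cast at this
          linarith
      · exfalso
        omega
  · rw [if_neg h1]
    by_cases h3 : 1 ≤ d
    · rw [if_pos h3]
      have h46' := h46 h3
      by_cases h4 : 1 ≤ x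
      · rw [if_pos h4]
        have := hR 1 (by omega)
        push_cast at this
        linarith
      · rw [if_neg h4]
        have := hR 0 (by omega)
        push_cast at this
        linarith
    · rw [if_neg h3]
      have hnot' := hnot h3
      have := hR 0 (by omega)
      push_cast at this
      linarith

/-- the valuations at small primes -/
theorem small_prime {W : WeierstrassCurve ℤ} (hW : GMin W) {A B : ℤ} {u : ℚ} (hA : A ≠ 0)
    (hB : B ≠ 0) (hu : u ≠ 0) (h4 : (W.c₄ : ℚ) = u ^ 2 * A) (h6 : (W.c₆ : ℚ) = u ^ 3 * B)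
    {p : ℕ} (hp : p.Prime) : padicValRat p u ≤ 5 := by
  obtain ⟨k4, k6, v4, v6⟩ := vals hA hB hu h4 h6 hp
  by_contra hcon
  have h1 : (p : ℤ) ^ 12 ∣ W.c₄ := dvd_of_val hp k4 (by omega)
  have h2 : (p : ℤ) ^ 18 ∣ W.c₆ := dvd_of_val hp k6 (by omega)
  have h3 := q_le hW (q := p ^ 3) (by have := hp.pos; positivity)
    (by push_cast; rw [← pow_mul]; exact h1) (by push_cast; rw [← pow_mul]; exact h2)
  have h4 : 2 ^ 3 ≤ p ^ 3 := Nat.pow_le_pow_left hp.two_le 3
  omega

/-- a sum over small primes -/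
theorem small_sum (S : Finset ℕ) (hS : ∀ p ∈ S, p.Prime) (f : ℕ → ℝ) (c : ℝ) (hc : 0 ≤ c)
    (hf : ∀ p ∈ S, f p ≤ c) :
    ∑ p ∈ S.filter (fun p => ¬ 5 ≤ p), f p * Real.log p ≤ c * (Real.log 2 + Real.log 3) := by
  have h1 : S.filter (fun p => ¬ 5 ≤ p) ⊆ {2, 3} := by
    intro p hp
    rw [mem_filter] at hp
    have h2 := hS p hp.1
    have h3 := h2.two_le
    have h4 : p ≠ 4 := by rintro rfl; revert h2; decide
    have h5 : p = 2 ∨ p = 3 := by omega
    simpa using h5
  calc ∑ p ∈ S.filter (fun p => ¬ 5 ≤ p), f p * Real.log p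
      ≤ ∑ p ∈ S.filter (fun p => ¬ 5 ≤ p), c * Real.log p := by
        refine sum_le_sum fun p hp => ?_
        rw [mem_filter] at hp
        exact mul_le_mul_of_nonneg_right (hf p hp.1)
          (Real.log_nonneg (by exact_mod_cast (hS p hp.1).one_lt.le))
    _ ≤ ∑ p ∈ ({2, 3} : Finset ℕ), c * Real.log p := by
        refine sum_le_sum_of_subset_of_nonneg h1 fun p hp _ => ?_
        have h2 : (1 : ℝ) ≤ p := by
          have : 1 ≤ p := by
            simp only [mem_insert, mem_singleton] at hp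
            omega
          exact_mod_cast this
        exact mul_nonneg hc (Real.log_nonneg h2)
    _ = c * (Real.log 2 + Real.log 3) := by
        rw [sum_pair (by norm_num)]
        push_cast
        ring

/-- **Task 8.** -/
theorem stEll : StEll := by
  refine ⟨30 * (Real.log 2 + Real.log 3), by positivity, ?_⟩
  intro W A B u κ hκ hW hA hB hAB hu h4 h6
  have hu' : (0 : ℝ) < |(u : ℝ)| := abs_pos.mpr (by exact_mod_cast hu)
  have hAB' : A ^ 3 - B ^ 2 ≠ 0 := sub_ne_zero.mpr hAB
  set S : Finset ℕ := u.num.natAbs.primeFactors ∪ u.den.primeFactors ∪ W.Δ.natAbs.primeFactors ∪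
    (A ^ 3 - B ^ 2).natAbs.primeFactors with hSdef
  have hS : ∀ p ∈ S, p.Prime := by
    intro p hp
    simp only [hSdef, mem_union, Nat.mem_primeFactors] at hp
    tauto
  have hlu := log_rat u hu S hS
    (fun p hp => by simp only [hSdef, mem_union]; tauto)
    (fun p hp => by simp only [hSdef, mem_union]; tauto)
  have hlc := log_cond hW.1 S hS (fun p hp => by simp only [hSdef, mem_union]; tauto)
  -- the maxima
  have hmax : Real.log (max (|(W.c₄ : ℝ)| ^ 3) ((W.c₆ : ℝ) ^ 2)) =
      6 * Real.log |(u : ℝ)| + Real.log (max (|(A : ℝ)| ^ 3) ((B : ℝ) ^ 2)) := by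
    have e4 : (W.c₄ : ℝ) = (u : ℝ) ^ 2 * A := by exact_mod_cast congrArg (fun q : ℚ => (q : ℝ)) h4
    have e6 : (W.c₆ : ℝ) = (u : ℝ) ^ 3 * B := by exact_mod_cast congrArg (fun q : ℚ => (q : ℝ)) h6
    have e1 : |(W.c₄ : ℝ)| ^ 3 = |(u : ℝ)| ^ 6 * |(A : ℝ)| ^ 3 := by
      rw [e4, abs_mul, abs_pow]
      ring
    have e2 : (W.c₆ : ℝ) ^ 2 = |(u : ℝ)| ^ 6 * (B : ℝ) ^ 2 := by
      rw [e6, mul_pow, ← pow_mul, ← abs_pow]
      congr 1
      rw [abs_of_nonneg (by positivity)]
    rw [e1, e2, ← mul_max_of_nonneg _ _ (by positivity), Real.log_mul (by positivity), Real.log_pow]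
    · push_cast
      ring
    · have hA' : (0 : ℝ) < |(A : ℝ)| ^ 3 := by
        have : (0 : ℝ) < |(A : ℝ)| := abs_pos.mpr (by exact_mod_cast hA)
        positivity
      exact (lt_of_lt_of_le hA' (le_max_left _ _)).ne'
  -- the sum of the gains
  have hgain : ∑ p ∈ (A ^ 3 - B ^ 2).natAbs.primeFactors.filter (fun p => 5 ≤ p),
      gain κ A B p * Real.log p = ∑ p ∈ S.filter (fun p => 5 ≤ p),
        (if (p : ℤ) ∣ A ^ 3 - B ^ 2 then gain κ A B p else 0) * Real.log p := by
    have h1 : (A ^ 3 - B ^ 2).natAbs.primeFactors.filter (fun p => 5 ≤ p) ⊆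
        S.filter (fun p => 5 ≤ p) :=
      filter_subset_filter _ (fun p hp => by simp only [hSdef, mem_union]; tauto)
    rw [← sum_subset h1]
    · refine sum_congr rfl fun p hp => ?_
      rw [mem_filter, Nat.mem_primeFactors] at hp
      rw [if_pos]
      rw [Int.natCast_dvd]
      exact hp.1.2.1
    · intro p hp hp2
      rw [mem_filter] at hp hp2
      rw [if_neg, zero_mul]
      intro hd
      apply hp2
      refine ⟨?_, hp.2⟩
      rw [Nat.mem_primeFactors]
      exact ⟨hS p hp.1, by rwa [← Int.natCast_dvd], by simpa using hAB'⟩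
  rw [hmax, hgain, hlc, hlu, ← sum_filter_add_sum_filter_not S (fun p => 5 ≤ p)]
  have hbig : ∑ p ∈ S.filter (fun p => 5 ≤ p), (6 * (padicValRat p u : ℝ) +
      (if (p : ℤ) ∣ A ^ 3 - B ^ 2 then gain κ A B p else 0)) * Real.log p ≤
      ∑ p ∈ S.filter (fun p => 5 ≤ p), (κ * fp W p) * Real.log p := by
    refine sum_le_sum fun p hp => ?_
    rw [mem_filter] at hp
    exact mul_le_mul_of_nonneg_right (local_ineq hW hκ hA hB hAB hu h4 h6 (hS p hp.1) hp.2)
      (Real.log_nonneg (by exact_mod_cast (hS p hp.1).one_lt.le))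
  have hsmall := small_sum S hS (fun p => 6 * (padicValRat p u : ℝ)) 30 (by norm_num) (by
    intro p hp
    have h1 := small_prime hW hA hB hu h4 h6 (hS p hp)
    have h2 : (padicValRat p u : ℝ) ≤ 5 := by exact_mod_cast h1
    linarith)
  simp only [add_mul, sum_add_distrib] at hbig
  simp only [mul_assoc, ← mul_sum] at hbig hsmall
  linarith

/-- **Task 8b.** -/
theorem stCM : StCM := by
  refine ⟨34 * (Real.log 2 + Real.log 3), by positivity, ?_⟩
  intro W hW h
  have hrel := W.c_relation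
  have h2 := hW.1
  set S : Finset ℕ := W.c₄.natAbs.primeFactors ∪ W.c₆.natAbs.primeFactors ∪
    W.Δ.natAbs.primeFactors with hSdef
  have hS : ∀ p ∈ S, p.Prime := by
    intro p hp
    simp only [hSdef, mem_union, Nat.mem_primeFactors] at hp
    tauto
  have hlc := log_cond hW.1 S hS (fun p hp => by simp only [hSdef, mem_union]; tauto)
  -- it suffices to bound the valuations
  have main : ∀ v : ℕ → ℝ, (∀ p ∈ S, 5 ≤ p → v p ≤ 5 * fp W p) → (∀ p ∈ S, v p ≤ 34 ∨ 5 ≤ p) →
      ∑ p ∈ S, v p * Real.log p ≤ 5 * Real.log (condW W) + 34 * (Real.log 2 + Real.log 3) := by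
    intro v hv1 hv2
    rw [hlc, ← sum_filter_add_sum_filter_not S (fun p => 5 ≤ p)]
    have hbig : ∑ p ∈ S.filter (fun p => 5 ≤ p), v p * Real.log p ≤
        ∑ p ∈ S.filter (fun p => 5 ≤ p), (5 * fp W p) * Real.log p := by
      refine sum_le_sum fun p hp => ?_
      rw [mem_filter] at hp
      exact mul_le_mul_of_nonneg_right (hv1 p hp.1 hp.2)
        (Real.log_nonneg (by exact_mod_cast (hS p hp.1).one_lt.le))
    have hsmall := small_sum (S.filter (fun p => ¬ 5 ≤ p)) (fun p hp => hS p (mem_filter.1 hp).1) v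
      34 (by norm_num) (by
        intro p hp
        rw [mem_filter] at hp
        exact (hv2 p hp.1).resolve_right hp.2)
    rw [filter_filter] at hsmall
    simp only [and_self] at hsmall
    simp only [mul_assoc, ← mul_sum] at hbig
    linarith
  have hfp : ∀ p : ℕ, (p : ℤ) ∣ W.Δ → (p : ℤ) ∣ W.c₄ → fp W p = 2 := by
    intro p h1 h2
    unfold fp
    rw [if_pos h1, if_pos h2]
  have hfp0 : ∀ p : ℕ, 0 ≤ fp W p := by
    intro p
    unfold fp
    split_ifs <;> norm_num
  rcases h with h | h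
  · -- c₄ = 0
    have h6 : W.c₆ ≠ 0 := by
      intro h0
      rw [h, h0] at hrel
      apply h2
      omega
    have e1 : Real.log (max (|(W.c₄ : ℝ)| ^ 3) ((W.c₆ : ℝ) ^ 2)) =
        ∑ p ∈ S, (2 * (padicValInt p W.c₆ : ℝ)) * Real.log p := by
      rw [h]
      have : max (|((0 : ℤ) : ℝ)| ^ 3) ((W.c₆ : ℝ) ^ 2) = |(W.c₆ : ℝ)| ^ 2 := by
        rw [sq_abs]
        simp
        positivity
      rw [this, Real.log_pow, log_int _ h6 S hS (fun p hp => by
        simp only [hSdef, mem_union]; tauto), mul_sum]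
      refine sum_congr rfl fun p _ => ?_
      push_cast
      ring
    rw [e1]
    refine main _ ?_ ?_
    · intro p hp h5
      have hpp := hS p hp
      by_cases hd : (p : ℤ) ∣ W.c₆
      · have hΔ : (p : ℤ) ∣ W.Δ := by
          have hpr : Prime (p : ℤ) := Nat.prime_iff_prime_int.mp hpp
          have h7 : (p : ℤ) ∣ 1728 * W.Δ := by
            rw [hrel, h]
            exact dvd_sub (by norm_num) (dvd_pow hd (by norm_num))
          exact (hpr.dvd_or_dvd h7).resolve_left (not_dvd_1728 hpp h5)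
        rw [hfp p hΔ (by rw [h]; exact dvd_zero _)]
        have h8 : padicValInt p W.c₆ ≤ 5 := by
          by_contra hcon
          exact Pool.Agent.Y679.Md.gmin_no hW hpp h5 (by rw [h]; exact dvd_zero _)
            (dvd_of_val hpp h6 (by omega))
        have h9 : (padicValInt p W.c₆ : ℝ) ≤ 5 := by exact_mod_cast h8
        linarith
      · have h8 : padicValInt p W.c₆ = 0 := by
          by_contra h0
          exact hd ((dvd_iff_val hpp h6).mpr (by omega))
        rw [h8]
        have := hfp0 p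
        push_cast
        linarith
    · intro p hp
      left
      have hpp := hS p hp
      have h8 : padicValInt p W.c₆ ≤ 17 := by
        by_contra hcon
        have h3 := q_le hW (q := p ^ 3) (by have := hpp.pos; positivity)
          (by rw [h]; exact dvd_zero _) (by
            push_cast
            rw [← pow_mul]
            exact dvd_of_val hpp h6 (by omega))
        have h4 : 2 ^ 3 ≤ p ^ 3 := Nat.pow_le_pow_left hpp.two_le 3
        omega
      have h9 : (padicValInt p W.c₆ : ℝ) ≤ 17 := by exact_mod_cast h8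
      linarith
  · -- c₆ = 0
    have h4 : W.c₄ ≠ 0 := by
      intro h0
      rw [h, h0] at hrel
      apply h2
      omega
    have e1 : Real.log (max (|(W.c₄ : ℝ)| ^ 3) ((W.c₆ : ℝ) ^ 2)) =
        ∑ p ∈ S, (3 * (padicValInt p W.c₄ : ℝ)) * Real.log p := by
      rw [h]
      have : max (|(W.c₄ : ℝ)| ^ 3) (((0 : ℤ) : ℝ) ^ 2) = |(W.c₄ : ℝ)| ^ 3 := by
        simp
      rw [this, Real.log_pow, log_int _ h4 S hS (fun p hp => by
        simp only [hSdef, mem_union]; tauto), mul_sum]
      refine sum_congr rfl fun p _ => ?_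
      push_cast
      ring
    rw [e1]
    refine main _ ?_ ?_
    · intro p hp h5
      have hpp := hS p hp
      by_cases hd : (p : ℤ) ∣ W.c₄
      · have hΔ : (p : ℤ) ∣ W.Δ := by
          have hpr : Prime (p : ℤ) := Nat.prime_iff_prime_int.mp hpp
          have h7 : (p : ℤ) ∣ 1728 * W.Δ := by
            rw [hrel, h]
            exact dvd_sub (dvd_pow hd (by norm_num)) (by norm_num)
          exact (hpr.dvd_or_dvd h7).resolve_left (not_dvd_1728 hpp h5)
        rw [hfp p hΔ hd]
        have h8 : padicValInt p W.c₄ ≤ 3 := by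
          by_contra hcon
          exact Pool.Agent.Y679.Md.gmin_no hW hpp h5 (dvd_of_val hpp h4 (by omega))
            (by rw [h]; exact dvd_zero _)
        have h9 : (padicValInt p W.c₄ : ℝ) ≤ 3 := by exact_mod_cast h8
        linarith
      · have h8 : padicValInt p W.c₄ = 0 := by
          by_contra h0
          exact hd ((dvd_iff_val hpp h4).mpr (by omega))
        rw [h8]
        have := hfp0 p
        push_cast
        linarith
    · intro p hp
      left
      have hpp := hS p hp
      have h8 : padicValInt p W.c₄ ≤ 11 := by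
        by_contra hcon
        have h3 := q_le hW (q := p ^ 3) (by have := hpp.pos; positivity)
          (by
            push_cast
            rw [← pow_mul]
            exact dvd_of_val hpp h4 (by omega)) (by rw [h]; exact dvd_zero _)
        have h4 : 2 ^ 3 ≤ p ^ 3 := Nat.pow_le_pow_left hpp.two_le 3
        omega
      have h9 : (padicValInt p W.c₄ : ℝ) ≤ 11 := by exact_mod_cast h8
      linarith

end Pool.Agent.N751.RW
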