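import Mathlib
import Pool.Agent.N751.RW.Ell
import Pool.Agent.N751.RW.Ineq

/-!
# The inequality without gains (adapted from `Ell.lean` of helper27)
-/

set_option autoImplicit false
set_option linter.unusedVariables false

namespace Pool.Agent.N751.RW

open Finset Pool.Agent.H39R3 Pool.Agent.H925R.Szpiro

/-- the local inequality at a prime `p ≥ 5` -/
theorem local_ineq3 {W : WeierstrassCurve ℤ} (hW : GMin W) {A B : ℤ} {u : ℚ}
    (hA : A ≠ 0) (hB : B ≠ 0) (hu : u ≠ 0) (h4 : (W.c₄ : ℚ) = u ^ 2 * A)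
    (h6 : (W.c₆ : ℚ) = u ^ 3 * B) {p : ℕ} (hp : p.Prime) (h5 : 5 ≤ p) :
    6 * (padicValRat p u : ℝ) ≤ 3 * fp W p := by
  have := Fact.mk hp
  obtain ⟨k4, k6, v4, v6⟩ := vals hA hB hu h4 h6 hp
  have hno := big_prime hW hA hB hu h4 h6 hp h5
  have hn17 := not_dvd_1728 hp h5
  have hpr : Prime (p : ℤ) := Nat.prime_iff_prime_int.mp hp
  have hrel := W.c_relation
  have hd4 := dvd_iff_val hp k4
  have hd6 := dvd_iff_val hp k6
  have hdΔ := dvd_iff_val hp hW.1
  have hnot : ¬ (p : ℤ) ∣ W.Δ → ¬ ((p : ℤ) ∣ W.c₄ ∧ (p : ℤ) ∣ W.c₆) := by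
    rintro hd ⟨e1, e2⟩
    apply hd
    have h1 : (p : ℤ) ∣ 1728 * W.Δ := by
      rw [hrel]
      exact dvd_sub (dvd_pow e1 (by norm_num)) (dvd_pow e2 (by norm_num))
    exact (hpr.dvd_or_dvd h1).resolve_left hn17
  rw [hdΔ, hd4, hd6] at hnot
  unfold fp
  simp only [hdΔ, hd4]
  clear hdΔ hd4 hd6 hrel hpr hn17 this h4 h6 k4 k6
  generalize padicValRat p u = t at *
  generalize padicValInt p A = a at *
  generalize padicValInt p B = b at *
  generalize padicValInt p W.c₄ = x at *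
  generalize padicValInt p W.c₆ = y at *
  generalize padicValInt p W.Δ = d at *
  have hR : ∀ c : ℤ, t ≤ c → 6 * (t : ℝ) ≤ 6 * (c : ℝ) := by
    intro c hc
    have : (t : ℝ) ≤ c := by exact_mod_cast hc
    linarith
  by_cases h3 : 1 ≤ d
  · rw [if_pos h3]
    by_cases h4 : 1 ≤ x
    · rw [if_pos h4]
      have := hR 1 (by omega)
      push_cast at this
      linarith
    · rw [if_neg h4]
      have := hR 0 (by omega)
      push_cast at this
      linarith
  · rw [if_neg h3]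
    have hnot' := hnot h3
    have := hR 0 (by omega)
    push_cast at this
    linarith

/-- the inequality without gains -/
theorem stEll3 : StEll3 := by
  refine ⟨30 * (Real.log 2 + Real.log 3), by positivity, ?_⟩
  intro W A B u hW hA hB hAB hu h4 h6
  have hu' : (0 : ℝ) < |(u : ℝ)| := abs_pos.mpr (by exact_mod_cast hu)
  have hAB' : A ^ 3 - B ^ 2 ≠ 0 := sub_ne_zero.mpr hAB
  set S : Finset ℕ := u.num.natAbs.primeFactors ∪ u.den.primeFactors ∪ W.Δ.natAbs.primeFactors ∪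
    (A ^ 3 - B ^ 2).natAbs.primeFactors with hSdef
  have hS : ∀ p ∈ S, p.Prime := by
    intro p hp
    simp only [hSdef, mem_union, Nat.mem_primeFactors] at hp
    tauto
  have hlu := log_rat u hu S hS
    (fun p hp => by simp only [hSdef, mem_union]; tauto)
    (fun p hp => by simp only [hSdef, mem_union]; tauto)
  have hlc := log_cond hW.1 S hS (fun p hp => by simp only [hSdef, mem_union]; tauto)
  -- the maxima
  have hmax : Real.log (max (|(W.c₄ : ℝ)| ^ 3) ((W.c₆ : ℝ) ^ 2)) =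
      6 * Real.log |(u : ℝ)| + Real.log (max (|(A : ℝ)| ^ 3) ((B : ℝ) ^ 2)) := by
    have e4 : (W.c₄ : ℝ) = (u : ℝ) ^ 2 * A := by exact_mod_cast congrArg (fun q : ℚ => (q : ℝ)) h4
    have e6 : (W.c₆ : ℝ) = (u : ℝ) ^ 3 * B := by exact_mod_cast congrArg (fun q : ℚ => (q : ℝ)) h6
    have e1 : |(W.c₄ : ℝ)| ^ 3 = |(u : ℝ)| ^ 6 * |(A : ℝ)| ^ 3 := by
      rw [e4, abs_mul, abs_pow]
      ring
    have e2 : (W.c₆ : ℝ) ^ 2 = |(u : ℝ)| ^ 6 * (B : ℝ) ^ 2 := by
      rw [e6, mul_pow, ← pow_mul, ← abs_pow]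
      congr 1
      rw [abs_of_nonneg (by positivity)]
    rw [e1, e2, ← mul_max_of_nonneg _ _ (by positivity), Real.log_mul (by positivity), Real.log_pow]
    · push_cast
      ring
    · have hA' : (0 : ℝ) < |(A : ℝ)| ^ 3 := by
        have : (0 : ℝ) < |(A : ℝ)| := abs_pos.mpr (by exact_mod_cast hA)
        positivity
      exact (lt_of_lt_of_le hA' (le_max_left _ _)).ne'
  rw [hmax, hlc, hlu, ← sum_filter_add_sum_filter_not S (fun p => 5 ≤ p)]
  have hbig : ∑ p ∈ S.filter (fun p => 5 ≤ p), (6 * (padicValRat p u : ℝ)) * Real.log p ≤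
      ∑ p ∈ S.filter (fun p => 5 ≤ p), (3 * fp W p) * Real.log p := by
    refine sum_le_sum fun p hp => ?_
    rw [mem_filter] at hp
    exact mul_le_mul_of_nonneg_right (local_ineq3 hW hA hB hu h4 h6 (hS p hp.1) hp.2)
      (Real.log_nonneg (by exact_mod_cast (hS p hp.1).one_lt.le))
  have hsmall := small_sum S hS (fun p => 6 * (padicValRat p u : ℝ)) 30 (by norm_num) (by
    intro p hp
    have h1 := small_prime hW hA hB hu h4 h6 (hS p hp)
    have h2 : (padicValRat p u : ℝ) ≤ 5 := by exact_mod_cast h1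
    linarith)
  simp only [mul_assoc, ← mul_sum] at hbig hsmall
  linarith

end Pool.Agent.N751.RW
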