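import Mathlib
import Pool.Agent.N751.RW.All

/-!
# The inequality for a minimal family
-/

set_option autoImplicit false
set_option linter.unusedSectionVars false

namespace Pool.Agent.N751.RW

open NumberField IsDedekindDomain Finset Pool.Agent.H691R3 Pool.Agent.TH876.Loc
open Pool.Agent.N753.LS Pool.Agent.N753.SF Polynomial Height UniqueFactorizationMonoid
open Pool.Agent.H39R3 (GMin condW)

/-- the exponent of a minimal family -/
noncomputable def kp (n : ℕ) (w : ℝ) : ℝ := max (3 + 3 * n / w) (6 * n / w)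

theorem kp_anti {n : ℕ} {w w' : ℝ} (hw : 0 < w) (h : w ≤ w') : kp n w' ≤ kp n w := by
  have hn0 : (0 : ℝ) ≤ n := Nat.cast_nonneg _
  refine max_le_max ?_ ?_
  · have := div_le_div_of_nonneg_left (show (0 : ℝ) ≤ 3 * n by positivity) hw h
    linarith
  · exact div_le_div_of_nonneg_left (show (0 : ℝ) ≤ 6 * n by positivity) hw h

theorem kp_kap {n : ℕ} : kp n (min ((n : ℝ) + 2) 4) = kap n := by
  unfold kp kap
  have hn0 : (0 : ℝ) ≤ n := Nat.cast_nonneg _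
  rcases le_total ((n : ℝ) + 2) 4 with h | h
  · rw [min_eq_left h]
    have h1 : 6 * (n : ℝ) / (n + 2) ≤ 3 + 3 * n / (n + 2) := by
      rw [div_le_iff₀ (by positivity)]
      have : (3 + 3 * (n : ℝ) / (n + 2)) * (n + 2) = 3 * (n + 2) + 3 * n := by
        field_simp
      rw [this]
      linarith
    have h2 : 3 * (n : ℝ) / 2 ≤ 3 + 3 * n / (n + 2) := by
      have : 0 ≤ 3 * (n : ℝ) / (n + 2) := by positivity
      linarith
    rw [max_eq_left h1, max_eq_left h2]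
  · rw [min_eq_right h]
    congr 1
    ring

theorem card_le {D : ℚ[X]} (hD : D ≠ 0) : (primeFactors D).card ≤ D.natDegree := by
  have h1 : (∏ P ∈ primeFactors D, P) ∣ D := radical_dvd_self
  have h2 := natDegree_le_of_dvd h1 hD
  rw [natDegree_prod _ _ fun P hP => (irreducible_of_normalized_factor P
    (mem_primeFactors.1 hP)).ne_zero] at h2
  refine le_trans ?_ h2
  rw [Finset.card_eq_sum_ones]
  exact Finset.sum_le_sum fun P hP => (irreducible_of_normalized_factor P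
    (mem_primeFactors.1 hP)).natDegree_pos

theorem wt_pos {d : ℕ} (hd : 1 ≤ d) : 1 ≤ wt d := by
  unfold wt
  split_ifs <;> omega

theorem wgt_pos {a b : ℤ[X]} (hD : 1 ≤ (a ^ 3 - b ^ 2).natDegree) : 1 ≤ wgt a b := by
  have hD' : ((a ^ 3 - b ^ 2).map (Int.castRingHom ℚ)).natDegree = (a ^ 3 - b ^ 2).natDegree :=
    natDegree_map_eq_of_injective Int.cast_injective _
  have hne : (primeFactors ((a ^ 3 - b ^ 2).map (Int.castRingHom ℚ))).Nonempty := by
    rw [Finset.nonempty_iff_ne_empty, Ne, primeFactors_eq_empty_iff (by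
      intro h
      rw [h, natDegree_zero] at hD'
      omega)]
    intro hu
    have := natDegree_eq_zero_of_isUnit hu
    omega
  obtain ⟨P, hP⟩ := hne
  refine le_trans (wt_pos ?_) (Finset.single_le_sum (f := fun P => wt P.natDegree)
    (fun _ _ => Nat.zero_le _) hP)
  exact (irreducible_of_normalized_factor P (mem_primeFactors.1 hP)).natDegree_pos

theorem card_le_wgt {a b : ℤ[X]} :
    (primeFactors ((a ^ 3 - b ^ 2).map (Int.castRingHom ℚ))).card ≤ wgt a b := by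
  unfold wgt
  rw [Finset.card_eq_sum_ones]
  exact Finset.sum_le_sum fun P hP => wt_pos (irreducible_of_normalized_factor P
    (mem_primeFactors.1 hP)).natDegree_pos

theorem kp_scale {n : ℕ} {w δ : ℝ} (hw : 0 < w) (hδ0 : 0 ≤ δ) (hδ : δ ≤ 1 / 8) :
    kp n (w * (1 - 4 * δ)) ≤ (1 + 8 * δ) * kp n w := by
  have hn0 : (0 : ℝ) ≤ n := Nat.cast_nonneg _
  have h1 : 0 < 1 - 4 * δ := by linarith
  have h2 : 1 / (1 - 4 * δ) ≤ 1 + 8 * δ := by
    rw [div_le_iff₀ h1]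
    nlinarith
  have h3 : ∀ c : ℝ, 0 ≤ c → c / (w * (1 - 4 * δ)) ≤ (1 + 8 * δ) * (c / w) := by
    intro c hc
    have e : c / (w * (1 - 4 * δ)) = (1 / (1 - 4 * δ)) * (c / w) := by
      field_simp
    rw [e]
    exact mul_le_mul_of_nonneg_right h2 (by positivity)
  unfold kp
  rw [mul_max_of_nonneg _ _ (by linarith)]
  refine max_le_max ?_ (h3 _ (by positivity))
  have := h3 (3 * n) (by positivity)
  linarith

/-- **the inequality for a minimal family** -/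
theorem min_gen (h8 : StEll) (h3 : StEll3) {n : ℕ} (hn : 1 ≤ n) {a b : ℤ[X]}
    (hda : a.natDegree ≤ 2 * n) (hdb : b.natDegree ≤ 3 * n)
    (ha0 : a ≠ 0) (hb0 : b ≠ 0) (hmin : ∀ π : ℚ[X], Irreducible π →
      ¬ (π ^ 2 ∣ a.map (Int.castRingHom ℚ) ∧ π ^ 3 ∣ b.map (Int.castRingHom ℚ)))
    (hD : 1 ≤ (a ^ 3 - b ^ 2).natDegree)
    {F : ℚ[X] → (𝓞 ℚ)[X]} {c : ℚ[X] → ℚ} (hc : ∀ P, c P ≠ 0)
    (hF : ∀ P, (F P).map (algebraMap (𝓞 ℚ) ℚ) = C (c P) * P) {δ : ℝ} (hδ : 0 ≤ δ)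
    (hδ1 : δ ≤ 1 / 8) :
    ∃ C : ℝ, 0 ≤ C ∧ ∀ (s : ℚ) (W : WeierstrassCurve ℤ), aeval s a ≠ 0 → aeval s b ≠ 0 →
      aeval s (a ^ 3 - b ^ 2) ≠ 0 → GMin W → JRel W a b s →
      (∀ P ∈ primeFactors ((a ^ 3 - b ^ 2).map (Int.castRingHom ℚ)), Ok δ (F P) s) →
      htW W ≤ kp n ((wgt a b : ℕ) * (1 - 4 * δ)) * Real.log (condW W) + C := by
  obtain ⟨C3, hC3, h3⟩ := triv h3 hda hdb
  obtain ⟨C0, hC0, h8⟩ := h8
  obtain ⟨C1, hC1, h1⟩ := max_le_ht (n := n) a b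
  have hw1 := wgt_pos hD
  obtain ⟨w, hw⟩ : ∃ w : ℝ, w = (wgt a b : ℕ) := ⟨_, rfl⟩
  have hw1' : 1 ≤ w := by rw [hw]; exact_mod_cast hw1
  obtain ⟨m, hm⟩ : ∃ m : ℝ,
    m = (primeFactors ((a ^ 3 - b ^ 2).map (Int.castRingHom ℚ))).card := ⟨_, rfl⟩
  have hmw : m ≤ w := by rw [hm, hw]; exact_mod_cast card_le_wgt
  have hm0 : 0 ≤ m := by rw [hm]; exact Nat.cast_nonneg _
  have hn1 : (1 : ℝ) ≤ n := by exact_mod_cast hn
  obtain ⟨w', hw'⟩ : ∃ w' : ℝ, w' = w * (1 - 4 * δ) := ⟨_, rfl⟩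
  have hw'0 : 0 < w' := by
    rw [hw']
    exact mul_pos (by linarith) (by linarith)
  have hww : w' ≤ w - 4 * m * δ := by
    rw [hw']
    nlinarith [mul_le_mul_of_nonneg_right hmw hδ]
  obtain ⟨κ, hκ'⟩ : ∃ κ : ℝ, κ = max 6 (6 * n / w') := ⟨_, rfl⟩
  have hκ : 6 ≤ κ := by rw [hκ']; exact le_max_left _ _
  obtain ⟨Cg, hCg, hg⟩ := gain_all hda hdb ha0 hb0 hmin hc hF hκ hδ
  rw [← hw, ← hm] at hg
  refine ⟨C3 + (C0 + C1 + Cg), by positivity, fun s W ha hb hDs hW hj hok => ?_⟩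
  have e3 := h3 s W ha hb hDs hW hj
  obtain ⟨hA, hB, hAB, u, hu, h4, h6⟩ := tw_data hda hdb ha hb hDs hW hj
  have e1 := h8 W _ _ u κ hκ hW hA hB hAB hu h4 h6
  have e2 := h1 s hA
  have e4 := hg s ha hb hDs hok
  have hh : 0 ≤ logHeight₁ s := zero_le_logHeight₁ s
  rw [← hw, ← hw']
  obtain ⟨L, hL⟩ : ∃ L : ℝ, L = Real.log (condW W) := ⟨_, rfl⟩
  have hL0 : 0 ≤ L := by rw [hL]; exact condW_one
  obtain ⟨h, hh'⟩ : ∃ h : ℝ, h = logHeight₁ s := ⟨_, rfl⟩
  obtain ⟨T, hT⟩ : ∃ T : ℝ, T = htW W := ⟨_, rfl⟩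
  have hT' : Real.log (max (|(W.c₄ : ℝ)| ^ 3) ((W.c₆ : ℝ) ^ 2)) = T := by rw [hT]; rfl
  rw [hT'] at e1
  rw [← hL] at e1 e3 ⊢
  rw [← hh'] at e2 e3 e4 hh
  rw [← hT] at e3 ⊢
  have e5 : κ * w' * h ≤ κ * (w - 4 * m * δ) * h :=
    mul_le_mul_of_nonneg_right (mul_le_mul_of_nonneg_left hww (by linarith)) hh
  have e9 : T ≤ κ * L + (6 * n - κ * w') * h + (C0 + C1 + Cg) := by
    nlinarith
  rcases le_or_gt (n : ℝ) w' with hnw | hnw
  · have hκ6 : κ = 6 := by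
      rw [hκ']
      refine max_eq_left ?_
      rw [div_le_iff₀ hw'0]
      linarith
    have hkp : 3 + 3 * (n : ℝ) / w' ≤ kp n w' := le_max_left _ _
    refine le_trans ?_ (add_le_add_left (mul_le_mul_of_nonneg_right hkp hL0) _)
    rw [hκ6] at e9
    obtain ⟨q, hq⟩ : ∃ q : ℝ, q = n / w' := ⟨_, rfl⟩
    have hq0 : 0 ≤ q := by rw [hq]; positivity
    have hq1 : q ≤ 1 := by rw [hq, div_le_one hw'0]; exact hnw
    have hqw : q * w' = n := by rw [hq]; field_simp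
    have e10 := mul_le_mul_of_nonneg_left e9 hq0
    have e11 := mul_le_mul_of_nonneg_left e3 (show 0 ≤ 1 - q by linarith)
    have e12 : 3 + 3 * (n : ℝ) / w' = 3 + 3 * q := by rw [hq]; ring
    rw [e12]
    have e13 : q * ((6 * n - 6 * w') * h) = 6 * n * q * h - 6 * n * h := by
      have : q * ((6 * n - 6 * w') * h) = 6 * n * q * h - 6 * (q * w') * h := by ring
      rw [this, hqw]
    have e15 : q * (C0 + C1 + Cg) ≤ C0 + C1 + Cg := by
      have : q * (C0 + C1 + Cg) ≤ 1 * (C0 + C1 + Cg) :=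
        mul_le_mul_of_nonneg_right hq1 (by positivity)
      linarith
    have e16 : (1 - q) * C3 ≤ C3 := by
      have : (1 - q) * C3 ≤ 1 * C3 := mul_le_mul_of_nonneg_right (by linarith) hC3
      linarith
    have e17 : T = q * T + (1 - q) * T := by ring
    rw [e17]
    nlinarith
  · have hκ6 : κ = 6 * n / w' := by
      rw [hκ']
      refine max_eq_right ?_
      rw [le_div_iff₀ hw'0]
      linarith
    have hkp : κ ≤ kp n w' := by
      rw [hκ6]
      exact le_max_right _ _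
    have hz : 6 * n - κ * w' = 0 := by
      rw [hκ6]
      field_simp
      ring
    rw [hz, zero_mul, add_zero] at e9
    have := mul_le_mul_of_nonneg_right hkp hL0
    linarith

end Pool.Agent.N751.RW
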