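import Mathlib
import Pool.Agent.N751.RW.MinGen

/-!
# The inequality outside the universal exceptional set, for a minimal family
-/

set_option autoImplicit false
set_option linter.unusedSectionVars false

namespace Pool.Agent.N751.RW

open NumberField IsDedekindDomain Finset Pool.Agent.H691R3 Pool.Agent.TH876.Loc
open Pool.Agent.N753.LS Pool.Agent.N753.SF Polynomial Height UniqueFactorizationMonoid
open Pool.Agent.H39R3 (GMin condW)

/-- the property of the universal exceptional set -/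
def GoodE (δ : ℝ) (E : Set ℚ) : Prop := ∀ g : Fin 4 → ℚ, dt g ≠ 0 → ∀ f : (𝓞 ℚ)[X],
  (Sf f → Out E g (Wt δ f)) ∧
    (Nice f → (∀ z : ℚ, aeval z f ≠ 0) → Out E g (Bt δ f) ∧
      ∀ l : ℕ, l.Prime → Out E g (Ct δ f l))

theorem out_ok {δ : ℝ} {E : Set ℚ} (hE : GoodE δ E) {g : Fin 4 → ℚ} (hg : dt g ≠ 0)
    {f : (𝓞 ℚ)[X]} (hf1 : 1 ≤ f.natDegree)
    (hirr : Irreducible (f.map (algebraMap (𝓞 ℚ) ℚ))) :
    ∃ h0 : ℝ, ∀ t : ℚ, t ∉ E → h0 ≤ logHeight₁ t → g 2 * t + g 3 ≠ 0 → Ok δ f (mob g t) := by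
  have hN : Nice f := ⟨hf1, hirr.squarefree⟩
  obtain ⟨h1, h2⟩ := hE g hg f
  by_cases h5 : f.natDegree ≤ 5
  · obtain ⟨h0, h⟩ := h1 (sf_small hN h5 hirr)
    exact ⟨h0, fun t ht hth hgt => ⟨fun _ => h t ht hth hgt, fun h6 => by omega⟩⟩
  · obtain ⟨⟨x1, h3⟩, h4⟩ := h2 hN (noroot_of_irr (by omega) hirr)
    obtain ⟨x2, h6⟩ := h4 2 Nat.prime_two
    obtain ⟨x3, h7⟩ := h4 3 Nat.prime_three
    refine ⟨max x1 (max x2 x3), fun t ht hth hgt => ⟨fun h => absurd h h5, fun _ =>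
      ⟨h3 t ht ((le_max_left _ _).trans hth) hgt, fun l hl hl3 => ?_⟩⟩⟩
    have hl' : l = 2 ∨ l = 3 := by
      have := hl.two_le
      omega
    rcases hl' with rfl | rfl
    · exact h6 t ht ((le_max_left _ _).trans ((le_max_right _ _).trans hth)) hgt
    · exact h7 t ht ((le_max_right _ _).trans ((le_max_right _ _).trans hth)) hgt

/-- the inequality with exponent `κ` for the family -/
def Concl (E : Set ℚ) (κ : ℝ) (a b : ℤ[X]) (g : Fin 4 → ℚ) : Prop :=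
  ∃ C : ℝ, ∀ t : ℚ, t ∉ E → g 2 * t + g 3 ≠ 0 → ∀ W : WeierstrassCurve ℤ,
    aeval (mob g t) a ≠ 0 → aeval (mob g t) b ≠ 0 → aeval (mob g t) (a ^ 3 - b ^ 2) ≠ 0 →
    GMin W → JRel W a b (mob g t) → htW W ≤ κ * Real.log (condW W) + C

theorem Concl.mono {E : Set ℚ} {κ κ' : ℝ} {a b : ℤ[X]} {g : Fin 4 → ℚ} (h : Concl E κ a b g)
    (hκ : κ ≤ κ') : Concl E κ' a b g := by
  obtain ⟨C, h⟩ := h
  refine ⟨C, fun t ht hgt W ha hb hD hW hj => (h t ht hgt W ha hb hD hW hj).trans ?_⟩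
  have := mul_le_mul_of_nonneg_right hκ (condW_one (W := W))
  linarith

theorem kp_ge {n : ℕ} {w : ℝ} (hw : 0 ≤ w) : 3 ≤ kp n w := by
  refine le_trans ?_ (le_max_left _ _)
  have : 0 ≤ 3 * (n : ℝ) / w := by positivity
  linarith

/-- **the inequality for a minimal family outside the exceptional set** -/
theorem min_out (h8 : StEll) (h3 : StEll3) {ε δ : ℝ} (hδ0 : 0 ≤ δ) (hδ1 : δ ≤ 1 / 8)
    (hδε : 8 * δ ≤ ε) {E : Set ℚ} (hE : GoodE δ E) {n : ℕ} (hn : 1 ≤ n) {a b : ℤ[X]}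
    (hda : a.natDegree ≤ 2 * n) (hdb : b.natDegree ≤ 3 * n) (ha0 : a ≠ 0) (hb0 : b ≠ 0)
    (hmin : ∀ π : ℚ[X], Irreducible π →
      ¬ (π ^ 2 ∣ a.map (Int.castRingHom ℚ) ∧ π ^ 3 ∣ b.map (Int.castRingHom ℚ)))
    (hD : 1 ≤ (a ^ 3 - b ^ 2).natDegree) {g : Fin 4 → ℚ} (hg : dt g ≠ 0) :
    Concl E ((1 + ε) * kp n (wgt a b)) a b g := by
  classical
  choose F c hc hF using fun P : ℚ[X] => clear_den (K := ℚ) P
  obtain ⟨C1, hC1, h1⟩ := min_gen h8 h3 hn hda hdb ha0 hb0 hmin hD hc hF hδ0 hδ1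
  obtain ⟨C2, hC2, h2⟩ := triv h3 hda hdb
  obtain ⟨C4, hC4, h5⟩ := mob_height g hg
  obtain ⟨I, hI⟩ : ∃ I, I = primeFactors ((a ^ 3 - b ^ 2).map (Int.castRingHom ℚ)) := ⟨_, rfl⟩
  rw [← hI] at h1
  have h6 : ∀ P ∈ I, ∃ h0 : ℝ, ∀ t : ℚ, t ∉ E → h0 ≤ logHeight₁ t → g 2 * t + g 3 ≠ 0 →
      Ok δ (F P) (mob g t) := by
    intro P hP
    rw [hI] at hP
    have hPi : Irreducible P := irreducible_of_normalized_factor P (mem_primeFactors.1 hP)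
    refine out_ok hE hg ?_ ?_
    · rw [deg_clear (hc P) (hF P)]
      exact hPi.natDegree_pos
    · rw [hF]
      exact (assoc_clear (hc P) P).irreducible_iff.2 hPi
  choose! h0 h6 using h6
  obtain ⟨x, hx⟩ : ∃ x : ℝ, x = ∑ P ∈ I, |h0 P| := ⟨_, rfl⟩
  have hx0 : 0 ≤ x := by rw [hx]; exact Finset.sum_nonneg fun _ _ => abs_nonneg _
  have hxP : ∀ P ∈ I, h0 P ≤ x := fun P hP => by
    rw [hx]
    exact (le_abs_self _).trans
      (Finset.single_le_sum (f := fun P => |h0 P|) (fun _ _ => abs_nonneg _) hP)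
  have hw1 : (1 : ℝ) ≤ (wgt a b : ℕ) := by exact_mod_cast wgt_pos hD
  have hk := kp_scale (n := n) (by linarith : (0 : ℝ) < (wgt a b : ℕ)) hδ0 hδ1
  obtain ⟨κ, hκ⟩ : ∃ κ, κ = kp n (wgt a b : ℕ) := ⟨_, rfl⟩
  have hκ3 : 3 ≤ κ := by rw [hκ]; exact kp_ge (by linarith)
  rw [← hκ] at hk ⊢
  obtain ⟨κ', hκ'⟩ : ∃ κ', κ' = kp n ((wgt a b : ℕ) * (1 - 4 * δ)) := ⟨_, rfl⟩
  rw [← hκ'] at h1 hk
  have hkk : κ' ≤ (1 + ε) * κ := hk.trans (mul_le_mul_of_nonneg_right (by linarith) (by linarith))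
  refine ⟨C2 + 6 * n * (x + C4) + C1, fun t ht hgt W ha hb hDs hW hj => ?_⟩
  have hL0 : 0 ≤ Real.log (condW W) := condW_one
  obtain ⟨L, hL⟩ : ∃ L : ℝ, L = Real.log (condW W) := ⟨_, rfl⟩
  rw [← hL] at hL0 ⊢
  have hmt := h5 t hgt
  rcases lt_or_ge (logHeight₁ t) x with hlt | hge
  · have e1 := h2 _ W ha hb hDs hW hj
    rw [← hL] at e1
    have e2 : 6 * (n : ℝ) * logHeight₁ (mob g t) ≤ 6 * n * (x + C4) :=
      mul_le_mul_of_nonneg_left (by linarith) (by positivity)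
    have e3 : 3 * L ≤ (1 + ε) * κ * L := mul_le_mul_of_nonneg_right (by nlinarith) hL0
    linarith
  · have e1 := h1 _ W ha hb hDs hW hj fun P hP => h6 P hP t ht ((hxP P hP).trans hge) hgt
    rw [← hL] at e1
    have e2 := mul_le_mul_of_nonneg_right hkk hL0
    have e9 : 0 ≤ 6 * (n : ℝ) * (x + C4) := by positivity
    linarith

end Pool.Agent.N751.RW
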