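import Mathlib
import Pool.Agent.N751.RW.OneE

/-!
# Changes of the coordinate and of the model
-/

set_option autoImplicit false
set_option linter.unusedSectionVars false

namespace Pool.Agent.N751.RW

open NumberField IsDedekindDomain Finset Pool.Agent.H691R3 Pool.Agent.TH876.Loc
open Pool.Agent.N753.LS Pool.Agent.N753.SF Polynomial Height UniqueFactorizationMonoid
open Pool.Agent.H39R3 (GMin condW)

/-- scaling of the fibre -/
theorem jrel_scale {W : WeierstrassCurve ℤ} {a b a' b' : ℤ[X]} {s s' u : ℚ} (hu : u ≠ 0)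
    (ha : aeval s a = u ^ 2 * aeval s' a') (hb : aeval s b = u ^ 3 * aeval s' b')
    (h : JRel W a b s) : JRel W a' b' s' := by
  unfold JRel at h ⊢
  rw [ha, hb] at h
  have h1 : u ^ 6 * ((W.c₄ : ℚ) ^ 3 * (aeval s' b') ^ 2) =
      u ^ 6 * ((W.c₆ : ℚ) ^ 2 * (aeval s' a') ^ 3) := by
    linear_combination h
  exact mul_left_cancel₀ (pow_ne_zero 6 hu) h1

theorem disc_scale {a b a' b' : ℤ[X]} {s s' u : ℚ}
    (ha : aeval s a = u ^ 2 * aeval s' a') (hb : aeval s b = u ^ 3 * aeval s' b') :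
    aeval s (a ^ 3 - b ^ 2) = u ^ 6 * aeval s' (a' ^ 3 - b' ^ 2) := by
  rw [map_sub, map_pow, map_pow, map_sub, map_pow, map_pow, ha, hb]
  ring

/-- the non-isotriviality of the new model -/
theorem iso_transfer {a b a' b' : ℤ[X]} (c : ℚ)
    (h : ∀ s : ℚ, s ≠ c → ∃ (u : ℚ) (s' : ℚ), aeval s a = u ^ 2 * aeval s' a' ∧
      aeval s b = u ^ 3 * aeval s' b')
    (hiso : ∀ x y : ℤ, C x * a ^ 3 = C y * b ^ 2 → x = 0 ∧ y = 0) :
    ∀ x y : ℤ, C x * a' ^ 3 = C y * b' ^ 2 → x = 0 ∧ y = 0 := by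
  intro x y hxy
  refine hiso x y ?_
  have h1 : (C x * a ^ 3 - C y * b ^ 2 : ℤ[X]) = 0 := by
    have h2 : ((C x * a ^ 3 - C y * b ^ 2).map (Int.castRingHom ℚ)) * (X - C c) = 0 := by
      refine Polynomial.funext fun s => ?_
      rw [eval_mul, eval_toQ, eval_zero, eval_sub, eval_X, eval_C]
      by_cases hs : s = c
      · rw [hs, sub_self, mul_zero]
      obtain ⟨u, s', h3, h4⟩ := h s hs
      have h5 := congrArg (aeval s') hxy
      simp only [map_mul, map_pow, eq_intCast, map_intCast] at h5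
      simp only [map_sub, map_mul, map_pow, eq_intCast, map_intCast]
      rw [h3, h4]
      linear_combination (u ^ 6 * (s - c)) * h5
    rcases mul_eq_zero.1 h2 with h3 | h3
    · rwa [Polynomial.map_eq_zero_iff Int.cast_injective] at h3
    · exact absurd h3 (X_sub_C_ne_zero c)
  exact sub_eq_zero.1 h1

/-- **the change of the coordinate** -/
theorem transform {n : ℕ} {a b : ℤ[X]} (hda : a.natDegree ≤ 2 * n) (hdb : b.natDegree ≤ 3 * n)
    (hD : a ^ 3 - b ^ 2 ≠ 0) : ∃ (c : ℤ) (a' b' : ℤ[X]), a'.natDegree ≤ 2 * n ∧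
      b'.natDegree ≤ 3 * n ∧ (a' ^ 3 - b' ^ 2).natDegree = 6 * n ∧ ∀ s : ℚ, s ≠ c →
        aeval s a = ((s - c) ^ n) ^ 2 * aeval (1 / (s - c)) a' ∧
          aeval s b = ((s - c) ^ n) ^ 3 * aeval (1 / (s - c)) b' := by
  obtain ⟨c, hc⟩ : ∃ c : ℤ, (a ^ 3 - b ^ 2).eval c ≠ 0 := by
    by_contra hcon
    push Not at hcon
    exact hD (Polynomial.funext fun c => by rw [hcon c, eval_zero])
  have hdeg : ∀ (N : ℕ) (f : ℤ[X]), f.natDegree ≤ N →
      (reflect N (f.comp (X + C c))).natDegree ≤ N := by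
    intro N f hf
    refine natDegree_reflect_le.trans ?_
    rw [natDegree_comp, natDegree_X_add_C, mul_one]
    exact max_le le_rfl hf
  have hev : ∀ (N : ℕ) (f : ℤ[X]), f.natDegree ≤ N → ∀ s : ℚ, s ≠ c →
      aeval s f = (s - c) ^ N * aeval (1 / (s - c)) (reflect N (f.comp (X + C c))) := by
    intro N f hf s hs
    let _ := invertibleOfNonzero (sub_ne_zero.2 hs)
    have h1 := eval₂_reflect_mul_pow (algebraMap ℤ ℚ) (s - c) N (f.comp (X + C c)) (by
      rw [natDegree_comp, natDegree_X_add_C, mul_one]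
      exact hf)
    rw [invOf_eq_inv, ← one_div] at h1
    rw [mul_comm, aeval_def, aeval_def, h1, eval₂_comp, eval₂_add, eval₂_X, eval₂_C,
      algebraMap_int_eq, eq_intCast, sub_add_cancel]
  have htop : ∀ (N : ℕ) (f : ℤ[X]), (reflect N (f.comp (X + C c))).coeff N = f.eval c := by
    intro N f
    rw [coeff_reflect, revAt_le le_rfl, Nat.sub_self, coeff_zero_eq_eval_zero, eval_comp]
    simp
  obtain ⟨a', ha'⟩ : ∃ a', a' = reflect (2 * n) (a.comp (X + C c)) := ⟨_, rfl⟩
  obtain ⟨b', hb'⟩ : ∃ b', b' = reflect (3 * n) (b.comp (X + C c)) := ⟨_, rfl⟩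
  have h1 : a'.natDegree ≤ 2 * n := by rw [ha']; exact hdeg _ _ hda
  have h2 : b'.natDegree ≤ 3 * n := by rw [hb']; exact hdeg _ _ hdb
  refine ⟨c, a', b', h1, h2, ?_, fun s hs => ⟨?_, ?_⟩⟩
  · refine le_antisymm ((natDegree_sub_le _ _).trans (max_le ?_ ?_)) (le_natDegree_of_ne_zero ?_)
    · exact natDegree_pow_le.trans (by omega)
    · exact natDegree_pow_le.trans (by omega)
    · rw [coeff_sub]
      have e1 : (a' ^ 3).coeff (6 * n) = (a'.coeff (2 * n)) ^ 3 := by
        rw [show 6 * n = 3 * (2 * n) by ring]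
        exact coeff_pow_of_natDegree_le h1
      have e2 : (b' ^ 2).coeff (6 * n) = (b'.coeff (3 * n)) ^ 2 := by
        rw [show 6 * n = 2 * (3 * n) by ring]
        exact coeff_pow_of_natDegree_le h2
      rw [e1, e2, ha', hb', htop, htop]
      rwa [eval_sub, eval_pow, eval_pow] at hc
  · rw [← pow_mul, mul_comm n 2, ha']
    exact hev _ _ hda s hs
  · rw [← pow_mul, mul_comm n 3, hb']
    exact hev _ _ hdb s hs

/-- an integral multiple -/
theorem int_mult (A : ℚ[X]) : ∃ (d : ℤ) (a : ℤ[X]), d ≠ 0 ∧ a.map (Int.castRingHom ℚ) =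
    C (d : ℚ) * A := by
  obtain ⟨d, hd, h⟩ := IsLocalization.integerNormalization_spec (nonZeroDivisors ℤ) A
  refine ⟨d, IsLocalization.integerNormalization (nonZeroDivisors ℤ) A,
    nonZeroDivisors.ne_zero hd, ?_⟩
  rw [algebraMap_int_eq] at h
  rw [h]
  ext i
  rw [coeff_C_mul, coeff_smul, zsmul_eq_mul]

/-- **the division of the model** -/
theorem divide {n : ℕ} {a b : ℤ[X]} (hda : a.natDegree ≤ 2 * n) (hdb : b.natDegree ≤ 3 * n)
    (ha0 : a ≠ 0) (hb0 : b ≠ 0) {π : ℚ[X]} (hπ : Irreducible π)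
    (h1 : π ^ 2 ∣ a.map (Int.castRingHom ℚ)) (h2 : π ^ 3 ∣ b.map (Int.castRingHom ℚ)) :
    ∃ (m : ℕ) (a' b' : ℤ[X]) (ρ : ℚ[X]), m < n ∧ a'.natDegree ≤ 2 * m ∧ b'.natDegree ≤ 3 * m ∧
      ∀ s : ℚ, aeval s a = (ρ.eval s) ^ 2 * aeval s a' ∧ aeval s b = (ρ.eval s) ^ 3 * aeval s b' := by
  obtain ⟨A, hA⟩ := h1
  obtain ⟨B, hB⟩ := h2
  obtain ⟨d, a1, hd, ha1⟩ := int_mult A
  obtain ⟨e, b1, he, hb1⟩ := int_mult B
  have hπ1 := hπ.natDegree_pos
  have hA0 : a.map (Int.castRingHom ℚ) ≠ 0 := by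
    rw [Ne, Polynomial.map_eq_zero_iff Int.cast_injective]
    exact ha0
  have hB0 : b.map (Int.castRingHom ℚ) ≠ 0 := by
    rw [Ne, Polynomial.map_eq_zero_iff Int.cast_injective]
    exact hb0
  have hA1 : A ≠ 0 := by
    rintro rfl
    rw [mul_zero] at hA
    exact hA0 hA
  have hB1 : B ≠ 0 := by
    rintro rfl
    rw [mul_zero] at hB
    exact hB0 hB
  have e1 : 2 * π.natDegree + A.natDegree = a.natDegree := by
    have := congrArg natDegree hA
    rw [natDegree_mul (pow_ne_zero 2 hπ.ne_zero) hA1, natDegree_pow,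
      natDegree_map_eq_of_injective Int.cast_injective] at this
    omega
  have e2 : 3 * π.natDegree + B.natDegree = b.natDegree := by
    have := congrArg natDegree hB
    rw [natDegree_mul (pow_ne_zero 3 hπ.ne_zero) hB1, natDegree_pow,
      natDegree_map_eq_of_injective Int.cast_injective] at this
    omega
  have hdQ : (d : ℚ) ≠ 0 := by exact_mod_cast hd
  have heQ : (e : ℚ) ≠ 0 := by exact_mod_cast he
  refine ⟨n - π.natDegree, C (d * e ^ 2) * a1, C (d ^ 3 * e ^ 2) * b1,
    C (1 / (d * e : ℚ)) * π, by omega, ?_, ?_, fun s => ⟨?_, ?_⟩⟩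
  · refine (natDegree_C_mul_le _ _).trans ?_
    have : a1.natDegree = A.natDegree := by
      rw [← natDegree_map_eq_of_injective (f := Int.castRingHom ℚ) Int.cast_injective, ha1,
        natDegree_C_mul hdQ]
    omega
  · refine (natDegree_C_mul_le _ _).trans ?_
    have : b1.natDegree = B.natDegree := by
      rw [← natDegree_map_eq_of_injective (f := Int.castRingHom ℚ) Int.cast_injective, hb1,
        natDegree_C_mul heQ]
    omega
  · rw [map_mul, ← eval_toQ a, ← eval_toQ a1, hA, ha1, aeval_C]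
    simp only [eval_mul, eval_pow, eval_C, eq_intCast, algebraMap_int_eq]
    push_cast
    field_simp
  · rw [map_mul, ← eval_toQ b, ← eval_toQ b1, hB, hb1, aeval_C]
    simp only [eval_mul, eval_pow, eval_C, eq_intCast, algebraMap_int_eq]
    push_cast
    field_simp

/-- the weight of a minimal family -/
theorem wgt_ge {n : ℕ} (hn : 1 ≤ n) {a b : ℤ[X]} (hda : a.natDegree ≤ 2 * n)
    (hdb : b.natDegree ≤ 3 * n) (hD : (a ^ 3 - b ^ 2).natDegree = 6 * n)
    (hiso : ∀ x y : ℤ, C x * a ^ 3 = C y * b ^ 2 → x = 0 ∧ y = 0)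
    (hmin : ∀ π : ℚ[X], Irreducible π →
      ¬ (π ^ 2 ∣ a.map (Int.castRingHom ℚ) ∧ π ^ 3 ∣ b.map (Int.castRingHom ℚ))) :
    min (n + 2) 4 ≤ wgt a b := by
  classical
  obtain ⟨A, hA⟩ : ∃ A : ℚ[X], A = a.map (Int.castRingHom ℚ) := ⟨_, rfl⟩
  obtain ⟨B, hB⟩ : ∃ B : ℚ[X], B = b.map (Int.castRingHom ℚ) := ⟨_, rfl⟩
  have hDm : (a ^ 3 - b ^ 2).map (Int.castRingHom ℚ) = A ^ 3 - B ^ 2 := by
    rw [Polynomial.map_sub, Polynomial.map_pow, Polynomial.map_pow, hA, hB]
  have hDd : (A ^ 3 - B ^ 2).natDegree = 6 * n := by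
    rw [← hDm, natDegree_map_eq_of_injective Int.cast_injective, hD]
  have hD0 : A ^ 3 - B ^ 2 ≠ 0 := by
    intro h
    rw [h, natDegree_zero] at hDd
    omega
  unfold wgt
  rw [hDm]
  by_cases hcase : ∃ P ∈ primeFactors (A ^ 3 - B ^ 2), 6 ≤ P.natDegree
  · obtain ⟨P, hP, hP6⟩ := hcase
    refine (min_le_right _ _).trans (le_trans ?_ (Finset.single_le_sum
      (f := fun P => wt P.natDegree) (fun _ _ => Nat.zero_le _) hP))
    show 4 ≤ wt P.natDegree
    unfold wt
    rw [if_neg (by omega)]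
  · push Not at hcase
    have h1 : ∑ P ∈ primeFactors (A ^ 3 - B ^ 2), wt P.natDegree =
        (radical (A ^ 3 - B ^ 2)).natDegree := by
      rw [radical, natDegree_prod]
      · refine Finset.sum_congr rfl fun P hP => ?_
        unfold wt
        rw [if_pos (by have := hcase P hP; omega)]
        rfl
      · intro P hP
        exact (irreducible_of_normalized_factor P (mem_primeFactors.1 hP)).ne_zero
    rw [h1]
    refine (min_le_left _ _).trans ?_
    refine Pool.Agent.Y670.RD.davenport n hn A B _ ?_ ?_ hDd ?_ ?_ radical_dvd_self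
      (exists_dvd_radical_self_pow hD0)
    · rw [hA, natDegree_map_eq_of_injective Int.cast_injective]
      exact hda
    · rw [hB, natDegree_map_eq_of_injective Int.cast_injective]
      exact hdb
    · intro x y hxy
      have h2 := hiso (x.num * y.den) (y.num * x.den) (by
        apply Polynomial.map_injective (Int.castRingHom ℚ) Int.cast_injective
        rw [Polynomial.map_mul, Polynomial.map_mul, Polynomial.map_pow, Polynomial.map_pow,
          ← hA, ← hB, map_C, map_C]
        have e1 : (Int.castRingHom ℚ) (x.num * y.den) = x * (x.den * y.den) := by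
          have := Rat.mul_den_eq_num x
          simp only [eq_intCast, Int.cast_mul, Int.cast_natCast]
          rw [← this]
          ring
        have e2 : (Int.castRingHom ℚ) (y.num * x.den) = y * (x.den * y.den) := by
          have := Rat.mul_den_eq_num y
          simp only [eq_intCast, Int.cast_mul, Int.cast_natCast]
          rw [← this]
          ring
        rw [e1, e2]
        simp only [C_mul]
        linear_combination (C (x.den : ℚ) * C (y.den : ℚ)) * hxy)
      obtain ⟨h3, h4⟩ := h2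
      have hx := x.den_nz
      have hy := y.den_nz
      constructor
      · rcases mul_eq_zero.1 h3 with h5 | h5
        · exact Rat.num_eq_zero.1 h5
        · exact absurd (by exact_mod_cast h5) hy
      · rcases mul_eq_zero.1 h4 with h5 | h5
        · exact Rat.num_eq_zero.1 h5
        · exact absurd (by exact_mod_cast h5) hx
    · intro π hπ
      rw [hA, hB]
      exact hmin π hπ

end Pool.Agent.N751.RW
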