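import Mathlib
import Pool.Agent.N751.RW.Trans

/-!
# The inequality for all families
-/

set_option autoImplicit false
set_option linter.unusedSectionVars false

namespace Pool.Agent.N751.RW

open NumberField IsDedekindDomain Finset Pool.Agent.H691R3 Pool.Agent.TH876.Loc
open Pool.Agent.N753.LS Pool.Agent.N753.SF Polynomial Height UniqueFactorizationMonoid
open Pool.Agent.H39R3 (GMin condW)

theorem pull {E : Set ℚ} {κ : ℝ} {a b a' b' : ℤ[X]} {g : Fin 4 → ℚ} {ρ : ℚ[X]}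
    (h : ∀ s : ℚ, aeval s a = (ρ.eval s) ^ 2 * aeval s a' ∧
      aeval s b = (ρ.eval s) ^ 3 * aeval s b') (hc : Concl E κ a' b' g) : Concl E κ a b g := by
  obtain ⟨C, hc⟩ := hc
  refine ⟨C, fun t ht hgt W ha hb hD hW hj => ?_⟩
  obtain ⟨h1, h2⟩ := h (mob g t)
  have hu : ρ.eval (mob g t) ≠ 0 := by
    intro h0
    rw [h0, zero_pow (by norm_num), zero_mul] at h1
    exact ha h1
  refine hc t ht hgt W ?_ ?_ ?_ hW (jrel_scale hu h1 h2 hj)
  · intro h0
    rw [h0, mul_zero] at h1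
    exact ha h1
  · intro h0
    rw [h0, mul_zero] at h2
    exact hb h2
  · intro h0
    rw [disc_scale h1 h2, h0, mul_zero] at hD
    exact hD rfl

/-- **the inequality for all families** -/
theorem gen (h8 : StEll) (h3 : StEll3) {ε δ : ℝ} (hδ0 : 0 ≤ δ) (hδ1 : δ ≤ 1 / 8)
    (hδε : 8 * δ ≤ ε) {E : Set ℚ} (hE : GoodE δ E) :
    ∀ n : ℕ, ∀ a b : ℤ[X], a.natDegree ≤ 2 * n → b.natDegree ≤ 3 * n →
      (∀ x y : ℤ, C x * a ^ 3 = C y * b ^ 2 → x = 0 ∧ y = 0) → ∀ g : Fin 4 → ℚ, dt g ≠ 0 →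
        Concl E ((1 + ε) * kap n) a b g := by
  intro n
  induction n using Nat.strong_induction_on with
  | _ n ih =>
  intro a b hda hdb hiso g hg
  have ha0 : a ≠ 0 := by
    rintro rfl
    have := (hiso 1 0 (by simp)).1
    omega
  have hb0 : b ≠ 0 := by
    rintro rfl
    have := (hiso 0 1 (by simp)).2
    omega
  have hD0 : a ^ 3 - b ^ 2 ≠ 0 := by
    intro h
    have := (hiso 1 1 (by rw [C_1, one_mul, one_mul]; exact sub_eq_zero.1 h)).1
    omega
  have hn : 1 ≤ n := by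
    by_contra hcon
    have hn0 : n = 0 := by omega
    rw [hn0] at hda hdb
    obtain ⟨x, hx⟩ : ∃ x, a = C x := ⟨_, eq_C_of_natDegree_le_zero (by omega)⟩
    obtain ⟨y, hy⟩ : ∃ y, b = C y := ⟨_, eq_C_of_natDegree_le_zero (by omega)⟩
    have h1 := hiso (y ^ 2) (x ^ 3) (by
      rw [hx, hy, ← C_pow, ← C_pow, ← C_mul, ← C_mul, mul_comm])
    apply hb0
    rw [hy, pow_eq_zero_iff (by norm_num) |>.1 h1.1, C_0]
  obtain ⟨c, a', b', hda', hdb', hD', htr⟩ := transform hda hdb hD0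
  obtain ⟨g', hg'⟩ : ∃ g' : Fin 4 → ℚ, g' = ![g 2, g 3, g 0 - c * g 2, g 1 - c * g 3] :=
    ⟨_, rfl⟩
  have hdt : dt g' ≠ 0 := by
    have : dt g' = -dt g := by
      rw [hg']
      unfold dt
      simp
      ring
    rw [this]
    exact neg_ne_zero.2 hg
  have hiso' : ∀ x y : ℤ, C x * a' ^ 3 = C y * b' ^ 2 → x = 0 ∧ y = 0 :=
    iso_transfer (c : ℚ) (fun s hs => ⟨(s - c) ^ n, 1 / (s - c), htr s hs⟩) hiso
  have ha0' : a' ≠ 0 := by
    rintro rfl
    have := (hiso' 1 0 (by simp)).1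
    omega
  have hb0' : b' ≠ 0 := by
    rintro rfl
    have := (hiso' 0 1 (by simp)).2
    omega
  have key : Concl E ((1 + ε) * kap n) a' b' g' := by
    by_cases hmin : ∀ π : ℚ[X], Irreducible π →
      ¬ (π ^ 2 ∣ a'.map (Int.castRingHom ℚ) ∧ π ^ 3 ∣ b'.map (Int.castRingHom ℚ))
    · have h1 := min_out h8 h3 hδ0 hδ1 hδε hE hn hda' hdb' ha0' hb0' hmin (by omega) hdt
      refine h1.mono ?_
      have h2 := wgt_ge hn hda' hdb' hD' hiso' hmin
      have h3 : min ((n : ℝ) + 2) 4 ≤ (wgt a' b' : ℕ) := by exact_mod_cast h2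
      have h4 := kp_anti (n := n) (by positivity : 0 < min ((n : ℝ) + 2) 4) h3
      rw [kp_kap] at h4
      exact mul_le_mul_of_nonneg_left h4 (by linarith)
    · push Not at hmin
      obtain ⟨π, hπ, h1, h2⟩ := hmin
      obtain ⟨m, a1, b1, ρ, hm, hda1, hdb1, hρ⟩ := divide hda' hdb' ha0' hb0' hπ h1 h2
      have hiso1 : ∀ x y : ℤ, C x * a1 ^ 3 = C y * b1 ^ 2 → x = 0 ∧ y = 0 :=
        iso_transfer 0 (fun s _ => ⟨ρ.eval s, s, hρ s⟩) hiso'
      refine (pull hρ (ih m hm a1 b1 hda1 hdb1 hiso1 g' hdt)).mono ?_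
      exact mul_le_mul_of_nonneg_left (kap_mono hm.le) (by linarith)
  obtain ⟨C1, h1⟩ := key
  obtain ⟨C2, hC2, h2⟩ := triv h3 hda hdb
  have hh : 0 ≤ logHeight₁ (c : ℚ) := zero_le_logHeight₁ _
  refine ⟨|C1| + (6 * n * logHeight₁ (c : ℚ) + C2), fun t ht hgt W ha hb hDs hW hj => ?_⟩
  have hL0 : 0 ≤ Real.log (condW W) := condW_one
  have e0 : 0 ≤ 6 * (n : ℝ) * logHeight₁ (c : ℚ) := by positivity
  by_cases hs : mob g t = c
  · have e1 := h2 _ W ha hb hDs hW hj
    rw [hs] at e1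
    have e2 : 3 * Real.log (condW W) ≤ (1 + ε) * kap n * Real.log (condW W) :=
      mul_le_mul_of_nonneg_right (by
        have := kap_ge (n := n)
        nlinarith) hL0
    have := abs_nonneg C1
    linarith
  · have hgt' : g' 2 * t + g' 3 = (g 2 * t + g 3) * (mob g t - c) := by
      have e : mob g t * (g 2 * t + g 3) = g 0 * t + g 1 := by
        unfold mob
        exact div_mul_cancel₀ _ hgt
      rw [hg']
      simp only [Matrix.cons_val]
      linear_combination -e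
    have hgt0 : g' 2 * t + g' 3 ≠ 0 := by
      rw [hgt']
      exact mul_ne_zero hgt (sub_ne_zero.2 hs)
    have hm : mob g' t = 1 / (mob g t - c) := by
      have e : mob g' t = (g 2 * t + g 3) / (g' 2 * t + g' 3) := by
        unfold mob
        rw [hg']
        simp only [Matrix.cons_val]
      rw [e, hgt', div_mul_eq_div_div, div_self hgt]
    obtain ⟨h4, h5⟩ := htr _ hs
    rw [← hm] at h4 h5
    have hu : (mob g t - c) ^ n ≠ 0 := pow_ne_zero _ (sub_ne_zero.2 hs)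
    have e1 := h1 t ht hgt0 W (by
      intro h0
      rw [h0, mul_zero] at h4
      exact ha h4) (by
      intro h0
      rw [h0, mul_zero] at h5
      exact hb h5) (by
      intro h0
      rw [disc_scale h4 h5, h0, mul_zero] at hDs
      exact hDs rfl) hW (jrel_scale hu h4 h5 hj)
    have := le_abs_self C1
    linarith

end Pool.Agent.N751.RW
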