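import Mathlib
import Pool.Agent.N751.RW.OneE
import Pool.Agent.N751.UE.Diag2

/-!
# One exceptional set for all exponents
-/

set_option autoImplicit false
set_option linter.unusedSectionVars false

namespace Pool.Agent.N751.RW

open NumberField IsDedekindDomain Finset Pool.Agent.H691R3 Pool.Agent.TH876.Loc
open Pool.Agent.N753.LS Pool.Agent.N753.SF Polynomial Height

/-- the diagonal argument without a uniform exponent -/
theorem diag_all {K : Type} [Field K] [NumberField K] {I : Type} [Countable I] [Nonempty I]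
    (A : I → Set K) (hA : ∀ i, ∃ e : ℝ, 0 < e ∧ Few e (A i)) : ∃ E : Set K, (∀ H : ℝ, 0 ≤ H →
      ((E ∩ {y | logHeight₁ y ≤ H}).ncard : ℝ) ≤ 2 * Real.exp (2 * H - √H)) ∧
      ∀ i, ∃ h0 : ℝ, ∀ x : K, x ∉ E → h0 ≤ logHeight₁ x → x ∉ A i := by
  obtain ⟨s, hs⟩ := exists_surjective_nat I
  obtain ⟨T, h, hT1, hT2⟩ := Pool.Agent.N751.UE.diag2 (X := K) (fun y => logHeight₁ y)
    (fun H => NumberField.finite_setOfPred_logHeight₁_le K H) (fun n => A (s n)) (α := 2)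
    (fun n => by
      obtain ⟨e, he, C, hC⟩ := hA (s n)
      exact ⟨C, e, he, hC⟩)
  refine ⟨T, hT2, fun i => ?_⟩
  obtain ⟨n, rfl⟩ := hs i
  refine ⟨h n, fun x hx hxh hxA => ?_⟩
  have := hT1 n x hxA hx
  linarith

/-- from the exceptional sets to the property of the set -/
theorem goodE_of {κ : ℝ} {E : Set ℚ} (hE : ∀ g : Fin 4 → ℚ, dt g ≠ 0 →
    ∀ i : (𝓞 ℚ)[X] ⊕ ((𝓞 ℚ)[X] × ℕ), Out E g (ExS κ i)) : GoodE κ E := by
  intro g hg f
  refine ⟨fun hf => ?_, fun hf hroot => ⟨?_, fun l hl => ?_⟩⟩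
  · have h := hE g hg (Sum.inl f)
    simp only [ExS, if_pos hf] at h
    exact h
  · have h := hE g hg (Sum.inr (f, 0))
    simp only [ExS, if_pos (show Nice f ∧ (∀ z : ℚ, aeval z f ≠ 0) from ⟨hf, hroot⟩),
      if_neg Nat.not_prime_zero] at h
    exact h
  · have h := hE g hg (Sum.inr (f, l))
    simp only [ExS, if_pos (show Nice f ∧ (∀ z : ℚ, aeval z f ≠ 0) from ⟨hf, hroot⟩),
      if_pos hl] at h
    exact h

open Classical in
/-- **one exceptional set for all `δ`** -/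
theorem univ_all (hSum : StSum) : ∃ E : Set ℚ, (∀ H : ℝ, 0 ≤ H →
      ((E ∩ {y | logHeight₁ y ≤ H}).ncard : ℝ) ≤ 2 * Real.exp (2 * H - √H)) ∧
      ∀ k : ℕ, GoodE (1 / ((k : ℝ) + 1)) E := by
  have hcp := countable_poly ℚ
  have hk0 : ∀ k : ℕ, (0 : ℝ) < 1 / ((k : ℝ) + 1) := fun k => by positivity
  have hk1 : ∀ k : ℕ, 1 / ((k : ℝ) + 1) ≤ 1 := fun k => by
    rw [div_le_one (by positivity)]
    have : (0 : ℝ) ≤ k := Nat.cast_nonneg k
    linarith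
  obtain ⟨E, hE1, hE2⟩ := diag_all
    (fun i : (((𝓞 ℚ)[X] ⊕ ((𝓞 ℚ)[X] × ℕ)) × (Fin 4 → ℚ)) × ℕ =>
      if dt i.1.2 ≠ 0 then {y | i.1.2 2 * y + i.1.2 3 ≠ 0 ∧
        mob i.1.2 y ∈ ExS (1 / ((i.2 : ℝ) + 1)) i.1.1} else ∅) (by
    rintro ⟨⟨i, g⟩, k⟩
    refine ⟨ex (1 / ((k : ℝ) + 1)), ex_pos (hk0 k), ?_⟩
    by_cases hg : dt g ≠ 0
    · simp only [if_pos hg]
      exact few_mob (few_ExS hSum (hk0 k) (hk1 k) i) hg
    · simp only [if_neg hg]
      exact few_empty _)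
  refine ⟨E, hE1, fun k => goodE_of fun g hg i => ?_⟩
  obtain ⟨h0, h⟩ := hE2 ((i, g), k)
  refine ⟨h0, fun t ht hth hgt hA => ?_⟩
  have h1 := h t ht hth
  simp only [if_pos hg] at h1
  exact h1 ⟨hgt, hA⟩

end Pool.Agent.N751.RW
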