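import Mathlib
import Pool.Agent.N751.RW.UnivAll
import Pool.Agent.N751.RW.Gen
import Pool.Agent.N751.RW.Ell
import Pool.Agent.N751.RW.Ell3

/-!
# The main theorems
-/

set_option autoImplicit false
set_option linter.unusedSectionVars false

namespace Pool.Agent.N751.RW

open NumberField IsDedekindDomain Finset Pool.Agent.H691R3 Pool.Agent.TH876.Loc
open Pool.Agent.N753.LS Pool.Agent.N753.SF Polynomial Height UniqueFactorizationMonoid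
open Pool.Agent.H39R3 (GMin condW)

/-- the family is minimal -/
def MinF (n : ℕ) (a b : ℤ[X]) : Prop := (a ^ 3 - b ^ 2).natDegree = 6 * n ∧
  ∀ π : ℚ[X], Irreducible π →
      ¬ (π ^ 2 ∣ a.map (Int.castRingHom ℚ) ∧ π ^ 3 ∣ b.map (Int.castRingHom ℚ))

theorem pos_of_iso {n : ℕ} {a b : ℤ[X]} (hda : a.natDegree ≤ 2 * n) (hdb : b.natDegree ≤ 3 * n)
    (hiso : ∀ x y : ℤ, C x * a ^ 3 = C y * b ^ 2 → x = 0 ∧ y = 0) :
    1 ≤ n ∧ a ≠ 0 ∧ b ≠ 0 := by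
  have ha0 : a ≠ 0 := by
    rintro rfl
    have := (hiso 1 0 (by simp)).1
    omega
  have hb0 : b ≠ 0 := by
    rintro rfl
    have := (hiso 0 1 (by simp)).2
    omega
  refine ⟨?_, ha0, hb0⟩
  by_contra hcon
  have hn0 : n = 0 := by omega
  rw [hn0] at hda hdb
  obtain ⟨x, hx⟩ : ∃ x, a = C x := ⟨_, eq_C_of_natDegree_le_zero (by omega)⟩
  obtain ⟨y, hy⟩ : ∃ y, b = C y := ⟨_, eq_C_of_natDegree_le_zero (by omega)⟩
  have h1 := hiso (y ^ 2) (x ^ 3) (by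
    rw [hx, hy, ← C_pow, ← C_pow, ← C_mul, ← C_mul, mul_comm])
  apply hb0
  rw [hy, pow_eq_zero_iff (by norm_num) |>.1 h1.1, C_0]

/-- both inequalities for a good set -/
theorem both {ε δ : ℝ} (hδ0 : 0 ≤ δ) (hδ1 : δ ≤ 1 / 8) (hδε : 8 * δ ≤ ε) {E : Set ℚ}
    (hE : GoodE δ E) {n : ℕ} {a b : ℤ[X]} (hda : a.natDegree ≤ 2 * n) (hdb : b.natDegree ≤ 3 * n)
    (hiso : ∀ x y : ℤ, C x * a ^ 3 = C y * b ^ 2 → x = 0 ∧ y = 0) {g : Fin 4 → ℚ} (hg : dt g ≠ 0) :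
    Concl E ((1 + ε) * kp n (min ((n : ℝ) + 2) 4)) a b g ∧
      (MinF n a b → Concl E ((1 + ε) * kp n (wgt a b)) a b g) := by
  obtain ⟨hn, ha0, hb0⟩ := pos_of_iso hda hdb hiso
  rw [kp_kap]
  exact ⟨gen stEll stEll3 hδ0 hδ1 hδε hE n a b hda hdb hiso g hg, fun hM =>
    min_out stEll stEll3 hδ0 hδ1 hδε hE hn hda hdb ha0 hb0 hM.2 (by rw [hM.1]; omega) hg⟩

/-- **one set for all `ε`** -/
theorem top_all (hSum : StSum) : ∃ E : Set ℚ, (∀ H : ℝ, 0 ≤ H →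
      ((E ∩ {y | logHeight₁ y ≤ H}).ncard : ℝ) ≤ 2 * Real.exp (2 * H - √H)) ∧
      ∀ ε : ℝ, 0 < ε → ∀ (n : ℕ) (a b : ℤ[X]), a.natDegree ≤ 2 * n → b.natDegree ≤ 3 * n →
        (∀ x y : ℤ, C x * a ^ 3 = C y * b ^ 2 → x = 0 ∧ y = 0) → ∀ g : Fin 4 → ℚ, dt g ≠ 0 →
          Concl E (kp n (min ((n : ℝ) + 2) 4) + ε) a b g ∧
            (MinF n a b → Concl E (kp n (wgt a b) + ε) a b g) := by
  obtain ⟨E, hE1, hE2⟩ := univ_all hSum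
  refine ⟨E, hE1, fun ε hε n a b hda hdb hiso g hg => ?_⟩
  have key : ∀ κ : ℝ, 0 ≤ κ → ∃ k : ℕ, 1 / ((k : ℝ) + 1) ≤ 1 / 8 ∧
      (1 + 8 * (1 / ((k : ℝ) + 1))) * κ ≤ κ + ε := by
    intro κ hκ
    obtain ⟨k, hk⟩ := exists_nat_gt (8 + 8 * κ / ε)
    have h0 : 0 ≤ 8 * κ / ε := by positivity
    have hk1 : (0 : ℝ) < (k : ℝ) + 1 := by positivity
    refine ⟨k, ?_, ?_⟩
    · rw [div_le_div_iff₀ hk1 (by norm_num)]
      linarith
    · have h1 : 8 * κ / ε ≤ (k : ℝ) + 1 := by linarith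
      rw [div_le_iff₀ hε] at h1
      have h2 : 8 * (1 / ((k : ℝ) + 1)) * κ ≤ ε := by
        have : 8 * (1 / ((k : ℝ) + 1)) * κ = 8 * κ / ((k : ℝ) + 1) := by ring
        rw [this, div_le_iff₀ hk1]
        linarith
      linarith
  have hpos : ∀ k : ℕ, (0 : ℝ) ≤ 1 / ((k : ℝ) + 1) := fun k => by positivity
  refine ⟨?_, fun hM => ?_⟩
  · obtain ⟨k, hk1, hk2⟩ := key (kp n (min ((n : ℝ) + 2) 4)) (by
      have := kp_ge (n := n) (w := min ((n : ℝ) + 2) 4) (by positivity)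
      linarith)
    exact ((both (hpos k) hk1 le_rfl (hE2 k) hda hdb hiso hg).1).mono hk2
  · obtain ⟨k, hk1, hk2⟩ := key (kp n (wgt a b : ℕ)) (by
      have := kp_ge (n := n) (w := ((wgt a b : ℕ) : ℝ)) (by positivity)
      linarith)
    exact ((both (hpos k) hk1 le_rfl (hE2 k) hda hdb hiso hg).2 hM).mono hk2

/-- **power saving for a fixed `ε`** -/
theorem top_one (hSum : StSum) (ε : ℝ) (hε : 0 < ε) : ∃ (E : Set ℚ) (ν : ℝ), 0 < ν ∧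
    (∀ H : ℝ, 0 ≤ H →
      ((E ∩ {y | logHeight₁ y ≤ H}).ncard : ℝ) ≤ 2 * Real.exp ((2 - ν) * H)) ∧
      ∀ (n : ℕ) (a b : ℤ[X]), a.natDegree ≤ 2 * n → b.natDegree ≤ 3 * n →
        (∀ x y : ℤ, C x * a ^ 3 = C y * b ^ 2 → x = 0 ∧ y = 0) → ∀ g : Fin 4 → ℚ, dt g ≠ 0 →
          Concl E ((1 + ε) * kp n (min ((n : ℝ) + 2) 4)) a b g ∧
            (MinF n a b → Concl E ((1 + ε) * kp n (wgt a b)) a b g) := by
  obtain ⟨δ, hδ⟩ : ∃ δ : ℝ, δ = min (1 / 8) (ε / 8) := ⟨_, rfl⟩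
  have hδ0 : 0 < δ := by rw [hδ]; exact lt_min (by norm_num) (by positivity)
  have hδ1 : δ ≤ 1 / 8 := by rw [hδ]; exact min_le_left _ _
  have hδε : 8 * δ ≤ ε := by
    have : δ ≤ ε / 8 := by rw [hδ]; exact min_le_right _ _
    linarith
  obtain ⟨E, hE1, hE2⟩ := univ_set ℚ hSum hδ0 (by linarith)
  refine ⟨E, ex δ / 2, by have := ex_pos hδ0; linarith, hE1, fun n a b hda hdb hiso g hg => ?_⟩
  exact both hδ0.le hδ1 hδε hE2 hda hdb hiso hg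

end Pool.Agent.N751.RW
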