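import Mathlib
import Pool.Agent.N751.RW.Top

/-!
# Translation to the family `y² = x³ + A (T) x + B (T)`
-/

set_option autoImplicit false
set_option linter.unusedSectionVars false

namespace Pool.Agent.N751.RW

open NumberField Finset Polynomial Height UniqueFactorizationMonoid
open Pool.Agent.N753.SF (mob dt)
open Pool.Agent.H39R3 (GMin condW)

/-- `c₄` and `c₆` of the family -/
noncomputable def fa (A : ℤ[X]) : ℤ[X] := C (-48) * A

noncomputable def fb (B : ℤ[X]) : ℤ[X] := C (-864) * B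

theorem disc_fab (A B : ℤ[X]) : (fa A) ^ 3 - (fb B) ^ 2 = C (-27648) * (4 * A ^ 3 + 27 * B ^ 2) := by
  unfold fa fb
  rw [mul_pow, mul_pow, ← C_pow, ← C_pow]
  have e1 : (C ((-48 : ℤ) ^ 3) : ℤ[X]) = C (-27648) * 4 := by
    rw [show (4 : ℤ[X]) = C 4 by simp, ← C_mul]
    norm_num
  have e2 : (C ((-864 : ℤ) ^ 2) : ℤ[X]) = - (C (-27648) * 27) := by
    rw [show (27 : ℤ[X]) = C 27 by simp, ← C_mul, ← C_neg]
    norm_num
  rw [e1, e2]
  ring

theorem deg_fa (A : ℤ[X]) : (fa A).natDegree = A.natDegree := by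
  unfold fa
  exact natDegree_C_mul (by norm_num)

theorem deg_fb (B : ℤ[X]) : (fb B).natDegree = B.natDegree := by
  unfold fb
  exact natDegree_C_mul (by norm_num)

theorem iso_fab {A B : ℤ[X]} (hiso : ∀ x y : ℤ, C x * A ^ 3 = C y * B ^ 2 → x = 0 ∧ y = 0) :
    ∀ x y : ℤ, C x * (fa A) ^ 3 = C y * (fb B) ^ 2 → x = 0 ∧ y = 0 := by
  intro x y h
  have h1 := hiso (x * (-48) ^ 3) (y * (-864) ^ 2) (by
    unfold fa fb at h
    rw [mul_pow, mul_pow, ← C_pow, ← C_pow] at h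
    rw [C_mul, C_mul]
    linear_combination h)
  constructor
  · have := h1.1
    omega
  · have := h1.2
    omega

theorem disc_deg (A B : ℤ[X]) : ((fa A) ^ 3 - (fb B) ^ 2).natDegree =
    (4 * A ^ 3 + 27 * B ^ 2).natDegree := by
  rw [disc_fab]
  exact natDegree_C_mul (by norm_num)

theorem assoc_C {c : ℚ} (hc : c ≠ 0) (P : ℚ[X]) : Associated (C c * P) P := assoc_clear hc P

/-- minimality -/
theorem min_fab {A B : ℤ[X]} (hmin : ∀ π : ℚ[X], Irreducible π →
      ¬ (π ^ 2 ∣ A.map (Int.castRingHom ℚ) ∧ π ^ 3 ∣ B.map (Int.castRingHom ℚ))) :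
    ∀ π : ℚ[X], Irreducible π → ¬ (π ^ 2 ∣ (fa A).map (Int.castRingHom ℚ) ∧
      π ^ 3 ∣ (fb B).map (Int.castRingHom ℚ)) := by
  intro π hπ ⟨h1, h2⟩
  refine hmin π hπ ⟨?_, ?_⟩
  · unfold fa at h1
    rw [Polynomial.map_mul, map_C] at h1
    exact (assoc_C (by norm_num) _).dvd_iff_dvd_right.1 h1
  · unfold fb at h2
    rw [Polynomial.map_mul, map_C] at h2
    exact (assoc_C (by norm_num) _).dvd_iff_dvd_right.1 h2

/-- the bad places -/
theorem prime_fab (A B : ℤ[X]) :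
    primeFactors (((fa A) ^ 3 - (fb B) ^ 2).map (Int.castRingHom ℚ)) =
      primeFactors ((4 * A ^ 3 + 27 * B ^ 2).map (Int.castRingHom ℚ)) := by
  rw [disc_fab, Polynomial.map_mul, map_C]
  exact (assoc_C (by norm_num) _).primeFactors_eq

theorem aeval_fa (A : ℤ[X]) (s : ℚ) : aeval s (fa A) = -48 * aeval s A := by
  unfold fa
  rw [map_mul, aeval_C]
  simp

theorem aeval_fb (B : ℤ[X]) (s : ℚ) : aeval s (fb B) = -864 * aeval s B := by
  unfold fb
  rw [map_mul, aeval_C]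
  simp

theorem aeval_disc (A B : ℤ[X]) (s : ℚ) : aeval s ((fa A) ^ 3 - (fb B) ^ 2) =
    -27648 * (4 * aeval s A ^ 3 + 27 * aeval s B ^ 2) := by
  rw [map_sub, map_pow, map_pow, aeval_fa, aeval_fb]
  ring

/-- the `j`-invariant -/
theorem jrel_iff {A B : ℤ[X]} {s : ℚ} (hD : 4 * aeval s A ^ 3 + 27 * aeval s B ^ 2 ≠ 0)
    {W : WeierstrassCurve ℤ} (hW : W.Δ ≠ 0) :
    (W.c₄ : ℚ) ^ 3 / W.Δ = 1728 * (4 * aeval s A ^ 3) / (4 * aeval s A ^ 3 + 27 * aeval s B ^ 2) ↔
      JRel W (fa A) (fb B) s := by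
  have hΔ : (W.Δ : ℚ) ≠ 0 := by exact_mod_cast hW
  have hrel : (1728 : ℚ) * W.Δ = (W.c₄ : ℚ) ^ 3 - (W.c₆ : ℚ) ^ 2 := by
    exact_mod_cast W.c_relation
  unfold JRel
  rw [aeval_fa, aeval_fb, div_eq_div_iff hΔ hD]
  constructor
  · intro h
    linear_combination 27648 * h + 27648 * 4 * (aeval s A) ^ 3 * hrel
  · intro h
    linear_combination (1 / 27648) * h - 4 * (aeval s A) ^ 3 * hrel

/-- from the logarithmic inequality to the inequality -/
theorem exp_ineq {W : WeierstrassCurve ℤ} (hW : GMin W) {κ C : ℝ}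
    (h : htW W ≤ κ * Real.log (condW W) + C) :
    max (|(W.c₄ : ℝ)| ^ 3) ((W.c₆ : ℝ) ^ 2) ≤ Real.exp C * (condW W : ℝ) ^ κ := by
  have hrel := W.c_relation
  have hpos : 0 < max (|(W.c₄ : ℝ)| ^ 3) ((W.c₆ : ℝ) ^ 2) := by
    by_cases h4 : W.c₄ = 0
    · refine lt_max_of_lt_right ?_
      have h6 : W.c₆ ≠ 0 := by
        intro h6
        rw [h4, h6] at hrel
        apply hW.1
        omega
      have : (W.c₆ : ℝ) ≠ 0 := by exact_mod_cast h6
      positivity
    · refine lt_max_of_lt_left ?_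
      have : (W.c₄ : ℝ) ≠ 0 := by exact_mod_cast h4
      positivity
  have hN : 0 < (condW W : ℝ) := by
    have : 0 < condW W := by
      unfold condW
      refine Finset.prod_pos fun p hp => ?_
      have := (Nat.prime_of_mem_primeFactors (Finset.mem_filter.1 hp).1).pos
      split_ifs <;> positivity
    exact_mod_cast this
  rw [Real.rpow_def_of_pos hN, ← Real.exp_add, ← Real.exp_log hpos]
  refine Real.exp_le_exp.2 ?_
  unfold htW at h
  linarith

end Pool.Agent.N751.RW
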