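import Mathlib
import Pool.Agent.N751.RW.Stm
import Pool.Agent.N753.SF.Key

/-!
# The points with given multiplicities modulo `ℓ` and given distance to a point
-/

set_option autoImplicit false

namespace Pool.Agent.N751.RW

open NumberField IsDedekindDomain Finset Pool.Agent.H691R3 Pool.Agent.TH876.Loc
open Pool.Agent.N753.LS Pool.Agent.N753.SF Polynomial
open H645.ABC (vl vl_mul vl_div vl_inv vl_pow)

variable {K : Type} [Field K] [NumberField K]

/-- the valuation of `f (x) (x - z) ^ k` -/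
theorem vl_gzk {f : (𝓞 K)[X]} {v : Pr K} (hv : f.leadingCoeff ∉ v.asIdeal) {x z : K} (k : ℕ)
    (hx : aeval x f ≠ 0) (hxz : x ≠ z) (u : Kˣ) (hu : (u : K) = aeval x f * (x - z) ^ k) :
    vl v u = (f.natDegree + k) * (mxn v x : ℤ) + k * (mxn v z - ml v x z) - nu f v x := by
  have hN := log_Nv_pos v
  have h1 := log_fv_vl v u
  rw [hu, map_mul, map_pow, Real.log_mul ((fv v).pos hx).ne'
    (pow_ne_zero _ ((fv v).pos (sub_ne_zero.2 hxz)).ne'), Real.log_pow] at h1
  have h2 := mu_eq_nu hv hx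
  have h3 : mu (Sum.inr v) f x = f.natDegree * N753.SF.mx (Sum.inr v) x - Real.log (fv v (aeval x f)) := rfl
  have h4 := lam_eq_ml v hxz
  have h5 := lamA_eq (fv v) (aff_ne_zero x) (aff_ne_zero z) (aff_wedge hxz)
  have h6 : lam (Sum.inr v) (aff x) (aff z) = lamA (fv v) (aff x) (aff z) := rfl
  have e1 : (aff x).1 * (aff z).2 - (aff x).2 * (aff z).1 = x - z := by
    simp only [aff, mul_one, one_mul]
  have e2 : ∀ t : K, Real.log (max (fv v (aff t).1) (fv v (aff t).2)) = N753.SF.mx (Sum.inr v) t := by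
    intro t
    show Real.log (max (fv v t) (fv v 1)) = Real.log (max (fv v t) 1)
    rw [map_one]
  rw [e1, e2, e2] at h5
  rw [h6, h5] at h4
  rw [h3] at h2
  have h7 := mx_eq_mxn v x
  have h8 := mx_eq_mxn v z
  rw [h7] at h2
  rw [h7, h8] at h4
  have h9 : ((vl v u : ℤ) : ℝ) * Real.log (Nv v) = (((f.natDegree + k) * (mxn v x : ℤ) +
      k * (mxn v z - ml v x z) - nu f v x : ℤ) : ℝ) * Real.log (Nv v) := by
    push_cast
    linear_combination (-1 : ℝ) * h1 + (-1 : ℝ) * h2 - (k : ℝ) * h4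
  exact_mod_cast mul_right_cancel₀ hN.ne' h9

theorem exists_k {l : ℕ} (hl : l.Prime) (d : ℕ) : ∃ k : ℕ, l ∣ d + k := by
  refine ⟨(l - 1) * d, ⟨d, ?_⟩⟩
  have := hl.one_lt
  obtain ⟨m, rfl⟩ : ∃ m, l = m + 1 := ⟨l - 1, by omega⟩
  simp
  ring

open Classical in
/-- **points with given divisors** -/
theorem stKey (hL : StLs) (hC : StCell) : StKey := by
  intro K _ _ l hl f hd Bad hBad δ hδ
  have : Fact l.Prime := ⟨hl⟩
  obtain ⟨k, hk⟩ := exists_k hl f.natDegree
  obtain ⟨M, hM, hcell⟩ := hC K l hl k f hd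
  obtain ⟨C1, hC1, hls⟩ := hL K l hl M hM Bad δ hδ
  obtain ⟨ι, hι, c, hc⟩ := H645.ABC.selmer (K := K) l hl.pos
  have : Fintype ι := Fintype.ofFinite ι
  refine ⟨l ^ Bad.card * (Fintype.card ι + 1) * (1 + C1), by
    have := hl.pos
    positivity, ?_⟩
  intro H hH z n r S hS
  obtain ⟨E, hE⟩ : ∃ E : ℝ, E = Real.exp ((1 + δ) * H - nrm n / 2) := ⟨_, rfl⟩
  have hE0 : 0 < E := by rw [hE]; exact Real.exp_pos _
  rw [← hE]
  let g : K → K := fun x => aeval x f * (x - z) ^ k
  have hg0 : ∀ x ∈ S, g x ≠ 0 := fun x hx =>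
    mul_ne_zero (hS x hx).2.1 (pow_ne_zero _ (sub_ne_zero.2 (hS x hx).2.2.1))
  -- the multiplicities outside `Bad` are given modulo `l`
  have hod : ∀ x (hx : x ∈ S) y (hy : y ∈ S), ∀ v ∉ Bad,
      (l : ℤ) ∣ vl v (Units.mk0 (g x) (hg0 x hx)) - vl v (Units.mk0 (g y) (hg0 y hy)) := by
    intro x hx y hy v hv
    have h1 := vl_gzk (hBad v hv).2.2 k (hS x hx).2.1 (hS x hx).2.2.1
      (Units.mk0 _ (hg0 x hx)) rfl
    have h2 := vl_gzk (hBad v hv).2.2 k (hS y hy).2.1 (hS y hy).2.2.1
      (Units.mk0 _ (hg0 y hy)) rfl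
    have h3 : ml v x z = ml v y z := by
      rw [(hS x hx).2.2.2.2.1 v hv, (hS y hy).2.2.2.2.1 v hv]
    have h4 : (l : ℤ) ∣ (nu f v x : ℤ) - nu f v y := by
      have e3 := (hS x hx).2.2.2.2.2 v hv
      have e4 := (hS y hy).2.2.2.2.2 v hv
      rw [← e4] at e3
      have e5 : nu f v x ≡ nu f v y [MOD l] := e3
      have e6 := (Nat.modEq_iff_dvd.1 e5.symm)
      exact e6
    have h5 : (l : ℤ) ∣ (f.natDegree + k : ℤ) := by exact_mod_cast hk
    rw [h1, h2, h3]
    have h6 : (f.natDegree + k) * (mxn v x : ℤ) + k * (mxn v z - ml v y z) - nu f v x -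
        ((f.natDegree + k) * (mxn v y : ℤ) + k * (mxn v z - ml v y z) - nu f v y) =
        (f.natDegree + k : ℤ) * ((mxn v x : ℤ) - mxn v y) - ((nu f v x : ℤ) - nu f v y) := by
      ring
    rw [h6]
    exact dvd_sub (h5.mul_right _) h4
  let key : K → (↥Bad → ZMod l) := fun x v =>
    if h : g x ≠ 0 then ((vl v.1 (Units.mk0 (g x) h) : ℤ) : ZMod l) else 0
  have hsum : (S.card : ℝ) = ∑ b : (↥Bad → ZMod l), ((S.filter fun x => key x = b).card : ℝ) := by
    have := Finset.card_eq_sum_card_fiberwise (s := S) (t := Finset.univ) (f := key)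
      (fun x _ => Finset.mem_coe.2 (Finset.mem_univ _))
    exact_mod_cast this
  have hfib : ∀ b : (↥Bad → ZMod l), ((S.filter fun x => key x = b).card : ℝ) ≤
      (Fintype.card ι + 1) * ((1 + C1) * (1 + E)) := by
    intro b
    obtain ⟨R, hR⟩ : ∃ R, R = S.filter fun x => key x = b := ⟨_, rfl⟩
    rw [← hR]
    have hRm : ∀ x ∈ R, x ∈ S ∧ key x = b := fun x hx => by
      rw [hR] at hx
      exact Finset.mem_filter.1 hx
    rcases R.eq_empty_or_nonempty with hR0 | ⟨x0, hx0⟩
    · rw [hR0, Finset.card_empty, Nat.cast_zero]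
      positivity
    obtain ⟨hx0S, hx0b⟩ := hRm x0 hx0
    have hodR : ∀ x (hx : x ∈ R) (v : Pr K), (l : ℤ) ∣
        vl v (Units.mk0 (g x) (hg0 x (hRm x hx).1)) - vl v (Units.mk0 (g x0) (hg0 x0 hx0S)) := by
      intro x hx v
      obtain ⟨hxS, hxb⟩ := hRm x hx
      by_cases hv : v ∈ Bad
      · have h1 : key x ⟨v, hv⟩ = key x0 ⟨v, hv⟩ := by rw [hxb, hx0b]
        have e1 : key x ⟨v, hv⟩ = ((vl v (Units.mk0 (g x) (hg0 x hxS)) : ℤ) : ZMod l) :=
          dif_pos (hg0 x hxS)
        have e2 : key x0 ⟨v, hv⟩ = ((vl v (Units.mk0 (g x0) (hg0 x0 hx0S)) : ℤ) : ZMod l) :=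
          dif_pos (hg0 x0 hx0S)
        rw [e1, e2] at h1
        have h2 := (ZMod.intCast_eq_intCast_iff _ _ _).1 h1
        exact h2.symm.dvd
      · exact hod x hxS x0 hx0S v hv
    let col : K → ι := fun x => if h : g x / g x0 ≠ 0 then c (Units.mk0 _ h) else c 1
    have hsum2 : (R.card : ℝ) = ∑ a : ι, ((R.filter fun x => col x = a).card : ℝ) := by
      have := Finset.card_eq_sum_card_fiberwise (s := R) (t := Finset.univ) (f := col)
        (fun x _ => Finset.mem_coe.2 (Finset.mem_univ _))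
      exact_mod_cast this
    have hfib2 : ∀ a : ι, ((R.filter fun x => col x = a).card : ℝ) ≤ 1 + C1 * E := by
      intro a
      obtain ⟨S', hS'⟩ : ∃ S', S' = R.filter fun x => col x = a := ⟨_, rfl⟩
      rw [← hS']
      have hm : ∀ x ∈ S', x ∈ R ∧ col x = a := fun x hx => by
        rw [hS'] at hx
        exact Finset.mem_filter.1 hx
      have hpair : ∀ x ∈ S', ∀ y ∈ S', ∃ w : K, aeval x f * (x - z) ^ k =
          aeval y f * (y - z) ^ k * w ^ l := by
        intro x hx y hy
        obtain ⟨hxR, hx1⟩ := hm x hx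
        obtain ⟨hyR, hy1⟩ := hm y hy
        have h1 : col x = col y := hx1.trans hy1.symm
        have hfx := hg0 x (hRm x hxR).1
        have hfy := hg0 y (hRm y hyR).1
        have hf0 := hg0 x0 hx0S
        have dx : g x / g x0 ≠ 0 := div_ne_zero hfx hf0
        have dy : g y / g x0 ≠ 0 := div_ne_zero hfy hf0
        have h2 : c (Units.mk0 _ dx) = c (Units.mk0 _ dy) := by
          have e1 : col x = c (Units.mk0 _ dx) := dif_pos dx
          have e2 : col y = c (Units.mk0 _ dy) := dif_pos dy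
          rw [← e1, ← e2, h1]
        have h3 : ∀ t (htR : t ∈ R) (dt : g t / g x0 ≠ 0), ∀ v : Pr K,
            (l : ℤ) ∣ vl v (Units.mk0 _ dt) := by
          intro t htR dt v
          have e1 : Units.mk0 _ dt = Units.mk0 (g t) (hg0 t (hRm t htR).1) /
              Units.mk0 (g x0) hf0 := by
            ext
            simp
          rw [e1, vl_div]
          exact hodR t htR v
        obtain ⟨w, hw⟩ := hc _ _ (h3 x hxR dx) (h3 y hyR dy) h2
        refine ⟨w, ?_⟩
        have h4 := congrArg (fun t : Kˣ => (t : K)) hw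
        simp only [Units.val_mk0, Units.val_mul, Units.val_pow_eq_pow_val] at h4
        rw [div_eq_iff hf0] at h4
        have h5 : g x = g y * (w : K) ^ l := by
          rw [h4]
          field_simp
        exact h5
      have h1 := hls H hH S' n.support (nrm n) (by
        rw [nrm_eq]
        refine Finset.sum_le_sum fun v hv => ?_
        have h2 : (1 : ℝ) ≤ n v := by
          have : n v ≠ 0 := Finsupp.mem_support_iff.1 hv
          exact_mod_cast Nat.one_le_iff_ne_zero.2 this
        have h3 := log_Nv_pos v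
        nlinarith) (by
        intro x hx y hy hxy Q hQ hQc
        have hxS := (hRm x (hm x hx).1).1
        have hyS := (hRm y (hm y hy).1).1
        obtain ⟨hx1, hx2, hx3, hx4, hx5, -⟩ := hS x hxS
        obtain ⟨hy1, hy2, hy3, hy4, hy5, -⟩ := hS y hyS
        have h2 := sum_lam_le (aff_ne_zero x) (aff_ne_zero y) (aff_wedge hxy)
          ((n.support ∪ Q).map ⟨Sum.inr, Sum.inr_injective⟩ : Finset (Pl K))
        rw [Finset.sum_map, Finset.sum_union hQ.symm] at h2
        have h3 : nrm n ≤ ∑ v ∈ n.support, lam (Sum.inr v) (aff x) (aff y) := by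
          rw [nrm_eq]
          refine Finset.sum_le_sum fun v hv => ?_
          have hvB := hx4 v hv
          have e1 : (n v : ℝ) * Real.log (Nv v) ≤ lam (Sum.inr v) (aff x) (aff z) := by
            rw [lam_eq_ml v hx3, hx5 v hvB]
          have e2 : (n v : ℝ) * Real.log (Nv v) ≤ lam (Sum.inr v) (aff z) (aff y) := by
            rw [lam_comm, lam_eq_ml v hy3, hy5 v hvB]
          have e3 := lam_triangle (Sum.inr v) (aff_ne_zero x) (aff_ne_zero z) (aff_ne_zero y)
            (aff_wedge hxy) (aff_wedge hx3) (aff_wedge (Ne.symm hy3)) _ e1 e2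
          have e4 : loss (Sum.inr v : Pl K) = 0 := rfl
          rw [e4, sub_zero] at e3
          exact e3
        have h4 : ∑ v ∈ Q, Real.log (Nv v) ≤ ∑ v ∈ Q, lam (Sum.inr v) (aff x) (aff y) :=
          Finset.sum_le_sum fun v hv => lam_ge_of_cls v hxy (hQc v hv)
        have h7 : ∑ x_1 ∈ n.support, lam (Sum.inr x_1) (aff x) (aff y) +
          ∑ x_1 ∈ Q, lam (Sum.inr x_1) (aff x) (aff y) ≤ hr (aff x) + hr (aff y) + lossK K := h2
        linarith) (fun v _ hvB hvl => hcell v (hBad v hvB).2 hvl z S'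
          (fun x hx => (hS x (hRm x (hm x hx).1).1).2.2.1) hpair)
      refine h1.trans (add_le_add le_rfl (mul_le_mul_of_nonneg_left ?_ hC1.le))
      rw [hE]
      refine Real.exp_le_exp.2 ?_
      linarith
    rw [hsum2]
    calc ∑ a : ι, ((R.filter fun x => col x = a).card : ℝ) ≤ ∑ _a : ι, (1 + C1 * E) :=
          Finset.sum_le_sum fun a _ => hfib2 a
      _ = Fintype.card ι * (1 + C1 * E) := by
          rw [Finset.sum_const, Finset.card_univ, nsmul_eq_mul]
      _ ≤ (Fintype.card ι + 1) * ((1 + C1) * (1 + E)) := by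
          refine mul_le_mul (by linarith) ?_ (by positivity) (by positivity)
          nlinarith
  rw [hsum]
  calc ∑ b : (↥Bad → ZMod l), ((S.filter fun x => key x = b).card : ℝ) ≤
      ∑ _b : (↥Bad → ZMod l), (Fintype.card ι + 1) * ((1 + C1) * (1 + E)) :=
        Finset.sum_le_sum fun b _ => hfib b
    _ = _ := by
        rw [Finset.sum_const, Finset.card_univ, nsmul_eq_mul, Fintype.card_fun, ZMod.card,
          Fintype.card_coe]
        push_cast
        ring

end Pool.Agent.N751.RW
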