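import Pool.Agent.N751.RW.EllA

/-!
# The lower bound (RW/10, helper712): a twist with a large height
-/

set_option autoImplicit false
set_option linter.unusedVariables false

namespace Pool.Agent.N751.RW

open Finset Pool.Agent.H39R3 Pool.Agent.H925R.Szpiro

/-- the height of an equation with `c₄ = u² A`, `c₆ = u³ B` -/
theorem low_max {A B c4 c6 : ℤ} {u : ℚ} (hA : A ≠ 0) (hu : u ≠ 0) (h4 : (c4 : ℚ) = u ^ 2 * A)
    (h6 : (c6 : ℚ) = u ^ 3 * B) : Real.log (max (|(c4 : ℝ)| ^ 3) ((c6 : ℝ) ^ 2)) =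
      6 * Real.log |(u : ℝ)| + Real.log (max (|(A : ℝ)| ^ 3) ((B : ℝ) ^ 2)) := by
  have hu' : (0 : ℝ) < |(u : ℝ)| := abs_pos.mpr (by exact_mod_cast hu)
  have e4 : (c4 : ℝ) = (u : ℝ) ^ 2 * A := by exact_mod_cast congrArg (fun q : ℚ => (q : ℝ)) h4
  have e6 : (c6 : ℝ) = (u : ℝ) ^ 3 * B := by exact_mod_cast congrArg (fun q : ℚ => (q : ℝ)) h6
  have e1 : |(c4 : ℝ)| ^ 3 = |(u : ℝ)| ^ 6 * |(A : ℝ)| ^ 3 := by
    rw [e4, abs_mul, abs_pow]
    ring
  have e2 : (c6 : ℝ) ^ 2 = |(u : ℝ)| ^ 6 * (B : ℝ) ^ 2 := by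
    rw [e6, mul_pow, ← pow_mul, ← abs_pow]
    congr 1
    rw [abs_of_nonneg (by positivity)]
  rw [e1, e2, ← mul_max_of_nonneg _ _ (by positivity), Real.log_mul (by positivity), Real.log_pow]
  · push_cast
    ring
  · have hA' : (0 : ℝ) < |(A : ℝ)| ^ 3 := by
      have : (0 : ℝ) < |(A : ℝ)| := abs_pos.mpr (by exact_mod_cast hA)
      positivity
    exact (lt_of_lt_of_le hA' (le_max_left _ _)).ne'

/-- **a twist with a large height** -/
theorem ell_low {A B : ℤ} (hA : A ≠ 0) (hB : B ≠ 0) (hZ : A ^ 3 - B ^ 2 ≠ 0) {d : ℕ} (hd : d ≠ 0)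
    (hdp : ∀ p : ℕ, p.Prime → p ∣ d → padicValNat p d = 1 ∧
      ¬ (2 ≤ padicValInt p A ∧ 3 ≤ padicValInt p B) ∧ (p : ℤ) ∣ A ^ 3 - B ^ 2) :
    ∃ W : WeierstrassCurve ℤ, GMin W ∧ (∃ u : ℚ, u ≠ 0 ∧ (W.c₄ : ℚ) = u ^ 2 * A ∧
      (W.c₆ : ℚ) = u ^ 3 * B) ∧
      6 * Real.log d + Real.log (max (|(A : ℝ)| ^ 3) ((B : ℝ) ^ 2)) -
        (Real.log |((A ^ 3 - B ^ 2 : ℤ) : ℝ)| -
          ∑ p ∈ d.primeFactors, (padicValInt p (A ^ 3 - B ^ 2) : ℝ) * Real.log p) ≤
        Real.log (max (|(W.c₄ : ℝ)| ^ 3) ((W.c₆ : ℝ) ^ 2)) ∧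
      ∀ p : ℕ, p.Prime → 5 ≤ p → (p : ℤ) ∣ W.Δ → (p : ℤ) ∣ A ^ 3 - B ^ 2 := by
  obtain ⟨Z, hZd⟩ : ∃ Z : ℤ, Z = A ^ 3 - B ^ 2 := ⟨_, rfl⟩
  have hdZ : (d : ℤ) ≠ 0 := by exact_mod_cast hd
  have hdQ : (d : ℚ) ≠ 0 := by exact_mod_cast hd
  have hΔ0 : (shortW (27 * d ^ 2 * A) (54 * d ^ 3 * B)).Δ ≠ 0 := by
    rw [shortW_Δ]
    have e : D (27 * (d : ℤ) ^ 2 * A) (54 * (d : ℤ) ^ 3 * B) = 78732 * (d : ℤ) ^ 6 * (A ^ 3 - B ^ 2) := by
      unfold D
      ring
    rw [e]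
    exact mul_ne_zero (by norm_num) (mul_ne_zero (mul_ne_zero (by norm_num) (pow_ne_zero _ hdZ)) hZ)
  obtain ⟨W, hW, v, hv, h4, h6⟩ := Pool.Agent.Y679.Md.gmin_ex _ hΔ0
  rw [shortW_c4] at h4
  rw [shortW_c6] at h6
  obtain ⟨x, hx⟩ : ∃ x : ℚ, x = 6 * v := ⟨_, rfl⟩
  have hx0 : x ≠ 0 := by rw [hx]; exact mul_ne_zero (by norm_num) hv
  obtain ⟨u, hu⟩ : ∃ u : ℚ, u = x ^ 2 * d := ⟨_, rfl⟩
  have hu0 : u ≠ 0 := by rw [hu]; exact mul_ne_zero (pow_ne_zero _ hx0) hdQ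
  have h4' : (W.c₄ : ℚ) = u ^ 2 * A := by
    rw [h4, hu, hx]
    push_cast
    ring
  have h6' : (W.c₆ : ℚ) = u ^ 3 * B := by
    rw [h6, hu, hx]
    push_cast
    ring
  -- the valuations
  have hvu : ∀ p : ℕ, p.Prime → padicValRat p u = 2 * padicValRat p x + padicValNat p d := by
    intro p hp
    have := Fact.mk hp
    rw [hu, padicValRat.mul (pow_ne_zero _ hx0) hdQ, padicValRat.pow, padicValRat.of_nat]
    push_cast
    ring
  have hvΔ : ∀ p : ℕ, p.Prime → (padicValInt p (1728 * W.Δ) : ℤ) =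
      12 * padicValRat p x + 6 * padicValNat p d + padicValInt p Z := by
    intro p hp
    have := Fact.mk hp
    have e1 : ((1728 * W.Δ : ℤ) : ℚ) = u ^ 6 * ((Z : ℤ) : ℚ) := by
      rw [W.c_relation, hZd]
      push_cast
      rw [h4', h6']
      ring
    rw [← padicValRat.of_int, e1, padicValRat.mul (pow_ne_zero _ hu0)
      (by rw [hZd]; exact_mod_cast hZ), padicValRat.pow, padicValRat.of_int, hvu p hp]
    push_cast
    ring
  have hlow : ∀ p : ℕ, p.Prime → -(if p ∣ d then (0 : ℤ) else padicValInt p Z) ≤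
      12 * padicValRat p x := by
    intro p hp
    obtain ⟨-, -, v4, v6⟩ := vals hA hB hu0 h4' h6' hp
    have h1 := hvu p hp
    have h2 := hvΔ p hp
    split_ifs with h
    · obtain ⟨e1, e2, -⟩ := hdp p hp h
      rw [e1] at h1
      omega
    · have e1 : padicValNat p d = 0 := padicValNat.eq_zero_of_not_dvd h
      rw [e1] at h2
      omega
  refine ⟨W, hW, ⟨u, hu0, h4', h6'⟩, ?_, ?_⟩
  · rw [low_max hA hu0 h4' h6', ← hZd]
    obtain ⟨S, hS⟩ : ∃ S : Finset ℕ, S = x.num.natAbs.primeFactors ∪ x.den.primeFactors ∪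
      Z.natAbs.primeFactors ∪ d.primeFactors := ⟨_, rfl⟩
    have hSp : ∀ p ∈ S, p.Prime := by
      intro p hp
      simp only [hS, mem_union, Nat.mem_primeFactors] at hp
      tauto
    have hZ0 : Z ≠ 0 := by rw [hZd]; exact hZ
    have e1 := log_rat x hx0 S hSp (fun p hp => by rw [hS]; simp only [mem_union]; tauto)
      (fun p hp => by rw [hS]; simp only [mem_union]; tauto)
    have e2 := log_int Z hZ0 S hSp (fun p hp => by rw [hS]; simp only [mem_union]; tauto)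
    have hsub : d.primeFactors ⊆ S := fun p hp => by rw [hS]; simp only [mem_union]; tauto
    have e3 : ∑ p ∈ d.primeFactors, (padicValInt p Z : ℝ) * Real.log p =
        ∑ p ∈ S, (if p ∣ d then (padicValInt p Z : ℝ) else 0) * Real.log p := by
      rw [← sum_subset hsub]
      · refine sum_congr rfl fun p hp => ?_
        rw [if_pos (Nat.mem_primeFactors.1 hp).2.1]
      · intro p hp hp2
        rw [if_neg, zero_mul]
        intro h
        exact hp2 (Nat.mem_primeFactors.2 ⟨hSp p hp, h, hd⟩)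
    have e4 : Real.log |(u : ℝ)| = 2 * Real.log |(x : ℝ)| + Real.log d := by
      have e : |(u : ℝ)| = |(x : ℝ)| ^ 2 * d := by
        have : (u : ℝ) = (x : ℝ) ^ 2 * d := by
          rw [hu]
          push_cast
          ring
        rw [this, abs_mul, abs_pow, Nat.abs_cast]
      have hx' : |(x : ℝ)| ≠ 0 := abs_ne_zero.2 (by exact_mod_cast hx0)
      rw [e, Real.log_mul (pow_ne_zero _ hx') (by exact_mod_cast hd), Real.log_pow]
      push_cast
      ring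
    have e5 : -(∑ p ∈ S, (padicValInt p Z : ℝ) * Real.log p -
        ∑ p ∈ S, (if p ∣ d then (padicValInt p Z : ℝ) else 0) * Real.log p) ≤
        12 * ∑ p ∈ S, (padicValRat p x : ℝ) * Real.log p := by
      rw [← sum_sub_distrib, ← sum_neg_distrib, mul_sum]
      refine sum_le_sum fun p hp => ?_
      have hl : 0 ≤ Real.log p := Real.log_nonneg (by exact_mod_cast (hSp p hp).one_lt.le)
      have h1 := hlow p (hSp p hp)
      have h2 : -(if p ∣ d then (0 : ℝ) else (padicValInt p Z : ℝ)) ≤ 12 * (padicValRat p x : ℝ) := by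
        have h3 : (((-(if p ∣ d then (0 : ℤ) else padicValInt p Z)) : ℤ) : ℝ) ≤
            ((12 * padicValRat p x : ℤ) : ℝ) := by exact_mod_cast h1
        push_cast at h3
        split_ifs at h3 ⊢ with h
        · exact h3
        · exact h3
      have h3 := mul_le_mul_of_nonneg_right h2 hl
      split_ifs at h3 ⊢ with h
      · linarith
      · linarith
    rw [e2, e3, e4, e1]
    linarith
  · intro p hp h5 hpΔ
    by_contra hcon
    rw [← hZd] at hcon
    have hZ0 : Z ≠ 0 := by rw [hZd]; exact hZ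
    have hpd : ¬ p ∣ d := by
      intro h
      apply hcon
      rw [hZd]
      exact (hdp p hp h).2.2
    have e1 : padicValNat p d = 0 := padicValNat.eq_zero_of_not_dvd hpd
    have e2 : padicValInt p Z = 0 := by
      by_contra h0
      exact hcon ((dvd_iff_val hp hZ0).2 (by omega))
    have e3 : 1 ≤ padicValInt p (1728 * W.Δ) :=
      (dvd_iff_val hp (mul_ne_zero (by norm_num) hW.1)).1 (dvd_mul_of_dvd_right hpΔ _)
    have e4 := hvΔ p hp
    have e5 := hvu p hp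
    obtain ⟨k4, k6, v4, v6⟩ := vals hA hB hu0 h4' h6' hp
    rw [e1] at e4 e5
    rw [e2] at e4
    exact Pool.Agent.Y679.Md.gmin_no hW hp h5 (dvd_of_val hp k4 (by omega))
      (dvd_of_val hp k6 (by omega))

end Pool.Agent.N751.RW
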