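import Pool.Agent.N751.RW.LowStm
import Pool.Agent.N751.RW.LowA

/-!
# The lower bound (RW/10, helper712): the bad places
-/

set_option autoImplicit false
set_option linter.unusedSectionVars false

namespace Pool.Agent.N751.RW

open NumberField IsDedekindDomain Finset Pool.Agent.H691R3 Pool.Agent.TH876.Loc
open Pool.Agent.N753.LS Pool.Agent.N753.SF Polynomial Height UniqueFactorizationMonoid
open Pool.Agent.TH876.TM (Pairs_eq_one Pairs_pv_lt Pairs_inj Pairs_norm Pairs_int_le)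
open Pool.Agent.H39R3 (GMin condW)

/-- multiplicities and degrees -/
theorem low_mult {D : ℚ[X]} (hD : D ≠ 0) {F : ℚ[X] → (𝓞 ℚ)[X]} {c : ℚ[X] → ℚ} (hc : ∀ P, c P ≠ 0)
    (hF : ∀ P, (F P).map (algebraMap (𝓞 ℚ) ℚ) = C (c P) * P) :
    Associated (∏ P ∈ primeFactors D, P ^ multiplicity ((F P).map (algebraMap (𝓞 ℚ) ℚ)) D) D ∧
    ∑ P ∈ primeFactors D, multiplicity ((F P).map (algebraMap (𝓞 ℚ) ℚ)) D * P.natDegree =
      D.natDegree := by
  classical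
  have h1 : ∀ P ∈ primeFactors D, multiplicity ((F P).map (algebraMap (𝓞 ℚ) ℚ)) D =
      (normalizedFactors D).count P := by
    intro P hP
    have hPm := mem_primeFactors.1 hP
    have hPi : Irreducible P := irreducible_of_normalized_factor P hPm
    have hass : Associated ((F P).map (algebraMap (𝓞 ℚ) ℚ)) P := by
      rw [hF]
      exact assoc_clear (hc P) P
    rw [multiplicity_eq_count_normalizedFactors (hass.irreducible_iff.2 hPi) hD]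
    congr 1
    rw [normalize_eq_normalize hass.dvd hass.dvd']
    exact normalize_normalized_factor P hPm
  have h2 : ∏ P ∈ primeFactors D, P ^ multiplicity ((F P).map (algebraMap (𝓞 ℚ) ℚ)) D =
      (normalizedFactors D).prod := by
    rw [Finset.prod_multiset_count]
    refine Finset.prod_congr ?_ fun P hP => ?_
    · ext P
      rw [mem_primeFactors, Multiset.mem_toFinset]
    · rw [h1 P]
      exact mem_primeFactors.2 (Multiset.mem_toFinset.1 hP)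
  have h3 : Associated (∏ P ∈ primeFactors D, P ^ multiplicity ((F P).map (algebraMap (𝓞 ℚ) ℚ)) D) D := by
    rw [h2]
    exact prod_normalizedFactors hD
  refine ⟨h3, ?_⟩
  rw [← natDegree_eq_of_degree_eq (degree_eq_degree_of_associated h3), natDegree_prod]
  · refine Finset.sum_congr rfl fun P _ => ?_
    rw [natDegree_pow]
  · intro P hP
    exact pow_ne_zero _ (irreducible_of_normalized_factor P (mem_primeFactors.1 hP)).ne_zero

/-- the discriminant as the value of a form -/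
theorem low_Z {n : ℕ} {a b : ℤ[X]} (hda : a.natDegree ≤ 2 * n) (hdb : b.natDegree ≤ 3 * n)
    (hdg : (a ^ 3 - b ^ 2).natDegree ≤ 6 * n) (s : ℚ) :
    hv (2 * n) a s ^ 3 - hv (3 * n) b s ^ 2 = hv (6 * n) (a ^ 3 - b ^ 2) s := by
  have h1 : ((hv (2 * n) a s ^ 3 - hv (3 * n) b s ^ 2 : ℤ) : ℚ) = (hv (6 * n) (a ^ 3 - b ^ 2) s : ℤ) := by
    rw [hv_eq hdg]
    push_cast
    rw [hv_eq hda, hv_eq hdb, map_sub, map_pow, map_pow]
    ring
  exact_mod_cast h1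

theorem low_coeff {N : ℕ} {g : ℤ[X]} {p : ℕ} (hp : p.Prime) {s : ℚ} (hps : p ∣ s.den)
    (h : (p : ℤ) ∣ hv N g s) : (p : ℤ) ∣ g.coeff N := by
  have hpr : Prime (p : ℤ) := Nat.prime_iff_prime_int.mp hp
  have hpd : (p : ℤ) ∣ (s.den : ℤ) := by exact_mod_cast hps
  have h1 : (p : ℤ) ∣ ∑ i ∈ Finset.range N, g.coeff i * s.num ^ i * (s.den : ℤ) ^ (N - i) := by
    refine Finset.dvd_sum fun i hi => ?_
    have := Finset.mem_range.1 hi
    exact dvd_mul_of_dvd_right (dvd_pow hpd (by omega)) _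
  unfold hv at h
  rw [Finset.sum_range_succ, Nat.sub_self, pow_zero, mul_one] at h
  have h2 := (dvd_add_right h1).1 h
  rcases hpr.dvd_or_dvd h2 with h3 | h3
  · exact h3
  · exfalso
    have h4 := hpr.dvd_of_dvd_pow h3
    have h5 : p ∣ s.num.natAbs := Int.natCast_dvd.1 h4
    have h6 := Nat.dvd_gcd h5 hps
    rw [s.reduced] at h6
    exact hp.one_lt.ne' (Nat.dvd_one.1 h6)

theorem low_fv_le {v : Pr ℚ} {s : ℚ} (h : ¬ pv v ∣ s.den) : fv v s ≤ 1 := by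
  have h1 : fv v ((s.den : ℤ) : ℚ) = 1 := fv_one_of_not_dvd fun hc => h (by exact_mod_cast hc)
  have h2 : fv v s * fv v ((s.den : ℤ) : ℚ) = fv v ((s.num : ℤ) : ℚ) := by
    rw [← map_mul, Int.cast_natCast, Rat.mul_den_eq_num]
  rw [h1, mul_one] at h2
  rw [h2]
  exact Pairs_int_le v s.num

theorem low_fv_lt {v : Pr ℚ} {z : ℤ} (h : (pv v : ℤ) ∣ z) : fv v (z : ℚ) < 1 := by
  obtain ⟨k, rfl⟩ := h
  push_cast
  rw [map_mul]
  have h1 := Pairs_pv_lt v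
  have h2 := Pairs_int_le v k
  have h3 := (fv v).nonneg ((pv v : ℕ) : ℚ)
  have h4 := (fv v).nonneg (k : ℚ)
  nlinarith

theorem low_place (p : ℕ) (hp : p.Prime) : ∃ v : Pr ℚ, pv v = p :=
  ⟨Pool.Agent.TH4.HS.vp p hp, by rw [pv_eq, Pool.Agent.TH4.HS.pv_vp]⟩

/-- the large primes which divide the discriminant belong to the bad places -/
theorem low_cover {n : ℕ} {a b : ℤ[X]} (hda : a.natDegree ≤ 2 * n) (hdb : b.natDegree ≤ 3 * n)
    (hdg : (a ^ 3 - b ^ 2).natDegree = 6 * n) (hg0 : a ^ 3 - b ^ 2 ≠ 0)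
    {F : ℚ[X] → (𝓞 ℚ)[X]} {c : ℚ[X] → ℚ} (hc : ∀ P, c P ≠ 0)
    (hF : ∀ P, (F P).map (algebraMap (𝓞 ℚ) ℚ) = C (c P) * P) :
    ∃ N : ℕ, ∀ s : ℚ,
      (∀ P ∈ primeFactors ((a ^ 3 - b ^ 2).map (Int.castRingHom ℚ)), aeval s (F P) ≠ 0) →
      ∀ p : ℕ, p.Prime → N < p → (p : ℤ) ∣ hv (2 * n) a s ^ 3 - hv (3 * n) b s ^ 2 →
        ∃ P ∈ primeFactors ((a ^ 3 - b ^ 2).map (Int.castRingHom ℚ)), ∃ v ∈ dv (F P) s, pv v = p := by
  obtain ⟨g, hg⟩ : ∃ g, g = a ^ 3 - b ^ 2 := ⟨_, rfl⟩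
  obtain ⟨D, hD⟩ : ∃ D : ℚ[X], D = g.map (Int.castRingHom ℚ) := ⟨_, rfl⟩
  have hD0 : D ≠ 0 := by
    rw [hD, Ne, Polynomial.map_eq_zero_iff Int.cast_injective, hg]
    exact hg0
  obtain ⟨hass, -⟩ := low_mult hD0 hc hF
  obtain ⟨I, hI⟩ : ∃ I, I = primeFactors D := ⟨_, rfl⟩
  rw [← hg, ← hD, ← hI]
  rw [← hI] at hass
  obtain ⟨e, he⟩ := hass
  obtain ⟨e0, he0, he1⟩ := Polynomial.isUnit_iff.1 e.isUnit
  obtain ⟨N0, hN0⟩ := fv_unit e0 he0.ne_zero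
  have h1 : ∀ P : ℚ[X], ∃ N : ℕ, ∀ v : Pr ℚ, N < pv v → fv v (c P) = 1 := fun P =>
    fv_unit (c P) (hc P)
  have h2 : ∀ P : ℚ[X], ∃ N : ℕ, ∀ v : Pr ℚ, N < pv v → ∀ x : ℚ, fv v x ≤ 1 →
    fv v (P.eval x) ≤ 1 := fun P => fv_poly_le P
  choose N1 hN1 using h1
  choose N2 hN2 using h2
  refine ⟨N0 + ∑ P ∈ I, N1 P + ∑ P ∈ I, N2 P + (g.coeff (6 * n)).natAbs, fun s hFs p hp hNp hpZ => ?_⟩
  have hM1 : ∀ P ∈ I, N1 P < p := fun P hP => by
    have := Finset.single_le_sum (f := N1) (fun _ _ => Nat.zero_le _) hP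
    omega
  have hM2 : ∀ P ∈ I, N2 P < p := fun P hP => by
    have := Finset.single_le_sum (f := N2) (fun _ _ => Nat.zero_le _) hP
    omega
  rw [low_Z hda hdb hdg.le, ← hg] at hpZ
  have hpd : ¬ p ∣ s.den := by
    intro hps
    have h3 := low_coeff hp hps hpZ
    have h4 : g.coeff (6 * n) ≠ 0 := by
      rw [hg, ← hdg, coeff_natDegree]
      exact leadingCoeff_ne_zero.2 hg0
    have h5 := Nat.le_of_dvd (Int.natAbs_pos.2 h4) (Int.natCast_dvd.1 h3)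
    omega
  obtain ⟨v, hv1⟩ := low_place p hp
  subst hv1
  have hs1 := low_fv_le hpd
  have hdg' : g.natDegree ≤ 6 * n := by rw [hg]; exact hdg.le
  have h3 : fv v (D.eval s) < 1 := by
    rw [hD, eval_toQ, ← fv_hv hdg' hs1]
    exact low_fv_lt hpZ
  by_contra hcon
  push Not at hcon
  have h4 : ∀ P ∈ I, fv v (P.eval s) = 1 := by
    intro P hP
    have h5 : fv v (aeval s (F P)) = fv v (P.eval s) := by
      rw [← eval_map_algebraMap, hF, eval_mul, eval_C, map_mul, hN1 P v (hM1 P hP), one_mul]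
    refine le_antisymm (hN2 P v (hM2 P hP) s hs1) ?_
    by_contra h6
    rw [not_le] at h6
    exact hcon P hP v ((mem_dv (hFs P hP)).2 ⟨hs1, by rw [h5]; exact h6⟩) rfl
  have h5 : fv v (D.eval s) = 1 := by
    rw [← he, ← he1, eval_mul, eval_C, map_mul, hN0 v (by omega), mul_one, eval_prod, map_prod]
    refine Finset.prod_eq_one fun P hP => ?_
    rw [eval_pow, map_pow, h4 P hP, one_pow]
  rw [h5] at h3
  exact lt_irrefl _ h3

/-- the sets of primes at different bad places are disjoint -/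
theorem low_disj (D : ℚ[X]) {F : ℚ[X] → (𝓞 ℚ)[X]} {c : ℚ[X] → ℚ} (hc : ∀ P, c P ≠ 0)
    (hF : ∀ P, (F P).map (algebraMap (𝓞 ℚ) ℚ) = C (c P) * P) :
    ∃ N : ℕ, ∀ s : ℚ, (∀ P ∈ primeFactors D, aeval s (F P) ≠ 0) →
      ∀ P ∈ primeFactors D, ∀ Q ∈ primeFactors D, ∀ v ∈ dv (F P) s, v ∈ dv (F Q) s → N < pv v →
        P = Q := by
  obtain ⟨I, hI⟩ : ∃ I, I = primeFactors D := ⟨_, rfl⟩
  rw [← hI]
  have h2 : ∀ P ∈ I, ∀ Q ∈ I, P ≠ Q → ∃ N : ℕ, ∀ v : Pr ℚ, N < pv v → ∀ x : ℚ,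
      fv v x ≤ 1 → fv v (P.eval x) < 1 → fv v (Q.eval x) = 1 := by
    intro P hP Q hQ hPQ
    rw [hI] at hP hQ
    exact fv_coprime (coprime_of_ne hP hQ hPQ)
  have h3 : ∀ P : ℚ[X], ∃ N : ℕ, ∀ v : Pr ℚ, N < pv v → fv v (c P) = 1 := fun P =>
    fv_unit (c P) (hc P)
  choose! N2 hN2 using h2
  choose N3 hN3 using h3
  refine ⟨∑ P ∈ I, ∑ Q ∈ I, N2 P Q + ∑ P ∈ I, N3 P, fun s hs P hP Q hQ v hv1 hv2 hvM => ?_⟩
  have hM3 : ∀ P ∈ I, N3 P < pv v := fun P hP => by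
    have := Finset.single_le_sum (f := N3) (fun _ _ => Nat.zero_le _) hP
    omega
  have hM2 : ∀ P ∈ I, ∀ Q ∈ I, N2 P Q < pv v := fun P hP Q hQ => by
    have e1 := Finset.single_le_sum (f := fun Q => N2 P Q) (fun _ _ => Nat.zero_le _) hQ
    have e2 := Finset.single_le_sum (f := fun P => ∑ Q ∈ I, N2 P Q) (fun _ _ => Nat.zero_le _) hP
    beta_reduce at e1 e2
    omega
  by_contra hPQ
  obtain ⟨h4, h5⟩ := (mem_dv (hs P hP)).1 hv1
  obtain ⟨-, h6⟩ := (mem_dv (hs Q hQ)).1 hv2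
  have e1 : ∀ R ∈ I, fv v (aeval s (F R)) = fv v (R.eval s) := by
    intro R hR
    rw [← eval_map_algebraMap, hF, eval_mul, eval_C, map_mul, hN3 R v (hM3 R hR), one_mul]
  rw [e1 P hP] at h5
  rw [e1 Q hQ] at h6
  have h7 := hN2 P hP Q hQ hPQ v (hM2 P hP Q hQ) s h4 h5
  rw [h7] at h6
  exact lt_irrefl _ h6

open Classical in
/-- **one bad place** -/
theorem low_irr {n : ℕ} {a b : ℤ[X]} (hda : a.natDegree ≤ 2 * n) (hdb : b.natDegree ≤ 3 * n)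
    (hdg : (a ^ 3 - b ^ 2).natDegree ≤ 6 * n)
    (ha0 : a ≠ 0) (hb0 : b ≠ 0) (hg0 : a ^ 3 - b ^ 2 ≠ 0) {f : (𝓞 ℚ)[X]} (hf1 : 1 ≤ f.natDegree)
    (hf5 : f.natDegree ≤ 5) (hirr : Irreducible (f.map (algebraMap (𝓞 ℚ) ℚ)))
    (hmin : ¬ ((f.map (algebraMap (𝓞 ℚ) ℚ)) ^ 2 ∣ a.map (Int.castRingHom ℚ) ∧
      (f.map (algebraMap (𝓞 ℚ) ℚ)) ^ 3 ∣ b.map (Int.castRingHom ℚ))) {δ : ℝ} :
    ∃ M0 : ℕ, ∀ M : ℕ, M0 ≤ M → ∃ C : ℝ, 0 ≤ C ∧ ∀ s : ℚ, aeval s f ≠ 0 → aeval s a ≠ 0 →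
      aeval s b ≠ 0 → aeval s (a ^ 3 - b ^ 2) ≠ 0 → Ok δ f s →
      ((f.natDegree : ℝ) - 2 * δ) * logHeight₁ s - C ≤
        ∑ v ∈ (dv f s).filter (fun v => M < pv v ∧ nu f v s = 1), Real.log (Nv v) ∧
      ∑ v ∈ (dv f s).filter (fun v => M < pv v), Real.log (Nv v) ≤ f.natDegree * logHeight₁ s + C ∧
      ∀ v ∈ dv f s, M < pv v → nu f v s = 1 →
        ¬ (2 ≤ padicValInt (pv v) (hv (2 * n) a s) ∧ 3 ≤ padicValInt (pv v) (hv (3 * n) b s)) ∧
        padicValInt (pv v) (hv (2 * n) a s ^ 3 - hv (3 * n) b s ^ 2) =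
          multiplicity (f.map (algebraMap (𝓞 ℚ) ℚ)) ((a ^ 3 - b ^ 2).map (Int.castRingHom ℚ)) := by
  obtain ⟨M1, h1⟩ := val_mult hf1 hirr hda ha0
  obtain ⟨M2, h2⟩ := val_mult hf1 hirr hdb hb0
  obtain ⟨M3, h3⟩ := val_mult hf1 hirr hdg hg0
  obtain ⟨Bad, hBad⟩ := exists_badS f hirr.squarefree hf1
  obtain ⟨M4, hM4⟩ := bad_bound Bad
  have hf0 : f ≠ 0 := by
    rintro rfl
    simp at hf1
  obtain ⟨c1, hc1, hnu⟩ := sum_nu_le f hf0 Bad fun v hvB => (hBad v hvB).2.2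
  have hA0 : a.map (Int.castRingHom ℚ) ≠ 0 := by
    rw [Ne, Polynomial.map_eq_zero_iff Int.cast_injective]
    exact ha0
  have hB0 : b.map (Int.castRingHom ℚ) ≠ 0 := by
    rw [Ne, Polynomial.map_eq_zero_iff Int.cast_injective]
    exact hb0
  have hfa := FiniteMultiplicity.of_not_isUnit hirr.not_isUnit hA0
  have hfb := FiniteMultiplicity.of_not_isUnit hirr.not_isUnit hB0
  rw [hfa.pow_dvd_iff_le_multiplicity, hfb.pow_dvd_iff_le_multiplicity] at hmin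
  refine ⟨M1 + M2 + M3 + M4, fun M hM => ?_⟩
  obtain ⟨c, hc⟩ : ∃ c : ℝ, c = ∑ v ∈ badP M, Real.log (Nv v) := ⟨_, rfl⟩
  have hc0 : 0 ≤ c := by
    rw [hc]
    exact Finset.sum_nonneg fun v _ => (log_Nv_pos v).le
  refine ⟨2 * c + c1, by positivity, fun s hfs has hbs hgs hok => ?_⟩
  obtain ⟨S, hS⟩ : ∃ S, S = (dv f s).filter (fun v => M < pv v) := ⟨_, rfl⟩
  have hmemS : ∀ v ∈ S, v ∈ dv f s ∧ M < pv v := by
    intro v hvS
    rw [hS] at hvS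
    exact Finset.mem_filter.1 hvS
  have e1 := ok_sum hok
  have hwd : (wt f.natDegree : ℕ) = f.natDegree := by
    unfold wt
    rw [if_pos hf5]
  rw [hwd] at e1
  have e2 := sum_above (f := f) M (fun _ => True) s
  rw [Finset.filter_true, Finset.filter_true, ← hc, ← hS] at e2
  have e6 := hnu s hfs
  rw [hr_aff] at e6
  have e7 : S ⊆ dv f s \ Bad := by
    intro v hvS
    obtain ⟨h1, h2⟩ := hmemS v hvS
    exact Finset.mem_sdiff.2 ⟨h1, hM4 v (by omega)⟩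
  have hν : ∀ v ∈ S, 1 ≤ nu f v s := by
    intro v hvS
    obtain ⟨h1, h2⟩ := hmemS v hvS
    exact (mem_dv_iff hfs (hBad v (hM4 v (by omega))).2.2).1 h1
  have e8 : ∑ v ∈ S, (nu f v s : ℝ) * Real.log (Nv v) ≤ f.natDegree * logHeight₁ s + c1 := by
    refine le_trans (Finset.sum_le_sum_of_subset_of_nonneg e7 fun v _ _ => ?_) e6
    exact mul_nonneg (Nat.cast_nonneg _) (log_Nv_pos v).le
  have e9 : 2 * ∑ v ∈ S, Real.log (Nv v) - ∑ v ∈ S, (nu f v s : ℝ) * Real.log (Nv v) ≤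
      ∑ v ∈ S.filter (fun v => nu f v s = 1), Real.log (Nv v) := by
    rw [Finset.mul_sum, Finset.sum_filter, ← Finset.sum_sub_distrib]
    refine Finset.sum_le_sum fun v hvS => ?_
    have hN := (log_Nv_pos v).le
    have h1 := hν v hvS
    by_cases h4 : nu f v s = 1
    · rw [if_pos h4, h4]
      push_cast
      linarith
    · rw [if_neg h4]
      have h5 : (2 : ℝ) ≤ nu f v s := by
        have : 2 ≤ nu f v s := by omega
        exact_mod_cast this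
      nlinarith
  have e10 : ∑ v ∈ S, Real.log (Nv v) ≤ ∑ v ∈ S, (nu f v s : ℝ) * Real.log (Nv v) := by
    refine Finset.sum_le_sum fun v hvS => ?_
    have hN := (log_Nv_pos v).le
    have h1 : (1 : ℝ) ≤ nu f v s := by exact_mod_cast hν v hvS
    nlinarith
  have e11 : (dv f s).filter (fun v => M < pv v ∧ nu f v s = 1) = S.filter (fun v => nu f v s = 1) := by
    rw [hS, Finset.filter_filter]
  rw [e11, ← hS]
  refine ⟨by linarith, by linarith, fun v hv hvM hv1 => ?_⟩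
  obtain ⟨-, k1⟩ := h1 v (by omega) s hv hfs has
  obtain ⟨-, k2⟩ := h2 v (by omega) s hv hfs hbs
  obtain ⟨-, k3⟩ := h3 v (by omega) s hv hfs hgs
  rw [hv1, mul_one] at k1 k2 k3
  rw [k1, k2, low_Z hda hdb hdg, k3]
  exact ⟨hmin, rfl⟩

end Pool.Agent.N751.RW
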