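import Mathlib
import Pool.Agent.N751.RW.OneE

/-!
# The statement of the lower bound (RW/10)
-/

set_option autoImplicit false

namespace Pool.Agent.N751.RW

open NumberField IsDedekindDomain Finset Pool.Agent.H691R3 Pool.Agent.TH876.Loc
open Pool.Agent.N753.LS Pool.Agent.N753.SF Polynomial Height UniqueFactorizationMonoid
open Pool.Agent.H39R3 (GMin condW)

/-- RW/10: for a minimal family all of whose bad fibres lie over points of degree at most five a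
twist of almost every fibre attains the exponent `3 + 3 n / γ` -/
def StLow : Prop := ∀ (n : ℕ), 1 ≤ n → ∀ a b : ℤ[X], a.natDegree ≤ 2 * n → b.natDegree ≤ 3 * n →
  (a ^ 3 - b ^ 2).natDegree = 6 * n → a ≠ 0 → b ≠ 0 →
  (∀ π : ℚ[X], Irreducible π →
      ¬ (π ^ 2 ∣ a.map (Int.castRingHom ℚ) ∧ π ^ 3 ∣ b.map (Int.castRingHom ℚ))) →
  (∀ P ∈ primeFactors ((a ^ 3 - b ^ 2).map (Int.castRingHom ℚ)), P.natDegree ≤ 5) →
  ∀ (F : ℚ[X] → (𝓞 ℚ)[X]) (c : ℚ[X] → ℚ), (∀ P, c P ≠ 0) →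
  (∀ P, (F P).map (algebraMap (𝓞 ℚ) ℚ) = C (c P) * P) → ∀ δ : ℝ, 0 ≤ δ → δ ≤ 1 / 8 →
    ∃ C : ℝ, 0 ≤ C ∧ ∀ s : ℚ, aeval s a ≠ 0 → aeval s b ≠ 0 → aeval s (a ^ 3 - b ^ 2) ≠ 0 →
      (∀ P ∈ primeFactors ((a ^ 3 - b ^ 2).map (Int.castRingHom ℚ)), Ok δ (F P) s) →
      ∃ W : WeierstrassCurve ℤ, GMin W ∧ JRel W a b s ∧
        (1 - 10 * δ) * (3 + 3 * n / (wgt a b : ℕ)) * Real.log (condW W) ≤ htW W + C

end Pool.Agent.N751.RW
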