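import Mathlib
import Pool.Agent.N751.RW.Stm
import Pool.Agent.N753.SF.Sieve2

/-!
# RW/2: the larger sieve with `N(v) / l` classes modulo the primes with `l ∣ N(v) - 1`
-/

set_option autoImplicit false

namespace Pool.Agent.N751.RW

open NumberField IsDedekindDomain Finset Pool.Agent.H691R3 Pool.Agent.TH876.Loc
open Pool.Agent.N753.LS Pool.Agent.N753.SF

/-- RW/2 -/
theorem stLsH (hM : StMert) : StLs := by
  intro K _ _ l hl K' hK' Bad δ hδ
  classical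
  have hl2 : (2 : ℝ) ≤ l := by exact_mod_cast hl.two_le
  have hl0 : (0 : ℝ) < l := by linarith
  obtain ⟨η, hη⟩ : ∃ η : ℝ, η = min (1 / 2) (δ / (8 * l)) := ⟨_, rfl⟩
  have hη0 : 0 < η := by rw [hη]; exact lt_min (by norm_num) (by positivity)
  have hη1 : η ≤ 1 / 2 := by rw [hη]; exact min_le_left _ _
  obtain ⟨η', hη'⟩ : ∃ η' : ℝ, η' = l * η := ⟨_, rfl⟩
  have hη'0 : 0 < η' := by rw [hη']; positivity
  have hηη : η ≤ η' := by rw [hη']; nlinarith
  have hη2 : 8 * η' ≤ δ := by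
    have h := min_le_right (1 / 2) (δ / (8 * l))
    rw [← hη, le_div_iff₀ (by positivity)] at h
    rw [hη']
    linarith
  obtain ⟨C1, hC1, hmert⟩ := mertens_lower K hη0
  obtain ⟨C1', hC1', hmert'⟩ := hM K l hl η hη0
  obtain ⟨C2, hC2, htheta⟩ := theta_le K
  obtain ⟨C3, hC3, h32⟩ := sum_log_le K
  obtain ⟨C4, hC4, hset⟩ := sum_set_le K hη0
  obtain ⟨Cb, hCb⟩ : ∃ Cb : ℝ, Cb = ∑ v ∈ Bad, Real.log (Nv v) / Nv v := ⟨_, rfl⟩
  have hterm : ∀ v : Pr K, 0 ≤ Real.log (Nv v) / Nv v := fun v => by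
    have h2 := log_Nv_pos v
    have h3 := Nv_pos v
    positivity
  have hCb0 : 0 ≤ Cb := by
    rw [hCb]
    exact Finset.sum_nonneg fun v _ => hterm v
  obtain ⟨ℓ, hℓ⟩ : ∃ ℓ : ℝ, ℓ = lossK K := ⟨_, rfl⟩
  have hℓ0 : 0 ≤ ℓ := by rw [hℓ]; exact lossK_nonneg K
  obtain ⟨C5, hC5⟩ : ∃ C5 : ℝ, C5 = C1 + C1' + l * (C4 + Cb) + ((l : ℝ) ^ 2 * K' + 1) * C3 :=
    ⟨_, rfl⟩
  have hC50 : 0 ≤ C5 := by rw [hC5]; positivity
  refine ⟨(C2 + 1) * Real.exp (ℓ + 4 * η' * ℓ + 2 * (C5 + 1)), by positivity, ?_⟩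
  intro H hH S G g hGg hpair hcls
  by_cases h2 : 2 ≤ S.card
  swap
  · have h3 : (S.card : ℝ) ≤ 1 := by
      have : S.card ≤ 1 := by omega
      exact_mod_cast this
    have : 0 ≤ (C2 + 1) * Real.exp (ℓ + 4 * η' * ℓ + 2 * (C5 + 1)) *
      Real.exp (δ * H + (2 * H - g) / 2) := by positivity
    linarith
  have hg0 : 0 ≤ g := by
    refine le_trans ?_ hGg
    exact Finset.sum_nonneg fun v _ => (log_Nv_pos v).le
  have hgle : g ≤ 2 * H + ℓ := by
    obtain ⟨x, hx, y, hy, hxy⟩ := Finset.one_lt_card.1 (show 1 < S.card by omega)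
    have := hpair x hx y hy hxy ∅ (Finset.disjoint_empty_left _) (by simp)
    rw [Finset.sum_empty] at this
    rw [hℓ]
    linarith
  -- the parameter
  obtain ⟨Λ, hΛ⟩ : ∃ Λ : ℝ, Λ = 2 * H + ℓ - g := ⟨_, rfl⟩
  have hΛ0 : 0 ≤ Λ := by linarith
  have hden : 0 < 2 * (1 - η) := mul_pos (by norm_num) (by linarith)
  obtain ⟨t, ht⟩ : ∃ t : ℝ, t = (Λ + η' * (2 * H + ℓ) + C5 + 1) / (2 * (1 - η)) := ⟨_, rfl⟩
  have ht' : 2 * (1 - η) * t = Λ + η' * (2 * H + ℓ) + C5 + 1 := by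
    rw [ht, mul_div_cancel₀ _ hden.ne']
  obtain ⟨P, hP⟩ : ∃ P : Finset (Pr K), P = PP K (Real.exp t) \ (G ∪ Bad) := ⟨_, rfl⟩
  have hPG : Disjoint P G := by
    rw [hP, Finset.disjoint_left]
    intro v hv hv'
    exact (Finset.mem_sdiff.1 hv).2 (Finset.mem_union_left _ hv')
  obtain ⟨ν, hνdef⟩ : ∃ ν : Pr K → ℝ, ν = fun v => if l ∣ Ideal.absNorm v.asIdeal - 1 then
    Nv v / l + K' * Real.sqrt (Nv v) else Nv v / 1 + 1 * Real.sqrt (Nv v) := ⟨_, rfl⟩
  have hν : ∀ v ∈ P, 0 < ν v ∧ ((S.image (cls v)).card : ℝ) ≤ ν v := by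
    intro v hv
    rw [hP, Finset.mem_sdiff, Finset.mem_union, not_or] at hv
    have hN := Nv_pos v
    rw [hνdef]
    beta_reduce
    by_cases hlv : l ∣ Ideal.absNorm v.asIdeal - 1
    · rw [if_pos hlv]
      exact ⟨by positivity, hcls v hv.2.1 hv.2.2 hlv⟩
    · rw [if_neg hlv]
      refine ⟨by positivity, ?_⟩
      convert card_cls K v S
  have hsieve := larger_sieve2 S Λ P (by
    intro x hx y hy hxy
    have h1 := hpair x hx y hy hxy (P.filter fun v => cls v y = cls v x)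
      (hPG.mono_left (Finset.filter_subset _ _)) (fun v hv => (Finset.mem_filter.1 hv).2.symm)
    rw [← Finset.sum_filter, hΛ, hℓ]
    linarith) ν hν h2
  have ht0 : 0 ≤ t := by
    rw [ht]
    positivity
  have hGη : η * ∑ v ∈ G, Real.log (Nv v) ≤ η * (2 * H + ℓ) :=
    mul_le_mul_of_nonneg_left (hGg.trans hgle) hη0.le
  have hG7 := hset G
  have h7 : ∀ A B : Finset (Pr K), ∑ v ∈ A ∪ B, Real.log (Nv v) / Nv v ≤
      ∑ v ∈ A, Real.log (Nv v) / Nv v + ∑ v ∈ B, Real.log (Nv v) / Nv v := by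
    intro A B
    rw [← Finset.sum_union_inter]
    have : 0 ≤ ∑ v ∈ A ∩ B, Real.log (Nv v) / Nv v := Finset.sum_nonneg fun v _ => hterm v
    linarith
  have hrest : ∀ (p : Pr K → Prop) [DecidablePred p],
      ∑ v ∈ (PP K (Real.exp t)).filter p, Real.log (Nv v) / Nv v ≤
      ∑ v ∈ P.filter p, Real.log (Nv v) / Nv v + (η * (2 * H + ℓ) + C4 + Cb) := by
    intro p _
    have h6 : ∑ v ∈ (PP K (Real.exp t)).filter p, Real.log (Nv v) / Nv v ≤
        ∑ v ∈ P.filter p ∪ (G ∪ Bad), Real.log (Nv v) / Nv v := by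
      refine Finset.sum_le_sum_of_subset_of_nonneg ?_ fun v _ _ => hterm v
      intro v hv
      obtain ⟨hv1, hv2⟩ := Finset.mem_filter.1 hv
      rw [Finset.mem_union]
      by_cases h : v ∈ G ∪ Bad
      · exact Or.inr h
      · left
        rw [Finset.mem_filter, hP, Finset.mem_sdiff]
        exact ⟨⟨hv1, h⟩, hv2⟩
    have h8 := h7 (P.filter p) (G ∪ Bad)
    have h9 := h7 G Bad
    rw [← hCb] at h9
    linarith
  -- the lower bound for the sum
  have hW : 2 * (1 - η) * t - η' * (2 * H + ℓ) - C5 ≤ ∑ v ∈ P, Real.log (Nv v) / ν v := by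
    have h3 : ∑ v ∈ P, (Real.log (Nv v) / Nv v +
        (if l ∣ Ideal.absNorm v.asIdeal - 1 then ((l : ℝ) - 1) * (Real.log (Nv v) / Nv v) else 0) -
        ((l : ℝ) ^ 2 * K' + 1) * (Real.log (Nv v) / Nv v ^ (3 / 2 : ℝ))) ≤
        ∑ v ∈ P, Real.log (Nv v) / ν v := by
      refine Finset.sum_le_sum fun v _ => ?_
      have hN := Nv_pos v
      have hL := (log_Nv_pos v).le
      have hz : 0 ≤ Real.log (Nv v) / Nv v ^ (3 / 2 : ℝ) := by positivity
      have hlK : 0 ≤ (l : ℝ) ^ 2 * K' := by positivity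
      rw [hνdef]
      beta_reduce
      by_cases hlv : l ∣ Ideal.absNorm v.asIdeal - 1
      · rw [if_pos hlv, if_pos hlv]
        have := inv_nu hl0 hK' (two_le_Nv v) hL
        linarith
      · rw [if_neg hlv, if_neg hlv]
        have := inv_nu (one_pos) (zero_le_one) (two_le_Nv v) hL
        have h5 := mul_nonneg hlK hz
        linarith
    rw [Finset.sum_sub_distrib, Finset.sum_add_distrib, ← Finset.sum_filter, ← Finset.mul_sum,
      ← Finset.mul_sum] at h3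
    have h4 := h32 P
    have h5 := hrest (fun _ => True)
    rw [Finset.filter_true, Finset.filter_true] at h5
    have h6 := hmert (Real.exp t) (Real.one_le_exp ht0)
    rw [Real.log_exp] at h6
    have h8 := hrest (fun v => l ∣ Ideal.absNorm v.asIdeal - 1)
    have h9 := hmert' (Real.exp t) (Real.one_le_exp ht0)
    rw [Real.log_exp] at h9
    have h11 : ((l : ℝ) ^ 2 * K' + 1) * ∑ v ∈ P, Real.log (Nv v) / Nv v ^ (3 / 2 : ℝ) ≤
        ((l : ℝ) ^ 2 * K' + 1) * C3 :=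
      mul_le_mul_of_nonneg_left h4 (by positivity)
    have h10 := h9.trans (mul_le_mul_of_nonneg_left h8 (show (0 : ℝ) ≤ (l : ℝ) - 1 by linarith))
    obtain ⟨q, hq⟩ : ∃ q : ℝ, q = η * (2 * H + ℓ) + C4 + Cb := ⟨_, rfl⟩
    rw [← hq] at h5 h10
    rw [mul_add] at h10
    have e1 : ((l : ℝ) - 1) * q = η' * (2 * H + ℓ) + l * (C4 + Cb) - q := by
      rw [hη', hq]
      ring
    rw [e1] at h10
    rw [hC5]
    linarith
  have hW1 : 1 ≤ ∑ v ∈ P, Real.log (Nv v) / ν v - Λ := by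
    linarith
  have hΘ : ∑ v ∈ P, Real.log (Nv v) ≤ C2 * Real.exp t := by
    refine le_trans (Finset.sum_le_sum_of_subset_of_nonneg ?_ fun v _ _ => (log_Nv_pos v).le)
      (htheta (Real.exp t) (Real.exp_pos t).le)
    rw [hP]
    exact Finset.sdiff_subset
  have hS1 : (S.card : ℝ) ≤ C2 * Real.exp t := by
    have h3 : (S.card : ℝ) * 1 ≤ (S.card : ℝ) *
        (∑ v ∈ P, Real.log (Nv v) / ν v - Λ) :=
      mul_le_mul_of_nonneg_left hW1 (Nat.cast_nonneg _)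
    linarith
  have ht1 : t ≤ ℓ + 4 * η' * ℓ + 2 * (C5 + 1) + (δ * H + (2 * H - g) / 2) := by
    rw [ht, div_le_iff₀ hden]
    obtain ⟨u, hu⟩ : ∃ u : ℝ, u = (2 * H - g) / 2 := ⟨_, rfl⟩
    have hu' : 2 * H - g = 2 * u := by rw [hu]; ring
    rw [← hu]
    have hΛu : Λ = 2 * u + ℓ := by linarith
    rw [hΛu]
    have hu1 : 2 * u ≤ 2 * H := by linarith
    have hηH : η * H ≤ η' * H := mul_le_mul_of_nonneg_right hηη hH
    have hη'H : 0 ≤ η' * H := by positivity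
    have hη'ℓ : 0 ≤ η' * ℓ := by positivity
    have e1 : η * (2 * u) ≤ η * (2 * H) := mul_le_mul_of_nonneg_left hu1 hη0.le
    have e2 : 8 * (η' * H) ≤ δ * H := by
      have := mul_le_mul_of_nonneg_right hη2 hH
      linarith
    have hδH : 0 ≤ δ * H := by positivity
    have e3 : (1 / 2) * (δ * H) ≤ (1 - η) * (δ * H) :=
      mul_le_mul_of_nonneg_right (by linarith) hδH
    have e4 : (1 / 2) * (4 * (η' * ℓ)) ≤ (1 - η) * (4 * (η' * ℓ)) :=
      mul_le_mul_of_nonneg_right (by linarith) (by positivity)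
    have e5 : (1 / 2) * ℓ ≤ (1 - η) * ℓ := mul_le_mul_of_nonneg_right (by linarith) hℓ0
    have e6 : (1 / 2) * (2 * (C5 + 1)) ≤ (1 - η) * (2 * (C5 + 1)) :=
      mul_le_mul_of_nonneg_right (by linarith) (by positivity)
    have e7 : (ℓ + 4 * η' * ℓ + 2 * (C5 + 1) + (δ * H + u)) * (2 * (1 - η)) =
        2 * u - η * (2 * u) + 2 * ((1 - η) * (δ * H)) + 2 * ((1 - η) * (4 * (η' * ℓ))) +
          2 * ((1 - η) * ℓ) + 2 * ((1 - η) * (2 * (C5 + 1))) := by ring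
    rw [e7]
    linarith
  calc (S.card : ℝ) ≤ C2 * Real.exp t := hS1
    _ ≤ (C2 + 1) * Real.exp (ℓ + 4 * η' * ℓ + 2 * (C5 + 1) + (δ * H + (2 * H - g) / 2)) := by
        refine mul_le_mul (by linarith) (Real.exp_le_exp.2 ht1) (Real.exp_pos _).le (by linarith)
    _ = (C2 + 1) * Real.exp (ℓ + 4 * η' * ℓ + 2 * (C5 + 1)) *
        Real.exp (δ * H + (2 * H - g) / 2) := by
        rw [Real.exp_add (ℓ + 4 * η' * ℓ + 2 * (C5 + 1)), ← mul_assoc]
    _ ≤ _ := by linarith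

end Pool.Agent.N751.RW
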