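import Pool.Agent.N751.RW.Stm

/-!
# RW/1: Mertens' theorem for the primes `v` of a number field with `ℓ ∣ N(v) - 1` (helper402)
-/

set_option autoImplicit false
set_option linter.style.haveILetI false
set_option linter.deprecated false

namespace Pool.Agent.N751.RW

open NumberField IsDedekindDomain Finset Filter Topology Pool.Agent.H691R3 Pool.Agent.TH876.Loc
open Pool.Agent.N753.LS

/-! ### the primes of prime norm -/

section

open scoped ArithmeticFunction.vonMangoldt
open Pool.Agent.Y767 Pool.Agent.Y772.HC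

/-- Mertens' theorem for the primes of prime norm -/
theorem mertens_prime (K : Type) [Field K] [NumberField K] {η : ℝ} (hη : 0 < η) :
    ∃ C : ℝ, 0 ≤ C ∧ ∀ z : ℝ, 1 ≤ z →
      (1 - η) * Real.log z - C ≤
        ∑ v ∈ (PP K z).filter (fun v => (Ideal.absNorm v.asIdeal).Prime), Real.log (Nv v) / Nv v := by
  classical
  obtain ⟨C1, hC1, hn⟩ := nonprime_sum
  have hT := t_mer K
  unfold W388.SelE at hT
  have h1 : ∀ᶠ x : ℝ in atTop, 1 - η <
      (∑ n ∈ Finset.Icc 1 ⌊x⌋₊, Λ n * ‖cK K n‖ ^ 2 / n) / Real.log x :=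
    hT.eventually_const_lt (by linarith)
  obtain ⟨z0, hz0⟩ := eventually_atTop.1 (h1.and (eventually_ge_atTop 2))
  obtain ⟨z1, hz1⟩ : ∃ z1, z1 = max z0 2 := ⟨_, rfl⟩
  have hz1' : 2 ≤ z1 := by rw [hz1]; exact le_max_right _ _
  have hl1 : 0 ≤ Real.log z1 := Real.log_nonneg (by linarith)
  obtain ⟨d, hd⟩ : ∃ d : ℝ, d = (Module.finrank ℚ K : ℝ) := ⟨_, rfl⟩
  refine ⟨Real.log z1 + d ^ 2 * C1, by positivity, fun z hz => ?_⟩
  have hlz : 0 ≤ Real.log z := Real.log_nonneg hz
  have hsum0 : 0 ≤ ∑ v ∈ (PP K z).filter (fun v => (Ideal.absNorm v.asIdeal).Prime),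
      Real.log (Nv v) / Nv v := by
    refine Finset.sum_nonneg fun v _ => ?_
    have h2 := log_Nv_pos v
    have h3 := Nv_pos v
    positivity
  rcases le_total z1 z with h2 | h2
  · have hz2 : 2 ≤ z := hz1'.trans h2
    have h3 := (hz0 z ((le_max_left z0 2).trans (by rw [← hz1]; exact h2))).1
    rw [lt_div_iff₀ (Real.log_pos (by linarith))] at h3
    have h4 : ∑ n ∈ Finset.Icc 1 ⌊z⌋₊, Λ n * ‖cK K n‖ ^ 2 / n ≤
        ∑ v ∈ (PP K z).filter (fun v => (Ideal.absNorm v.asIdeal).Prime),
          Real.log (Nv v) / Nv v + d ^ 2 * C1 := by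
      rw [← Finset.sum_filter_add_sum_filter_not (Finset.Icc 1 ⌊z⌋₊) Nat.Prime]
      refine add_le_add ?_ ?_
      · calc ∑ n ∈ (Finset.Icc 1 ⌊z⌋₊).filter Nat.Prime, Λ n * ‖cK K n‖ ^ 2 / n
            ≤ ∑ p ∈ (Finset.Icc 1 ⌊z⌋₊).filter Nat.Prime,
              ∑ v ∈ (PP K z).filter (fun v => Ideal.absNorm v.asIdeal = p),
                Real.log (Nv v) / Nv v := by
              refine Finset.sum_le_sum fun p hp => ?_
              rw [Finset.mem_filter, Finset.mem_Icc] at hp
              refine term_prime hp.2 ?_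
              exact (Nat.le_floor_iff (by linarith)).1 hp.1.2
          _ = ∑ v ∈ ((Finset.Icc 1 ⌊z⌋₊).filter Nat.Prime).biUnion
              (fun p => (PP K z).filter (fun v => Ideal.absNorm v.asIdeal = p)),
                Real.log (Nv v) / Nv v := by
              rw [Finset.sum_biUnion]
              intro p _ q _ hpq
              show Disjoint _ _
              rw [Finset.disjoint_left]
              intro v hv hv'
              exact hpq ((Finset.mem_filter.1 hv).2.symm.trans (Finset.mem_filter.1 hv').2)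
          _ ≤ _ := by
              refine Finset.sum_le_sum_of_subset_of_nonneg ?_ fun v _ _ => ?_
              · intro v hv
                obtain ⟨p, hp, hv⟩ := Finset.mem_biUnion.1 hv
                refine Finset.mem_filter.2 ⟨(Finset.mem_filter.1 hv).1, ?_⟩
                rw [(Finset.mem_filter.1 hv).2]
                exact (Finset.mem_filter.1 hp).2
              · have h2 := log_Nv_pos v
                have h3 := Nv_pos v
                positivity
      · calc ∑ n ∈ (Finset.Icc 1 ⌊z⌋₊).filter (fun n => ¬ n.Prime), Λ n * ‖cK K n‖ ^ 2 / n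
            ≤ ∑ n ∈ (Finset.Icc 1 ⌊z⌋₊).filter (fun n => ¬ n.Prime), d ^ 2 * (Λ n / n) := by
              refine Finset.sum_le_sum fun n _ => ?_
              have h5 : ‖cK K n‖ ^ 2 ≤ d ^ 2 := by
                rw [hd]
                exact pow_le_pow_left₀ (norm_nonneg _) (cK_le n) 2
              have h6 : 0 ≤ Λ n / n :=
                div_nonneg ArithmeticFunction.vonMangoldt_nonneg (Nat.cast_nonneg _)
              calc Λ n * ‖cK K n‖ ^ 2 / n = ‖cK K n‖ ^ 2 * (Λ n / n) := by ring
                _ ≤ _ := mul_le_mul_of_nonneg_right h5 h6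
          _ = d ^ 2 * ∑ n ∈ (Finset.Icc 1 ⌊z⌋₊).filter (fun n => ¬ n.Prime), Λ n / n := by
              rw [Finset.mul_sum]
          _ ≤ d ^ 2 * C1 := by
              refine mul_le_mul_of_nonneg_left (hn _ fun n hn => (Finset.mem_filter.1 hn).2) ?_
              positivity
    linarith
  · have h3 := Real.log_le_log (by linarith) h2
    have h4 : (1 - η) * Real.log z ≤ Real.log z := by nlinarith
    have h5 : 0 ≤ d ^ 2 * C1 := by positivity
    linarith

end

/-! ### the primes below -/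

section below

variable (K L : Type) [Field K] [NumberField K] [Field L] [NumberField L] [Algebra K L]

/-- the prime below -/
noncomputable def dn (w : Pr L) : Pr K where
  asIdeal := w.asIdeal.comap (algebraMap (𝓞 K) (𝓞 L))
  isPrime := Ideal.IsPrime.comap _
  ne_bot := Ideal.IsIntegral.comap_ne_bot (𝓞 K) w.ne_bot

theorem liesOver (w : Pr L) : w.asIdeal.LiesOver (dn K L w).asIdeal := ⟨rfl⟩

/-- the number of primes above -/
theorem card_above' (v : Pr K) (F : Finset (Pr L)) (hF : ∀ w ∈ F, dn K L w = v) :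
    F.card ≤ Module.finrank K L := by
  classical
  haveI : v.asIdeal.IsMaximal := v.isMaximal
  haveI : NoZeroSMulDivisors (𝓞 K) (𝓞 L) := ⟨by
    intro c x h
    rw [Algebra.smul_def] at h
    rcases mul_eq_zero.1 h with h2 | h2
    · left
      apply FaithfulSMul.algebraMap_injective (𝓞 K) (𝓞 L)
      rw [h2, map_zero]
    · exact Or.inr h2⟩
  have h1 := Ideal.card_primesOverFinset_le_finrank (𝓞 L) K L (p := v.asIdeal) v.ne_bot
  refine le_trans ?_ h1
  rw [← Finset.card_image_of_injective (f := fun w : Pr L => w.asIdeal) F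
    (fun a b h => HeightOneSpectrum.ext h)]
  refine Finset.card_le_card fun P hP => ?_
  obtain ⟨w, hw, rfl⟩ := Finset.mem_image.1 hP
  refine (IsDedekindDomain.mem_primesOverFinset_iff v.ne_bot _).2 ⟨w.isPrime, ?_⟩
  rw [← hF w hw]
  exact liesOver K L w

/-- the norm of the prime below a prime of prime norm -/
theorem norm_dn (w : Pr L) {p : ℕ} (hp : p.Prime) (hw : Ideal.absNorm w.asIdeal = p) :
    Ideal.absNorm (dn K L w).asIdeal = p := by
  set v := dn K L w with hv
  let φ : (𝓞 K ⧸ v.asIdeal) →+* (𝓞 L ⧸ w.asIdeal) :=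
    Ideal.quotientMap w.asIdeal (algebraMap (𝓞 K) (𝓞 L)) le_rfl
  have hφ : Function.Injective φ := Ideal.quotientMap_injective
  have hcL : Nat.card (𝓞 L ⧸ w.asIdeal) = p := by
    rw [← hw, Ideal.absNorm_apply, Submodule.cardQuot_apply]
  have hcK : Nat.card (𝓞 K ⧸ v.asIdeal) = Ideal.absNorm v.asIdeal := by
    rw [Ideal.absNorm_apply, Submodule.cardQuot_apply]
  have h1 : Nat.card (φ.toAddMonoidHom.range) ∣ Nat.card (𝓞 L ⧸ w.asIdeal) :=
    AddSubgroup.card_addSubgroup_dvd_card _
  have h2 : Nat.card (φ.toAddMonoidHom.range) = Nat.card (𝓞 K ⧸ v.asIdeal) :=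
    (Nat.card_congr (AddMonoidHom.ofInjective (f := φ.toAddMonoidHom) hφ).toEquiv).symm
  rw [h2, hcL, hcK] at h1
  rcases (Nat.dvd_prime hp).1 h1 with h3 | h3
  · exact absurd (Ideal.absNorm_eq_one_iff.1 h3) v.isPrime.ne_top
  · exact h3

/-- the roots of unity in the residue field -/
theorem dvd_sub {l : ℕ} (hl : l.Prime) {ζ : L} (hζ : IsPrimitiveRoot ζ l) (w : Pr L) {p : ℕ}
    (hp : p.Prime) (hw : Ideal.absNorm w.asIdeal = p) (hpl : p ≠ l) : l ∣ p - 1 := by
  haveI : w.asIdeal.IsMaximal := w.isMaximal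
  letI : Field (𝓞 L ⧸ w.asIdeal) := Ideal.Quotient.field w.asIdeal
  have hcL : Nat.card (𝓞 L ⧸ w.asIdeal) = p := by
    rw [← hw, Ideal.absNorm_apply, Submodule.cardQuot_apply]
  haveI : Finite (𝓞 L ⧸ w.asIdeal) := Nat.finite_of_card_ne_zero (by rw [hcL]; exact hp.ne_zero)
  haveI : Fintype (𝓞 L ⧸ w.asIdeal) := Fintype.ofFinite _
  haveI : NeZero l := ⟨hl.ne_zero⟩
  have hz := hζ.toInteger_isPrimitiveRoot
  have hl0 : ((l : ℕ) : 𝓞 L ⧸ w.asIdeal) ≠ 0 := by
    intro h0
    have hp0 : ((p : ℕ) : 𝓞 L ⧸ w.asIdeal) = 0 := by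
      have h1 := Nat.cast_card_eq_zero (𝓞 L ⧸ w.asIdeal)
      rw [← Nat.card_eq_fintype_card, hcL] at h1
      exact h1
    have hc : Nat.Coprime p l := (Nat.coprime_primes hp hl).2 hpl
    have h2 : (1 : 𝓞 L ⧸ w.asIdeal) = 0 := by
      obtain ⟨a, b, hab⟩ := Nat.isCoprime_iff_coprime.2 hc
      have h3 := congrArg (Int.cast : ℤ → 𝓞 L ⧸ w.asIdeal) hab
      push_cast at h3
      rw [hp0, h0, mul_zero, mul_zero, add_zero] at h3
      exact h3.symm
    exact one_ne_zero h2
  haveI : NeZero ((l : ℕ) : 𝓞 L ⧸ w.asIdeal) := ⟨hl0⟩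
  have hroot : (Polynomial.cyclotomic l (𝓞 L)).IsRoot hζ.toInteger :=
    hz.isRoot_cyclotomic hl.pos
  have h4 : (Polynomial.cyclotomic l (𝓞 L ⧸ w.asIdeal)).IsRoot
      (Ideal.Quotient.mk w.asIdeal hζ.toInteger) := by
    rw [← Polynomial.map_cyclotomic l (Ideal.Quotient.mk w.asIdeal)]
    exact hroot.map
  have h5 := Polynomial.isRoot_cyclotomic_iff.1 h4
  have h6 : Ideal.Quotient.mk w.asIdeal hζ.toInteger ≠ 0 := h5.ne_zero hl.ne_zero
  have h7 := FiniteField.pow_card_sub_one_eq_one _ h6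
  rw [← Nat.card_eq_fintype_card, hcL] at h7
  exact h5.dvd_of_pow_eq_one _ h7

end below

theorem finrank_cyc (K : Type) [Field K] [NumberField K] {l : ℕ} (hl : l.Prime) :
    Module.finrank K (CyclotomicField l K) ≤ l - 1 := by
  haveI : NeZero l := ⟨hl.ne_zero⟩
  haveI : NeZero ((l : ℕ) : K) := ⟨by exact_mod_cast hl.ne_zero⟩
  have hζ := IsCyclotomicExtension.zeta_spec l K (CyclotomicField l K)
  rw [(hζ.powerBasis K).finrank, hζ.powerBasis_dim K, ← Nat.totient_prime hl,
    ← Polynomial.natDegree_cyclotomic l K]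
  refine Polynomial.natDegree_le_of_dvd ?_ (Polynomial.cyclotomic_ne_zero l K)
  refine minpoly.dvd K _ ?_
  rw [Polynomial.aeval_def, ← Polynomial.eval_map, Polynomial.map_cyclotomic]
  exact hζ.isRoot_cyclotomic hl.pos

/-- **RW/1.** -/
theorem stMert : StMert := by
  classical
  intro K _ _ l hl η hη
  haveI : NeZero l := ⟨hl.ne_zero⟩
  haveI : NeZero ((l : ℕ) : K) := ⟨by exact_mod_cast hl.ne_zero⟩
  obtain ⟨L, hLdef⟩ : ∃ L : Type, L = CyclotomicField l K := ⟨_, rfl⟩
  have hζ := IsCyclotomicExtension.zeta_spec l K (CyclotomicField l K)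
  obtain ⟨C, hC, h⟩ := mertens_prime (CyclotomicField l K) hη
  have hg0 : ∀ (M : Type) [Field M] [NumberField M] (v : Pr M), 0 ≤ Real.log (Nv v) / Nv v := by
    intro M _ _ v
    have h2 := log_Nv_pos v
    have h3 := Nv_pos v
    positivity
  refine ⟨C + ∑ w ∈ PP (CyclotomicField l K) l, Real.log (Nv w) / Nv w,
    add_nonneg hC (Finset.sum_nonneg fun w _ => hg0 _ w), fun z hz => ?_⟩
  have h1 := h z hz
  have hl1 : (1 : ℝ) ≤ l := by exact_mod_cast hl.one_lt.le
  suffices h2 : ∑ w ∈ (PP (CyclotomicField l K) z).filter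
      (fun w => (Ideal.absNorm w.asIdeal).Prime), Real.log (Nv w) / Nv w ≤
      ∑ w ∈ PP (CyclotomicField l K) l, Real.log (Nv w) / Nv w +
      ((l : ℝ) - 1) * ∑ v ∈ (PP K z).filter (fun v => l ∣ Ideal.absNorm v.asIdeal - 1),
        Real.log (Nv v) / Nv v by linarith
  rw [← Finset.sum_filter_add_sum_filter_not ((PP (CyclotomicField l K) z).filter
      (fun w => (Ideal.absNorm w.asIdeal).Prime)) (fun w => Ideal.absNorm w.asIdeal = l)]
  refine add_le_add ?_ ?_
  · refine Finset.sum_le_sum_of_subset_of_nonneg ?_ fun w _ _ => hg0 _ w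
    intro w hw
    rw [mem_PP]
    have := (Finset.mem_filter.1 hw).2
    show ((Ideal.absNorm w.asIdeal : ℕ) : ℝ) ≤ l
    rw [this]
  · set W := ((PP (CyclotomicField l K) z).filter
      (fun w => (Ideal.absNorm w.asIdeal).Prime)).filter (fun w => ¬ Ideal.absNorm w.asIdeal = l)
      with hW
    set V := (PP K z).filter (fun v => l ∣ Ideal.absNorm v.asIdeal - 1) with hV
    have hnorm : ∀ w ∈ W, Ideal.absNorm (dn K (CyclotomicField l K) w).asIdeal =
        Ideal.absNorm w.asIdeal := by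
      intro w hw
      rw [hW, Finset.mem_filter, Finset.mem_filter] at hw
      exact norm_dn K (CyclotomicField l K) w hw.1.2 rfl
    have hmaps : ∀ w ∈ W, dn K (CyclotomicField l K) w ∈ V := by
      intro w hw
      have h3 := hnorm w hw
      rw [hW, Finset.mem_filter, Finset.mem_filter] at hw
      rw [hV, Finset.mem_filter, mem_PP]
      refine ⟨?_, ?_⟩
      · have h4 := mem_PP.1 hw.1.1
        show ((Ideal.absNorm (dn K (CyclotomicField l K) w).asIdeal : ℕ) : ℝ) ≤ z
        rw [h3]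
        exact h4
      · rw [h3]
        exact dvd_sub (CyclotomicField l K) hl hζ w hw.1.2 rfl hw.2
    have h5 : ∑ w ∈ W, Real.log (Nv w) / Nv w =
        ∑ w ∈ W, Real.log (Nv (dn K (CyclotomicField l K) w)) /
          Nv (dn K (CyclotomicField l K) w) := by
      refine Finset.sum_congr rfl fun w hw => ?_
      have h6 : Nv (dn K (CyclotomicField l K) w) = Nv w := by
        show ((Ideal.absNorm (dn K (CyclotomicField l K) w).asIdeal : ℕ) : ℝ) =
          ((Ideal.absNorm w.asIdeal : ℕ) : ℝ)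
        rw [hnorm w hw]
      rw [h6]
    rw [h5, ← Finset.sum_fiberwise_of_maps_to hmaps, Finset.mul_sum]
    refine Finset.sum_le_sum fun v _ => ?_
    have h6 : ∑ w ∈ W.filter (fun w => dn K (CyclotomicField l K) w = v),
        Real.log (Nv (dn K (CyclotomicField l K) w)) / Nv (dn K (CyclotomicField l K) w) =
        (W.filter (fun w => dn K (CyclotomicField l K) w = v)).card *
          (Real.log (Nv v) / Nv v) := by
      rw [← nsmul_eq_mul, ← Finset.sum_const]
      refine Finset.sum_congr rfl fun w hw => ?_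
      rw [(Finset.mem_filter.1 hw).2]
    rw [h6]
    refine mul_le_mul_of_nonneg_right ?_ (hg0 _ v)
    have h7 := (card_above' K (CyclotomicField l K) v
      (W.filter (fun w => dn K (CyclotomicField l K) w = v))
      (fun w hw => (Finset.mem_filter.1 hw).2)).trans (finrank_cyc K hl)
    have h8 : ((W.filter (fun w => dn K (CyclotomicField l K) w = v)).card : ℝ) ≤
        ((l - 1 : ℕ) : ℝ) := by exact_mod_cast h7
    rw [Nat.cast_sub hl.one_lt.le, Nat.cast_one] at h8
    exact h8

end Pool.Agent.N751.RW
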