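import Mathlib
import Pool.Agent.N751.RW.Top

/-!
# Semistable fibres: the local and the global inequality
-/

set_option autoImplicit false
set_option linter.unusedVariables false

namespace Pool.Agent.N751.RW

open Finset Pool.Agent.H39R3 Pool.Agent.H925R.Szpiro Height Polynomial

/-- coprime invariants: the equation is a global minimal one -/
theorem gmin_of {W : WeierstrassCurve ℤ} (hD : W.Δ ≠ 0) (h : IsCoprime W.c₄ W.Δ) : GMin W := by
  refine ⟨hD, fun W' hW => ?_⟩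
  obtain ⟨C, hC⟩ := hW
  have h1 := congrArg WeierstrassCurve.Δ hC
  have h2 := congrArg WeierstrassCurve.c₄ hC
  rw [WeierstrassCurve.variableChange_Δ, WeierstrassCurve.map_Δ, WeierstrassCurve.map_Δ] at h1
  rw [WeierstrassCurve.variableChange_c₄, WeierstrassCurve.map_c₄, WeierstrassCurve.map_c₄] at h2
  simp only [eq_intCast] at h1 h2
  set v : ℚ := ((C.u⁻¹ : ℚˣ) : ℚ) with hv
  have hv0 : v ≠ 0 := (C.u⁻¹).ne_zero
  have hcop : IsCoprime (v.num) (v.den : ℤ) := v.isCoprime_num_den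
  have hs0 : (v.den : ℚ) ≠ 0 := by exact_mod_cast v.den_nz
  have hvd : v * v.den = v.num := Rat.mul_den_eq_num v
  have e1 : v.num ^ 12 * W.Δ = (v.den : ℤ) ^ 12 * W'.Δ := by
    have : (v.num : ℚ) ^ 12 * (W.Δ : ℚ) = (v.den : ℚ) ^ 12 * (W'.Δ : ℚ) := by
      rw [← h1, ← hvd]; ring
    exact_mod_cast this
  have e2 : v.num ^ 4 * W.c₄ = (v.den : ℤ) ^ 4 * W'.c₄ := by
    have : (v.num : ℚ) ^ 4 * (W.c₄ : ℚ) = (v.den : ℚ) ^ 4 * (W'.c₄ : ℚ) := by
      rw [← h2, ← hvd]; ring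
    exact_mod_cast this
  have d1 : (v.den : ℤ) ∣ W.Δ := by
    have : (v.den : ℤ) ^ 12 ∣ W.Δ :=
      (hcop.symm.pow (m := 12) (n := 12)).dvd_of_dvd_mul_left ⟨_, e1⟩
    exact (dvd_pow_self _ (by norm_num)).trans this
  have d2 : (v.den : ℤ) ∣ W.c₄ := by
    have : (v.den : ℤ) ^ 4 ∣ W.c₄ :=
      (hcop.symm.pow (m := 4) (n := 4)).dvd_of_dvd_mul_left ⟨_, e2⟩
    exact (dvd_pow_self _ (by norm_num)).trans this
  have d3 : IsUnit (v.den : ℤ) := h.isUnit_of_dvd' d2 d1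
  have d4 : (v.den : ℤ) = 1 := by
    rcases Int.isUnit_iff.mp d3 with h | h
    · exact h
    · have : (0 : ℤ) ≤ v.den := Int.natCast_nonneg _
      omega
  rw [d4, one_pow, one_mul] at e1
  rw [← e1, abs_mul, abs_pow]
  have hn0 : v.num ≠ 0 := Rat.num_ne_zero.mpr hv0
  have h5 : 1 ≤ |v.num| := Int.one_le_abs hn0
  have h6 : (1 : ℤ) ≤ |v.num| ^ 12 := one_le_pow₀ h5
  nlinarith [abs_nonneg W.Δ]

/-- the equation is semistable -/
def Sst (W : WeierstrassCurve ℤ) : Prop := W.Δ ≠ 0 ∧ IsCoprime W.c₄ W.Δ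

theorem Sst.gmin {W : WeierstrassCurve ℤ} (h : Sst W) : GMin W := gmin_of h.1 h.2

/-- the local inequality at a prime `p ≥ 5` -/
theorem local_ineqS {W : WeierstrassCurve ℤ} (hW : Sst W) {A B : ℤ} {u : ℚ} {σ : ℝ} (hσ0 : 0 ≤ σ)
    (hσ : σ ≤ 6)
    (hA : A ≠ 0) (hB : B ≠ 0) (hAB : A ^ 3 ≠ B ^ 2) (hu : u ≠ 0) (h4 : (W.c₄ : ℚ) = u ^ 2 * A)
    (h6 : (W.c₆ : ℚ) = u ^ 3 * B) {p : ℕ} (hp : p.Prime) (h5 : 5 ≤ p) :
    6 * (padicValRat p u : ℝ) + (if (p : ℤ) ∣ A ^ 3 - B ^ 2 then σ else 0) ≤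
      σ * fp W p := by
  have := Fact.mk hp
  obtain ⟨k4, k6, v4, v6⟩ := vals hA hB hu h4 h6 hp
  have hn17 := not_dvd_1728 hp h5
  have hpr : Prime (p : ℤ) := Nat.prime_iff_prime_int.mp hp
  have hrel := W.c_relation
  have hdA := dvd_iff_val hp hA
  have hdB := dvd_iff_val hp hB
  have hd4 := dvd_iff_val hp k4
  have hd6 := dvd_iff_val hp k6
  -- the valuation of the discriminant
  have hAB' : A ^ 3 - B ^ 2 ≠ 0 := sub_ne_zero.mpr hAB
  have hvΔ : (padicValInt p W.Δ : ℤ) = 6 * padicValRat p u + padicValInt p (A ^ 3 - B ^ 2) := by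
    have e1 : ((1728 * W.Δ : ℤ) : ℚ) = u ^ 6 * ((A ^ 3 - B ^ 2 : ℤ) : ℚ) := by
      rw [hrel]
      push_cast
      rw [h4, h6]
      ring
    have e2 : padicValInt p (1728 * W.Δ) = padicValInt p W.Δ := by
      rw [padicValInt.mul (by norm_num) hW.1]
      have : padicValInt p 1728 = 0 := by
        by_contra h0
        apply hn17
        rw [dvd_iff_val hp (by norm_num)]
        omega
      omega
    rw [← e2, ← padicValRat.of_int, e1, padicValRat.mul (pow_ne_zero _ hu)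
      (by exact_mod_cast hAB'), padicValRat.pow, padicValRat.of_int]
    push_cast
    ring
  have hdΔ := dvd_iff_val hp hW.1
  have hdAB := dvd_iff_val hp hAB'
  -- semistability
  have hss : (p : ℤ) ∣ W.Δ → ¬ (p : ℤ) ∣ W.c₄ := by
    intro h1 h2
    exact hpr.not_unit (hW.2.isUnit_of_dvd' h2 h1)
  have h46 : (p : ℤ) ∣ W.Δ → ¬ (p : ℤ) ∣ W.c₆ := by
    intro hd h
    have h1 : (p : ℤ) ∣ W.c₄ ^ 3 := by
      have e : W.c₄ ^ 3 = W.c₆ ^ 2 + 1728 * W.Δ := by rw [hrel]; ring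
      rw [e]
      exact dvd_add (dvd_pow h (by norm_num)) (dvd_mul_of_dvd_right hd _)
    exact hss hd (hpr.dvd_of_dvd_pow h1)
  have hnot : ¬ (p : ℤ) ∣ W.Δ → ¬ ((p : ℤ) ∣ W.c₄ ∧ (p : ℤ) ∣ W.c₆) := by
    rintro hd ⟨e1, e2⟩
    apply hd
    have h1 : (p : ℤ) ∣ 1728 * W.Δ := by
      rw [hrel]
      exact dvd_sub (dvd_pow e1 (by norm_num)) (dvd_pow e2 (by norm_num))
    exact (hpr.dvd_or_dvd h1).resolve_left hn17
  rw [hdΔ, hd4, hd6] at hnot
  rw [hdΔ, hd4] at hss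
  rw [hdΔ, hd6] at h46
  unfold fp
  simp only [hdA, hdB, hdΔ, hd4, hdAB]
  clear hdA hdB hdΔ hd4 hdAB hd6 hAB hAB' hrel hpr hn17 this h4 h6 k4 k6
  generalize padicValRat p u = t at *
  generalize padicValInt p A = a at *
  generalize padicValInt p B = b at *
  generalize padicValInt p W.c₄ = x at *
  generalize padicValInt p W.c₆ = y at *
  generalize padicValInt p W.Δ = d at *
  generalize padicValInt p (A ^ 3 - B ^ 2) = e at *
  have hR : ∀ c : ℤ, t ≤ c → 6 * (t : ℝ) ≤ 6 * (c : ℝ) := by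
    intro c hc
    have : (t : ℝ) ≤ c := by exact_mod_cast hc
    linarith
  by_cases h3 : 1 ≤ d
  · have h7 := hss h3
    have h8 := h46 h3
    rw [if_pos h3, if_neg h7, mul_one]
    have := hR 0 (by omega)
    push_cast at this
    split_ifs <;> linarith
  · rw [if_neg h3, mul_zero]
    have hnot' := hnot h3
    by_cases h1 : 1 ≤ e
    · rw [if_pos h1]
      have := hR (-1) (by omega)
      push_cast at this
      linarith
    · rw [if_neg h1]
      have := hR 0 (by omega)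
      push_cast at this
      linarith

/-- **the global inequality for a semistable equation** -/
theorem stEllS : ∃ C0 : ℝ, 0 ≤ C0 ∧ ∀ (W : WeierstrassCurve ℤ) (A B : ℤ) (u : ℚ) (σ : ℝ),
    0 ≤ σ → σ ≤ 6 → Sst W → A ≠ 0 → B ≠ 0 → A ^ 3 ≠ B ^ 2 → u ≠ 0 →
    (W.c₄ : ℚ) = u ^ 2 * A → (W.c₆ : ℚ) = u ^ 3 * B →
      Real.log (max (|(W.c₄ : ℝ)| ^ 3) ((W.c₆ : ℝ) ^ 2)) +
        σ * ∑ p ∈ (A ^ 3 - B ^ 2).natAbs.primeFactors.filter (fun p => 5 ≤ p), Real.log p ≤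
        σ * Real.log (condW W) + Real.log (max (|(A : ℝ)| ^ 3) ((B : ℝ) ^ 2)) + C0 := by
  refine ⟨30 * (Real.log 2 + Real.log 3), by positivity, ?_⟩
  intro W A B u σ hσ0 hσ hW hA hB hAB hu h4 h6
  have hu' : (0 : ℝ) < |(u : ℝ)| := abs_pos.mpr (by exact_mod_cast hu)
  have hAB' : A ^ 3 - B ^ 2 ≠ 0 := sub_ne_zero.mpr hAB
  set S : Finset ℕ := u.num.natAbs.primeFactors ∪ u.den.primeFactors ∪ W.Δ.natAbs.primeFactors ∪
    (A ^ 3 - B ^ 2).natAbs.primeFactors with hSdef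
  have hS : ∀ p ∈ S, p.Prime := by
    intro p hp
    simp only [hSdef, mem_union, Nat.mem_primeFactors] at hp
    tauto
  have hlu := log_rat u hu S hS
    (fun p hp => by simp only [hSdef, mem_union]; tauto)
    (fun p hp => by simp only [hSdef, mem_union]; tauto)
  have hlc := log_cond hW.1 S hS (fun p hp => by simp only [hSdef, mem_union]; tauto)
  -- the maxima
  have hmax : Real.log (max (|(W.c₄ : ℝ)| ^ 3) ((W.c₆ : ℝ) ^ 2)) =
      6 * Real.log |(u : ℝ)| + Real.log (max (|(A : ℝ)| ^ 3) ((B : ℝ) ^ 2)) := by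
    have e4 : (W.c₄ : ℝ) = (u : ℝ) ^ 2 * A := by exact_mod_cast congrArg (fun q : ℚ => (q : ℝ)) h4
    have e6 : (W.c₆ : ℝ) = (u : ℝ) ^ 3 * B := by exact_mod_cast congrArg (fun q : ℚ => (q : ℝ)) h6
    have e1 : |(W.c₄ : ℝ)| ^ 3 = |(u : ℝ)| ^ 6 * |(A : ℝ)| ^ 3 := by
      rw [e4, abs_mul, abs_pow]
      ring
    have e2 : (W.c₆ : ℝ) ^ 2 = |(u : ℝ)| ^ 6 * (B : ℝ) ^ 2 := by
      rw [e6, mul_pow, ← pow_mul, ← abs_pow]
      congr 1
      rw [abs_of_nonneg (by positivity)]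
    rw [e1, e2, ← mul_max_of_nonneg _ _ (by positivity), Real.log_mul (by positivity), Real.log_pow]
    · push_cast
      ring
    · have hA' : (0 : ℝ) < |(A : ℝ)| ^ 3 := by
        have : (0 : ℝ) < |(A : ℝ)| := abs_pos.mpr (by exact_mod_cast hA)
        positivity
      exact (lt_of_lt_of_le hA' (le_max_left _ _)).ne'
  -- the sum of the gains
  have hgain : σ * ∑ p ∈ (A ^ 3 - B ^ 2).natAbs.primeFactors.filter (fun p => 5 ≤ p),
      Real.log p = ∑ p ∈ S.filter (fun p => 5 ≤ p),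
        (if (p : ℤ) ∣ A ^ 3 - B ^ 2 then σ else 0) * Real.log p := by
    have h1 : (A ^ 3 - B ^ 2).natAbs.primeFactors.filter (fun p => 5 ≤ p) ⊆
        S.filter (fun p => 5 ≤ p) :=
      filter_subset_filter _ (fun p hp => by simp only [hSdef, mem_union]; tauto)
    rw [← sum_subset h1, mul_sum]
    · refine sum_congr rfl fun p hp => ?_
      rw [mem_filter, Nat.mem_primeFactors] at hp
      rw [if_pos]
      rw [Int.natCast_dvd]
      exact hp.1.2.1
    · intro p hp hp2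
      rw [mem_filter] at hp hp2
      rw [if_neg, zero_mul]
      intro hd
      apply hp2
      refine ⟨?_, hp.2⟩
      rw [Nat.mem_primeFactors]
      exact ⟨hS p hp.1, by rwa [← Int.natCast_dvd], by simpa using hAB'⟩
  rw [hmax, hgain, hlc, hlu, ← sum_filter_add_sum_filter_not S (fun p => 5 ≤ p)]
  have hbig : ∑ p ∈ S.filter (fun p => 5 ≤ p), (6 * (padicValRat p u : ℝ) +
      (if (p : ℤ) ∣ A ^ 3 - B ^ 2 then σ else 0)) * Real.log p ≤
      ∑ p ∈ S.filter (fun p => 5 ≤ p), (σ * fp W p) * Real.log p := by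
    refine sum_le_sum fun p hp => ?_
    rw [mem_filter] at hp
    exact mul_le_mul_of_nonneg_right (local_ineqS hW hσ0 hσ hA hB hAB hu h4 h6 (hS p hp.1) hp.2)
      (Real.log_nonneg (by exact_mod_cast (hS p hp.1).one_lt.le))
  have hsmall := small_sum S hS (fun p => 6 * (padicValRat p u : ℝ)) 30 (by norm_num) (by
    intro p hp
    have h1 := small_prime hW.gmin hA hB hu h4 h6 (hS p hp)
    have h2 : (padicValRat p u : ℝ) ≤ 5 := by exact_mod_cast h1
    linarith)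
  simp only [add_mul, sum_add_distrib] at hbig
  simp only [mul_assoc, ← mul_sum] at hbig hsmall
  linarith

end Pool.Agent.N751.RW
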