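import Mathlib
import Pool.Agent.N751.RW.Semi

/-!
# Semistable fibres: the inequality outside the universal exceptional set
-/

set_option autoImplicit false
set_option linter.unusedSectionVars false

namespace Pool.Agent.N751.RW

open NumberField IsDedekindDomain Finset Pool.Agent.H691R3 Pool.Agent.TH876.Loc
open Pool.Agent.N753.LS Pool.Agent.N753.SF Polynomial Height UniqueFactorizationMonoid
open Pool.Agent.H39R3 (GMin condW)

/-- the trivial bound for semistable fibres -/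
theorem trivS {n : ℕ} {a b : ℤ[X]} (hda : a.natDegree ≤ 2 * n)
    (hdb : b.natDegree ≤ 3 * n) : ∃ C : ℝ, 0 ≤ C ∧ ∀ (s : ℚ) (W : WeierstrassCurve ℤ),
      aeval s a ≠ 0 → aeval s b ≠ 0 → aeval s (a ^ 3 - b ^ 2) ≠ 0 → Sst W → JRel W a b s →
        htW W ≤ 6 * n * logHeight₁ s + C := by
  obtain ⟨C0, hC0, h3⟩ := stEllS
  obtain ⟨C1, hC1, h1⟩ := max_le_ht (n := n) a b
  refine ⟨C0 + C1, by positivity, fun s W ha hb hD hW hj => ?_⟩
  obtain ⟨hA, hB, hAB, u, hu, h4, h6⟩ := tw_data hda hdb ha hb hD hW.gmin hj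
  have e1 := h3 W _ _ u 0 le_rfl (by norm_num) hW hA hB hAB hu h4 h6
  have e2 := h1 s hA
  rw [zero_mul, zero_mul, zero_add, add_zero] at e1
  unfold htW
  linarith

/-- **the inequality for a minimal family, semistable fibres** -/
theorem min_genS {n : ℕ} (hn : 1 ≤ n) {a b : ℤ[X]}
    (hda : a.natDegree ≤ 2 * n) (hdb : b.natDegree ≤ 3 * n)
    (ha0 : a ≠ 0) (hb0 : b ≠ 0) (hmin : ∀ π : ℚ[X], Irreducible π →
      ¬ (π ^ 2 ∣ a.map (Int.castRingHom ℚ) ∧ π ^ 3 ∣ b.map (Int.castRingHom ℚ)))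
    (hD : 1 ≤ (a ^ 3 - b ^ 2).natDegree)
    {F : ℚ[X] → (𝓞 ℚ)[X]} {c : ℚ[X] → ℚ} (hc : ∀ P, c P ≠ 0)
    (hF : ∀ P, (F P).map (algebraMap (𝓞 ℚ) ℚ) = C (c P) * P) {δ : ℝ} (hδ : 0 ≤ δ)
    (hδ1 : δ ≤ 1 / 8) :
    ∃ C : ℝ, 0 ≤ C ∧ ∀ (s : ℚ) (W : WeierstrassCurve ℤ), aeval s a ≠ 0 → aeval s b ≠ 0 →
      aeval s (a ^ 3 - b ^ 2) ≠ 0 → Sst W → JRel W a b s →
      (∀ P ∈ primeFactors ((a ^ 3 - b ^ 2).map (Int.castRingHom ℚ)), Ok δ (F P) s) →
      htW W ≤ 6 * n / ((wgt a b : ℕ) * (1 - 4 * δ)) * Real.log (condW W) + C := by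
  obtain ⟨C0, hC0, h8⟩ := stEll
  obtain ⟨C5, hC5, h9⟩ := stEllS
  obtain ⟨C1, hC1, h1⟩ := max_le_ht (n := n) a b
  have hw1 := wgt_pos hD
  obtain ⟨w, hw⟩ : ∃ w : ℝ, w = (wgt a b : ℕ) := ⟨_, rfl⟩
  have hw1' : 1 ≤ w := by rw [hw]; exact_mod_cast hw1
  obtain ⟨m, hm⟩ : ∃ m : ℝ,
    m = (primeFactors ((a ^ 3 - b ^ 2).map (Int.castRingHom ℚ))).card := ⟨_, rfl⟩
  have hmw : m ≤ w := by rw [hm, hw]; exact_mod_cast card_le_wgt
  have hm0 : 0 ≤ m := by rw [hm]; exact Nat.cast_nonneg _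
  have hn1 : (1 : ℝ) ≤ n := by exact_mod_cast hn
  obtain ⟨w', hw'⟩ : ∃ w' : ℝ, w' = w * (1 - 4 * δ) := ⟨_, rfl⟩
  have hw'0 : 0 < w' := by
    rw [hw']
    exact mul_pos (by linarith) (by linarith)
  have hww : w' ≤ w - 4 * m * δ := by
    rw [hw']
    nlinarith [mul_le_mul_of_nonneg_right hmw hδ]
  obtain ⟨κ, hκ'⟩ : ∃ κ : ℝ, κ = max 6 (6 * n / w') := ⟨_, rfl⟩
  have hκ : 6 ≤ κ := by rw [hκ']; exact le_max_left _ _
  obtain ⟨Cg, hCg, hg⟩ := gain_all hda hdb ha0 hb0 hmin hc hF hκ hδ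
  obtain ⟨C6, hC6, hg6⟩ := gain_all hda hdb ha0 hb0 hmin hc hF (le_refl (6 : ℝ)) hδ
  rw [← hw, ← hm] at hg hg6
  refine ⟨C5 + C1 + C6 + (C0 + C1 + Cg), by positivity, fun s W ha hb hDs hW hj hok => ?_⟩
  obtain ⟨hA, hB, hAB, u, hu, h4, h6⟩ := tw_data hda hdb ha hb hDs hW.gmin hj
  have e2 := h1 s hA
  have hh : 0 ≤ logHeight₁ s := zero_le_logHeight₁ s
  rw [← hw, ← hw']
  rcases le_or_gt (n : ℝ) w' with hnw | hnw
  · have hσ0 : 0 ≤ 6 * (n : ℝ) / w' := by positivity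
    have hσ6 : 6 * (n : ℝ) / w' ≤ 6 := by
      rw [div_le_iff₀ hw'0]
      linarith
    have e1 := h9 W _ _ u (6 * n / w') hσ0 hσ6 hW hA hB hAB hu h4 h6
    have e4 := hg6 s ha hb hDs hok
    have hgain : ∀ p, gain 6 (hv (2 * n) a s) (hv (3 * n) b s) p = 6 := by
      intro p
      unfold gain
      split_ifs <;> norm_num
    simp only [hgain] at e4
    rw [← Finset.mul_sum] at e4
    obtain ⟨Sg, hSg⟩ : ∃ x : ℝ, x = ∑ p ∈ ((hv (2 * n) a s) ^ 3 -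
      (hv (3 * n) b s) ^ 2).natAbs.primeFactors.filter (fun p => 5 ≤ p), Real.log p := ⟨_, rfl⟩
    rw [← hSg] at e1 e4
    obtain ⟨L, hL⟩ : ∃ L : ℝ, L = Real.log (condW W) := ⟨_, rfl⟩
    obtain ⟨h, hh'⟩ : ∃ h : ℝ, h = logHeight₁ s := ⟨_, rfl⟩
    obtain ⟨T, hT⟩ : ∃ T : ℝ, T = htW W := ⟨_, rfl⟩
    have hT' : Real.log (max (|(W.c₄ : ℝ)| ^ 3) ((W.c₆ : ℝ) ^ 2)) = T := by rw [hT]; rfl
    rw [hT', ← hL] at e1
    rw [← hh'] at e2 e4 hh
    rw [← hT, ← hL]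
    obtain ⟨σ, hσ⟩ : ∃ σ : ℝ, σ = 6 * (n : ℝ) / w' := ⟨_, rfl⟩
    rw [← hσ] at hσ0 hσ6 e1 ⊢
    have hσw : σ * w' = 6 * n := by rw [hσ]; field_simp
    -- the sum over the primes
    have e5 : w' * h ≤ Sg + C6 / 6 := by
      have : 6 * w' * h ≤ 6 * (w - 4 * m * δ) * h :=
        mul_le_mul_of_nonneg_right (by linarith) hh
      linarith
    have e6 := mul_le_mul_of_nonneg_left e5 hσ0
    have e7 : σ * (w' * h) = 6 * n * h := by rw [← mul_assoc, hσw]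
    have e8 : σ * (Sg + C6 / 6) ≤ σ * Sg + C6 := by
      have : σ * (C6 / 6) ≤ 6 * (C6 / 6) := mul_le_mul_of_nonneg_right hσ6 (by positivity)
      linarith
    linarith
  · have e1 := h8 W _ _ u κ hκ hW.gmin hA hB hAB hu h4 h6
    have e4 := hg s ha hb hDs hok
    obtain ⟨L, hL⟩ : ∃ L : ℝ, L = Real.log (condW W) := ⟨_, rfl⟩
    obtain ⟨h, hh'⟩ : ∃ h : ℝ, h = logHeight₁ s := ⟨_, rfl⟩
    obtain ⟨T, hT⟩ : ∃ T : ℝ, T = htW W := ⟨_, rfl⟩
    have hT' : Real.log (max (|(W.c₄ : ℝ)| ^ 3) ((W.c₆ : ℝ) ^ 2)) = T := by rw [hT]; rfl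
    rw [hT', ← hL] at e1
    rw [← hh'] at e2 e4 hh
    rw [← hT, ← hL]
    have e5 : κ * w' * h ≤ κ * (w - 4 * m * δ) * h :=
      mul_le_mul_of_nonneg_right (mul_le_mul_of_nonneg_left hww (by linarith)) hh
    have e9 : T ≤ κ * L + (6 * n - κ * w') * h + (C0 + C1 + Cg) := by
      nlinarith
    have hκ6 : κ = 6 * n / w' := by
      rw [hκ']
      refine max_eq_right ?_
      rw [le_div_iff₀ hw'0]
      linarith
    have hz : 6 * n - κ * w' = 0 := by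
      rw [hκ6]
      field_simp
      ring
    rw [hz, zero_mul, add_zero] at e9
    rw [← hκ6]
    linarith

/-- the inequality with exponent `κ` for the semistable fibres of the family -/
def ConclS (E : Set ℚ) (κ : ℝ) (a b : ℤ[X]) (g : Fin 4 → ℚ) : Prop :=
  ∃ C : ℝ, ∀ t : ℚ, t ∉ E → g 2 * t + g 3 ≠ 0 → ∀ W : WeierstrassCurve ℤ,
    aeval (mob g t) a ≠ 0 → aeval (mob g t) b ≠ 0 → aeval (mob g t) (a ^ 3 - b ^ 2) ≠ 0 →
    Sst W → JRel W a b (mob g t) → htW W ≤ κ * Real.log (condW W) + C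

theorem ConclS.mono {E : Set ℚ} {κ κ' : ℝ} {a b : ℤ[X]} {g : Fin 4 → ℚ} (h : ConclS E κ a b g)
    (hκ : κ ≤ κ') : ConclS E κ' a b g := by
  obtain ⟨C, h⟩ := h
  refine ⟨C, fun t ht hgt W ha hb hD hW hj => (h t ht hgt W ha hb hD hW hj).trans ?_⟩
  have := mul_le_mul_of_nonneg_right hκ (condW_one (W := W))
  linarith

/-- **the inequality for the semistable fibres of a minimal family** -/
theorem min_outS {ε δ : ℝ} (hδ0 : 0 ≤ δ) (hδ1 : δ ≤ 1 / 8)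
    (hδε : 8 * δ ≤ ε) {E : Set ℚ} (hE : GoodE δ E) {n : ℕ} (hn : 1 ≤ n) {a b : ℤ[X]}
    (hda : a.natDegree ≤ 2 * n) (hdb : b.natDegree ≤ 3 * n) (ha0 : a ≠ 0) (hb0 : b ≠ 0)
    (hmin : ∀ π : ℚ[X], Irreducible π →
      ¬ (π ^ 2 ∣ a.map (Int.castRingHom ℚ) ∧ π ^ 3 ∣ b.map (Int.castRingHom ℚ)))
    (hD : 1 ≤ (a ^ 3 - b ^ 2).natDegree) {g : Fin 4 → ℚ} (hg : dt g ≠ 0) :
    ConclS E ((1 + ε) * (6 * n / (wgt a b : ℕ))) a b g := by
  classical
  choose F c hc hF using fun P : ℚ[X] => clear_den (K := ℚ) P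
  obtain ⟨C1, hC1, h1⟩ := min_genS hn hda hdb ha0 hb0 hmin hD hc hF hδ0 hδ1
  obtain ⟨C2, hC2, h2⟩ := trivS hda hdb
  obtain ⟨C4, hC4, h5⟩ := mob_height g hg
  obtain ⟨I, hI⟩ : ∃ I, I = primeFactors ((a ^ 3 - b ^ 2).map (Int.castRingHom ℚ)) := ⟨_, rfl⟩
  rw [← hI] at h1
  have h6 : ∀ P ∈ I, ∃ h0 : ℝ, ∀ t : ℚ, t ∉ E → h0 ≤ logHeight₁ t → g 2 * t + g 3 ≠ 0 →
      Ok δ (F P) (mob g t) := by
    intro P hP
    rw [hI] at hP
    have hPi : Irreducible P := irreducible_of_normalized_factor P (mem_primeFactors.1 hP)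
    refine out_ok hE hg ?_ ?_
    · rw [deg_clear (hc P) (hF P)]
      exact hPi.natDegree_pos
    · rw [hF]
      exact (assoc_clear (hc P) P).irreducible_iff.2 hPi
  choose! h0 h6 using h6
  obtain ⟨x, hx⟩ : ∃ x : ℝ, x = ∑ P ∈ I, |h0 P| := ⟨_, rfl⟩
  have hx0 : 0 ≤ x := by rw [hx]; exact Finset.sum_nonneg fun _ _ => abs_nonneg _
  have hxP : ∀ P ∈ I, h0 P ≤ x := fun P hP => by
    rw [hx]
    exact (le_abs_self _).trans
      (Finset.single_le_sum (f := fun P => |h0 P|) (fun _ _ => abs_nonneg _) hP)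
  have hw1 : (1 : ℝ) ≤ (wgt a b : ℕ) := by exact_mod_cast wgt_pos hD
  obtain ⟨w, hw⟩ : ∃ w : ℝ, w = (wgt a b : ℕ) := ⟨_, rfl⟩
  rw [← hw] at hw1 h1 ⊢
  have hn0 : (0 : ℝ) ≤ n := Nat.cast_nonneg _
  have hk : 6 * n / (w * (1 - 4 * δ)) ≤ (1 + ε) * (6 * n / w) := by
    have h1 : 0 < 1 - 4 * δ := by linarith
    have h2 : 1 / (1 - 4 * δ) ≤ 1 + 8 * δ := by
      rw [div_le_iff₀ h1]
      nlinarith
    have e : 6 * (n : ℝ) / (w * (1 - 4 * δ)) = (1 / (1 - 4 * δ)) * (6 * n / w) := by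
      field_simp
    rw [e]
    exact mul_le_mul_of_nonneg_right (by linarith) (by positivity)
  have hκ0 : 0 ≤ (1 + ε) * (6 * n / w) := by
    have : 0 ≤ 6 * (n : ℝ) / w := by positivity
    exact mul_nonneg (by linarith) this
  refine ⟨C2 + 6 * n * (x + C4) + C1, fun t ht hgt W ha hb hDs hW hj => ?_⟩
  have hL0 : 0 ≤ Real.log (condW W) := condW_one
  obtain ⟨L, hL⟩ : ∃ L : ℝ, L = Real.log (condW W) := ⟨_, rfl⟩
  rw [← hL] at hL0 ⊢
  have hmt := h5 t hgt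
  rcases lt_or_ge (logHeight₁ t) x with hlt | hge
  · have e1 := h2 _ W ha hb hDs hW hj
    have e2 : 6 * (n : ℝ) * logHeight₁ (mob g t) ≤ 6 * n * (x + C4) :=
      mul_le_mul_of_nonneg_left (by linarith) (by positivity)
    have e3 : 0 ≤ (1 + ε) * (6 * n / w) * L := mul_nonneg hκ0 hL0
    linarith
  · have e1 := h1 _ W ha hb hDs hW hj fun P hP => h6 P hP t ht ((hxP P hP).trans hge) hgt
    rw [← hL] at e1
    have e2 := mul_le_mul_of_nonneg_right hk hL0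
    have e9 : 0 ≤ 6 * (n : ℝ) * (x + C4) := by positivity
    linarith

theorem pullS {E : Set ℚ} {κ : ℝ} {a b a' b' : ℤ[X]} {g : Fin 4 → ℚ} {ρ : ℚ[X]}
    (h : ∀ s : ℚ, aeval s a = (ρ.eval s) ^ 2 * aeval s a' ∧
      aeval s b = (ρ.eval s) ^ 3 * aeval s b') (hc : ConclS E κ a' b' g) : ConclS E κ a b g := by
  obtain ⟨C, hc⟩ := hc
  refine ⟨C, fun t ht hgt W ha hb hD hW hj => ?_⟩
  obtain ⟨h1, h2⟩ := h (mob g t)
  have hu : ρ.eval (mob g t) ≠ 0 := by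
    intro h0
    rw [h0, zero_pow (by norm_num), zero_mul] at h1
    exact ha h1
  refine hc t ht hgt W ?_ ?_ ?_ hW (jrel_scale hu h1 h2 hj)
  · intro h0
    rw [h0, mul_zero] at h1
    exact ha h1
  · intro h0
    rw [h0, mul_zero] at h2
    exact hb h2
  · intro h0
    rw [disc_scale h1 h2, h0, mul_zero] at hD
    exact hD rfl

/-- the exponent for all families -/
noncomputable def ks (n : ℕ) : ℝ := 6 * n / min ((n : ℝ) + 2) 4

theorem ks_pos (n : ℕ) : 0 ≤ ks n := by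
  unfold ks
  have h1 : 0 < min ((n : ℝ) + 2) 4 := lt_min (by positivity) (by norm_num)
  positivity

theorem ks_mono {m n : ℕ} (h : m ≤ n) : ks m ≤ ks n := by
  have hmn : (m : ℝ) ≤ n := by exact_mod_cast h
  have hm0 : (0 : ℝ) ≤ m := Nat.cast_nonneg _
  unfold ks
  have h1 : 0 < min ((m : ℝ) + 2) 4 := lt_min (by linarith) (by norm_num)
  have h2 : 0 < min ((n : ℝ) + 2) 4 := lt_min (by linarith) (by norm_num)
  rw [div_le_div_iff₀ h1 h2]
  rcases le_total ((m : ℝ) + 2) 4 with e1 | e1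
  · rw [min_eq_left e1]
    rcases le_total ((n : ℝ) + 2) 4 with e2 | e2
    · rw [min_eq_left e2]
      nlinarith
    · rw [min_eq_right e2]
      nlinarith
  · rw [min_eq_right e1, min_eq_right (by linarith)]
    nlinarith

/-- **the inequality for all families** -/
theorem genS {ε δ : ℝ} (hδ0 : 0 ≤ δ) (hδ1 : δ ≤ 1 / 8)
    (hδε : 8 * δ ≤ ε) {E : Set ℚ} (hE : GoodE δ E) :
    ∀ n : ℕ, ∀ a b : ℤ[X], a.natDegree ≤ 2 * n → b.natDegree ≤ 3 * n →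
      (∀ x y : ℤ, C x * a ^ 3 = C y * b ^ 2 → x = 0 ∧ y = 0) → ∀ g : Fin 4 → ℚ, dt g ≠ 0 →
        ConclS E ((1 + ε) * ks n) a b g := by
  intro n
  induction n using Nat.strong_induction_on with
  | _ n ih =>
  intro a b hda hdb hiso g hg
  have ha0 : a ≠ 0 := by
    rintro rfl
    have := (hiso 1 0 (by simp)).1
    omega
  have hb0 : b ≠ 0 := by
    rintro rfl
    have := (hiso 0 1 (by simp)).2
    omega
  have hD0 : a ^ 3 - b ^ 2 ≠ 0 := by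
    intro h
    have := (hiso 1 1 (by rw [C_1, one_mul, one_mul]; exact sub_eq_zero.1 h)).1
    omega
  have hn : 1 ≤ n := by
    by_contra hcon
    have hn0 : n = 0 := by omega
    rw [hn0] at hda hdb
    obtain ⟨x, hx⟩ : ∃ x, a = C x := ⟨_, eq_C_of_natDegree_le_zero (by omega)⟩
    obtain ⟨y, hy⟩ : ∃ y, b = C y := ⟨_, eq_C_of_natDegree_le_zero (by omega)⟩
    have h1 := hiso (y ^ 2) (x ^ 3) (by
      rw [hx, hy, ← C_pow, ← C_pow, ← C_mul, ← C_mul, mul_comm])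
    apply hb0
    rw [hy, pow_eq_zero_iff (by norm_num) |>.1 h1.1, C_0]
  obtain ⟨c, a', b', hda', hdb', hD', htr⟩ := transform hda hdb hD0
  obtain ⟨g', hg'⟩ : ∃ g' : Fin 4 → ℚ, g' = ![g 2, g 3, g 0 - c * g 2, g 1 - c * g 3] :=
    ⟨_, rfl⟩
  have hdt : dt g' ≠ 0 := by
    have : dt g' = -dt g := by
      rw [hg']
      unfold dt
      simp
      ring
    rw [this]
    exact neg_ne_zero.2 hg
  have hiso' : ∀ x y : ℤ, C x * a' ^ 3 = C y * b' ^ 2 → x = 0 ∧ y = 0 :=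
    iso_transfer (c : ℚ) (fun s hs => ⟨(s - c) ^ n, 1 / (s - c), htr s hs⟩) hiso
  have ha0' : a' ≠ 0 := by
    rintro rfl
    have := (hiso' 1 0 (by simp)).1
    omega
  have hb0' : b' ≠ 0 := by
    rintro rfl
    have := (hiso' 0 1 (by simp)).2
    omega
  have key : ConclS E ((1 + ε) * ks n) a' b' g' := by
    by_cases hmin : ∀ π : ℚ[X], Irreducible π →
      ¬ (π ^ 2 ∣ a'.map (Int.castRingHom ℚ) ∧ π ^ 3 ∣ b'.map (Int.castRingHom ℚ))
    · have h1 := min_outS hδ0 hδ1 hδε hE hn hda' hdb' ha0' hb0' hmin (by omega) hdt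
      refine h1.mono ?_
      have h2 := wgt_ge hn hda' hdb' hD' hiso' hmin
      have h3 : min ((n : ℝ) + 2) 4 ≤ (wgt a' b' : ℕ) := by exact_mod_cast h2
      have h4 := div_le_div_of_nonneg_left (show (0 : ℝ) ≤ 6 * n by positivity)
        (by positivity : 0 < min ((n : ℝ) + 2) 4) h3
      exact mul_le_mul_of_nonneg_left h4 (by linarith)
    · push Not at hmin
      obtain ⟨π, hπ, h1, h2⟩ := hmin
      obtain ⟨m, a1, b1, ρ, hm, hda1, hdb1, hρ⟩ := divide hda' hdb' ha0' hb0' hπ h1 h2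
      have hiso1 : ∀ x y : ℤ, C x * a1 ^ 3 = C y * b1 ^ 2 → x = 0 ∧ y = 0 :=
        iso_transfer 0 (fun s _ => ⟨ρ.eval s, s, hρ s⟩) hiso'
      refine (pullS hρ (ih m hm a1 b1 hda1 hdb1 hiso1 g' hdt)).mono ?_
      exact mul_le_mul_of_nonneg_left (ks_mono hm.le) (by linarith)
  obtain ⟨C1, h1⟩ := key
  obtain ⟨C2, hC2, h2⟩ := trivS hda hdb
  have hh : 0 ≤ logHeight₁ (c : ℚ) := zero_le_logHeight₁ _
  refine ⟨|C1| + (6 * n * logHeight₁ (c : ℚ) + C2), fun t ht hgt W ha hb hDs hW hj => ?_⟩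
  have hL0 : 0 ≤ Real.log (condW W) := condW_one
  have e0 : 0 ≤ 6 * (n : ℝ) * logHeight₁ (c : ℚ) := by positivity
  by_cases hs : mob g t = c
  · have e1 := h2 _ W ha hb hDs hW hj
    rw [hs] at e1
    have e2 : 0 ≤ (1 + ε) * ks n * Real.log (condW W) :=
      mul_nonneg (mul_nonneg (by linarith) (ks_pos n)) hL0
    have := abs_nonneg C1
    linarith
  · have hgt' : g' 2 * t + g' 3 = (g 2 * t + g 3) * (mob g t - c) := by
      have e : mob g t * (g 2 * t + g 3) = g 0 * t + g 1 := by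
        unfold mob
        exact div_mul_cancel₀ _ hgt
      rw [hg']
      simp only [Matrix.cons_val]
      linear_combination -e
    have hgt0 : g' 2 * t + g' 3 ≠ 0 := by
      rw [hgt']
      exact mul_ne_zero hgt (sub_ne_zero.2 hs)
    have hm : mob g' t = 1 / (mob g t - c) := by
      have e : mob g' t = (g 2 * t + g 3) / (g' 2 * t + g' 3) := by
        unfold mob
        rw [hg']
        simp only [Matrix.cons_val]
      rw [e, hgt', div_mul_eq_div_div, div_self hgt]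
    obtain ⟨h4, h5⟩ := htr _ hs
    rw [← hm] at h4 h5
    have hu : (mob g t - c) ^ n ≠ 0 := pow_ne_zero _ (sub_ne_zero.2 hs)
    have e1 := h1 t ht hgt0 W (by
      intro h0
      rw [h0, mul_zero] at h4
      exact ha h4) (by
      intro h0
      rw [h0, mul_zero] at h5
      exact hb h5) (by
      intro h0
      rw [disc_scale h4 h5, h0, mul_zero] at hDs
      exact hDs rfl) hW (jrel_scale hu h4 h5 hj)
    have := le_abs_self C1
    linarith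


/-- **one set for all `ε`** -/
theorem top_allS {E : Set ℚ} (hE2 : ∀ k : ℕ, GoodE (1 / ((k : ℝ) + 1)) E) :
      ∀ ε : ℝ, 0 < ε → ∀ (n : ℕ) (a b : ℤ[X]), a.natDegree ≤ 2 * n → b.natDegree ≤ 3 * n →
        (∀ x y : ℤ, C x * a ^ 3 = C y * b ^ 2 → x = 0 ∧ y = 0) → ∀ g : Fin 4 → ℚ, dt g ≠ 0 →
          ConclS E (ks n + ε) a b g ∧
            (MinF n a b → ConclS E (6 * n / (wgt a b : ℕ) + ε) a b g) := by
  intro ε hε n a b hda hdb hiso g hg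
  have key : ∀ κ : ℝ, 0 ≤ κ → ∃ k : ℕ, 1 / ((k : ℝ) + 1) ≤ 1 / 8 ∧
      (1 + 8 * (1 / ((k : ℝ) + 1))) * κ ≤ κ + ε := by
    intro κ hκ
    obtain ⟨k, hk⟩ := exists_nat_gt (8 + 8 * κ / ε)
    have h0 : 0 ≤ 8 * κ / ε := by positivity
    have hk1 : (0 : ℝ) < (k : ℝ) + 1 := by positivity
    refine ⟨k, ?_, ?_⟩
    · rw [div_le_div_iff₀ hk1 (by norm_num)]
      linarith
    · have h1 : 8 * κ / ε ≤ (k : ℝ) + 1 := by linarith
      rw [div_le_iff₀ hε] at h1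
      have h2 : 8 * (1 / ((k : ℝ) + 1)) * κ ≤ ε := by
        have : 8 * (1 / ((k : ℝ) + 1)) * κ = 8 * κ / ((k : ℝ) + 1) := by ring
        rw [this, div_le_iff₀ hk1]
        linarith
      linarith
  have hpos : ∀ k : ℕ, (0 : ℝ) ≤ 1 / ((k : ℝ) + 1) := fun k => by positivity
  obtain ⟨hn, ha0, hb0⟩ := pos_of_iso hda hdb hiso
  refine ⟨?_, fun hM => ?_⟩
  · obtain ⟨k, hk1, hk2⟩ := key (ks n) (ks_pos n)
    exact (genS (hpos k) hk1 le_rfl (hE2 k) n a b hda hdb hiso g hg).mono hk2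
  · obtain ⟨k, hk1, hk2⟩ := key (6 * n / (wgt a b : ℕ)) (by positivity)
    exact (min_outS (hpos k) hk1 le_rfl (hE2 k) hn hda hdb ha0 hb0 hM.2
      (by rw [hM.1]; omega) hg).mono hk2

end Pool.Agent.N751.RW
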