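import Mathlib
import Pool.Agent.N751.RW.SemiGen
import Pool.Agent.N751.RW.LowB

/-!
# Semistable fibres: the lower bound for the height (the part on heights is adapted from
`Pool.Agent.TH876.TM.Val`)
-/

set_option autoImplicit false
set_option linter.unusedSectionVars false

namespace Pool.Agent.N751.RW

open NumberField IsDedekindDomain Finset Pool.Agent.H691R3 Pool.Agent.TH876.Loc
open Pool.Agent.N753.LS Pool.Agent.N753.SF Polynomial Height UniqueFactorizationMonoid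
open Pool.Agent.H39R3 (GMin condW)
open Pool.Agent.TH876.TM (Pairs_inj)

section aux

variable {K : Type} [Field K]

/-- Bezout relations for the powers of the variable -/
theorem hgt_rel {P Q : K[X]} (hPQ : IsCoprime P Q) {d n : ℕ} (hd : 1 ≤ d) (hP : P.natDegree = d)
    (hQ : Q.natDegree ≤ d) (hn : 2 * d ≤ n) :
    ∃ A B : K[X], A * P + B * Q = X ^ n ∧ A.natDegree ≤ n - d ∧ B.natDegree ≤ n - d := by
  obtain ⟨u, w, huw⟩ := hPQ
  have hP0 : P ≠ 0 := by
    rintro rfl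
    rw [Polynomial.natDegree_zero] at hP
    omega
  have hB : ((X ^ n * w) % P).natDegree < d := by
    rw [← hP]
    exact Polynomial.natDegree_mod_lt _ (by omega)
  have hdiv : P * ((X ^ n * w) / P) + (X ^ n * w) % P = X ^ n * w := EuclideanDomain.div_add_mod _ _
  have hrel : (X ^ n * u + (X ^ n * w) / P * Q) * P + (X ^ n * w) % P * Q = X ^ n := by
    linear_combination Q * hdiv + X ^ n * huw
  refine ⟨X ^ n * u + (X ^ n * w) / P * Q, (X ^ n * w) % P, hrel, ?_, by omega⟩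
  obtain ⟨A, hA⟩ : ∃ A, A = X ^ n * u + (X ^ n * w) / P * Q := ⟨_, rfl⟩
  obtain ⟨B, hB'⟩ : ∃ B, B = (X ^ n * w) % P := ⟨_, rfl⟩
  rw [← hA, ← hB'] at hrel
  rw [← hB'] at hB
  rw [← hA]
  by_cases hA0 : A = 0
  · rw [hA0, Polynomial.natDegree_zero]
    exact Nat.zero_le _
  · have h1 : (A * P).natDegree = A.natDegree + d := by
      rw [Polynomial.natDegree_mul hA0 hP0, hP]
    have h2 : A * P = X ^ n - B * Q := by linear_combination hrel
    have h3 : (A * P).natDegree ≤ n := by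
      rw [h2]
      refine (Polynomial.natDegree_sub_le _ _).trans (max_le (Polynomial.natDegree_X_pow_le n) ?_)
      refine Polynomial.natDegree_mul_le.trans ?_
      omega
    omega

/-- homogenization -/
noncomputable def hgt_hom (A : K[X]) (M : ℕ) : MvPolynomial (Fin 2) K :=
  ∑ i ∈ Finset.range (M + 1), MvPolynomial.C (A.coeff i) * MvPolynomial.X 0 ^ i *
    MvPolynomial.X 1 ^ (M - i)

theorem hgt_isHom (A : K[X]) (M : ℕ) : (hgt_hom A M).IsHomogeneous M := by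
  refine MvPolynomial.IsHomogeneous.sum _ _ _ fun i hi => ?_
  have h1 := ((MvPolynomial.isHomogeneous_C (Fin 2) (A.coeff i)).mul
    ((MvPolynomial.isHomogeneous_X K (0 : Fin 2)).pow i)).mul
      ((MvPolynomial.isHomogeneous_X K (1 : Fin 2)).pow (M - i))
  have h2 : 0 + 1 * i + 1 * (M - i) = M := by
    rw [Finset.mem_range] at hi
    omega
  rwa [h2] at h1

theorem hgt_eval {A : K[X]} {M : ℕ} (h : A.natDegree ≤ M) (t : K) :
    (hgt_hom A M).eval ![t, 1] = A.eval t := by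
  unfold hgt_hom
  rw [map_sum, Polynomial.eval_eq_sum_range' (Nat.lt_succ_of_le h)]
  refine Finset.sum_congr rfl fun i _ => ?_
  simp

end aux

theorem hgt_main {K : Type} [Field K] [NumberField K] {P Q : K[X]} {d n : ℕ} (hd : 1 ≤ d)
    (hP : P.natDegree ≤ d) (hQ : Q.natDegree ≤ d) (hn : d ≤ n) {A B u w : K[X]}
    (h0 : A * P + B * Q = X ^ n) (h1 : u * P + w * Q = 1) (hA : A.natDegree ≤ n - d)
    (hB : B.natDegree ≤ n - d) (hu : u.natDegree ≤ n - d) (hw : w.natDegree ≤ n - d) :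
    ∃ c : ℝ, 0 ≤ c ∧ ∀ t : K,
      d * Height.logHeight₁ t ≤ Height.logHeight₁ (P.eval t / Q.eval t) + c := by
  obtain ⟨C0, hC⟩ := Height.logHeight_eval_ge' (K := K) (M := n - d) (N := d)
    (q := fun a : Fin 2 × Fin 2 => hgt_hom ((![![A, B], ![u, w]] : Fin 2 → Fin 2 → K[X]) a.1 a.2)
      (n - d)) (fun a => hgt_isHom _ _)
  refine ⟨|C0|, abs_nonneg _, fun t => ?_⟩
  have hrel : ∀ k : Fin 2, ∑ i : Fin 2,
      (hgt_hom ((![![A, B], ![u, w]] : Fin 2 → Fin 2 → K[X]) k i) (n - d)).eval ![t, 1] *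
      ((![hgt_hom P d, hgt_hom Q d] : Fin 2 → MvPolynomial (Fin 2) K) i).eval ![t, 1] =
        (![t, 1] : Fin 2 → K) k ^ (n - d + d) := by
    intro k
    fin_cases k
    · simp only [Fin.sum_univ_two, Fin.zero_eta, Fin.isValue, Matrix.cons_val_zero,
        Matrix.cons_val_one]
      rw [hgt_eval hA, hgt_eval hB, hgt_eval hP, hgt_eval hQ, Nat.sub_add_cancel hn]
      have h2 := congrArg (Polynomial.eval t) h0
      rwa [Polynomial.eval_add, Polynomial.eval_mul, Polynomial.eval_mul, Polynomial.eval_pow,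
        Polynomial.eval_X] at h2
    · simp only [Fin.sum_univ_two, Fin.mk_one, Fin.isValue, Matrix.cons_val_zero,
        Matrix.cons_val_one]
      rw [hgt_eval hu, hgt_eval hw, hgt_eval hP, hgt_eval hQ, one_pow]
      have h2 := congrArg (Polynomial.eval t) h1
      rwa [Polynomial.eval_add, Polynomial.eval_mul, Polynomial.eval_mul,
        Polynomial.eval_one] at h2
  have h := hC ![hgt_hom P d, hgt_hom Q d] hrel
  have hfun : (fun i => ((![hgt_hom P d, hgt_hom Q d] : Fin 2 → MvPolynomial (Fin 2) K) i).eval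
      ![t, 1]) = ![P.eval t, Q.eval t] := by
    funext i
    fin_cases i
    · exact hgt_eval hP t
    · exact hgt_eval hQ t
  rw [hfun, ← Height.logHeight₁_eq_logHeight, ← Height.logHeight₁_div_eq_logHeight] at h
  have h5 := neg_abs_le C0
  linarith

/-- **the height of a value of a rational function** -/
theorem hgt_val {K : Type} [Field K] [NumberField K] {P Q : K[X]} (hPQ : IsCoprime P Q)
    (hd : 1 ≤ max P.natDegree Q.natDegree) : ∃ c : ℝ, 0 ≤ c ∧ ∀ t : K,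
      (max P.natDegree Q.natDegree : ℕ) * Height.logHeight₁ t ≤
        Height.logHeight₁ (P.eval t / Q.eval t) + c := by
  obtain ⟨u, w, huw⟩ := hPQ
  obtain ⟨n, hn1, hn2, hn3⟩ : ∃ n : ℕ, 2 * max P.natDegree Q.natDegree ≤ n ∧
      u.natDegree ≤ n - max P.natDegree Q.natDegree ∧
      w.natDegree ≤ n - max P.natDegree Q.natDegree :=
    ⟨2 * max P.natDegree Q.natDegree + u.natDegree + w.natDegree, by omega, by omega, by omega⟩
  have key : ∃ A B : K[X], A * P + B * Q = X ^ n ∧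
      A.natDegree ≤ n - max P.natDegree Q.natDegree ∧
      B.natDegree ≤ n - max P.natDegree Q.natDegree := by
    rcases le_total Q.natDegree P.natDegree with h | h
    · exact hgt_rel ⟨u, w, huw⟩ hd (max_eq_left h).symm (le_max_right _ _) hn1
    · obtain ⟨A, B, h1, h2, h3⟩ := hgt_rel (P := Q) (Q := P) ⟨w, u, by rw [add_comm]; exact huw⟩ hd
        (max_eq_right h).symm (le_max_left _ _) hn1
      exact ⟨B, A, by rw [add_comm]; exact h1, h3, h2⟩
  obtain ⟨A, B, h0, hA, hB⟩ := key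
  exact hgt_main hd (le_max_left _ _) (le_max_right _ _) (by omega) h0 huw hA hB hn2 hn3

/-- the height of a quotient of integers -/
theorem hgt_quot {x y : ℤ} (hy : y ≠ 0) :
    logHeight₁ ((x : ℚ) / y) ≤ Real.log (max |(x : ℝ)| |(y : ℝ)|) := by
  have hy' : (0 : ℝ) < |(y : ℝ)| := abs_pos.2 (by exact_mod_cast hy)
  have hM : 0 < max |(x : ℝ)| |(y : ℝ)| := lt_max_of_lt_right hy'
  rw [Real.le_log_iff_exp_le hM, exp_ht]
  have h1 : (((x : ℚ) / y).num : ℤ) ∣ x := by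
    have := Rat.num_dvd x hy
    rwa [Rat.divInt_eq_div] at this
  have h2 : ((((x : ℚ) / y).den : ℕ) : ℤ) ∣ y := by
    have := Rat.den_dvd x y
    rwa [Rat.divInt_eq_div] at this
  refine max_le_max ?_ ?_
  · by_cases hx : x = 0
    · rw [hx]
      simp
    · have h3 := Int.natAbs_le_of_dvd_ne_zero h1 hx
      have h4 : ((((x : ℚ) / y).num.natAbs : ℕ) : ℝ) ≤ ((x.natAbs : ℕ) : ℝ) := by exact_mod_cast h3
      rwa [Nat.cast_natAbs, Nat.cast_natAbs, Int.cast_abs, Int.cast_abs] at h4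
  · have h3 := Int.natAbs_le_of_dvd_ne_zero h2 hy
    rw [Int.natAbs_natCast] at h3
    have h4 : ((((x : ℚ) / y).den : ℕ) : ℝ) ≤ ((y.natAbs : ℕ) : ℝ) := by exact_mod_cast h3
    rwa [Nat.cast_natAbs, Int.cast_abs] at h4

/-- **the height of an equation with the `j`-invariant of a fibre of a coprime family** -/
theorem low_hgt {n : ℕ} (hn : 1 ≤ n) {a b : ℤ[X]} (hda : a.natDegree ≤ 2 * n)
    (hdb : b.natDegree ≤ 3 * n) (hdg : (a ^ 3 - b ^ 2).natDegree = 6 * n)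
    (hcop : IsCoprime (a.map (Int.castRingHom ℚ)) (b.map (Int.castRingHom ℚ))) :
    ∃ C : ℝ, 0 ≤ C ∧ ∀ (s : ℚ) (W : WeierstrassCurve ℤ), aeval s a ≠ 0 → aeval s b ≠ 0 →
      GMin W → JRel W a b s → 6 * n * logHeight₁ s ≤ htW W + C := by
  obtain ⟨A, hA⟩ : ∃ A : ℚ[X], A = a.map (Int.castRingHom ℚ) := ⟨_, rfl⟩
  obtain ⟨B, hB⟩ : ∃ B : ℚ[X], B = b.map (Int.castRingHom ℚ) := ⟨_, rfl⟩
  rw [← hA, ← hB] at hcop
  have hAd : A.natDegree ≤ 2 * n := by
    rw [hA, natDegree_map_eq_of_injective Int.cast_injective]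
    exact hda
  have hBd : B.natDegree ≤ 3 * n := by
    rw [hB, natDegree_map_eq_of_injective Int.cast_injective]
    exact hdb
  have hDd : (A ^ 3 - B ^ 2).natDegree = 6 * n := by
    rw [hA, hB, ← Polynomial.map_pow, ← Polynomial.map_pow, ← Polynomial.map_sub,
      natDegree_map_eq_of_injective Int.cast_injective, hdg]
  have hmax : max (A ^ 3).natDegree (B ^ 2).natDegree = 6 * n := by
    refine le_antisymm (max_le ?_ ?_) ?_
    · rw [natDegree_pow]
      omega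
    · rw [natDegree_pow]
      omega
    · rw [← hDd]
      exact natDegree_sub_le _ _
  obtain ⟨c, hc, h1⟩ := hgt_val (hcop.pow (m := 3) (n := 2)) (by rw [hmax]; omega)
  rw [hmax] at h1
  refine ⟨c, hc, fun s W ha hb hW hj => ?_⟩
  obtain ⟨h4, h6⟩ := c_ne hW ha hb hj
  have h2 := h1 s
  have e1 : (A ^ 3).eval s / (B ^ 2).eval s = ((W.c₄ ^ 3 : ℤ) : ℚ) / ((W.c₆ ^ 2 : ℤ) : ℚ) := by
    rw [eval_pow, eval_pow, hA, hB, eval_toQ, eval_toQ]
    have h4' : (W.c₄ : ℚ) ≠ 0 := by exact_mod_cast h4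
    have h6' : (W.c₆ : ℚ) ≠ 0 := by exact_mod_cast h6
    push_cast
    unfold JRel at hj
    rw [div_eq_div_iff (pow_ne_zero 2 hb) (pow_ne_zero 2 h6')]
    linear_combination -hj
  rw [e1] at h2
  have h3 := hgt_quot (x := W.c₄ ^ 3) (y := W.c₆ ^ 2) (pow_ne_zero 2 h6)
  have e2 : Real.log (max |((W.c₄ ^ 3 : ℤ) : ℝ)| |((W.c₆ ^ 2 : ℤ) : ℝ)|) = htW W := by
    unfold htW
    push_cast
    rw [abs_pow, abs_pow, sq_abs]
  rw [e2] at h3
  have h5 : ((6 * n : ℕ) : ℝ) = 6 * n := by push_cast; ring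
  rw [h5] at h2
  linarith

/-- the sum over the primes dividing the value -/
theorem sum_dv_le (f : (𝓞 ℚ)[X]) (hsq : Squarefree (f.map (algebraMap (𝓞 ℚ) ℚ)))
    (hf1 : 1 ≤ f.natDegree) : ∃ C : ℝ, 0 ≤ C ∧ ∀ s : ℚ, aeval s f ≠ 0 →
      ∑ v ∈ dv f s, Real.log (Nv v) ≤ f.natDegree * logHeight₁ s + C := by
  classical
  obtain ⟨Bad, hBad⟩ := exists_badS f hsq hf1
  have hf0 : f ≠ 0 := by
    rintro rfl
    simp at hf1
  obtain ⟨c1, hc1, hnu⟩ := sum_nu_le f hf0 Bad fun v hvB => (hBad v hvB).2.2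
  refine ⟨c1 + ∑ v ∈ Bad, Real.log (Nv v), add_nonneg hc1 (Finset.sum_nonneg fun v _ =>
    (log_Nv_pos v).le), fun s hs => ?_⟩
  have h1 := hnu s hs
  rw [hr_aff] at h1
  have h2 : dv f s ⊆ (dv f s \ Bad) ∪ Bad := by
    intro v hv
    by_cases h : v ∈ Bad
    · exact Finset.mem_union_right _ h
    · exact Finset.mem_union_left _ (Finset.mem_sdiff.2 ⟨hv, h⟩)
  have h3 := Finset.sum_le_sum_of_subset_of_nonneg (f := fun v => Real.log (Nv v)) h2
    fun v _ _ => (log_Nv_pos v).le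
  rw [Finset.sum_union Finset.sdiff_disjoint] at h3
  have h4 : ∑ v ∈ dv f s \ Bad, Real.log (Nv v) ≤
      ∑ v ∈ dv f s \ Bad, (nu f v s : ℝ) * Real.log (Nv v) := by
    refine Finset.sum_le_sum fun v hv => ?_
    obtain ⟨h5, h6⟩ := Finset.mem_sdiff.1 hv
    have h7 : (1 : ℝ) ≤ nu f v s := by exact_mod_cast (mem_dv_iff hs (hBad v h6).2.2).1 h5
    have hN := (log_Nv_pos v).le
    nlinarith
  linarith

/-- a prime `p ≥ 5` of bad reduction divides the discriminant of the family -/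
theorem dvd_ZS {W : WeierstrassCurve ℤ} (hW : Sst W) {A B : ℤ} {u : ℚ}
    (hA : A ≠ 0) (hB : B ≠ 0) (hAB : A ^ 3 ≠ B ^ 2) (hu : u ≠ 0) (h4 : (W.c₄ : ℚ) = u ^ 2 * A)
    (h6 : (W.c₆ : ℚ) = u ^ 3 * B) {p : ℕ} (hp : p.Prime) (h5 : 5 ≤ p) (hpΔ : (p : ℤ) ∣ W.Δ) :
    (p : ℤ) ∣ A ^ 3 - B ^ 2 ∧ ¬ (p : ℤ) ∣ W.c₄ := by
  have := Fact.mk hp
  obtain ⟨k4, k6, v4, v6⟩ := vals hA hB hu h4 h6 hp
  have hn17 := not_dvd_1728 hp h5
  have hpr : Prime (p : ℤ) := Nat.prime_iff_prime_int.mp hp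
  have hrel := W.c_relation
  have hd4 := dvd_iff_val hp k4
  have hAB' : A ^ 3 - B ^ 2 ≠ 0 := sub_ne_zero.mpr hAB
  have hvΔ : (padicValInt p W.Δ : ℤ) = 6 * padicValRat p u + padicValInt p (A ^ 3 - B ^ 2) := by
    have e1 : ((1728 * W.Δ : ℤ) : ℚ) = u ^ 6 * ((A ^ 3 - B ^ 2 : ℤ) : ℚ) := by
      rw [hrel]
      push_cast
      rw [h4, h6]
      ring
    have e2 : padicValInt p (1728 * W.Δ) = padicValInt p W.Δ := by
      rw [padicValInt.mul (by norm_num) hW.1]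
      have : padicValInt p 1728 = 0 := by
        by_contra h0
        apply hn17
        rw [dvd_iff_val hp (by norm_num)]
        omega
      omega
    rw [← e2, ← padicValRat.of_int, e1, padicValRat.mul (pow_ne_zero _ hu)
      (by exact_mod_cast hAB'), padicValRat.pow, padicValRat.of_int]
    push_cast
    ring
  have hss : ¬ (p : ℤ) ∣ W.c₄ := by
    intro h2
    exact hpr.not_isUnit (hW.2.isUnit_of_dvd' h2 hpΔ)
  refine ⟨?_, hss⟩
  rw [dvd_iff_val hp hW.1] at hpΔ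
  rw [dvd_iff_val hp hAB']
  rw [hd4] at hss
  omega

theorem sum_biU {ι : Type*} [DecidableEq ι] (I : Finset ι) (T : ι → Finset ℕ) (f : ℕ → ℝ)
    (hf : ∀ p, 0 ≤ f p) : ∑ p ∈ I.biUnion T, f p ≤ ∑ i ∈ I, ∑ p ∈ T i, f p := by
  induction I using Finset.induction_on with
  | empty => simp
  | insert i I hi ih =>
    rw [Finset.biUnion_insert, Finset.sum_insert hi]
    have h1 : ∑ p ∈ T i ∪ I.biUnion T, f p ≤ ∑ p ∈ T i, f p + ∑ p ∈ I.biUnion T, f p := by
      rw [← Finset.sum_union_inter]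
      have : 0 ≤ ∑ p ∈ T i ∩ I.biUnion T, f p := Finset.sum_nonneg fun p _ => hf p
      linarith
    linarith

/-- **the conductor of a semistable fibre is at most `C H ^ γ`** -/
theorem cond_leS {n : ℕ} (hn : 1 ≤ n) {a b : ℤ[X]} (hda : a.natDegree ≤ 2 * n)
    (hdb : b.natDegree ≤ 3 * n) (hdg : (a ^ 3 - b ^ 2).natDegree = 6 * n) :
    ∃ C : ℝ, 0 ≤ C ∧ ∀ (s : ℚ) (W : WeierstrassCurve ℤ), aeval s a ≠ 0 → aeval s b ≠ 0 →
      aeval s (a ^ 3 - b ^ 2) ≠ 0 → Sst W → JRel W a b s →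
      Real.log (condW W) ≤ (∑ P ∈ primeFactors ((a ^ 3 - b ^ 2).map (Int.castRingHom ℚ)),
        P.natDegree : ℕ) * logHeight₁ s + C := by
  classical
  choose F c hc hF using fun P : ℚ[X] => clear_den (K := ℚ) P
  obtain ⟨D, hD⟩ : ∃ D : ℚ[X], D = (a ^ 3 - b ^ 2).map (Int.castRingHom ℚ) := ⟨_, rfl⟩
  have hg0 : a ^ 3 - b ^ 2 ≠ 0 := by
    intro h
    rw [h, natDegree_zero] at hdg
    omega
  obtain ⟨N, hN⟩ := low_cover hda hdb hdg hg0 hc hF
  obtain ⟨N3, hN3⟩ := sum_multi hda hdb hc hF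
  rw [← hD] at hN hN3 ⊢
  obtain ⟨I, hI⟩ : ∃ I, I = primeFactors D := ⟨_, rfl⟩
  rw [← hI] at hN hN3 ⊢
  have h1 : ∀ P ∈ I, ∃ C : ℝ, 0 ≤ C ∧ ∀ s : ℚ, aeval s (F P) ≠ 0 →
      ∑ v ∈ dv (F P) s, Real.log (Nv v) ≤ P.natDegree * logHeight₁ s + C := by
    intro P hP
    rw [hI] at hP
    have hPi : Irreducible P := irreducible_of_normalized_factor P (mem_primeFactors.1 hP)
    have hFi : Irreducible ((F P).map (algebraMap (𝓞 ℚ) ℚ)) := by
      rw [hF]
      exact (assoc_clear (hc P) P).irreducible_iff.2 hPi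
    have := sum_dv_le (F P) hFi.squarefree (by
      rw [deg_clear (hc P) (hF P)]
      exact hPi.natDegree_pos)
    rwa [deg_clear (hc P) (hF P)] at this
  choose! K hK h1 using h1
  obtain ⟨cM, hcM⟩ : ∃ cM : ℝ, cM = ∑ p ∈ Finset.range (N + 1), Real.log p := ⟨_, rfl⟩
  have hcM0 : 0 ≤ cM := by
    rw [hcM]
    exact Finset.sum_nonneg fun p _ => Real.log_natCast_nonneg _
  refine ⟨∑ P ∈ I, K P + cM, add_nonneg (Finset.sum_nonneg fun P hP => hK P hP) hcM0,
    fun s W ha hb hDs hW hj => ?_⟩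
  obtain ⟨hA, hB, hAB, u, hu, h4, h6⟩ := tw_data hda hdb ha hb hDs hW.gmin hj
  obtain ⟨hFs, -⟩ := hN3 N3 le_rfl s hDs
  have hNs := hN s hFs
  have hS : ∀ p ∈ W.Δ.natAbs.primeFactors, p.Prime := fun p hp => Nat.prime_of_mem_primeFactors hp
  rw [log_cond hW.1 _ hS subset_rfl]
  have e1 : ∀ p ∈ W.Δ.natAbs.primeFactors.filter (fun p => 5 ≤ p),
      fp W p * Real.log p ≤ Real.log p := by
    intro p hp
    obtain ⟨hp1, hp5⟩ := Finset.mem_filter.1 hp
    have hpΔ : (p : ℤ) ∣ W.Δ := Int.natCast_dvd.2 (Nat.dvd_of_mem_primeFactors hp1)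
    obtain ⟨-, h7⟩ := dvd_ZS hW hA hB hAB hu h4 h6 (hS p hp1) hp5 hpΔ
    unfold fp
    rw [if_pos hpΔ, if_neg h7, one_mul]
  have e2 : W.Δ.natAbs.primeFactors.filter (fun p => 5 ≤ p) ⊆
      (I.biUnion fun P => (dv (F P) s).image pv) ∪ Finset.range (N + 1) := by
    intro p hp
    obtain ⟨hp1, hp5⟩ := Finset.mem_filter.1 hp
    have hpΔ : (p : ℤ) ∣ W.Δ := Int.natCast_dvd.2 (Nat.dvd_of_mem_primeFactors hp1)
    obtain ⟨h7, -⟩ := dvd_ZS hW hA hB hAB hu h4 h6 (hS p hp1) hp5 hpΔ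
    by_cases hpN : N < p
    · obtain ⟨P, hP, v, hv, hvp⟩ := hNs p (hS p hp1) hpN h7
      exact Finset.mem_union_left _ (Finset.mem_biUnion.2 ⟨P, hP, Finset.mem_image.2 ⟨v, hv, hvp⟩⟩)
    · exact Finset.mem_union_right _ (Finset.mem_range.2 (by omega))
  have e3 : ∀ p : ℕ, 0 ≤ Real.log p := fun p => Real.log_natCast_nonneg p
  calc ∑ p ∈ W.Δ.natAbs.primeFactors.filter (fun p => 5 ≤ p), fp W p * Real.log p
      ≤ ∑ p ∈ W.Δ.natAbs.primeFactors.filter (fun p => 5 ≤ p), Real.log p :=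
        Finset.sum_le_sum e1
    _ ≤ ∑ p ∈ (I.biUnion fun P => (dv (F P) s).image pv) ∪ Finset.range (N + 1), Real.log p :=
        Finset.sum_le_sum_of_subset_of_nonneg e2 fun p _ _ => e3 p
    _ ≤ ∑ p ∈ (I.biUnion fun P => (dv (F P) s).image pv), Real.log p + cM := by
        rw [hcM, ← Finset.sum_union_inter]
        have : 0 ≤ ∑ p ∈ (I.biUnion fun P => (dv (F P) s).image pv) ∩ Finset.range (N + 1),
          Real.log (p : ℝ) := Finset.sum_nonneg fun p _ => e3 p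
        linarith
    _ ≤ ∑ P ∈ I, ∑ p ∈ (dv (F P) s).image pv, Real.log p + cM := by
        have := sum_biU I (fun P => (dv (F P) s).image pv) (fun p => Real.log p) e3
        linarith
    _ ≤ ∑ P ∈ I, (P.natDegree * logHeight₁ s + K P) + cM := by
        have : ∑ P ∈ I, ∑ p ∈ (dv (F P) s).image pv, Real.log (p : ℝ) ≤
            ∑ P ∈ I, (P.natDegree * logHeight₁ s + K P) := by
          refine Finset.sum_le_sum fun P hP => ?_
          rw [Finset.sum_image fun v _ w _ h => Pairs_inj h]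
          have h7 := h1 P hP s (hFs P hP)
          refine le_trans (le_of_eq (Finset.sum_congr rfl fun v _ => ?_)) h7
          rw [Nv_eq]
        linarith
    _ = (∑ P ∈ I, P.natDegree : ℕ) * logHeight₁ s + (∑ P ∈ I, K P + cM) := by
        rw [Finset.sum_add_distrib, Nat.cast_sum, Finset.sum_mul]
        ring

/-- **the lower bound for the height of a semistable fibre of a coprime family** -/
theorem attS {n : ℕ} (hn : 1 ≤ n) {a b : ℤ[X]} (hda : a.natDegree ≤ 2 * n)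
    (hdb : b.natDegree ≤ 3 * n) (hdg : (a ^ 3 - b ^ 2).natDegree = 6 * n)
    (hcop : IsCoprime (a.map (Int.castRingHom ℚ)) (b.map (Int.castRingHom ℚ))) :
    ∃ C : ℝ, ∀ (s : ℚ) (W : WeierstrassCurve ℤ), aeval s a ≠ 0 → aeval s b ≠ 0 →
      aeval s (a ^ 3 - b ^ 2) ≠ 0 → Sst W → JRel W a b s →
      6 * n / (∑ P ∈ primeFactors ((a ^ 3 - b ^ 2).map (Int.castRingHom ℚ)),
        P.natDegree : ℕ) * Real.log (condW W) ≤ htW W + C := by
  obtain ⟨C1, hC1, h1⟩ := low_hgt hn hda hdb hdg hcop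
  obtain ⟨C2, hC2, h2⟩ := cond_leS hn hda hdb hdg
  obtain ⟨γ, hγ⟩ : ∃ γ : ℝ, γ = (∑ P ∈ primeFactors ((a ^ 3 - b ^ 2).map (Int.castRingHom ℚ)),
        P.natDegree : ℕ) := ⟨_, rfl⟩
  rw [← hγ] at h2 ⊢
  have hγ1 : 1 ≤ γ := by
    have h3 := wgt_pos (a := a) (b := b) (by omega)
    have h4 : wgt a b ≤ ∑ P ∈ primeFactors ((a ^ 3 - b ^ 2).map (Int.castRingHom ℚ)),
        P.natDegree := by
      refine Finset.sum_le_sum fun P _ => ?_
      show wt P.natDegree ≤ P.natDegree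
      unfold wt
      split_ifs <;> omega
    rw [hγ]
    exact_mod_cast h3.trans h4
  refine ⟨C1 + 6 * n / γ * C2, fun s W ha hb hDs hW hj => ?_⟩
  have e1 := h1 s W ha hb hW.gmin hj
  have e2 := h2 s W ha hb hDs hW hj
  have e3 := mul_le_mul_of_nonneg_left e2 (show 0 ≤ 6 * (n : ℝ) / γ by positivity)
  have e4 : 6 * (n : ℝ) / γ * (γ * logHeight₁ s + C2) =
      6 * n * logHeight₁ s + 6 * n / γ * C2 := by
    field_simp
  linarith

end Pool.Agent.N751.RW
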